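import Pool.Agent.Helper60.TCV.StK2

/-!
# T10, ALB: the numbers of possible cells
-/

set_option autoImplicit false

namespace Pool.TCV

open Pool.TC Pool.TCM Pool.TCS Pool.TN Finset
open scoped Classical

/-- the numbers -/
private theorem AlB_num {P : Par} (h : Num10 P) :
    0 < P.rho ∧ 0 < P.theta ∧ 0 ≤ P.nz ∧ 0 < (P.D : ℝ) ∧
    P.rho ≤ 1 / 10 ^ 6 ∧ P.theta ≤ 1 / 10 ^ 6 * P.rho ∧ P.eps ≤ 1 / 10 ^ 6 * P.theta ∧
    P.pmax ≤ 1 / 10 ^ 6 * P.theta ∧ P.eta ≤ 1 / 10 ^ 6 * P.theta ∧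
    104 * P.delta * P.D / P.eta ≤ 1 / 10 ^ 6 * P.theta * P.D ∧
    520 * P.delta ≤ 1 / 10 ^ 6 * P.theta ∧ 0 ≤ P.delta ∧
    P.nz ≤ 1 / 10 ^ 6 * P.theta * P.D ∧ 2 * (P.X : ℝ) + 2 ≤ 1 / 10 ^ 6 * P.theta * P.D ∧
    1 / (P.MW : ℝ) ≤ P.fmin / 4 ∧ P.theta ≤ 1 / (P.MW : ℝ) ∧ 1 / (P.MW : ℝ) ≤ 1 / 10 ^ 6 ∧
    10 ^ 6 ≤ (P.pa : ℝ) ∧ 0 < P.fmin := by
  have hX : (10 : ℝ) ^ 20 ≤ P.X := by exact_mod_cast h.X0
  set x : ℝ := (P.X : ℝ) with hx
  have hx1 : (1 : ℝ) ≤ x := le_trans (by norm_num) hX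
  have hx0 : 0 < x := lt_of_lt_of_le one_pos hx1
  obtain ⟨u, hu⟩ : ∃ u : ℝ, u = 1 / x := ⟨_, rfl⟩
  have hu0 : 0 < u := by rw [hu]; positivity
  have hxu : x * u = 1 := by rw [hu]; field_simp
  have hu20 : u ≤ 1 / 10 ^ 20 := by
    rw [hu]
    exact one_div_le_one_div_of_le (by norm_num) hX
  have hu1 : u ≤ 1 := hu20.trans (by norm_num)
  have hp : ∀ k : ℕ, 1 / x ^ k = u ^ k := fun k => by rw [hu, one_div_pow]
  have hpk : ∀ k : ℕ, 0 < u ^ k := fun k => pow_pos hu0 k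
  have hstep : ∀ a b : ℕ, a + 1 ≤ b → u ^ b ≤ 1 / 10 ^ 20 * u ^ a := by
    intro a b hab
    have h1 : u ^ b ≤ u ^ (a + 1) := pow_le_pow_of_le_one hu0.le hu1 hab
    rw [pow_succ] at h1
    refine h1.trans ?_
    rw [mul_comm]
    exact mul_le_mul_of_nonneg_right hu20 (hpk a).le
  have hrho : P.rho = u ^ 13 := by rw [h.rho, ← hx, hp]
  have hth : P.theta = u ^ 14 := by rw [h.theta, ← hx, hp]
  have heps : P.eps = u ^ 15 := by rw [h.eps, ← hx, hp]
  have heta : P.eta = u ^ 1600 := by rw [h.eta, ← hx, hp]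
  have hde : P.delta = u ^ 4900 := by rw [h.delta, ← hx, hp]
  have hMW : 1 / (P.MW : ℝ) = u ^ 6 := by
    rw [h.MW, Nat.cast_pow, ← hx, hp]
  have hpa : (P.pa : ℝ) = x ^ 5 := by rw [h.pa, Nat.cast_pow, ← hx]
  have hfm : P.fmin = 1 / 500 * u ^ 5 := by
    rw [h.fmin, hpa, ← hp]
    rw [one_div_mul_one_div]
  have hpm : P.pmax = 103 * u ^ 4886 := by
    rw [h.pmax, hde, hth]
    rw [div_eq_iff (hpk 14).ne', mul_assoc, ← pow_add]
  have hD60 : x ^ 60 ≤ (P.D : ℝ) :=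
    (pow_le_pow_right₀ hx1 (by norm_num)).trans h.XD
  have hD0 : 0 < (P.D : ℝ) := lt_of_lt_of_le (pow_pos hx0 60) hD60
  have hxu14 : x ^ 14 * u ^ 14 = 1 := by rw [← mul_pow, hxu, one_pow]
  have hthD : x ^ 46 ≤ u ^ 14 * P.D := by
    have h1 : u ^ 14 * x ^ 60 ≤ u ^ 14 * P.D := mul_le_mul_of_nonneg_left hD60 (hpk 14).le
    have h2 : u ^ 14 * x ^ 60 = x ^ 46 := by
      calc u ^ 14 * x ^ 60 = (x ^ 14 * u ^ 14) * x ^ 46 := by ring
        _ = x ^ 46 := by rw [hxu14, one_mul]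
    rw [h2] at h1
    exact h1
  have hnz : P.nz = x ^ 10 * Real.sqrt P.D := by rw [h.nz]
  refine ⟨?_, ?_, ?_, hD0, ?_, ?_, ?_, ?_, ?_, ?_, ?_, ?_, ?_, ?_, ?_, ?_, ?_, ?_, ?_⟩
  · rw [hrho]; exact hpk _
  · rw [hth]; exact hpk _
  · rw [hnz]; positivity
  · rw [hrho]
    have := hstep 0 13 (by norm_num)
    rw [pow_zero, mul_one] at this
    exact this.trans (by norm_num)
  · rw [hrho, hth]
    exact (hstep 13 14 (by norm_num)).trans
      (mul_le_mul_of_nonneg_right (by norm_num) (hpk _).le)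
  · rw [heps, hth]
    exact (hstep 14 15 (by norm_num)).trans
      (mul_le_mul_of_nonneg_right (by norm_num) (hpk _).le)
  · rw [hpm, hth]
    have h1 := hstep 14 4886 (by norm_num)
    have h2 := hpk 14
    linarith
  · rw [heta, hth]
    exact (hstep 14 1600 (by norm_num)).trans
      (mul_le_mul_of_nonneg_right (by norm_num) (hpk _).le)
  · have h1 := hstep 14 3300 (by norm_num)
    have h2 := hpk 14
    have h3 : 104 * P.delta * P.D / P.eta = 104 * u ^ 3300 * P.D := by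
      rw [hde, heta, div_eq_iff (hpk 1600).ne']
      have : u ^ 4900 = u ^ 3300 * u ^ 1600 := by rw [← pow_add]
      rw [this]
      generalize u ^ 3300 = p
      generalize u ^ 1600 = q
      ring
    rw [h3, hth]
    refine mul_le_mul_of_nonneg_right ?_ hD0.le
    linarith
  · rw [hde, hth]
    have h1 := hstep 14 4900 (by norm_num)
    have h2 := hpk 14
    linarith
  · rw [hde]; exact (hpk _).le
  · rw [hnz, hth]
    set s : ℝ := Real.sqrt P.D with hs
    have hss : s * s = P.D := Real.mul_self_sqrt hD0.le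
    have hs0 : 0 ≤ s := Real.sqrt_nonneg _
    have hs30 : x ^ 30 ≤ s := by
      apply Real.le_sqrt_of_sq_le
      rw [← pow_mul]
      exact hD60
    have h1 : u ^ 14 * P.D = (u ^ 14 * s) * s := by rw [← hss]; ring
    have h2 : u ^ 14 * x ^ 30 ≤ u ^ 14 * s := mul_le_mul_of_nonneg_left hs30 (hpk 14).le
    have h3 : u ^ 14 * x ^ 30 = x ^ 16 := by
      calc u ^ 14 * x ^ 30 = (x ^ 14 * u ^ 14) * x ^ 16 := by ring
        _ = x ^ 16 := by rw [hxu14, one_mul]
    rw [h3] at h2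
    have h4 : x ^ 16 * s ≤ (u ^ 14 * s) * s := mul_le_mul_of_nonneg_right h2 hs0
    have h5 : 10 ^ 6 * x ^ 10 ≤ x ^ 16 := by
      have h6 : (10 : ℝ) ^ 6 ≤ x ^ 6 := by
        have h7 : (10 : ℝ) ≤ x := le_trans (by norm_num) hX
        exact pow_le_pow_left₀ (by norm_num) h7 6
      calc 10 ^ 6 * x ^ 10 ≤ x ^ 6 * x ^ 10 :=
            mul_le_mul_of_nonneg_right h6 (pow_pos hx0 _).le
        _ = x ^ 16 := by ring
    have h6 : 10 ^ 6 * x ^ 10 * s ≤ x ^ 16 * s := mul_le_mul_of_nonneg_right h5 hs0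
    rw [mul_assoc (1 / 10 ^ 6 : ℝ), h1]
    have h7 : 10 ^ 6 * (x ^ 10 * s) ≤ u ^ 14 * s * s := by
      calc 10 ^ 6 * (x ^ 10 * s) = 10 ^ 6 * x ^ 10 * s := by ring
        _ ≤ _ := h6.trans h4
    linarith
  · rw [hth, mul_assoc]
    have h1 : 10 ^ 6 * x * 4 ≤ x ^ 46 := by
      have h7 : (10 : ℝ) ^ 20 ≤ x := hX
      have h8 : x ^ 2 ≤ x ^ 46 := pow_le_pow_right₀ hx1 (by norm_num)
      refine le_trans ?_ h8
      rw [pow_two]
      have : (10 : ℝ) ^ 6 * 4 ≤ x := le_trans (by norm_num) h7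
      nlinarith
    have h2 : 2 * x + 2 ≤ 4 * x := by linarith
    linarith
  · rw [hMW, hfm]
    have h1 := hstep 5 6 (by norm_num)
    have h2 := hpk 5
    linarith
  · rw [hMW, hth]
    exact pow_le_pow_of_le_one hu0.le hu1 (by norm_num)
  · rw [hMW]
    have := hstep 0 6 (by norm_num)
    rw [pow_zero, mul_one] at this
    exact this.trans (by norm_num)
  · rw [hpa]
    have h1 : (10 : ℝ) ^ 6 ≤ x := le_trans (by norm_num) hX
    exact h1.trans (le_self_pow₀ hx1 (by norm_num))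
  · rw [hfm]
    have := hpk 5
    positivity

section alb

variable {V κ : Type} [Fintype V] [Fintype κ]

/-- at most two colours are missing -/
private theorem AlB_two {P : Par} {e : Ed V κ} (hE : EdP P e)
    (hreg : ∀ u, (nb e.G u).card = P.D) (w : V) :
    (univ.filter (fun a => e.E.N a w = w)).card ≤ 2 := by
  have h1 : (nb e.G w).card ≤ (univ.filter (fun a => ¬ e.E.N a w = w)).card + 1 := by
    have hsub : nb e.G w ⊆ (univ.filter (fun a => ¬ e.E.N a w = w)).image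
        (fun a => e.E.N a w) ∪ {e.z w} := by
      intro v hv
      have hadj : e.G.Adj w v := (mem_filter.1 hv).2
      rcases hE.cov w v hadj with ⟨a, ha⟩ | h
      · refine mem_union.2 (Or.inl (mem_image.2 ⟨a, mem_filter.2 ⟨mem_univ _, ?_⟩, ha⟩))
        intro h2
        have h3 : e.E.N a w = v := ha
        rw [h3] at h2
        exact hadj.ne h2.symm
      · exact mem_union.2 (Or.inr (mem_singleton.2 h.symm))
    refine (card_le_card hsub).trans ((card_union_le _ _).trans ?_)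
    rw [card_singleton]
    exact Nat.add_le_add_right card_image_le 1
  have h2 := card_filter_add_card_filter_not (s := (univ : Finset κ)) (fun a => e.E.N a w = w)
  rw [card_univ, hE.col] at h2
  rw [hreg w] at h1
  omega

/-- the possible rows of a colour -/
private theorem AlB_rows {P : Par} {k : Kd V κ} (i : V) (a : κ) (ha : a ∈ k.Gc P i) :
    (univ.filter (fun w => w ∈ k.Rg P i ∧ ¬ k.F0 w ∧ (k.fx w a ∨
      (k.cr w a ∧ k.E.N a w ∈ k.Rg P i ∧ ¬ k.W (k.E.N a w))))).card ≤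
    (univ.filter (fun w => k.K w = some i ∧ k.al P w a)).card +
      ((univ.filter (fun w => k.K w = some i ∧ k.X w)).card +
      (((k.Rg P i).filter (fun w => k.bl P a w)).card +
      ((univ.filter (fun v => k.K v = some i ∧ k.us v)).card +
      (univ.filter (fun v => k.K v = some i ∧ k.sc P v)).card))) := by
  have hinj : ∀ S : Finset V, (univ.filter (fun w => k.E.N a w ∈ S)).card ≤ S.card := by
    intro S
    refine card_le_card_of_injOn (fun w => k.E.N a w) ?_ ?_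
    · intro w hw
      exact mem_coe.2 (mem_filter.1 (mem_coe.1 hw)).2
    · intro w _ w' _ hww
      have h1 : k.E.N a w = k.E.N a w' := hww
      rw [← k.E.inv a w, h1, k.E.inv]
  have hsub : (univ.filter (fun w => w ∈ k.Rg P i ∧ ¬ k.F0 w ∧ (k.fx w a ∨
      (k.cr w a ∧ k.E.N a w ∈ k.Rg P i ∧ ¬ k.W (k.E.N a w))))) ⊆
      (univ.filter (fun w => k.K w = some i ∧ k.al P w a)) ∪
      ((univ.filter (fun w => k.K w = some i ∧ k.X w)) ∪
      (((k.Rg P i).filter (fun w => k.bl P a w)) ∪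
      ((univ.filter (fun w => k.E.N a w ∈ univ.filter (fun v => k.K v = some i ∧ k.us v))) ∪
      (univ.filter (fun w => k.E.N a w ∈ univ.filter
        (fun v => k.K v = some i ∧ k.sc P v)))))) := by
    intro w hw
    obtain ⟨-, hR, hF, hc⟩ := mem_filter.1 hw
    have hKw : k.K w = some i := (mem_filter.1 hR).2.1
    by_contra hcon
    simp only [mem_union, not_or] at hcon
    obtain ⟨c1, c2, c3, c4, c5⟩ := hcon
    apply c1
    refine mem_filter.2 ⟨mem_univ _, hKw, i, ?_, ha, ?_, ?_⟩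
    · exact mem_filter.2 ⟨hR, hF, fun hX => c2 (mem_filter.2 ⟨mem_univ _, hKw, hX⟩)⟩
    · exact fun hb => c3 (mem_filter.2 ⟨hR, hb⟩)
    · rcases hc with h | ⟨h1, h2, h3⟩
      · exact Or.inl h
      · have hKn : k.K (k.E.N a w) = some i := (mem_filter.1 h2).2.1
        refine Or.inr ⟨h1, h2, h3, fun hu => c4 ?_, fun hs => c5 ?_⟩
        · exact mem_filter.2 ⟨mem_univ _, mem_filter.2 ⟨mem_univ _, hKn, hu⟩⟩
        · exact mem_filter.2 ⟨mem_univ _, mem_filter.2 ⟨mem_univ _, hKn, hs⟩⟩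
  refine (card_le_card hsub).trans ((card_union_le _ _).trans (Nat.add_le_add_left ?_ _))
  refine (card_union_le _ _).trans (Nat.add_le_add_left ?_ _)
  refine (card_union_le _ _).trans (Nat.add_le_add_left ?_ _)
  exact (card_union_le _ _).trans (Nat.add_le_add (hinj _) (hinj _))

/-- the cluster of a possible row -/
private theorem AlB_cl {P : Par} {k : Kd V κ} {i : V} {w : V} {a : κ} (hw : k.K w = some i)
    (h : k.al P w a) : w ∈ k.Rw P i ∧ a ∈ k.Gc P i ∧
      (k.fx w a ∨ (k.cr w a ∧ k.E.N a w ∈ k.Rg P i ∧ ¬ k.W (k.E.N a w))) := by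
  obtain ⟨j, h1, h2, -, h3⟩ := h
  have h4 : k.K w = some j := (mem_filter.1 (mem_filter.1 h1).1).2.1
  have h5 : j = i := by
    rw [hw] at h4
    exact (Option.some.inj h4).symm
  subst h5
  refine ⟨h1, h2, ?_⟩
  rcases h3 with h | ⟨h6, h7, h8, -, -⟩
  · exact Or.inl h
  · exact Or.inr ⟨h6, h7, h8⟩

/-- good colours are not reserved and not colours of kept free rows -/
private theorem AlB_gc {P : Par} {k : Kd V κ} {i : V} {a : κ} (h : a ∈ k.Gc P i) :
    a ∉ k.Q ∧ a ∉ k.mFF i ∧ a ∉ k.Pb P i ∧ a ∉ k.cSp P i ∧ a ∉ k.Bk P i := by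
  obtain ⟨-, h1, h2, h3, h4, h5⟩ := mem_filter.1 h
  exact ⟨h2, h3, h1, h4, h5⟩

/-- the possible colours of a row -/
private theorem AlB_cols {P : Par} {k : Kd V κ} {i w : V} (hw : k.K w = some i) :
    (univ.filter (fun a => k.al P w a)).card ≤
      (univ.filter (fun a => k.E.N a w = w)).card +
      ((univ.filter (fun a => a ∉ k.Q ∧ a ∉ k.mF i ∧ k.cr w a ∧ ¬ k.W (k.E.N a w))).card +
      ((k.mF i) \ (k.mFF i)).card) := by
  have hsub : (univ.filter (fun a => k.al P w a)) ⊆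
      (univ.filter (fun a => k.E.N a w = w)) ∪
      ((univ.filter (fun a => a ∉ k.Q ∧ a ∉ k.mF i ∧ k.cr w a ∧ ¬ k.W (k.E.N a w))) ∪
      ((k.mF i) \ (k.mFF i))) := by
    intro a ha
    obtain ⟨-, h1⟩ := mem_filter.1 ha
    obtain ⟨-, h3, h4⟩ := AlB_cl hw h1
    obtain ⟨h5, h6, -⟩ := AlB_gc h3
    rcases h4 with h4 | ⟨h4, -, h7⟩
    · exact mem_union.2 (Or.inl (mem_filter.2 ⟨mem_univ _, h4⟩))
    · refine mem_union.2 (Or.inr (mem_union.2 ?_))
      by_cases hm : a ∈ k.mF i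
      · exact Or.inr (mem_sdiff.2 ⟨hm, h6⟩)
      · exact Or.inl (mem_filter.2 ⟨mem_univ _, h5, hm, h4, h7⟩)
  refine (card_le_card hsub).trans ((card_union_le _ _).trans (Nat.add_le_add_left ?_ _))
  exact card_union_le _ _

/-- the possible colours of a column -/
private theorem AlB_cols' {P : Par} {k : Kd V κ} {i v : V} (hv : k.K v = some i) :
    ((univ.filter (fun a => k.E.N a v ≠ v ∧ k.al P (k.E.N a v) a)) ⊆
      (univ.filter (fun a => a ∉ k.Q ∧ a ∉ k.mF i ∧ k.E.N a v ∈ k.Rg P i ∧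
        ¬ k.F0 (k.E.N a v) ∧ k.tau (k.E.N a v) ≠ k.tau v)) ∪
      ((k.mF i) \ (k.mFF i))) ∧
    (v ∉ k.Rg P i → (univ.filter (fun a => k.E.N a v ≠ v ∧ k.al P (k.E.N a v) a)) = ∅) := by
  have key : ∀ a, k.E.N a v ≠ v → k.al P (k.E.N a v) a →
      v ∈ k.Rg P i ∧ k.E.N a v ∈ k.Rw P i ∧ a ∈ k.Gc P i ∧ k.tau v ≠ k.tau (k.E.N a v) := by
    intro a ha hal
    obtain ⟨j, h1, h2, -, h3⟩ := hal
    rcases h3 with h3 | ⟨h3, h4, -⟩
    · have h5 : k.E.N a (k.E.N a v) = k.E.N a v := h3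
      rw [k.E.inv] at h5
      exact absurd h5.symm ha
    · rw [k.E.inv] at h4
      have h5 : k.K v = some j := (mem_filter.1 h4).2.1
      have h6 : j = i := by
        rw [hv] at h5
        exact (Option.some.inj h5).symm
      subst h6
      have h7 := h3.2
      rw [k.E.inv] at h7
      exact ⟨h4, h1, h2, h7⟩
  constructor
  · intro a ha
    obtain ⟨-, h1, h2⟩ := mem_filter.1 ha
    obtain ⟨-, h4, h5, h6⟩ := key a h1 h2
    obtain ⟨h7, h8, -⟩ := AlB_gc h5
    by_cases hm : a ∈ k.mF i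
    · exact mem_union.2 (Or.inr (mem_sdiff.2 ⟨hm, h8⟩))
    · refine mem_union.2 (Or.inl (mem_filter.2 ⟨mem_univ _, h7, hm, (mem_filter.1 h4).1,
        (mem_filter.1 h4).2.1, h6.symm⟩))
  · intro hR
    apply filter_eq_empty_iff.2
    intro a _ h
    exact hR (key a h.1 h.2).1

end alb

/-- ALB. -/
theorem thm_AlB (hFew : St_Few) : St_AlB := by
  intro P V κ _ _ k hN hK i hi
  obtain ⟨hrho0, hth0, hnz0, hD0, hrho, hth, heps, hpm, heta, hde, hd2, hd0, hnz, hX2, hMf, hMt,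
    hM1, hpa, hfm⟩ := AlB_num hN
  obtain ⟨-, -, F3, F4, F5⟩ := hFew P V κ k hN hK i
  have hgr := hK.bs.gr
  have hed := hK.bs.ed
  have hac := hK.bs.ac
  have htk := hK.bs.tk
  set n : ℝ := ((k.Rg P i).card : ℝ) with hn
  set f : ℝ := ((k.F0i i).card : ℝ) with hf
  set D : ℝ := (P.D : ℝ) with hD
  set y : ℝ := 1 / (P.MW : ℝ) with hy
  set Sp : ℝ := ((k.Spi P i).card : ℝ) with hSp
  have hf0 : 0 ≤ f := Nat.cast_nonneg _
  have hn0 : 0 ≤ n := Nat.cast_nonneg _
  have hSp0 : 0 ≤ Sp := Nat.cast_nonneg _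
  have ha1 : k.a1 P i = 1 / 2 * (1 - y) * (n - f) - 3 * P.theta * D := rfl
  -- products
  have pth0 : 0 < P.theta * D := mul_pos hth0 hD0
  have prho0 : 0 < P.rho * D := mul_pos hrho0 hD0
  have pth : P.theta * D ≤ 1 / 10 ^ 6 * (P.rho * D) := by
    rw [← mul_assoc]
    exact mul_le_mul_of_nonneg_right hth hD0.le
  have prho : P.rho * D ≤ 1 / 10 ^ 6 * D := mul_le_mul_of_nonneg_right hrho hD0.le
  have peps : P.eps * D ≤ 1 / 10 ^ 6 * (P.theta * D) := by
    rw [← mul_assoc]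
    exact mul_le_mul_of_nonneg_right heps hD0.le
  have ppm : P.pmax * D ≤ 1 / 10 ^ 6 * (P.theta * D) := by
    rw [← mul_assoc]
    exact mul_le_mul_of_nonneg_right hpm hD0.le
  have peta : P.eta * D ≤ 1 / 10 ^ 6 * (P.theta * D) := by
    rw [← mul_assoc]
    exact mul_le_mul_of_nonneg_right heta hD0.le
  have pde : 104 * P.delta * D / P.eta ≤ 1 / 10 ^ 6 * (P.theta * D) := by
    rw [← mul_assoc]
    exact hde
  have pd2 : 520 * P.delta * D ≤ 1 / 10 ^ 6 * (P.theta * D) := by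
    rw [← mul_assoc]
    exact mul_le_mul_of_nonneg_right hd2 hD0.le
  have pnz : P.nz ≤ 1 / 10 ^ 6 * (P.theta * D) := by
    rw [← mul_assoc]
    exact hnz
  have pX2 : 2 * (P.X : ℝ) + 2 ≤ 1 / 10 ^ 6 * (P.theta * D) := by
    rw [← mul_assoc]
    exact hX2
  have pd0 : 0 ≤ P.delta * D := mul_nonneg hd0 hD0.le
  have pMt : P.theta * D ≤ y * D := mul_le_mul_of_nonneg_right hMt hD0.le
  have pM1 : y * D ≤ 1 / 10 ^ 6 * D := mul_le_mul_of_nonneg_right hM1 hD0.le
  have hy0 : 0 < y := lt_of_lt_of_le hth0 hMt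
  have pMf : y * D ≤ P.fmin * D / 4 := by
    have := mul_le_mul_of_nonneg_right hMf hD0.le
    linarith
  have pfm : 0 < P.fmin * D := mul_pos hfm hD0
  have hX0 : 0 ≤ (P.X : ℝ) := Nat.cast_nonneg _
  -- sizes
  have hpart : (k.Ki i).card = (k.Rg P i).card + (k.Spi P i).card := by
    have h1 := card_filter_add_card_filter_not (s := k.Ki i) (fun w => ¬ k.Sp P w)
    have h2 : (k.Ki i).filter (fun w => ¬ k.Sp P w) = k.Rg P i := by
      ext w
      simp only [Gd.Ki, Gd.Rg, mem_filter, mem_univ, true_and]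
    have h3 : (k.Ki i).filter (fun w => ¬ ¬ k.Sp P w) = k.Spi P i := by
      ext w
      simp only [Gd.Ki, Gd.Spi, mem_filter, mem_univ, true_and, not_not]
    rw [h2, h3] at h1
    exact h1.symm
  have hKn : ((k.Ki i).card : ℝ) = n + Sp := by
    rw [hpart, Nat.cast_add]
  have hSp1 : Sp ≤ 104 * P.delta * D / P.eta := hgr.sp1 i
  have hn1 : 999 * D ≤ 1000 * n := by
    have h1 : (999 : ℝ) * (P.D : ℝ) ≤ 1000 * ((k.Rg P i).card : ℝ) := by
      exact_mod_cast hgr.n1 i hi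
    exact h1
  have hn2 : n + Sp ≤ D + 1 + 102 * P.delta * D := by
    have := hgr.k2 i
    rw [← hKn]
    exact this
  have hf1 : 10 ^ 6 * f ≤ 2 * D := by
    have h1 : (P.pa : ℝ) * ((k.F0i i).card : ℝ) ≤ 2 * (P.D : ℝ) := by
      exact_mod_cast hac.f3' i
    exact (mul_le_mul_of_nonneg_right hpa hf0).trans h1
  have hf3 : P.fmin * D ≤ f := hac.f3 i hi
  have hDn : D + 1 ≤ n + Sp + 520 * P.delta * D := by
    have h1 : ((k.Ki i).card : ℝ) + k.lam i = (P.D : ℝ) + 1 + k.mu i := by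
      exact_mod_cast hgr.lm i hi
    rw [← hD] at h1
    have h2 : (k.lam i : ℝ) ≤ 520 * P.delta * D := hgr.lm1 i
    have h3 : (0 : ℝ) ≤ k.mu i := Nat.cast_nonneg _
    rw [hKn] at h1
    linarith
  have hQ : P.rho * D - 1 ≤ (k.Q.card : ℝ) := by
    rw [hed.q2]
    have := Nat.lt_floor_add_one (P.rho * D)
    linarith
  have hy1 : y ≤ 1 / 10 ^ 6 := hM1
  -- products with y
  have hnf1 : n - f ≤ D + 1 + 102 * P.delta * D := by linarith
  have hnf0 : 0 ≤ n - f := by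
    norm_num at hf1
    linarith
  have hynf : y * (n - f) ≤ y * (D + 1 + 102 * P.delta * D) :=
    mul_le_mul_of_nonneg_left hnf1 hy0.le
  have hyS : y * (1 + 102 * P.delta * D) ≤ 1 + 102 * P.delta * D := by
    have h1 : 0 ≤ 1 + 102 * P.delta * D := by linarith
    have h2 : y ≤ 1 := hy1.trans (by norm_num)
    calc y * (1 + 102 * P.delta * D) ≤ 1 * (1 + 102 * P.delta * D) :=
          mul_le_mul_of_nonneg_right h2 h1
      _ = _ := one_mul _
  have hyS0 : 0 ≤ y * (1 + 102 * P.delta * D) := by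
    have h1 : 0 ≤ 1 + 102 * P.delta * D := by linarith
    exact mul_nonneg hy0.le h1
  have hynf2 : y * (n - f) ≤ y * D + y * (1 + 102 * P.delta * D) := by
    have : y * (D + 1 + 102 * P.delta * D) = y * D + y * (1 + 102 * P.delta * D) := by ring
    linarith
  have hynf0 : 0 ≤ y * (n - f) := mul_nonneg hy0.le hnf0
  have hA : k.a1 P i = 1 / 2 * (n - f) - 1 / 2 * (y * (n - f)) - 3 * (P.theta * D) := by
    rw [ha1]
    ring
  have hup : k.a1 P i ≤ D / 2 := by
    have h1 : (1 - y) * (n - f) ≤ (1 - y) * (D + (1 + 102 * P.delta * D)) := by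
      refine mul_le_mul_of_nonneg_left (by linarith) ?_
      have : y ≤ 1 := hy1.trans (by norm_num)
      linarith
    have h2 : (1 - y) * (D + (1 + 102 * P.delta * D)) =
        D + (1 + 102 * P.delta * D) - y * D - y * (1 + 102 * P.delta * D) := by ring
    have h3 : 1 + 102 * P.delta * D ≤ P.theta * D := by
      norm_num at pX2 pd2
      linarith
    have h4 : (1 - y) * (n - f) = (n - f) - y * (n - f) := by ring
    rw [hA]
    linarith
  have hlow : 9 / 20 * D ≤ k.a1 P i := by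
    rw [hA]
    have h1 : 1 + 102 * P.delta * D ≤ P.theta * D := by
      norm_num at pX2 pd2
      linarith
    norm_num at hf1 pth prho pM1
    linarith
  -- the target bound
  have htar : k.a1 P i - 2 / 5 * (P.rho * D) ≤ (1 - 4 / 5 * P.rho) * k.a1 P i := by
    have h1 : P.rho * k.a1 P i ≤ P.rho * (D / 2) := mul_le_mul_of_nonneg_left hup hrho0.le
    have h2 : (1 - 4 / 5 * P.rho) * k.a1 P i = k.a1 P i - 4 / 5 * (P.rho * k.a1 P i) := by ring
    have h3 : P.rho * (D / 2) = 1 / 2 * (P.rho * D) := by ring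
    rw [h2]
    linarith
  have htar0 : 0 ≤ (1 - 4 / 5 * P.rho) * k.a1 P i := by
    refine le_trans ?_ htar
    norm_num at prho
    linarith
  refine ⟨⟨hlow, hup⟩, ?_, ?_, ?_⟩
  · intro a ha
    obtain ⟨g1, g2, g3, g4, g5⟩ := AlB_gc ha
    have h1 := htk.k1 i a hi g3
    have h2 : ((univ.filter (fun w => w ∈ k.Rg P i ∧ ¬ k.F0 w ∧ (k.fx w a ∨
      (k.cr w a ∧ k.E.N a w ∈ k.Rg P i ∧ ¬ k.W (k.E.N a w))))).card : ℝ) ≤
      ((univ.filter (fun w => k.K w = some i ∧ k.al P w a)).card : ℝ) +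
      (((univ.filter (fun w => k.K w = some i ∧ k.X w)).card : ℝ) +
      ((((k.Rg P i).filter (fun w => k.bl P a w)).card : ℝ) +
      (((univ.filter (fun v => k.K v = some i ∧ k.us v)).card : ℝ) +
      ((univ.filter (fun v => k.K v = some i ∧ k.sc P v)).card : ℝ)))) := by
      exact_mod_cast AlB_rows i a ha
    have h3 : (((k.Rg P i).filter (fun w => k.bl P a w)).card : ℝ) ≤ P.theta * D := by
      by_contra hcon
      push Not at hcon
      apply g5
      exact mem_filter.2 ⟨mem_univ _, g3, g1, g2, g4, hcon⟩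
    have h4 : ((univ.filter (fun w => k.K w = some i ∧ k.X w)).card : ℝ) ≤ P.pmax * D :=
      hK.xp.x7 i
    have h5 : 1 / 2 * (1 - y) * (n - f - P.theta * D - Sp - 2 * P.X) =
        1 / 2 * (n - f) - 1 / 2 * (y * (n - f)) - 1 / 2 * (P.theta * D + Sp + 2 * P.X) +
          1 / 2 * (y * (P.theta * D + Sp + 2 * P.X)) := by ring
    have h6 : 0 ≤ y * (P.theta * D + Sp + 2 * P.X) := by
      refine mul_nonneg hy0.le ?_
      linarith
    have h1' : 1 / 2 * (1 - y) * (n - f - P.theta * D - Sp - 2 * P.X) - P.nz ≤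
      ((univ.filter (fun w => w ∈ k.Rg P i ∧ ¬ k.F0 w ∧ (k.fx w a ∨
      (k.cr w a ∧ k.E.N a w ∈ k.Rg P i ∧ ¬ k.W (k.E.N a w))))).card : ℝ) := h1
    rw [h5] at h1'
    rw [hA]
    norm_num at pth prho peps ppm pde pnz pX2 F3 F4
    linarith
  · intro w hw
    by_cases hR : w ∈ k.Rg P i
    · have h1 : ((univ.filter (fun a => k.al P w a)).card : ℝ) ≤
          ((univ.filter (fun a => k.E.N a w = w)).card : ℝ) +
          (((univ.filter (fun a => a ∉ k.Q ∧ a ∉ k.mF i ∧ k.cr w a ∧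
            ¬ k.W (k.E.N a w))).card : ℝ) + (((k.mF i) \ (k.mFF i)).card : ℝ)) := by
        exact_mod_cast AlB_cols hw
      have h2 : ((univ.filter (fun a => k.E.N a w = w)).card : ℝ) ≤ 2 := by
        exact_mod_cast AlB_two hed hgr.reg w
      have h3 : ((univ.filter (fun a => a ∉ k.Q ∧ a ∉ k.mF i ∧ k.cr w a ∧
            ¬ k.W (k.E.N a w))).card : ℝ) ≤
          1 / 2 * (1 - y) * (D + 1 - k.Q.card - f) + P.nz := htk.k2 i w hR
      have h4 : 1 / 2 * (1 - y) * (D + 1 - k.Q.card - f) ≤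
          1 / 2 * (1 - y) * ((n - f) + (Sp + 520 * P.delta * D) - (P.rho * D - 1)) := by
        refine mul_le_mul_of_nonneg_left (by linarith) ?_
        have : y ≤ 1 := hy1.trans (by norm_num)
        linarith
      have h5 : 1 / 2 * (1 - y) * ((n - f) + (Sp + 520 * P.delta * D) - (P.rho * D - 1)) =
          1 / 2 * (n - f) - 1 / 2 * (y * (n - f)) + 1 / 2 * (Sp + 520 * P.delta * D) -
          1 / 2 * (y * (Sp + 520 * P.delta * D)) - 1 / 2 * (P.rho * D - 1) +
          1 / 2 * (y * (P.rho * D - 1)) := by ring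
      have h6 : 0 ≤ y * (Sp + 520 * P.delta * D) := by
        refine mul_nonneg hy0.le ?_
        linarith
      have h7 : y * (P.rho * D - 1) ≤ 1 / 10 ^ 6 * (P.rho * D) := by
        have h8 : y * (P.rho * D - 1) ≤ y * (P.rho * D) :=
          mul_le_mul_of_nonneg_left (by linarith) hy0.le
        exact h8.trans (mul_le_mul_of_nonneg_right hy1 prho0.le)
      refine le_trans ?_ htar
      rw [hA]
      norm_num at pth prho peps ppm pde pnz pX2 pd2 F5 h7
      linarith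
    · have h1 : univ.filter (fun a => k.al P w a) = ∅ := by
        apply filter_eq_empty_iff.2
        intro a _ h
        exact hR (mem_filter.1 (AlB_cl hw h).1).1
      rw [h1, card_empty, Nat.cast_zero]
      exact htar0
  · intro v hv
    obtain ⟨c1, c2⟩ := AlB_cols' (P := P) hv
    by_cases hR : v ∈ k.Rg P i
    · have h1 : ((univ.filter (fun a => k.E.N a v ≠ v ∧ k.al P (k.E.N a v) a)).card : ℝ) ≤
          ((univ.filter (fun a => a ∉ k.Q ∧ a ∉ k.mF i ∧ k.E.N a v ∈ k.Rg P i ∧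
            ¬ k.F0 (k.E.N a v) ∧ k.tau (k.E.N a v) ≠ k.tau v)).card : ℝ) +
          (((k.mF i) \ (k.mFF i)).card : ℝ) := by
        exact_mod_cast (card_le_card c1).trans (card_union_le _ _)
      have h3 : ((univ.filter (fun a => a ∉ k.Q ∧ a ∉ k.mF i ∧ k.E.N a v ∈ k.Rg P i ∧
            ¬ k.F0 (k.E.N a v) ∧ k.tau (k.E.N a v) ≠ k.tau v)).card : ℝ) ≤
          1 / 2 * (D + 1 - k.Q.card - 2 * f + P.fmin * D / 8 + 2 * P.eta * D) + P.nz :=
        htk.k3 i v hR
      refine le_trans ?_ htar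
      rw [hA]
      norm_num at pth prho peps ppm pde pnz pX2 pd2 F5 peta
      linarith
    · rw [c2 hR, card_empty, Nat.cast_zero]
      exact htar0

end Pool.TCV
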