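import Pool.Agent.Helper60.TCV.StX

/-!
# T10, section 6: the blocks (helper47)
-/

set_option autoImplicit false

namespace Pool.TCV

open Pool.TC Pool.TCM Pool.TCS Pool.TN Finset
open scoped Classical

theorem thm_Blo : St_Blo := by
  intro P V κ _ _ t hN hB
  have hD : 0 < P.D := by
    have h1 := hN.XD
    have h2 : (0 : ℝ) < (P.X : ℝ) ^ 4000000 := by
      have h3 := hN.X0
      have h4 : 0 < P.X := lt_of_lt_of_le (by positivity) h3
      positivity
    have h5 : (0 : ℝ) < P.D := lt_of_lt_of_le h2 h1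
    exact_mod_cast h5
  have hK : ∀ i k, k < t.nbl i → t.K i = some i := by
    intro i k hk
    by_contra h
    have := hB.ed.gm6 i h
    omega
  have hwt : ∀ i k, k < t.nbl i → 999 * P.D ≤ 4000 * t.Wt P i k := by
    intro i k hk
    have h1 := hB.gr.n1 i (hK i k hk)
    have h2 := hB.ed.gm4 i k hk
    omega
  have hne : ∀ i k, k < t.nbl i → (t.Gam i k).Nonempty := by
    intro i k hk
    by_contra h
    rw [not_nonempty_iff_eq_empty] at h
    have h1 := hwt i k hk
    have h2 : t.Wt P i k = 0 := by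
      show (∑ a ∈ t.Gam i k, (t.W0 P i a).card) = 0
      rw [h, sum_empty]
    omega
  refine ⟨fun i => (range (t.nbl i)).image (t.Gam i), ⟨?_, ?_, ?_, ?_⟩⟩
  · intro i Γ hΓ
    obtain ⟨k, hk, rfl⟩ := mem_image.1 hΓ
    exact hB.ed.gm1 i k (mem_range.1 hk)
  · intro i Γ hΓ Γ' hΓ' a ha ha'
    obtain ⟨k, hk, rfl⟩ := mem_image.1 hΓ
    obtain ⟨k', hk', rfl⟩ := mem_image.1 hΓ'
    by_contra hcon
    have hkk : k ≠ k' := fun h => hcon (by rw [h])
    exact disjoint_left.1 (hB.ed.gm2 i k k' (mem_range.1 hk) (mem_range.1 hk') hkk) ha ha'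
  · intro i Γ hΓ
    obtain ⟨k, hk, rfl⟩ := mem_image.1 hΓ
    have h1 := hwt i k (mem_range.1 hk)
    have h2 := hB.tk.k9 i k (mem_range.1 hk)
    omega
  · intro i
    have h1 : ((range (t.nbl i)).image (t.Gam i)).card = t.nbl i := by
      rw [card_image_of_injOn, card_range]
      intro k hk k' hk' h
      by_contra hkk
      have hk1 := mem_range.1 (mem_coe.1 hk)
      have hk1' := mem_range.1 (mem_coe.1 hk')
      obtain ⟨a, ha⟩ := hne i k hk1
      have ha' : a ∈ t.Gam i k' := by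
        rw [← h]
        exact ha
      exact disjoint_left.1 (hB.ed.gm2 i k k' hk1 hk1' hkk) ha ha'
    show (t.Pb P i).card ≤ ((range (t.nbl i)).image (t.Gam i)).card + t.lam i
    rw [h1]
    exact hB.ed.gm3 i

end Pool.TCV
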