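import Pool.Agent.Helper60.TCV.StT
import Pool.Agent.Helper45.Vu.IT

/-!
# Random samples and a transversal
-/

set_option autoImplicit false

namespace Pool.TCV

open Pool.TC Pool.TCM Pool.TCS Pool.TCT Finset
open scoped Classical

/-- the number of events which meet a given event -/
private lemma Samp_dep {T J : Type} [Fintype T] [Fintype J] (S : J → Finset T) (a b : ℕ)
    (h1 : ∀ j, (S j).card ≤ a)
    (h2 : ∀ j, ∀ t ∈ S j, (univ.filter (fun j' => t ∈ S j')).card ≤ b) (j : J) :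
    (univ.filter (fun j' => ∃ t, t ∈ S j ∧ t ∈ S j')).card ≤ a * b := by
  have hs : univ.filter (fun j' => ∃ t, t ∈ S j ∧ t ∈ S j') ⊆
      (S j).biUnion (fun t => univ.filter (fun j' => t ∈ S j')) := by
    intro j' hj'
    obtain ⟨t, ht, ht'⟩ := (mem_filter.1 hj').2
    exact mem_biUnion.2 ⟨t, ht, mem_filter.2 ⟨mem_univ _, ht'⟩⟩
  calc _ ≤ _ := card_le_card hs
    _ ≤ (S j).card * b := card_biUnion_le_card_mul _ _ _ (fun t ht => h2 j t ht)
    _ ≤ a * b := Nat.mul_le_mul_right _ (h1 j)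

/-- the conflict weight -/
private noncomputable def Samp_w {I A : Type} (cf : I → A → I → A → Prop) (u : I) (a : A)
    (w : I) (b : A) : ℝ := if w ≠ u ∧ cf u a w b then 1 else 0

private lemma Samp_w_sum {I A : Type} [Fintype I] [Fintype A] (U : Finset I) (L : I → Finset A)
    (cf : I → A → I → A → Prop) (u : I) (a : A) :
    (∑ w ∈ U, ∑ b ∈ L w, Samp_w cf u a w b) =
      ((univ.filter (fun p : I × A => p.1 ∈ U ∧ p.1 ≠ u ∧ p.2 ∈ L p.1 ∧
        cf u a p.1 p.2)).card : ℝ) := by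
  rw [card_filter]
  push_cast
  rw [Fintype.sum_prod_type, ← sum_subset (subset_univ U)]
  · apply sum_congr rfl
    intro w hw
    rw [← sum_subset (subset_univ (L w))]
    · apply sum_congr rfl
      intro b hb
      unfold Samp_w
      by_cases h : w ≠ u ∧ cf u a w b
      · rw [if_pos h, if_pos ⟨hw, h.1, hb, h.2⟩]
      · rw [if_neg h, if_neg (fun h' => h ⟨h'.2.1, h'.2.2.2⟩)]
    · intro b _ hb
      rw [if_neg (fun h' => hb h'.2.2.1)]
  · intro w _ hw
    apply sum_eq_zero
    intro b _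
    rw [if_neg (fun h' => hw h'.1)]

/-- the bad events -/
private def Samp_Ev {I A J : Type} [Fintype I] (U : Finset I)
    (L : I → Finset A) (cf : I → A → I → A → Prop) (T : J → I → A → ℝ) (thr : J → ℝ) (l q : ℕ)
    (e : I → Fin l → A) (x : (I × A) ⊕ J) (ω : I × Fin (4 * q) → Fin l) : Prop :=
  match x with
  | Sum.inl p => p.1 ∈ U ∧ p.2 ∈ L p.1 ∧ (q : ℝ) ≤
      ∑ t : I × Fin (4 * q), if t.1 ∈ U then Samp_w cf p.1 p.2 t.1 (e t.1 (ω t)) else 0
  | Sum.inr j => thr j ≤ ∑ t : I × Fin (4 * q), if t.1 ∈ U then T j t.1 (e t.1 (ω t)) else 0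

/-- the coordinates of the bad events -/
private noncomputable def Samp_S {I A J : Type} [Fintype I] (U : Finset I) (L : I → Finset A)
    (cf : I → A → I → A → Prop) (T : J → I → A → ℝ) (q : ℕ) (x : (I × A) ⊕ J) :
    Finset (I × Fin (4 * q)) :=
  match x with
  | Sum.inl p => univ.filter (fun t => p.1 ∈ U ∧ p.2 ∈ L p.1 ∧ t.1 ∈ U ∧ t.1 ≠ p.1 ∧
      ∃ b ∈ L t.1, cf p.1 p.2 t.1 b)
  | Sum.inr j => univ.filter (fun t => t.1 ∈ U ∧ ∃ a ∈ L t.1, T j t.1 a ≠ 0)

private lemma Samp_thr (l q : ℕ) (Lam : ℝ) (hl : 0 < l) (hLam : 1 ≤ Lam) (hq : 25 * Lam ≤ q) :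
    4 * (q : ℝ) * ((l : ℝ) / 8) / l +
      3 * Real.sqrt ((4 * q * 1 * ((l : ℝ) / 8) / l + Lam * 1 ^ 2) * Lam) ≤ q := by
  have hl0 : (0 : ℝ) < l := by exact_mod_cast hl
  have h1 : 4 * (q : ℝ) * ((l : ℝ) / 8) / l = q / 2 := by
    field_simp
    ring
  have h2 : 4 * (q : ℝ) * 1 * ((l : ℝ) / 8) / l = q / 2 := by
    rw [mul_one]
    exact h1
  rw [h1, h2]
  have hq0 : (0 : ℝ) ≤ q := by positivity
  have h3 : ((q : ℝ) / 2 + Lam * 1 ^ 2) * Lam ≤ ((q : ℝ) / 6) ^ 2 := by
    have hb : Lam ≤ (q : ℝ) / 25 := by linarith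
    have h4 : ((q : ℝ) / 2 + Lam * 1 ^ 2) ≤ (q : ℝ) / 2 + q / 25 := by linarith
    have h5 : ((q : ℝ) / 2 + Lam * 1 ^ 2) * Lam ≤ ((q : ℝ) / 2 + q / 25) * (q / 25) :=
      mul_le_mul h4 hb (by linarith) (by positivity)
    refine le_trans h5 ?_
    have h6 : 0 ≤ (q : ℝ) ^ 2 := sq_nonneg _
    nlinarith
  have h4 : Real.sqrt (((q : ℝ) / 2 + Lam * 1 ^ 2) * Lam) ≤ (q : ℝ) / 6 := by
    apply Real.sqrt_le_iff.2
    exact ⟨by positivity, h3⟩
  linarith

theorem Samp_card_inst {α : Type} (i1 i2 : Fintype α) :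
    @Fintype.card α i1 = @Fintype.card α i2 := by
  rw [Subsingleton.elim i1 i2]

theorem thm_Samp (hLLL : Pool.TCS.St_LLL0) (hSmpP : St_SmpP) : St_Samp := by
  intro I A J _ _ _ _ U L cf T mT nT l q N Lam hL hl hlN hqN hsymm hdeg hT hmT hnT hN1 hN2
    hLam hq hexp
  rcases U.eq_empty_or_nonempty with rfl | ⟨u0, hu0⟩
  · refine ⟨fun _ => Classical.arbitrary A, fun u hu => absurd hu (notMem_empty u),
      fun u hu => absurd hu (notMem_empty u), ?_⟩
    intro j
    rw [sum_empty]
    have h0 : 0 ≤ nT j := by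
      have := hnT j
      rwa [sum_empty] at this
    positivity
  have hl0 : (0 : ℝ) < l := by exact_mod_cast hl
  have hq0 : 0 < q := by
    have : (0 : ℝ) < q := by linarith
    exact_mod_cast this
  have hN0 : 0 < N := lt_of_lt_of_le hl hlN
  have : Nonempty (Fin l) := ⟨⟨0, hl⟩⟩
  -- enumerations of the lists
  have hex : ∀ u : I, ∃ e : Fin l → A, u ∈ U → (Function.Injective e ∧ ∀ a, a ∈ L u ↔
      ∃ i, e i = a) := by
    intro u
    by_cases hu : u ∈ U
    · have heq := (Finset.equivFinOfCardEq (hL u hu)).symm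
      refine ⟨fun i => (heq i : A), fun _ => ⟨?_, ?_⟩⟩
      · intro i i' h
        exact heq.injective (Subtype.ext h)
      · intro a
        constructor
        · intro ha
          refine ⟨heq.symm ⟨a, ha⟩, ?_⟩
          simp
        · rintro ⟨i, rfl⟩
          exact (heq i).2
    · exact ⟨fun _ => Classical.arbitrary A, fun h => absurd h hu⟩
  choose e he using hex
  have heinj : ∀ u ∈ U, Function.Injective (e u) := fun u hu => (he u hu).1
  have hemem : ∀ u ∈ U, ∀ a, a ∈ L u ↔ ∃ i, e u i = a := fun u hu => (he u hu).2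
  have hein : ∀ u ∈ U, ∀ i, e u i ∈ L u := fun u hu i => (hemem u hu _).2 ⟨i, rfl⟩
  -- the events
  obtain ⟨Ev, hEv⟩ : ∃ Ev, Ev = Samp_Ev U L cf T (fun j => 4 * q * nT j / l +
        3 * Real.sqrt ((4 * q * mT j * nT j / l + Lam * (mT j) ^ 2) * Lam)) l q e := ⟨_, rfl⟩
  obtain ⟨S, hS⟩ : ∃ S, S = Samp_S U L cf T q := ⟨_, rfl⟩
  have hEvl : ∀ p ω, Ev (Sum.inl p) ω ↔ (p.1 ∈ U ∧ p.2 ∈ L p.1 ∧ (q : ℝ) ≤
      ∑ t : I × Fin (4 * q), if t.1 ∈ U then Samp_w cf p.1 p.2 t.1 (e t.1 (ω t)) else 0) := by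
    intro p ω
    rw [hEv]
    rfl
  have hEvr : ∀ j ω, Ev (Sum.inr j) ω ↔ 4 * q * nT j / l +
        3 * Real.sqrt ((4 * q * mT j * nT j / l + Lam * (mT j) ^ 2) * Lam) ≤
      ∑ t : I × Fin (4 * q), if t.1 ∈ U then T j t.1 (e t.1 (ω t)) else 0 := by
    intro j ω
    rw [hEv]
    rfl
  have hSl : ∀ p t, t ∈ S (Sum.inl p) ↔ (p.1 ∈ U ∧ p.2 ∈ L p.1 ∧ t.1 ∈ U ∧ t.1 ≠ p.1 ∧
      ∃ b ∈ L t.1, cf p.1 p.2 t.1 b) := by
    intro p t
    rw [hS]
    unfold Samp_S
    simp only [mem_filter, mem_univ, true_and]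
  have hSr : ∀ j t, t ∈ S (Sum.inr j) ↔ (t.1 ∈ U ∧ ∃ a ∈ L t.1, T j t.1 a ≠ 0) := by
    intro j t
    rw [hS]
    unfold Samp_S
    simp only [mem_filter, mem_univ, true_and]
  clear hEv hS
  have hloc : ∀ j (ω ω' : I × Fin (4 * q) → Fin l), (∀ t ∈ S j, ω t = ω' t) → Ev j ω →
      Ev j ω' := by
    intro x ω ω' hω hE
    rcases x with p | j
    · obtain ⟨h1, h2, h3⟩ := (hEvl p ω).1 hE
      refine (hEvl p ω').2 ⟨h1, h2, le_of_le_of_eq h3 ?_⟩
      apply sum_congr rfl
      intro t _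
      by_cases ht : t.1 ∈ U
      · rw [if_pos ht, if_pos ht]
        by_cases hS : t ∈ S (Sum.inl p)
        · rw [hω t hS]
        · have hz : ∀ i, Samp_w cf p.1 p.2 t.1 (e t.1 i) = 0 := by
            intro i
            unfold Samp_w
            rw [if_neg]
            rintro ⟨h4, h5⟩
            exact hS ((hSl p t).2 ⟨h1, h2, ht, h4, _, hein _ ht i, h5⟩)
          rw [hz, hz]
      · rw [if_neg ht, if_neg ht]
    · refine (hEvr j ω').2 (le_of_le_of_eq ((hEvr j ω).1 hE) ?_)
      apply sum_congr rfl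
      intro t _
      by_cases ht : t.1 ∈ U
      · rw [if_pos ht, if_pos ht]
        by_cases hS : t ∈ S (Sum.inr j)
        · rw [hω t hS]
        · have hz : ∀ i, T j t.1 (e t.1 i) = 0 := by
            intro i
            by_contra h
            exact hS ((hSr j t).2 ⟨ht, _, hein _ ht i, h⟩)
          rw [hz, hz]
      · rw [if_neg ht, if_neg ht]
  have hprob : ∀ j, ((univ.filter (fun ω => Ev j ω)).card : ℝ) ≤
      Real.exp (-Lam) * Fintype.card (I × Fin (4 * q) → Fin l) := by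
    intro x
    rcases x with p | j
    · by_cases hp : p.1 ∈ U ∧ p.2 ∈ L p.1
      · have h1 := hSmpP I A U L l q e (Samp_w cf p.1 p.2) 1 ((l : ℝ) / 8) Lam hl heinj hemem
          (by
            intro u _ a _
            unfold Samp_w
            split_ifs <;> norm_num) one_pos
          (by
            rw [Samp_w_sum]
            have h2 := hdeg p.1 hp.1 p.2 hp.2
            have h3 : (8 : ℝ) * ((univ.filter (fun p' : I × A => p'.1 ∈ U ∧ p'.1 ≠ p.1 ∧
                p'.2 ∈ L p'.1 ∧ cf p.1 p.2 p'.1 p'.2)).card : ℝ) ≤ l := by exact_mod_cast h2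
            linarith) hLam
        refine le_trans ?_ h1
        apply Nat.cast_le.2
        apply card_le_card
        intro ω hω
        obtain ⟨_, _, h3⟩ := (hEvl p ω).1 (mem_filter.1 hω).2
        exact mem_filter.2 ⟨mem_univ _, le_trans (Samp_thr l q Lam hl hLam hq) h3⟩
      · have hemp : (univ.filter (fun ω => Ev (Sum.inl p) ω)).card = 0 := by
          apply card_eq_zero.2
          apply filter_eq_empty_iff.2
          intro ω _ hω
          have h1 := (hEvl p ω).1 hω
          exact hp ⟨h1.1, h1.2.1⟩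
        rw [hemp, Nat.cast_zero]
        positivity
    · refine le_trans ?_ (hSmpP I A U L l q e (T j) (mT j) (nT j) Lam hl heinj hemem (hT j)
        (hmT j) (hnT j) hLam)
      apply Nat.cast_le.2
      apply card_le_card
      intro ω hω
      exact mem_filter.2 ⟨mem_univ _, (hEvr j ω).1 (mem_filter.1 hω).2⟩
  have hS1 : ∀ x, (S x).card ≤ N * N := by
    intro x
    rcases x with p | j
    · by_cases hp : p.1 ∈ U ∧ p.2 ∈ L p.1
      · have hsub : S (Sum.inl p) ⊆ ((univ.filter (fun p' : I × A => p'.1 ∈ U ∧ p'.1 ≠ p.1 ∧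
            p'.2 ∈ L p'.1 ∧ cf p.1 p.2 p'.1 p'.2)).image Prod.fst) ×ˢ
            (univ : Finset (Fin (4 * q))) := by
          intro t ht
          obtain ⟨_, _, h3, h4, b, hb, h5⟩ := (hSl p t).1 ht
          exact mem_product.2 ⟨mem_image.2 ⟨(t.1, b), mem_filter.2 ⟨mem_univ _, h3, h4, hb, h5⟩,
            rfl⟩, mem_univ _⟩
        have h1 := card_le_card hsub
        rw [card_product, card_univ, Fintype.card_fin] at h1
        have h2 := hdeg p.1 hp.1 p.2 hp.2
        refine le_trans h1 (Nat.mul_le_mul ?_ hqN)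
        refine le_trans card_image_le ?_
        omega
      · have hemp : S (Sum.inl p) = ∅ := by
          apply eq_empty_iff_forall_notMem.2
          intro t ht
          have h1 := (hSl p t).1 ht
          exact hp ⟨h1.1, h1.2.1⟩
        rw [hemp, card_empty]
        exact Nat.zero_le _
    · have hsub : S (Sum.inr j) ⊆ (U.filter (fun u => ∃ a ∈ L u, T j u a ≠ 0)) ×ˢ
            (univ : Finset (Fin (4 * q))) := by
        intro t ht
        obtain ⟨h3, h4⟩ := (hSr j t).1 ht
        exact mem_product.2 ⟨mem_filter.2 ⟨h3, h4⟩, mem_univ _⟩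
      have h1 := card_le_card hsub
      rw [card_product, card_univ, Fintype.card_fin] at h1
      exact le_trans h1 (Nat.mul_le_mul (hN1 j) hqN)
  have hS2 : ∀ x, ∀ t ∈ S x, (univ.filter (fun x' => t ∈ S x')).card ≤ N * N + N := by
    intro x t ht
    have htU : t.1 ∈ U := by
      rcases x with p | j
      · exact ((hSl p t).1 ht).2.2.1
      · exact ((hSr j t).1 ht).1
    have hsub : (univ.filter (fun x' => t ∈ S x')) ⊆
        ((L t.1).biUnion (fun b => univ.filter (fun p : I × A => p.1 ∈ U ∧ p.1 ≠ t.1 ∧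
          p.2 ∈ L p.1 ∧ cf t.1 b p.1 p.2))).image Sum.inl ∪
        (univ.filter (fun j => ∃ a ∈ L t.1, T j t.1 a ≠ 0)).image Sum.inr := by
      intro x' hx'
      have h1 := (mem_filter.1 hx').2
      rcases x' with p | j
      · obtain ⟨h2, h3, _, h4, b, hb, h5⟩ := (hSl p t).1 h1
        apply mem_union_left
        apply mem_image_of_mem
        exact mem_biUnion.2 ⟨b, hb, mem_filter.2 ⟨mem_univ _, h2, h4.symm, h3, hsymm _ _ _ _ h5⟩⟩
      · obtain ⟨_, h3⟩ := (hSr j t).1 h1
        apply mem_union_right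
        apply mem_image_of_mem
        exact mem_filter.2 ⟨mem_univ _, h3⟩
    refine le_trans (card_le_card hsub) (le_trans (card_union_le _ _) ?_)
    apply Nat.add_le_add
    · refine le_trans card_image_le ?_
      refine le_trans (card_biUnion_le_card_mul _ _ N ?_) ?_
      · intro b hb
        have := hdeg t.1 htU b hb
        omega
      · rw [hL _ htU]
        exact Nat.mul_le_mul_right _ hlN
    · exact le_trans card_image_le (hN2 _ htU)
  have hdep := Samp_dep S (N * N) (N * N + N) hS1 (by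
    intro x t ht
    have h1 := hS2 x t ht
    refine le_trans (card_le_card ?_) h1
    intro y hy
    simp only [mem_filter, mem_univ, true_and] at hy ⊢
    exact hy)
  have hNN : (N * N) * (N * N + N) ≤ 2 * N ^ 4 := by
    have h1 : N ^ 3 ≤ N ^ 4 := Nat.pow_le_pow_right hN0 (by norm_num)
    calc (N * N) * (N * N + N) = N ^ 4 + N ^ 3 := by ring
      _ ≤ 2 * N ^ 4 := by omega
  have hexp' : 4 * Real.exp (-Lam) * (((2 * N ^ 4 : ℕ) : ℝ) + 1) ≤ 1 := by
    push_cast
    exact hexp
  have hdep' := fun j => le_trans (hdep j) hNN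
  obtain ⟨M, hM⟩ : ∃ M, M = 2 * N ^ 4 := ⟨_, rfl⟩
  rw [← hM] at hexp' hdep'
  have hLL := hLLL (I × Fin (4 * q)) (Fin l) ((I × A) ⊕ J) Ev S (Real.exp (-Lam)) M hloc
  obtain ⟨ω, hω⟩ := hLL (by
      intro j
      have h := hprob j
      refine le_trans (Nat.cast_le.2 (card_le_card ?_)) (le_trans h (le_of_eq
        (congrArg (fun n : ℕ => Real.exp (-Lam) * (n : ℝ)) (Samp_card_inst _ _))))
      intro y hy
      simp only [mem_filter, mem_univ, true_and] at hy ⊢
      exact hy) (by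
      intro j
      refine le_trans (card_le_card ?_) (hdep' j)
      intro y hy
      simp only [mem_filter, mem_univ, true_and] at hy ⊢
      exact hy)
    (Real.exp_pos _).le hexp'
  -- the transversal
  let o : I × Fin (4 * q) → A := fun t => e t.1 (ω t)
  have hoL : ∀ t, t.1 ∈ U → o t ∈ L t.1 := fun t ht => hein _ ht _
  let G : SimpleGraph (I × Fin (4 * q)) :=
    { Adj := fun t t' => t.1 ∈ U ∧ t'.1 ∈ U ∧ t.1 ≠ t'.1 ∧ cf t.1 (o t) t'.1 (o t')
      symm := ⟨fun _ _ h => ⟨h.2.1, h.1, h.2.2.1.symm, hsymm _ _ _ _ h.2.2.2⟩⟩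
      loopless := ⟨fun _ h => h.2.2.1 rfl⟩ }
  have hinj : ∀ u : I, Function.Injective (fun k : Fin (4 * q) => (u, k)) := by
    intro u a b h
    exact (Prod.mk.inj h).2
  obtain ⟨f, hf, hf2⟩ := Pool.Agent.Helper45.Vu.exists_transversal G
    (fun u : I => (univ : Finset (Fin (4 * q))).image (fun k => (u, k)))
    (u0, ⟨0, by omega⟩) q hq0 U
    (by
      intro i _
      rw [card_image_of_injective _ (hinj i), card_univ, Fintype.card_fin])
    (by
      intro i hi x hx
      obtain ⟨k, _, rfl⟩ := mem_image.1 hx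
      have hbad := hω (Sum.inl (i, o (i, k)))
      have hoi : o (i, k) ∈ L i := hoL (i, k) hi
      have hlt : (∑ t : I × Fin (4 * q), if t.1 ∈ U then
          Samp_w cf i (o (i, k)) t.1 (e t.1 (ω t)) else 0) < (q : ℝ) := by
        by_contra h
        exact hbad ((hEvl (i, o (i, k)) ω).2 ⟨hi, hoi, not_lt.1 h⟩)
      have hcard : (∑ t : I × Fin (4 * q), if t.1 ∈ U then
          Samp_w cf i (o (i, k)) t.1 (e t.1 (ω t)) else 0) =
          ((univ.filter (fun t : I × Fin (4 * q) => t.1 ∈ U ∧ t.1 ≠ i ∧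
            cf i (o (i, k)) t.1 (o t))).card : ℝ) := by
        rw [card_filter]
        push_cast
        apply sum_congr rfl
        intro t _
        by_cases ht : t.1 ∈ U
        · rw [if_pos ht]
          unfold Samp_w
          by_cases h : t.1 ≠ i ∧ cf i (o (i, k)) t.1 (e t.1 (ω t))
          · rw [if_pos h, if_pos ⟨ht, h.1, h.2⟩]
          · rw [if_neg h, if_neg (fun h' => h ⟨h'.2.1, h'.2.2⟩)]
        · rw [if_neg ht, if_neg (fun h' => ht h'.1)]
      rw [hcard] at hlt
      have hlt' : (univ.filter (fun t : I × Fin (4 * q) => t.1 ∈ U ∧ t.1 ≠ i ∧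
            cf i (o (i, k)) t.1 (o t))).card < q := by exact_mod_cast hlt
      have hd : ∑ j ∈ U.erase i, (((univ : Finset (Fin (4 * q))).image (fun k => (j, k))).filter
          (fun y => G.Adj (i, k) y)).card =
          ((U.erase i).biUnion (fun j => ((univ : Finset (Fin (4 * q))).image
            (fun k => (j, k))).filter (fun y => G.Adj (i, k) y))).card := by
        rw [card_biUnion]
        intro j _ j' _ hjk
        rw [Function.onFun, disjoint_left]
        intro y hy hz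
        obtain ⟨b, _, hb⟩ := mem_image.1 (mem_filter.1 hy).1
        obtain ⟨c, _, hc⟩ := mem_image.1 (mem_filter.1 hz).1
        apply hjk
        have h1 : (j, b).1 = (j', c).1 := by rw [hb, hc]
        exact h1
      have hs : ((U.erase i).biUnion (fun j => ((univ : Finset (Fin (4 * q))).image
            (fun k => (j, k))).filter (fun y => G.Adj (i, k) y))) ⊆
          univ.filter (fun t : I × Fin (4 * q) => t.1 ∈ U ∧ t.1 ≠ i ∧
            cf i (o (i, k)) t.1 (o t)) := by
        intro y hy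
        obtain ⟨j, _, hy⟩ := mem_biUnion.1 hy
        obtain ⟨_, hy2⟩ := mem_filter.1 hy
        exact mem_filter.2 ⟨mem_univ _, hy2.2.1, hy2.2.2.1.symm, hy2.2.2.2⟩
      have h1 := card_le_card hs
      refine le_trans (le_of_eq hd) ?_
      omega)
  have hf1 : ∀ u ∈ U, (f u).1 = u := by
    intro u hu
    obtain ⟨k, _, h⟩ := mem_image.1 (hf u hu)
    rw [← h]
  refine ⟨fun u => o (f u), ?_, ?_, ?_⟩
  · intro u hu
    have h1 := hoL (f u) (by rw [hf1 u hu]; exact hu)
    rwa [hf1 u hu] at h1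
  · intro u hu w hw huw h
    apply hf2 u hu w hw huw
    refine ⟨by rw [hf1 u hu]; exact hu, by rw [hf1 w hw]; exact hw, ?_, ?_⟩
    · rw [hf1 u hu, hf1 w hw]
      exact huw
    · rw [hf1 u hu, hf1 w hw]
      exact h
  · intro j
    have hlt : (∑ t : I × Fin (4 * q), if t.1 ∈ U then T j t.1 (e t.1 (ω t)) else 0) <
        4 * q * nT j / l +
        3 * Real.sqrt ((4 * q * mT j * nT j / l + Lam * (mT j) ^ 2) * Lam) :=
      not_le.1 (fun h => hω (Sum.inr j) ((hEvr j ω).2 h))
    refine le_trans ?_ hlt.le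
    have h1 : ∑ u ∈ U, T j u (o (f u)) = ∑ t ∈ U.image f, if t.1 ∈ U then
        T j t.1 (e t.1 (ω t)) else 0 := by
      rw [sum_image]
      · apply sum_congr rfl
        intro u hu
        have h2 : (f u).1 ∈ U := by rw [hf1 u hu]; exact hu
        rw [if_pos h2]
        show T j u (o (f u)) = T j (f u).1 (o (f u))
        rw [hf1 u hu]
      · intro u hu w hw h
        have h2 := congrArg Prod.fst h
        rwa [hf1 u hu, hf1 w hw] at h2
    rw [h1]
    apply sum_le_sum_of_subset_of_nonneg (subset_univ _)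
    intro t _ _
    split_ifs with ht
    · exact (hT j t.1 ht _ (hein _ ht _)).1
    · exact le_refl _

end Pool.TCV
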