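import Pool.Agent.Helper60.TCV.StT

set_option autoImplicit false

namespace Pool.TCV

open Pool.TC Pool.TCM Pool.TCS Pool.TCT Finset
open scoped Classical

private theorem SmpP_fin {X : Type} (i1 i2 : Fintype X) (P Q : X → Prop) (d1 : DecidablePred P)
    (d2 : DecidablePred Q) (h : ∀ x, P x → Q x) :
    (@Finset.filter X P d1 (@Finset.univ X i1)).card ≤
      (@Finset.filter X Q d2 (@Finset.univ X i2)).card := by
  have h1 : i1 = i2 := Subsingleton.elim _ _
  subst h1
  refine card_le_card fun x hx => ?_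
  rw [mem_filter] at hx ⊢
  exact ⟨mem_univ _, h x hx.2⟩

private theorem SmpP_card {X : Type} (i1 i2 : Fintype X) :
    @Fintype.card X i1 = @Fintype.card X i2 := by
  have h1 : i1 = i2 := Subsingleton.elim _ _
  subst h1
  rfl

theorem thm_SmpP (hBernL : Pool.TCT.St_BernL) : St_SmpP := by
  intro I A _ _ U L l q e f mf nf Lam hl hinj hL hf hmf hnf hLam
  have hlR : (0 : ℝ) < l := by exact_mod_cast hl
  have : Nonempty (Fin l) := ⟨⟨0, hl⟩⟩
  have hq0 : (0 : ℝ) ≤ q := Nat.cast_nonneg q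
  have hsum0 : 0 ≤ ∑ u ∈ U, ∑ a ∈ L u, f u a :=
    sum_nonneg fun u hu => sum_nonneg fun a ha => (hf u hu a ha).1
  have hnf0 : 0 ≤ nf := hsum0.trans hnf
  set F : I × Fin (4 * q) → Fin l → ℝ :=
    fun t i => if t.1 ∈ U then f t.1 (e t.1 i) else 0 with hF
  set W : ℝ := 4 * q * mf * nf / l + Lam * mf ^ 2 with hW
  have hFb : ∀ t i, 0 ≤ F t i ∧ F t i ≤ mf := by
    intro t i
    by_cases h : t.1 ∈ U
    · simp only [hF, if_pos h]
      exact hf _ h _ ((hL _ h _).2 ⟨i, rfl⟩)
    · simp only [hF, if_neg h]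
      exact ⟨le_refl _, hmf.le⟩
  have hrow : ∀ t : I × Fin (4 * q), ∑ i, F t i = if t.1 ∈ U then ∑ a ∈ L t.1, f t.1 a else 0 := by
    intro t
    by_cases h : t.1 ∈ U
    · simp only [hF, if_pos h]
      have h2 : L t.1 = univ.image (e t.1) := by
        ext a
        rw [hL _ h a]
        simp
      rw [h2, sum_image (fun x _ y _ hxy => hinj _ h hxy)]
    · simp only [hF, if_neg h]
      simp
  have htot : ∑ t, ∑ i, F t i ≤ 4 * q * nf := by
    have h1 : ∑ t, ∑ i, F t i
        = ∑ u : I, ∑ _j : Fin (4 * q), (if u ∈ U then ∑ a ∈ L u, f u a else 0) := by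
      rw [Fintype.sum_prod_type]
      exact sum_congr rfl fun u _ => sum_congr rfl fun j _ => hrow (u, j)
    rw [h1]
    simp only [sum_const, card_univ, Fintype.card_fin, nsmul_eq_mul]
    rw [← mul_sum]
    have h2 : ∑ u : I, (if u ∈ U then ∑ a ∈ L u, f u a else 0) = ∑ u ∈ U, ∑ a ∈ L u, f u a := by
      rw [← sum_filter]
      congr 1
      ext u
      simp
    rw [h2]
    push_cast
    exact mul_le_mul_of_nonneg_left hnf (by positivity)
  have hsq : ∑ t, ∑ i, F t i ^ 2 ≤ W * Fintype.card (Fin l) := by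
    have h1 : ∑ t, ∑ i, F t i ^ 2 ≤ mf * ∑ t, ∑ i, F t i := by
      rw [mul_sum]
      refine sum_le_sum fun t _ => ?_
      rw [mul_sum]
      refine sum_le_sum fun i _ => ?_
      rw [sq]
      exact mul_le_mul_of_nonneg_right (hFb t i).2 (hFb t i).1
    have h2 : mf * ∑ t, ∑ i, F t i ≤ mf * (4 * q * nf) := mul_le_mul_of_nonneg_left htot hmf.le
    have h3 : mf * (4 * q * nf) ≤ W * l := by
      have h4 : W * l = 4 * q * mf * nf + Lam * mf ^ 2 * l := by
        rw [hW]
        field_simp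
      rw [h4]
      have h5 : 0 ≤ Lam * mf ^ 2 * l := by positivity
      nlinarith
    rw [Fintype.card_fin]
    exact h1.trans (h2.trans h3)
  have key := hBernL (I × Fin (4 * q)) (Fin l) F mf W Lam hmf (by linarith) (by
      rw [hW]
      have : 0 ≤ 4 * q * mf * nf / l := by positivity
      linarith) (fun t a => by
      rw [abs_of_nonneg (hFb t a).1]
      exact (hFb t a).2) hsq
  refine (Nat.cast_le.2 (SmpP_fin _ _ _ _ _ _ ?_)).trans (key.trans (le_of_eq ?_))
  · intro ω hω
    refine le_trans ?_ hω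
    rw [Fintype.card_fin]
    have : (∑ t, ∑ i, F t i) / (l : ℝ) ≤ 4 * q * nf / l := by
      gcongr
    linarith
  · congr 2
    exact SmpP_card _ _

end Pool.TCV
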