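import Pool.Agent.Helper60.TCV.StX

/-!
# T10, section 6: the X-stage from the parts

`thm_X10`: every pair (cluster, block) gets one cell by `St_Samp`; the rows of these cells and their
colours satisfy `XP`.
-/

set_option autoImplicit false

namespace Pool.TCV

open Pool.TC Pool.TCM Pool.TCS Pool.TN Finset
open scoped Classical

section x10

variable {V κ : Type} [Fintype V] [Fintype κ]

private theorem X10_nb {G : SimpleGraph V} {u v : V} : v ∈ nb G u ↔ G.Adj u v := by simp [nb]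

private theorem X10_empty (P : Par) (t : Td V κ) (hV : IsEmpty V) :
    ∃ (X : V → Prop) (cX : V → κ), XP P t X cX := by
  refine ⟨fun _ => False, fun v => (hV.false v).elim, ?_⟩
  constructor
  · intro w; exact (hV.false w).elim
  · intro w; exact (hV.false w).elim
  · intro w; exact (hV.false w).elim
  · intro w; exact (hV.false w).elim
  · intro w; exact (hV.false w).elim
  · intro w; exact (hV.false w).elim
  · intro w; exact (hV.false w).elim
  · intro w; exact (hV.false w).elim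
  · intro w; exact (hV.false w).elim

private theorem X10_mem {P : Par} {t : Td V κ} {u : V × Finset κ} {p : V × κ}
    (h : p ∈ OpX P t u) : p.2 ∈ u.2 ∧ p.1 ∈ t.W1 P u.1 p.2 := by
  simpa only [OpX, mem_filter, mem_univ, true_and] using h

private theorem X10_Rg {P : Par} {t : Td V κ} {i w : V} {a : κ} (h : w ∈ t.W1 P i a) :
    w ∈ t.Rg P i := by
  have h1 := (mem_filter.1 h).1
  simp only [Ed.W0, mem_filter, mem_univ, true_and] at h1
  exact h1.1

private theorem X10_K {P : Par} {t : Td V κ} {i w : V} (h : w ∈ t.Rg P i) :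
    t.K w = some i := by
  simp only [Gd.Rg, mem_filter, mem_univ, true_and] at h
  exact h.1

private theorem X10_oo {P : Par} {t : Td V κ} {i w : V} (h : w ∈ t.Rg P i) :
    (t.oo w : ℝ) ≤ P.eta * P.D := by
  simp only [Gd.Rg, mem_filter, mem_univ, true_and] at h
  by_contra hc
  apply h.2
  refine ⟨?_, Or.inr (le_of_lt (not_le.1 hc))⟩
  rw [h.1]
  simp

private theorem X10_UX {Bl : V → Finset (Finset κ)} {u : V × Finset κ} :
    u ∈ UX Bl ↔ u.2 ∈ Bl u.1 := by
  simp only [UX, mem_filter, mem_univ, true_and]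

/-- the option set of a node is large -/
private theorem X10_big {P : Par} {t : Td V κ} {Bl : V → Finset (Finset κ)} (hBl : Blo P t Bl)
    {u : V × Finset κ} (hu : u ∈ UX Bl) : 3 * P.D / 25 ≤ (OpX P t u).card := by
  have h1 := hBl.big u.1 u.2 (X10_UX.1 hu)
  have h2 : (∑ a ∈ u.2, (t.W1 P u.1 a).card) ≤ (OpX P t u).card := by
    have h3 : (OpX P t u).card = ∑ a ∈ u.2, ((OpX P t u).filter (fun p => p.2 = a)).card := by
      apply card_eq_sum_card_fiberwise
      intro p hp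
      exact (X10_mem hp).1
    rw [h3]
    apply sum_le_sum
    intro a ha
    have h4 : (t.W1 P u.1 a).card ≤ (((t.W1 P u.1 a).image (fun w => (w, a)))).card := by
      rw [card_image_of_injective]
      intro x y hxy
      exact (Prod.ext_iff.1 hxy).1
    refine le_trans h4 (card_le_card ?_)
    intro p hp
    obtain ⟨w, hw, rfl⟩ := mem_image.1 hp
    simp only [OpX, mem_filter, mem_univ, true_and]
    exact ⟨⟨ha, hw⟩, trivial⟩
  apply Nat.div_le_of_le_mul
  exact le_trans h1 (Nat.mul_le_mul_left 25 h2)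

/-- the number of blocks is at most the number of problem colours -/
private theorem X10_cnt {P : Par} {t : Td V κ} {Bl : V → Finset (Finset κ)} (hBl : Blo P t Bl)
    (hD : 0 < P.D) (i : V) : (Bl i).card ≤ (t.Pb P i).card := by
  have hne : ∀ Γ ∈ Bl i, ∃ a, a ∈ Γ := by
    intro Γ hΓ
    by_contra hc
    have he : Γ = ∅ := by
      apply eq_empty_of_forall_notMem
      intro a ha
      exact hc ⟨a, ha⟩
    have h1 := hBl.big i Γ hΓ
    rw [he, sum_empty] at h1
    omega
  have hch : ∀ Γ : Finset κ, ∃ o : Option κ, Γ ∈ Bl i → ∃ a, o = some a ∧ a ∈ Γ := by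
    intro Γ
    by_cases hΓ : Γ ∈ Bl i
    · obtain ⟨a, ha⟩ := hne Γ hΓ
      exact ⟨some a, fun _ => ⟨a, rfl, ha⟩⟩
    · exact ⟨none, fun h => absurd h hΓ⟩
  choose o ho using hch
  have h2 : (Bl i).card ≤ ((t.Pb P i).image some).card := by
    apply card_le_card_of_injOn o
    · intro Γ hΓ
      obtain ⟨a, ha, haΓ⟩ := ho Γ hΓ
      rw [ha]
      exact mem_coe.2 (mem_image_of_mem _ (hBl.sub i Γ hΓ haΓ))
    · intro Γ hΓ Γ' hΓ' h
      obtain ⟨a, ha, haΓ⟩ := ho Γ hΓ
      obtain ⟨a', ha', haΓ'⟩ := ho Γ' hΓ'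
      rw [ha, ha'] at h
      have he : a = a' := Option.some.inj h
      subst he
      exact hBl.dis i Γ hΓ Γ' hΓ' a haΓ haΓ'
  exact le_trans h2 card_image_le

private theorem X10_sy (t : Td V κ) (p p' : V × κ) (h : cfX t p p') : cfX t p' p := by
  rcases h with h | h | h
  · exact Or.inl h.symm
  · exact Or.inr (Or.inl h.symm)
  · exact Or.inr (Or.inr ⟨h.1.symm, h.2.symm⟩)

/-- the bounds of the tests -/
private theorem X10_T {P : Par} {t : Td V κ} (hB : Bse P t) (h0 : 0 ≤ P.eta * P.D)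
    {u : V × Finset κ} {p : V × κ} (hp : p ∈ OpX P t u) (j : JX V κ) :
    0 ≤ TX t j p ∧ TX t j p ≤
      (Sum.elim (fun _ => P.eta * P.D + 1) (fun _ => 1) : JX V κ → ℝ) j := by
  rcases j with ⟨i, b⟩ | x | x
  · simp only [TX, Sum.elim_inl]
    split_ifs with h
    · have hR := X10_Rg (X10_mem hp).2
      have hne : i ≠ u.1 := by
        intro he
        apply h.2
        rw [he]
        exact X10_K hR
      have := hB.gr.lig i u.1 p.1 hR hne
      exact ⟨Nat.cast_nonneg _, by linarith⟩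
    · exact ⟨le_refl _, by linarith⟩
  · simp only [TX, Sum.elim_inr]
    split_ifs with h
    · exact ⟨zero_le_one, le_refl _⟩
    · exact ⟨le_refl _, zero_le_one⟩
  · simp only [TX, Sum.elim_inr]
    split_ifs with h
    · exact ⟨zero_le_one, le_refl _⟩
    · exact ⟨le_refl _, zero_le_one⟩

private theorem X10_T0 (t : Td V κ) (p : V × κ) (j : JX V κ) : 0 ≤ TX t j p := by
  rcases j with ⟨i, b⟩ | x | x
  · simp only [TX]
    split_ifs with h
    · exact Nat.cast_nonneg _
    · exact le_refl _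
  · simp only [TX]
    split_ifs with h
    · exact zero_le_one
    · exact le_refl _
  · simp only [TX]
    split_ifs with h
    · exact zero_le_one
    · exact le_refl _

/-- the final step: from the choice `c` to `XP` -/
private theorem X10_fin {P : Par} {t : Td V κ} {Bl : V → Finset (Finset κ)} (hB : Bse P t)
    (hBl : Blo P t Bl) (hD : 0 < P.D) (c : V × Finset κ → V × κ)
    (h1 : ∀ u ∈ UX Bl, c u ∈ OpX P t u)
    (h2 : ∀ u ∈ UX Bl, ∀ w ∈ UX Bl, u ≠ w → ¬ cfX t (c u) (c w))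
    (h5 : ∀ i b, (∑ u ∈ UX Bl, TX t (Sum.inl (i, b)) (c u)) ≤ P.eps * P.D)
    (h6 : ∀ x, (∑ u ∈ UX Bl, TX t (Sum.inr (Sum.inl x)) (c u)) ≤ P.xi * t.dKU x + P.nz)
    (h6' : ∀ x, (∑ u ∈ UX Bl, TX t (Sum.inr (Sum.inr x)) (c u)) ≤ P.xi * t.dKU x + P.nz) :
    ∃ (X : V → Prop) (cX : V → κ), XP P t X cX := by
  have hun : ∀ u ∈ UX Bl, ∀ u' ∈ UX Bl, (c u).1 = (c u').1 → u = u' := by
    intro u hu u' hu' h
    by_contra hne
    exact h2 u hu u' hu' hne (Or.inl h)
  obtain ⟨X, hX⟩ : ∃ X : V → Prop, ∀ w, X w ↔ ∃ u, u ∈ UX Bl ∧ (c u).1 = w :=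
    ⟨_, fun _ => Iff.rfl⟩
  obtain ⟨cX, hcX⟩ : ∃ cX : V → κ, ∀ w, cX w =
      if h : ∃ u, u ∈ UX Bl ∧ (c u).1 = w then (c h.choose).2 else t.m w :=
    ⟨_, fun _ => rfl⟩
  have hcXv : ∀ u ∈ UX Bl, cX (c u).1 = (c u).2 := by
    intro u hu
    have hex : ∃ u', u' ∈ UX Bl ∧ (c u').1 = (c u).1 := ⟨u, hu, rfl⟩
    have hs := hex.choose_spec
    have he : hex.choose = u := hun _ hs.1 _ hu hs.2
    rw [hcX, dif_pos hex, he]
  have hm : ∀ u ∈ UX Bl, (c u).2 ∈ u.2 := fun u hu => (X10_mem (h1 u hu)).1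
  have hW : ∀ u ∈ UX Bl, (c u).1 ∈ t.W1 P u.1 (c u).2 := fun u hu => (X10_mem (h1 u hu)).2
  have hR : ∀ u ∈ UX Bl, (c u).1 ∈ t.Rg P u.1 := fun u hu => X10_Rg (hW u hu)
  have hK : ∀ u ∈ UX Bl, t.K (c u).1 = some u.1 := fun u hu => X10_K (hR u hu)
  have hPb : ∀ u ∈ UX Bl, (c u).2 ∈ t.Pb P u.1 := fun u hu =>
    hBl.sub u.1 u.2 (X10_UX.1 hu) (hm u hu)
  refine ⟨X, cX, ?_⟩
  constructor
  · -- row
    intro w hw
    obtain ⟨u, hu, rfl⟩ := (hX w).1 hw
    exact ⟨u.1, hR u hu⟩
  · -- x1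
    intro i w hw hi
    obtain ⟨u, hu, rfl⟩ := (hX w).1 hw
    have he : u.1 = i := by
      have := (hK u hu).symm.trans hi
      exact Option.some.inj this
    rw [hcXv u hu, ← he]
    exact ⟨hPb u hu, hW u hu⟩
  · -- x2
    intro w w' hw hw' h
    obtain ⟨u, hu, rfl⟩ := (hX w).1 hw
    obtain ⟨u', hu', rfl⟩ := (hX w').1 hw'
    rw [hcXv u hu, hcXv u' hu'] at h
    by_contra hne
    have hne' : u ≠ u' := by
      intro he
      exact hne (by rw [he])
    exact h2 u hu u' hu' hne' (Or.inr (Or.inl h))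
  · -- x3
    intro w w' hw hw' hne hor h
    obtain ⟨u, hu, rfl⟩ := (hX w).1 hw
    obtain ⟨u', hu', rfl⟩ := (hX w').1 hw'
    rw [hcXv u hu, hcXv u' hu'] at h
    have hne' : u ≠ u' := by
      intro he
      exact hne (by rw [he])
    rcases hor with hk | ha
    · rw [hK u hu, hK u' hu'] at hk
      have he : u.1 = u'.1 := Option.some.inj hk
      apply hne'
      apply Prod.ext he
      apply hBl.dis u.1 u.2 (X10_UX.1 hu) u'.2 (by rw [he]; exact X10_UX.1 hu') (c u).2 (hm u hu)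
      rw [h]
      exact hm u' hu'
    · exact h2 u hu u' hu' hne' (Or.inr (Or.inr ⟨ha, h⟩))
  · -- x4
    intro i
    refine le_trans (hBl.cnt i) (Nat.add_le_add_right ?_ _)
    apply card_le_card_of_injOn (fun Γ => (c (i, Γ)).1)
    · intro Γ hΓ
      have hu : (i, Γ) ∈ UX Bl := X10_UX.2 hΓ
      rw [mem_coe, mem_filter]
      exact ⟨mem_univ _, hK _ hu, (hX _).2 ⟨(i, Γ), hu, rfl⟩⟩
    · intro Γ hΓ Γ' hΓ' h
      have hu : (i, Γ) ∈ UX Bl := X10_UX.2 hΓ
      have hu' : (i, Γ') ∈ UX Bl := X10_UX.2 hΓ'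
      exact (Prod.ext_iff.1 (hun _ hu _ hu' h)).2
  · -- x5
    intro i a
    refine le_trans ?_ (h5 i a)
    rw [Nat.cast_sum]
    have hsub : (univ.filter (fun x => X x ∧ t.K x ≠ some i ∧ cX x = a)) ⊆
        ((UX Bl).filter (fun u => (c u).2 = a ∧ t.K (c u).1 ≠ some i)).image
          (fun u => (c u).1) := by
      intro x hx
      obtain ⟨-, hx1, hk, hc⟩ := mem_filter.1 hx
      obtain ⟨u, hu, rfl⟩ := (hX x).1 hx1
      rw [hcXv u hu] at hc
      exact mem_image.2 ⟨u, mem_filter.2 ⟨hu, hc, hk⟩, rfl⟩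
    refine le_trans (sum_le_sum_of_subset_of_nonneg hsub
      (fun _ _ _ => Nat.cast_nonneg _)) ?_
    rw [sum_image]
    · rw [sum_filter]
      apply sum_le_sum
      intro u _
      simp only [TX]
      exact le_refl _
    · intro u hu u' hu' h
      exact hun u (mem_filter.1 hu).1 u' (mem_filter.1 hu').1 h
  · -- x6
    intro x _
    refine le_trans ?_ (h6 x)
    have hsub : ((nb t.G x).filter (fun w => X w)) ⊆
        ((UX Bl).filter (fun u => t.G.Adj x (c u).1)).image (fun u => (c u).1) := by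
      intro w hw
      obtain ⟨hw1, hw2⟩ := mem_filter.1 hw
      obtain ⟨u, hu, rfl⟩ := (hX w).1 hw2
      exact mem_image.2 ⟨u, mem_filter.2 ⟨hu, X10_nb.1 hw1⟩, rfl⟩
    have hc := le_trans (card_le_card hsub) card_image_le
    have hc' : (((nb t.G x).filter (fun w => X w)).card : ℝ) ≤
        (((UX Bl).filter (fun u => t.G.Adj x (c u).1)).card : ℝ) := by exact_mod_cast hc
    refine le_trans hc' (le_of_eq ?_)
    rw [card_filter, Nat.cast_sum]
    apply sum_congr rfl
    intro u _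
    simp only [TX]
    split_ifs <;> simp
  · -- x6'
    intro x _
    refine le_trans ?_ (h6' x)
    have hsub : ((nb t.G x).filter (fun v => colX t X cX v)) ⊆
        ((UX Bl).filter (fun u => t.G.Adj x (t.E.N (c u).2 (c u).1))).image
          (fun u => t.E.N (c u).2 (c u).1) := by
      intro v hv
      obtain ⟨hv1, w, hw, hv2⟩ := mem_filter.1 hv
      obtain ⟨u, hu, rfl⟩ := (hX w).1 hw
      rw [hcXv u hu] at hv2
      rw [X10_nb, ← hv2] at hv1
      exact mem_image.2 ⟨u, mem_filter.2 ⟨hu, hv1⟩, hv2⟩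
    have hc := le_trans (card_le_card hsub) card_image_le
    have hc' : (((nb t.G x).filter (fun v => colX t X cX v)).card : ℝ) ≤
        (((UX Bl).filter (fun u => t.G.Adj x (t.E.N (c u).2 (c u).1))).card : ℝ) := by
      exact_mod_cast hc
    refine le_trans hc' (le_of_eq ?_)
    rw [card_filter, Nat.cast_sum]
    apply sum_congr rfl
    intro u _
    simp only [TX]
    split_ifs <;> simp
  · -- x7
    intro i
    have hsub : (univ.filter (fun w => t.K w = some i ∧ X w)) ⊆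
        (Bl i).image (fun Γ => (c (i, Γ)).1) := by
      intro w hw
      obtain ⟨-, hk, hw2⟩ := mem_filter.1 hw
      obtain ⟨u, hu, rfl⟩ := (hX w).1 hw2
      have he : u.1 = i := Option.some.inj ((hK u hu).symm.trans hk)
      refine mem_image.2 ⟨u.2, ?_, ?_⟩
      · rw [← he]
        exact X10_UX.1 hu
      · show (c (i, u.2)).1 = (c u).1
        rw [← he]
    have hc := le_trans (le_trans (card_le_card hsub) card_image_le) (X10_cnt hBl hD i)
    exact le_trans (by exact_mod_cast hc) (hB.ed.pb i)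

end x10

/-- X10: the X-stage. -/
theorem thm_X10 (hSamp : St_Samp) (hBlo : St_Blo) (hXCf : St_XCf) (hXTo : St_XTo)
    (hXSu : St_XSu) (hXNu : St_XNu) : St_X10 := by
  intro P V κ _ _ t hN hB
  rcases isEmpty_or_nonempty V with hV | hV
  · exact X10_empty P t hV
  obtain ⟨Bl, hBl⟩ := hBlo P V κ t hN hB
  obtain ⟨hl0, hlN, hqN, hLam, hLq, hexp, n6, n7, n8, n9, heta, hth⟩ := hXNu P hN
  have hD : 0 < P.D := by
    by_contra hc
    have h0 : P.D = 0 := by omega
    rw [h0] at hl0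
    simp at hl0
  have hκ : Nonempty κ := by
    apply Fintype.card_pos_iff.1
    rw [hB.ed.col]
    exact Nat.succ_pos _
  have hch : ∀ u : V × Finset κ, ∃ L : Finset (V × κ), u ∈ UX Bl →
      L ⊆ OpX P t u ∧ L.card = 3 * P.D / 25 := by
    intro u
    by_cases hu : u ∈ UX Bl
    · obtain ⟨L, hL1, hL2⟩ := exists_subset_card_eq (X10_big hBl hu)
      exact ⟨L, fun _ => ⟨hL1, hL2⟩⟩
    · exact ⟨∅, fun h => absurd h hu⟩
  choose L hL using hch
  have hL1 : ∀ u ∈ UX Bl, L u ⊆ OpX P t u := fun u hu => (hL u hu).1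
  have hL2 : ∀ u ∈ UX Bl, (L u).card = 3 * P.D / 25 := fun u hu => (hL u hu).2
  obtain ⟨to1, to2, to3⟩ := hXTo P V κ t Bl L hB hBl hL1
  obtain ⟨su1, su2⟩ := hXSu P V κ t Bl L hN hB hBl hL1
  have hS := hSamp (V × Finset κ) (V × κ) (JX V κ) (UX Bl) L (fun _ p _ p' => cfX t p p')
    (fun j _ p => TX t j p)
    (Sum.elim (fun _ => P.eta * P.D + 1) (fun _ => 1))
    (Sum.elim (fun _ => 103 * P.delta * P.D ^ 2)
      (Sum.elim (fun x => (t.dKU x : ℝ) * (P.pmax * P.D))
        (fun x => (t.dKU x : ℝ) * (P.pmax * P.D))))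
    (3 * P.D / 25) (25 * P.X ^ 3) ((P.D + 2) ^ 4) P.Lam hL2 hl0 hlN hqN
    (fun _ p _ p' h => X10_sy t p p' h)
    (by
      intro u hu p hp
      have hp' := hL1 u hu hp
      have h1 := hXCf P V κ t Bl hB hBl u hu p hp'
      have h2 : (univ.filter (fun r : (V × Finset κ) × (V × κ) => r.1 ∈ UX Bl ∧ r.1 ≠ u ∧
          r.2 ∈ L r.1 ∧ cfX t p r.2)).card ≤ (univ.filter (fun r : (V × Finset κ) × (V × κ) =>
          r.1 ∈ UX Bl ∧ r.1 ≠ u ∧ r.2 ∈ OpX P t r.1 ∧ cfX t p r.2)).card := by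
        apply card_le_card
        intro r hr
        obtain ⟨-, a1, a2, a3, a4⟩ := mem_filter.1 hr
        exact mem_filter.2 ⟨mem_univ _, a1, a2, hL1 _ a1 a3, a4⟩
      have h3 : ((8 * (univ.filter (fun r : (V × Finset κ) × (V × κ) => r.1 ∈ UX Bl ∧ r.1 ≠ u ∧
          r.2 ∈ L r.1 ∧ cfX t p r.2)).card : ℕ) : ℝ) ≤ ((3 * P.D / 25 : ℕ) : ℝ) := by
        refine le_trans ?_ n6
        have h4 := hB.ed.pb u.1
        have h5 := X10_oo (X10_Rg (X10_mem hp').2)
        have h6 : (((univ.filter (fun r : (V × Finset κ) × (V × κ) => r.1 ∈ UX Bl ∧ r.1 ≠ u ∧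
          r.2 ∈ L r.1 ∧ cfX t p r.2)).card : ℕ) : ℝ) ≤ 2 * ((t.Pb P u.1).card : ℝ) +
            (t.oo p.1 : ℝ) := by
          exact_mod_cast le_trans h2 h1
        push_cast
        linarith
      exact_mod_cast h3)
    (fun j u hu p hp => X10_T hB heta (hL1 u hu hp) j)
    (by
      intro j
      rcases j with j | j
      · simp only [Sum.elim_inl]
        linarith
      · simp only [Sum.elim_inr]
        exact one_pos)
    (by
      intro j
      rcases j with ⟨i, b⟩ | x | x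
      · exact to1 i b
      · exact to2 x
      · exact to3 x)
    su1 su2 hLam hLq hexp
  obtain ⟨c, c1, c2, c3⟩ := hS
  have hdK : ∀ x, t.dKU x ≤ P.D := by
    intro x
    rw [← hB.gr.reg x]
    exact card_filter_le _ _
  apply X10_fin hB hBl hD c (fun u hu => hL1 u hu (c1 u hu)) c2
  · intro i b
    exact le_trans (c3 (Sum.inl (i, b))) n7
  · intro x
    exact le_trans (c3 (Sum.inr (Sum.inl x))) (n8 (t.dKU x) (hdK x))
  · intro x
    exact le_trans (c3 (Sum.inr (Sum.inr x))) (n8 (t.dKU x) (hdK x))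

end Pool.TCV
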