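import Pool.Agent.Helper60.TCV.StX

/-!
# T10, XCF: the number of conflicts of a cell (helper74)
-/

set_option autoImplicit false

namespace Pool.TCV

open Pool.TC Pool.TCM Pool.TCS Pool.TN Finset
open scoped Classical

section xcf

variable {V κ : Type} [Fintype V] [Fintype κ] {P : Par} {t : Td V κ}
  {Bl : V → Finset (Finset κ)}

theorem XCf_W1 {i w : V} {a : κ} (h : w ∈ t.W1 P i a) :
    t.K w = some i ∧ t.K (t.E.N a w) = some i := by
  have h0 : w ∈ t.W0 P i a := (mem_filter.1 h).1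
  obtain ⟨-, hr, hc⟩ := mem_filter.1 h0
  have hw : t.K w = some i := (mem_filter.1 hr).2.1
  refine ⟨hw, ?_⟩
  rcases hc with hc | hc
  · have : t.E.N a w = w := hc
    rw [this]
    exact hw
  · exact hc.2

/-- the facts about a cell of a node -/
theorem XCf_fa (hBl : Blo P t Bl) {u : V × Finset κ} {p : V × κ} (hu : u ∈ UX Bl)
    (hp : p ∈ OpX P t u) : u.2 ∈ Bl u.1 ∧ p.2 ∈ u.2 ∧ p.2 ∈ t.Pb P u.1 ∧ t.K p.1 = some u.1 ∧
      t.K (t.E.N p.2 p.1) = some u.1 := by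
  have h1 : u.2 ∈ Bl u.1 := (mem_filter.1 hu).2
  obtain ⟨-, h2, h3⟩ := mem_filter.1 hp
  obtain ⟨h4, h5⟩ := XCf_W1 h3
  exact ⟨h1, h2, hBl.sub _ _ h1 h2, h4, h5⟩

/-- the node is determined by the cell -/
theorem XCf_node (hBl : Blo P t Bl) {u u' : V × Finset κ} {p p' : V × κ} (hu : u ∈ UX Bl)
    (hu' : u' ∈ UX Bl) (hp : p ∈ OpX P t u) (hp' : p' ∈ OpX P t u') (h1 : t.K p.1 = t.K p'.1)
    (h2 : p.2 = p'.2) : u = u' := by
  obtain ⟨a1, a2, a3, a4, a5⟩ := XCf_fa hBl hu hp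
  obtain ⟨b1, b2, b3, b4, b5⟩ := XCf_fa hBl hu' hp'
  have e1 : u.1 = u'.1 := by
    rw [a4, b4] at h1
    exact Option.some.inj h1
  rw [← e1] at b1
  rw [← h2] at b2
  exact Prod.ext e1 (hBl.dis u.1 u.2 a1 u'.2 b1 p.2 a2 b2)

end xcf

theorem thm_XCf : St_XCf := by
  intro P V κ _ _ t Bl hB hBl u hu p hp
  obtain ⟨a1, a2, a3, a4, a5⟩ := XCf_fa hBl hu hp
  set F : Finset ((V × Finset κ) × (V × κ)) :=
    univ.filter (fun r : (V × Finset κ) × (V × κ) => r.1 ∈ UX Bl ∧ r.1 ≠ u ∧ r.2 ∈ OpX P t r.1 ∧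
      cfX t p r.2) with hF
  have hmem : ∀ r ∈ F, r.1 ∈ UX Bl ∧ r.1 ≠ u ∧ r.2 ∈ OpX P t r.1 ∧ cfX t p r.2 := fun r hr =>
    (mem_filter.1 hr).2
  have hsub : F ⊆ (F.filter fun r => p.1 = r.2.1) ∪
      ((F.filter fun r => t.E.N p.2 p.1 = t.E.N r.2.2 r.2.1) ∪
        (F.filter fun r => t.G.Adj p.1 r.2.1 ∧ p.2 = r.2.2)) := by
    intro r hr
    obtain ⟨-, -, -, hc⟩ := hmem r hr
    rcases hc with hc | hc | hc
    · exact mem_union_left _ (mem_filter.2 ⟨hr, hc⟩)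
    · exact mem_union_right _ (mem_union_left _ (mem_filter.2 ⟨hr, hc⟩))
    · exact mem_union_right _ (mem_union_right _ (mem_filter.2 ⟨hr, hc⟩))
  have h1 : (F.filter fun r => p.1 = r.2.1).card ≤ (t.Pb P u.1).card := by
    refine card_le_card_of_injOn (fun r => r.2.2) ?_ ?_
    · intro r hr
      obtain ⟨hr1, hr2⟩ := mem_filter.1 (mem_coe.1 hr)
      obtain ⟨b1, b2, b3, b4⟩ := hmem r hr1
      obtain ⟨c1, c2, c3, c4, c5⟩ := XCf_fa hBl b1 b3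
      rw [← hr2, a4] at c4
      rw [Option.some.inj c4]
      exact mem_coe.2 c3
    · intro r hr r' hr' he
      obtain ⟨hr1, hr2⟩ := mem_filter.1 (mem_coe.1 hr)
      obtain ⟨hr1', hr2'⟩ := mem_filter.1 (mem_coe.1 hr')
      obtain ⟨b1, b2, b3, b4⟩ := hmem r hr1
      obtain ⟨b1', b2', b3', b4'⟩ := hmem r' hr1'
      have he' : r.2.2 = r'.2.2 := he
      have e1 : r.2.1 = r'.2.1 := hr2.symm.trans hr2'
      exact Prod.ext (XCf_node hBl b1 b1' b3 b3' (by rw [e1]) he') (Prod.ext e1 he')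
  have h2 : (F.filter fun r => t.E.N p.2 p.1 = t.E.N r.2.2 r.2.1).card ≤ (t.Pb P u.1).card := by
    refine card_le_card_of_injOn (fun r => r.2.2) ?_ ?_
    · intro r hr
      obtain ⟨hr1, hr2⟩ := mem_filter.1 (mem_coe.1 hr)
      obtain ⟨b1, b2, b3, b4⟩ := hmem r hr1
      obtain ⟨c1, c2, c3, c4, c5⟩ := XCf_fa hBl b1 b3
      rw [← hr2, a5] at c5
      rw [Option.some.inj c5]
      exact mem_coe.2 c3
    · intro r hr r' hr' he
      obtain ⟨hr1, hr2⟩ := mem_filter.1 (mem_coe.1 hr)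
      obtain ⟨hr1', hr2'⟩ := mem_filter.1 (mem_coe.1 hr')
      obtain ⟨b1, b2, b3, b4⟩ := hmem r hr1
      obtain ⟨b1', b2', b3', b4'⟩ := hmem r' hr1'
      have he' : r.2.2 = r'.2.2 := he
      have e1 : r.2.1 = r'.2.1 := by
        rw [← t.E.inv r.2.2 r.2.1, ← t.E.inv r'.2.2 r'.2.1, ← hr2, ← hr2', he']
      exact Prod.ext (XCf_node hBl b1 b1' b3 b3' (by rw [e1]) he') (Prod.ext e1 he')
  have h3 : (F.filter fun r => t.G.Adj p.1 r.2.1 ∧ p.2 = r.2.2).card ≤ t.oo p.1 := by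
    unfold Gd.oo
    refine card_le_card_of_injOn (fun r => r.2.1) ?_ ?_
    · intro r hr
      obtain ⟨hr1, hr2, hr3⟩ := mem_filter.1 (mem_coe.1 hr)
      obtain ⟨b1, b2, b3, b4⟩ := hmem r hr1
      refine mem_coe.2 (mem_filter.2 ⟨mem_filter.2 ⟨mem_univ _, hr2⟩, fun hK => b2 ?_⟩)
      exact XCf_node hBl b1 hu b3 hp hK hr3.symm
    · intro r hr r' hr' he
      obtain ⟨hr1, hr2, hr3⟩ := mem_filter.1 (mem_coe.1 hr)
      obtain ⟨hr1', hr2', hr3'⟩ := mem_filter.1 (mem_coe.1 hr')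
      obtain ⟨b1, b2, b3, b4⟩ := hmem r hr1
      obtain ⟨b1', b2', b3', b4'⟩ := hmem r' hr1'
      have he' : r.2.1 = r'.2.1 := he
      have e1 : r.2.2 = r'.2.2 := hr3.symm.trans hr3'
      exact Prod.ext (XCf_node hBl b1 b1' b3 b3' (by rw [he']) e1) (Prod.ext he' e1)
  calc F.card ≤ _ := card_le_card hsub
    _ ≤ _ := card_union_le _ _
    _ ≤ (t.Pb P u.1).card + ((t.Pb P u.1).card + t.oo p.1) :=
        Nat.add_le_add h1 ((card_union_le _ _).trans (Nat.add_le_add h2 h3))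
    _ = 2 * (t.Pb P u.1).card + t.oo p.1 := by ring

end Pool.TCV
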