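import Pool.Agent.Helper60.TCV.StX

/-!
# T10, section 6: the numerical conditions of the X-stage
-/

set_option autoImplicit false

namespace Pool.TCV

open Pool.TC Pool.TCM Pool.TCS Pool.TN Finset
open scoped Classical

/-- the test (L5) -/
theorem XNu_l5 (x D η δ l ε : ℝ) (hx : 100 ≤ x) (hD : 0 < D) (h1 : 1 ≤ η * D)
    (hl : 119 * D ≤ 1000 * l) (hδ0 : 0 ≤ δ) (hδ : 10 ^ 5 * δ ≤ η) (hε : 10 * (x ^ 3 * η) ≤ ε) :
    4 * (25 * x ^ 3) * (103 * δ * D ^ 2) / l +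
      3 * Real.sqrt ((4 * (25 * x ^ 3) * (η * D + 1) * (103 * δ * D ^ 2) / l +
        x ^ 3 * (η * D + 1) ^ 2) * x ^ 3) ≤ ε * D := by
  have hl0 : 0 < l := by linarith
  have hη : 0 < η := by
    by_contra hc
    push Not at hc
    have := mul_nonpos_of_nonpos_of_nonneg hc hD.le
    linarith
  have hx3 : 0 < x ^ 3 := by positivity
  set c := x ^ 3 with hc
  have hcD : 0 ≤ c * (δ * D) := by positivity
  have a1 : 4 * (25 * c) * (103 * δ * D ^ 2) / l ≤ c * (10 ^ 5 * δ * D) := by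
    rw [div_le_iff₀ hl0]
    have e1 : c * (10 ^ 5 * δ * D) * l = (c * (δ * D)) * (10 ^ 5 * l) := by ring
    have e2 : 4 * (25 * c) * (103 * δ * D ^ 2) = (c * (δ * D)) * (10300 * D) := by ring
    rw [e1, e2]
    apply mul_le_mul_of_nonneg_left _ hcD
    nlinarith
  have a1' : c * (10 ^ 5 * δ * D) ≤ c * (η * D) := by
    apply mul_le_mul_of_nonneg_left _ hx3.le
    exact mul_le_mul_of_nonneg_right hδ hD.le
  set z := η * D with hz
  have a2 : 4 * (25 * c) * (z + 1) * (103 * δ * D ^ 2) / l ≤ c * z * (z + 1) := by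
    have e1 : 4 * (25 * c) * (z + 1) * (103 * δ * D ^ 2) / l =
        (4 * (25 * c) * (103 * δ * D ^ 2) / l) * (z + 1) := by ring
    rw [e1]
    exact mul_le_mul_of_nonneg_right (a1.trans a1') (by linarith)
  have a3 : (4 * (25 * c) * (z + 1) * (103 * δ * D ^ 2) / l + c * (z + 1) ^ 2) * c ≤
      (3 * (c * z)) ^ 2 := by
    have b1 : c * z * (z + 1) + c * (z + 1) ^ 2 ≤ c * (9 * z ^ 2) := by
      have : z * (z + 1) + (z + 1) ^ 2 ≤ 9 * z ^ 2 := by nlinarith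
      calc c * z * (z + 1) + c * (z + 1) ^ 2 = c * (z * (z + 1) + (z + 1) ^ 2) := by ring
        _ ≤ c * (9 * z ^ 2) := mul_le_mul_of_nonneg_left this hx3.le
    calc (4 * (25 * c) * (z + 1) * (103 * δ * D ^ 2) / l + c * (z + 1) ^ 2) * c ≤
        (c * (9 * z ^ 2)) * c := mul_le_mul_of_nonneg_right (by linarith) hx3.le
      _ = (3 * (c * z)) ^ 2 := by ring
  have a4 : Real.sqrt ((4 * (25 * c) * (z + 1) * (103 * δ * D ^ 2) / l + c * (z + 1) ^ 2) * c) ≤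
      3 * (c * z) := by
    rw [show 3 * (c * z) = Real.sqrt ((3 * (c * z)) ^ 2) from
      (Real.sqrt_sq (by positivity)).symm]
    exact Real.sqrt_le_sqrt a3
  have a5 : 10 * (c * z) ≤ ε * D := by
    calc 10 * (c * z) = (10 * (c * η)) * D := by rw [hz]; ring
      _ ≤ ε * D := mul_le_mul_of_nonneg_right hε hD.le
  linarith

/-- the tests (L6) -/
theorem XNu_l6 (x D p l : ℝ) (hx : 100 ≤ x) (hD : 1 ≤ D) (hp0 : 0 ≤ p) (hp : 1000 * p ≤ 1)
    (hl : 119 * D ≤ 1000 * l) (d : ℝ) (hd0 : 0 ≤ d) (hd : d ≤ D) :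
    4 * (25 * x ^ 3) * (d * (p * D)) / l +
      3 * Real.sqrt ((4 * (25 * x ^ 3) * 1 * (d * (p * D)) / l + x ^ 3 * 1 ^ 2) * x ^ 3) ≤
      2000 * x ^ 3 * p * d + x ^ 10 * Real.sqrt D := by
  have hl0 : 0 < l := by linarith
  have hx3 : 0 < x ^ 3 := by positivity
  have hx0 : 0 < x := by linarith
  have a1 : 4 * (25 * x ^ 3) * (d * (p * D)) / l ≤ x ^ 3 * (850 * (p * d)) := by
    rw [div_le_iff₀ hl0]
    have e1 : x ^ 3 * (850 * (p * d)) * l = (x ^ 3 * (p * d)) * (850 * l) := by ring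
    have e2 : 4 * (25 * x ^ 3) * (d * (p * D)) = (x ^ 3 * (p * d)) * (100 * D) := by ring
    rw [e1, e2]
    apply mul_le_mul_of_nonneg_left _ (by positivity)
    nlinarith
  have a2 : 850 * (p * d) ≤ D := by
    have : p * d ≤ p * D := mul_le_mul_of_nonneg_left hd hp0
    have h2 : 1000 * p * D ≤ 1 * D := mul_le_mul_of_nonneg_right hp (by linarith)
    have h3 : 0 ≤ p * D := by positivity
    nlinarith
  have a3 : (4 * (25 * x ^ 3) * 1 * (d * (p * D)) / l + x ^ 3 * 1 ^ 2) * x ^ 3 ≤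
      (x ^ 4 * Real.sqrt D) ^ 2 := by
    rw [mul_pow, Real.sq_sqrt (by linarith), mul_one, one_pow, mul_one]
    have b1 : x ^ 3 * (850 * (p * d)) ≤ x ^ 3 * D := mul_le_mul_of_nonneg_left a2 hx3.le
    have b2 : x ^ 3 * 1 ≤ x ^ 3 * D := mul_le_mul_of_nonneg_left hD hx3.le
    calc (4 * (25 * x ^ 3) * (d * (p * D)) / l + x ^ 3) * x ^ 3 ≤
        (x ^ 3 * D + x ^ 3 * D) * x ^ 3 :=
          mul_le_mul_of_nonneg_right (by linarith) hx3.le
      _ = 2 * (x ^ 6 * D) := by ring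
      _ ≤ x ^ 2 * (x ^ 6 * D) := by
          apply mul_le_mul_of_nonneg_right _ (by positivity)
          nlinarith
      _ = (x ^ 4) ^ 2 * D := by ring
  have a4 : Real.sqrt ((4 * (25 * x ^ 3) * 1 * (d * (p * D)) / l + x ^ 3 * 1 ^ 2) * x ^ 3) ≤
      x ^ 4 * Real.sqrt D := by
    rw [show x ^ 4 * Real.sqrt D = Real.sqrt ((x ^ 4 * Real.sqrt D) ^ 2) from
      (Real.sqrt_sq (by positivity)).symm]
    exact Real.sqrt_le_sqrt a3
  have a5 : 3 * (x ^ 4 * Real.sqrt D) ≤ x ^ 10 * Real.sqrt D := by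
    have e : 3 * x ^ 4 ≤ x ^ 10 := by
      calc 3 * x ^ 4 ≤ x ^ 6 * x ^ 4 := by
            apply mul_le_mul_of_nonneg_right _ (by positivity)
            have : (1 : ℝ) ≤ x := by linarith
            calc (3 : ℝ) ≤ x := by linarith
              _ = x ^ 1 := (pow_one x).symm
              _ ≤ x ^ 6 := pow_le_pow_right₀ this (by norm_num)
        _ = x ^ 10 := by ring
    calc 3 * (x ^ 4 * Real.sqrt D) = (3 * x ^ 4) * Real.sqrt D := by ring
      _ ≤ x ^ 10 * Real.sqrt D := mul_le_mul_of_nonneg_right e (Real.sqrt_nonneg _)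
  have a6 : x ^ 3 * (850 * (p * d)) ≤ 2000 * x ^ 3 * p * d := by
    have : 0 ≤ x ^ 3 * (p * d) := by positivity
    nlinarith
  linarith

/-- the exponential -/
theorem XNu_exp (X D : ℕ) (hX : 100 ≤ X) (hD : D < 2 ^ (X + 1)) :
    4 * Real.exp (-((X : ℝ) ^ 3)) * (2 * (((D + 2) ^ 4 : ℕ) : ℝ) ^ 4 + 1) ≤ 1 := by
  have h1 : D + 2 ≤ 2 ^ (X + 2) := by
    have : 2 ^ (X + 2) = 2 * 2 ^ (X + 1) := by ring
    have h2 : 2 ≤ 2 ^ (X + 1) := by
      calc 2 = 2 ^ 1 := rfl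
        _ ≤ 2 ^ (X + 1) := Nat.pow_le_pow_right (by norm_num) (by omega)
    omega
  have h2 : (((D + 2) ^ 4 : ℕ)) ^ 4 ≤ 2 ^ (16 * X + 32) := by
    calc (((D + 2) ^ 4 : ℕ)) ^ 4 ≤ ((2 ^ (X + 2)) ^ 4) ^ 4 := by gcongr
      _ = 2 ^ (16 * X + 32) := by
          rw [← pow_mul, ← pow_mul]
          ring_nf
  have h3 : 4 * (2 * (((D + 2) ^ 4 : ℕ)) ^ 4 + 1) ≤ 2 ^ (16 * X + 36) := by
    have e : 2 ^ (16 * X + 36) = 16 * 2 ^ (16 * X + 32) := by
      rw [show 16 * X + 36 = 4 + (16 * X + 32) by ring, pow_add]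
      norm_num
    have h1' : 1 ≤ 2 ^ (16 * X + 32) := Nat.one_le_pow _ _ (by norm_num)
    omega
  have h4 : 16 * X + 36 ≤ X ^ 3 := by
    nlinarith [Nat.mul_le_mul hX hX, Nat.mul_le_mul (Nat.mul_le_mul hX hX) (le_refl X)]
  have h5 : (2 : ℝ) ^ (16 * X + 36) ≤ Real.exp ((X : ℝ) ^ 3) := by
    have e1 : Real.exp ((X : ℝ) ^ 3) = Real.exp 1 ^ (X ^ 3) := by
      rw [← Real.exp_nat_mul]
      push_cast
      ring_nf
    rw [e1]
    have e2 : (2 : ℝ) ≤ Real.exp 1 := by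
      have := Real.add_one_le_exp (1 : ℝ)
      linarith
    calc (2 : ℝ) ^ (16 * X + 36) ≤ 2 ^ (X ^ 3) := pow_le_pow_right₀ (by norm_num) h4
      _ ≤ Real.exp 1 ^ (X ^ 3) := pow_le_pow_left₀ (by norm_num) e2 _
  have h6 : 4 * (2 * (((D + 2) ^ 4 : ℕ) : ℝ) ^ 4 + 1) ≤ (2 : ℝ) ^ (16 * X + 36) := by
    exact_mod_cast h3
  have h7 : 4 * (2 * (((D + 2) ^ 4 : ℕ) : ℝ) ^ 4 + 1) ≤ Real.exp ((X : ℝ) ^ 3) := h6.trans h5
  calc 4 * Real.exp (-((X : ℝ) ^ 3)) * (2 * (((D + 2) ^ 4 : ℕ) : ℝ) ^ 4 + 1) =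
      Real.exp (-((X : ℝ) ^ 3)) * (4 * (2 * (((D + 2) ^ 4 : ℕ) : ℝ) ^ 4 + 1)) := by ring
    _ ≤ Real.exp (-((X : ℝ) ^ 3)) * Real.exp ((X : ℝ) ^ 3) :=
        mul_le_mul_of_nonneg_left h7 (Real.exp_pos _).le
    _ = 1 := by rw [← Real.exp_add]; simp

/-- powers of `y = 1 / x` -/
theorem XNu_pw (y : ℝ) (hy0 : 0 < y) (hy : 10 ^ 20 * y ≤ 1) (m n : ℕ) (h : m < n) :
    10 ^ 20 * y ^ n ≤ y ^ m := by
  have hy1 : y ≤ 1 := by
    nlinarith
  calc 10 ^ 20 * y ^ n ≤ 10 ^ 20 * y ^ (m + 1) := by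
        apply mul_le_mul_of_nonneg_left _ (by positivity)
        exact pow_le_pow_of_le_one hy0.le hy1 h
    _ = (10 ^ 20 * y) * y ^ m := by ring
    _ ≤ 1 * y ^ m := mul_le_mul_of_nonneg_right hy (by positivity)
    _ = y ^ m := one_mul _

theorem thm_XNu : St_XNu := by
  intro P hN
  have hX0 := hN.X0
  have hx20 : (10 : ℝ) ^ 20 ≤ (P.X : ℝ) := by exact_mod_cast hX0
  set x : ℝ := (P.X : ℝ) with hx
  have hx1 : (1 : ℝ) ≤ x := le_trans (by norm_num) hx20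
  have hxpos : 0 < x := by linarith
  have hx100 : (100 : ℝ) ≤ x := le_trans (by norm_num) hx20
  -- the size of `D`
  have hXD : x ^ 4000000 ≤ (P.D : ℝ) := hN.XD
  have hDk : ∀ k : ℕ, k ≤ 4000000 → x ^ k ≤ (P.D : ℝ) := fun k hk =>
    (pow_le_pow_right₀ hx1 hk).trans hXD
  have hD4 : x ^ 4 ≤ (P.D : ℝ) := hDk 4 (by norm_num)
  have hD1600 : x ^ 1600 ≤ (P.D : ℝ) := hDk 1600 (by norm_num)
  have hDx : x ≤ (P.D : ℝ) := by simpa using hDk 1 (by norm_num)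
  have hDbig : (10 : ℝ) ^ 20 ≤ (P.D : ℝ) := hx20.trans hDx
  have hDN : 10 ^ 20 ≤ P.D := by exact_mod_cast hDbig
  have hDpos : (0 : ℝ) < (P.D : ℝ) := lt_of_lt_of_le (by norm_num) hDbig
  -- `y = 1 / x`
  obtain ⟨y, hy⟩ : ∃ y : ℝ, y = 1 / x := ⟨_, rfl⟩
  have hy0 : 0 < y := by rw [hy]; positivity
  have hxy : x * y = 1 := by rw [hy]; field_simp
  have hyb : 10 ^ 20 * y ≤ 1 := by
    calc 10 ^ 20 * y ≤ x * y := mul_le_mul_of_nonneg_right hx20 hy0.le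
      _ = 1 := hxy
  have hyk : ∀ k : ℕ, 1 / x ^ k = y ^ k := fun k => by rw [hy, one_div_pow]
  have hxyk : ∀ k : ℕ, x ^ k * y ^ k = 1 := fun k => by rw [← mul_pow, hxy, one_pow]
  have heta : P.eta = y ^ 1600 := by rw [hN.eta, ← hx, hyk]
  have hdelta : P.delta = y ^ 4900 := by rw [hN.delta, ← hx, hyk]
  have heps : P.eps = y ^ 15 := by rw [hN.eps, ← hx, hyk]
  have htheta : P.theta = y ^ 14 := by rw [hN.theta, ← hx, hyk]
  have hpmax : P.pmax = 103 * y ^ 4886 := by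
    rw [hN.pmax, hdelta, htheta, div_eq_iff (by positivity), mul_assoc, ← pow_add]
  have hLam : P.Lam = x ^ 3 := hN.Lam
  have heta0 : 0 < P.eta := by rw [heta]; positivity
  have hdelta0 : 0 < P.delta := by rw [hdelta]; positivity
  have htheta0 : 0 < P.theta := by rw [htheta]; positivity
  have hpmax0 : 0 < P.pmax := by rw [hpmax]; positivity
  -- smallness
  have hpe : 10 ^ 10 * P.pmax ≤ P.eps := by
    have h := XNu_pw y hy0 hyb 15 4886 (by norm_num)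
    rw [hpmax, heps]
    have h0 : 0 < y ^ 4886 := by positivity
    nlinarith
  have hde : 10 ^ 5 * P.delta ≤ P.eta := by
    have h := XNu_pw y hy0 hyb 1600 4900 (by norm_num)
    rw [hdelta, heta]
    have h0 : 0 < y ^ 4900 := by positivity
    nlinarith
  have heps1 : 10 ^ 20 * P.eps ≤ 1 := by
    have h := XNu_pw y hy0 hyb 0 15 (by norm_num)
    rw [heps]
    simpa using h
  have heta1 : 10 ^ 20 * P.eta ≤ 1 := by
    have h := XNu_pw y hy0 hyb 0 1600 (by norm_num)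
    rw [heta]
    simpa using h
  have hee : 10 * (x ^ 3 * P.eta) ≤ P.eps := by
    have h := XNu_pw y hy0 hyb 15 1597 (by norm_num)
    rw [heta, heps]
    have e : x ^ 3 * y ^ 1600 = y ^ 1597 := by
      rw [show (1600 : ℕ) = 3 + 1597 by norm_num, pow_add, ← mul_assoc, hxyk, one_mul]
    rw [e]
    have h0 : 0 < y ^ 1597 := by positivity
    nlinarith
  have hetaD : 1 ≤ P.eta * P.D := by
    rw [heta]
    calc (1 : ℝ) = y ^ 1600 * x ^ 1600 := by rw [mul_comm]; exact (hxyk 1600).symm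
      _ ≤ y ^ 1600 * P.D := mul_le_mul_of_nonneg_left hD1600 (by positivity)
  have hpm1 : 10 ^ 6 * P.pmax ≤ 1 := by linarith
  have hpm3 : 1000 * P.pmax ≤ 1 := by linarith
  have het1 : 10 ^ 6 * P.eta ≤ 1 := by linarith
  have hpmle : P.pmax ≤ P.eps := by linarith
  -- the natural number `l`
  have hl0 : 0 < 3 * P.D / 25 := Nat.div_pos (by omega) (by norm_num)
  have hl1 : 119 * P.D ≤ 1000 * (3 * P.D / 25) := by omega
  have hl1r : 119 * (P.D : ℝ) ≤ 1000 * ((3 * P.D / 25 : ℕ) : ℝ) := by exact_mod_cast hl1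
  have hq : ((25 * P.X ^ 3 : ℕ) : ℝ) = 25 * x ^ 3 := by push_cast; rfl
  have hlog : P.D < 2 ^ (P.X + 1) := by
    rw [hN.XL]
    exact Nat.lt_pow_succ_log_self (by norm_num) _
  refine ⟨hl0, ?_, ?_, ?_, ?_, ?_, ?_, ?_, ?_, ?_, ?_, ?_⟩
  · calc 3 * P.D / 25 ≤ P.D + 2 := by omega
      _ ≤ (P.D + 2) ^ 4 := Nat.le_self_pow (by norm_num) _
  · have h1 : P.X ^ 4 ≤ P.D := by
      have h1' : (P.X : ℝ) ^ 4 ≤ (P.D : ℝ) := hD4
      exact_mod_cast h1'
    have h2 : 4 * (25 * P.X ^ 3) ≤ P.X ^ 4 := by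
      have e : P.X ^ 4 = P.X * P.X ^ 3 := by ring
      rw [e]
      have h100 : 100 ≤ P.X := le_trans (by norm_num) hX0
      have h3 := Nat.mul_le_mul_right (P.X ^ 3) h100
      omega
    calc 4 * (25 * P.X ^ 3) ≤ P.D + 2 := by omega
      _ ≤ (P.D + 2) ^ 4 := Nat.le_self_pow (by norm_num) _
  · rw [hLam]
    exact one_le_pow₀ hx1
  · rw [hLam, hq]
  · rw [hLam]
    exact XNu_exp P.X P.D (le_trans (by norm_num) hX0) hlog
  · have h1 : P.pmax * P.D ≤ P.D / 10 ^ 6 := by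
      rw [le_div_iff₀ (by positivity)]
      have h3 := mul_le_mul_of_nonneg_right hpm1 hDpos.le
      linarith
    have h2 : P.eta * P.D ≤ P.D / 10 ^ 6 := by
      rw [le_div_iff₀ (by positivity)]
      have h3 := mul_le_mul_of_nonneg_right het1 hDpos.le
      linarith
    linarith
  · rw [hLam, hq]
    exact XNu_l5 x P.D P.eta P.delta _ P.eps hx100 hDpos hetaD hl1r hdelta0.le hde hee
  · intro d hd
    rw [hLam, hq, hN.xi, hLam, hN.nz, ← hx]
    exact XNu_l6 x P.D P.pmax _ hx100 (le_trans (by norm_num) hDbig) hpmax0.le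
      hpm3 hl1r d (Nat.cast_nonneg _) (by exact_mod_cast hd)
  · exact mul_le_mul_of_nonneg_right hpmle hDpos.le
  · positivity
  · positivity

end Pool.TCV
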