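import Pool.Agent.Helper60.TCV.StX

/-!
# T10, XSU: the supports of the tests (helper20)
-/

set_option autoImplicit false
set_option linter.unusedSectionVars false

namespace Pool.TCV

open Pool.TC Pool.TCM Pool.TCS Pool.TN Finset
open scoped Classical

section xsu

variable {V κ : Type} [Fintype V] [Fintype κ] {P : Par} {t : Td V κ}
  {Bl : V → Finset (Finset κ)}

theorem XSu_W1 {i w : V} {a : κ} (h : w ∈ t.W1 P i a) :
    t.K w = some i ∧ t.K (t.E.N a w) = some i := by
  have h0 : w ∈ t.W0 P i a := (mem_filter.1 h).1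
  obtain ⟨-, hr, hc⟩ := mem_filter.1 h0
  have hw : t.K w = some i := (mem_filter.1 hr).2.1
  refine ⟨hw, ?_⟩
  rcases hc with hc | hc
  · have : t.E.N a w = w := hc
    rw [this]
    exact hw
  · exact hc.2

/-- the option sets are disjoint -/
theorem XSu_dis (hBl : Blo P t Bl) {u u' : V × Finset κ} (hu : u ∈ UX Bl) (hu' : u' ∈ UX Bl)
    {p : V × κ} (hp : p ∈ OpX P t u) (hp' : p ∈ OpX P t u') : u = u' := by
  obtain ⟨-, h1, h2⟩ := mem_filter.1 hp
  obtain ⟨-, h1', h2'⟩ := mem_filter.1 hp'
  have e1 : u.1 = u'.1 := by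
    have a1 := (XSu_W1 h2).1
    have a2 := (XSu_W1 h2').1
    rw [a1] at a2
    exact Option.some.inj a2
  have b1 : u.2 ∈ Bl u.1 := (mem_filter.1 hu).2
  have b2 : u'.2 ∈ Bl u'.1 := (mem_filter.1 hu').2
  rw [← e1] at b2
  exact Prod.ext e1 (hBl.dis u.1 u.2 b1 u'.2 b2 p.2 h1 h1')

/-- `|K_i| ≤ 2 (D + 1)` -/
theorem XSu_Ki (hN : Num10 P) (hB : Bse P t) (i : V) : (t.Ki i).card ≤ 2 * (P.D + 1) := by
  have h1 := hB.gr.k2 i
  have hX : (1 : ℝ) ≤ (P.X : ℝ) := by
    have : (1 : ℕ) ≤ P.X := le_trans (by norm_num) hN.X0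
    exact_mod_cast this
  have hX' : (10 : ℝ) ^ 20 ≤ (P.X : ℝ) := by
    exact_mod_cast hN.X0
  have h2 : P.delta ≤ 1 / 102 := by
    rw [hN.delta]
    have h3 : (102 : ℝ) ≤ (P.X : ℝ) ^ 4900 := by
      calc (102 : ℝ) ≤ (10 : ℝ) ^ 20 := by norm_num
        _ ≤ (P.X : ℝ) := hX'
        _ = (P.X : ℝ) ^ 1 := (pow_one _).symm
        _ ≤ (P.X : ℝ) ^ 4900 := pow_le_pow_right₀ hX (by norm_num)
    exact one_div_le_one_div_of_le (by norm_num) h3
  have h3 : 102 * P.delta * P.D ≤ P.D := by
    have hD : (0 : ℝ) ≤ P.D := Nat.cast_nonneg _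
    nlinarith
  have h4 : ((t.Ki i).card : ℝ) ≤ ((2 * (P.D + 1) : ℕ) : ℝ) := by
    push_cast
    linarith
  exact_mod_cast h4

/-- the neighbours of the cluster `i` -/
theorem XSu_nb (hN : Num10 P) (hB : Bse P t) (i : V) :
    ((t.Ki i).biUnion (fun w => nb t.G w)).card ≤ 2 * (P.D + 1) * P.D := by
  refine card_biUnion_le.trans ?_
  rw [sum_congr rfl fun w _ => hB.gr.reg w, sum_const, smul_eq_mul]
  exact Nat.mul_le_mul_right _ (XSu_Ki hN hB i)

theorem XSu_num (D : ℕ) : 2 * (D + 1) * D * (D + 1) + (2 * (D + 1) * D + 2 * (D + 1) * D) ≤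
    (D + 2) ^ 4 := by
  have : (D + 2) ^ 4 = 2 * (D + 1) * D * (D + 1) + (2 * (D + 1) * D + 2 * (D + 1) * D) +
      (D ^ 4 + 6 * D ^ 3 + 16 * D ^ 2 + 26 * D + 16) := by ring
  omega

end xsu

theorem thm_XSu : St_XSu := by
  intro P V κ _ _ t Bl L hN hB hBl hL
  have hcol : Fintype.card κ = P.D + 1 := hB.ed.col
  constructor
  · intro j
    -- the cells with a nonzero value
    have h1 : ((UX Bl).filter (fun u => ∃ p ∈ L u, TX t j p ≠ 0)).card ≤
        (univ.filter (fun p : V × κ => TX t j p ≠ 0)).card := by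
      refine card_le_card_of_forall_subsingleton (fun u p => p ∈ L u ∧ TX t j p ≠ 0) ?_ ?_
      · intro u hu
        obtain ⟨-, p, hp, hp0⟩ := mem_filter.1 hu
        exact ⟨p, mem_filter.2 ⟨mem_univ _, hp0⟩, hp, hp0⟩
      · intro p _ u hu u' hu'
        have a1 := (mem_filter.1 hu.1).1
        have a2 := (mem_filter.1 hu'.1).1
        exact XSu_dis hBl a1 a2 (hL u a1 hu.2.1) (hL u' a2 hu'.2.1)
    refine h1.trans ?_
    have hnum := XSu_num P.D
    rcases j with ⟨i, b⟩ | x | x
    · -- `inl (i, b)`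
      refine le_trans ?_ ((XSu_nb hN hB i).trans ?_)
      · refine card_le_card_of_injOn Prod.fst ?_ ?_
        · intro p hp
          have h2 : TX t (Sum.inl (i, b)) p ≠ 0 := (mem_filter.1 hp).2
          simp only [TX] at h2
          have h3 : t.dk i p.1 ≠ 0 := by
            intro h0
            apply h2
            split_ifs
            · rw [h0]
              exact Nat.cast_zero
            · rfl
          unfold Gd.dk at h3
          obtain ⟨v, hv⟩ := card_ne_zero.1 h3
          obtain ⟨hv1, hv2⟩ := mem_filter.1 hv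
          have hv3 : t.G.Adj p.1 v := (mem_filter.1 hv1).2
          refine mem_coe.2 (mem_biUnion.2 ⟨v, mem_filter.2 ⟨mem_univ _, hv2⟩, ?_⟩)
          exact mem_filter.2 ⟨mem_univ _, hv3.symm⟩
        · intro p hp q hq hpq
          have h2 : TX t (Sum.inl (i, b)) p ≠ 0 := (mem_filter.1 hp).2
          have h3 : TX t (Sum.inl (i, b)) q ≠ 0 := (mem_filter.1 hq).2
          have h4 : ∀ r : V × κ, TX t (Sum.inl (i, b)) r ≠ 0 → r.2 = b := by
            intro r hr
            by_contra hcon
            apply hr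
            simp only [TX]
            rw [if_neg (fun h => hcon h.1)]
          exact Prod.ext hpq ((h4 p h2).trans (h4 q h3).symm)
      · have : 2 * (P.D + 1) * P.D ≤ 2 * (P.D + 1) * P.D * (P.D + 1) :=
          Nat.le_mul_of_pos_right _ (Nat.succ_pos _)
        omega
    · -- `inr (inl x)`
      have h2 : (univ.filter (fun p : V × κ => TX t (Sum.inr (Sum.inl x)) p ≠ 0)) ⊆
          nb t.G x ×ˢ (univ : Finset κ) := by
        intro p hp
        have h2 : TX t (Sum.inr (Sum.inl x)) p ≠ 0 := (mem_filter.1 hp).2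
        simp only [TX] at h2
        have h3 : t.G.Adj x p.1 := by
          by_contra hcon
          exact h2 (if_neg hcon)
        exact mem_product.2 ⟨mem_filter.2 ⟨mem_univ _, h3⟩, mem_univ _⟩
      have h3 := card_le_card h2
      rw [card_product, hB.gr.reg, card_univ, hcol] at h3
      have : P.D * (P.D + 1) ≤ 2 * (P.D + 1) * P.D := by nlinarith
      omega
    · -- `inr (inr x)`
      have h2 : (univ.filter (fun p : V × κ => TX t (Sum.inr (Sum.inr x)) p ≠ 0)).card ≤
          (nb t.G x ×ˢ (univ : Finset κ)).card := by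
        refine card_le_card_of_injOn (fun p => (t.E.N p.2 p.1, p.2)) ?_ ?_
        · intro p hp
          have h2 : TX t (Sum.inr (Sum.inr x)) p ≠ 0 := (mem_filter.1 hp).2
          simp only [TX] at h2
          have h3 : t.G.Adj x (t.E.N p.2 p.1) := by
            by_contra hcon
            exact h2 (if_neg hcon)
          exact mem_coe.2 (mem_product.2 ⟨mem_filter.2 ⟨mem_univ _, h3⟩, mem_univ _⟩)
        · intro p _ q _ hpq
          have e0 : ((t.E.N p.2 p.1, p.2) : V × κ) = (t.E.N q.2 q.1, q.2) := hpq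
          have e2 : p.2 = q.2 := (Prod.ext_iff.1 e0).2
          have e1 : t.E.N p.2 p.1 = t.E.N q.2 q.1 := (Prod.ext_iff.1 e0).1
          rw [e2] at e1
          have e3 := congrArg (t.E.N q.2) e1
          rw [t.E.inv, t.E.inv] at e3
          exact Prod.ext e3 e2
      rw [card_product, hB.gr.reg, card_univ, hcol] at h2
      have : P.D * (P.D + 1) ≤ 2 * (P.D + 1) * P.D := by nlinarith
      omega
  · intro u hu
    set NB : Finset V := (t.Ki u.1).biUnion (fun w => nb t.G w) with hNB
    have hNBc := XSu_nb hN hB u.1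
    rw [← hNB] at hNBc
    have hNBm : ∀ w x : V, t.K w = some u.1 → t.G.Adj w x → x ∈ NB := by
      intro w x hw hx
      exact mem_biUnion.2 ⟨w, mem_filter.2 ⟨mem_univ _, hw⟩, mem_filter.2 ⟨mem_univ _, hx⟩⟩
    set S1 : Finset (V × κ) := univ.filter (fun q : V × κ => some q.1 ∈ NB.image t.K) with hS1
    have hS1c : S1.card ≤ 2 * (P.D + 1) * P.D * (P.D + 1) := by
      have h2 : S1.card ≤ ((NB.image t.K) ×ˢ (univ : Finset κ)).card := by
        refine card_le_card_of_injOn (fun q => (some q.1, q.2)) ?_ ?_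
        · intro q hq
          exact mem_coe.2 (mem_product.2 ⟨(mem_filter.1 hq).2, mem_univ _⟩)
        · intro p _ q _ hpq
          have e0 : ((some p.1, p.2) : Option V × κ) = (some q.1, q.2) := hpq
          have e2 : p.2 = q.2 := (Prod.ext_iff.1 e0).2
          have e1 : some p.1 = some q.1 := (Prod.ext_iff.1 e0).1
          exact Prod.ext (Option.some.inj e1) e2
      rw [card_product, card_univ, hcol] at h2
      exact h2.trans (Nat.mul_le_mul_right _ (card_image_le.trans hNBc))
    have hsub : (univ.filter (fun j : JX V κ => ∃ p ∈ L u, TX t j p ≠ 0)) ⊆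
        S1.image (fun q => (Sum.inl q : JX V κ)) ∪
          (NB.image (fun x => (Sum.inr (Sum.inl x) : JX V κ)) ∪
            NB.image (fun x => (Sum.inr (Sum.inr x) : JX V κ))) := by
      intro j hj
      obtain ⟨-, p, hp, hp0⟩ := mem_filter.1 hj
      obtain ⟨-, -, hpW⟩ := mem_filter.1 (hL u hu hp)
      obtain ⟨k1, k2⟩ := XSu_W1 hpW
      rcases j with ⟨i, b⟩ | x | x
      · refine mem_union_left _ (mem_image.2 ⟨(i, b), ?_, rfl⟩)
        simp only [TX] at hp0
        have h3 : t.dk i p.1 ≠ 0 := by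
          intro h0
          apply hp0
          split_ifs
          · rw [h0]
            exact Nat.cast_zero
          · rfl
        unfold Gd.dk at h3
        obtain ⟨v, hv⟩ := card_ne_zero.1 h3
        obtain ⟨hv1, hv2⟩ := mem_filter.1 hv
        have hv3 : t.G.Adj p.1 v := (mem_filter.1 hv1).2
        exact mem_filter.2 ⟨mem_univ _, mem_image.2 ⟨v, hNBm p.1 v k1 hv3, hv2⟩⟩
      · refine mem_union_right _ (mem_union_left _ (mem_image.2 ⟨x, ?_, rfl⟩))
        simp only [TX] at hp0
        have h3 : t.G.Adj x p.1 := by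
          by_contra hcon
          exact hp0 (if_neg hcon)
        exact hNBm p.1 x k1 h3.symm
      · refine mem_union_right _ (mem_union_right _ (mem_image.2 ⟨x, ?_, rfl⟩))
        simp only [TX] at hp0
        have h3 : t.G.Adj x (t.E.N p.2 p.1) := by
          by_contra hcon
          exact hp0 (if_neg hcon)
        exact hNBm _ x k2 h3.symm
    refine (card_le_card hsub).trans ((card_union_le _ _).trans ?_)
    refine (Nat.add_le_add (card_image_le.trans hS1c) ((card_union_le _ _).trans
      (Nat.add_le_add (card_image_le.trans hNBc) (card_image_le.trans hNBc)))).trans ?_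
    exact XSu_num P.D

end Pool.TCV
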