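import Pool.Agent.Helper60.TCV.StX

/-!
# T10, XTO: the totals of the tests (helper59)
-/

set_option autoImplicit false

namespace Pool.TCV

open Pool.TC Pool.TCM Pool.TCS Pool.TN Finset
open scoped Classical

section xto

variable {V κ : Type} [Fintype V] [Fintype κ] {P : Par} {t : Td V κ}
  {Bl : V → Finset (Finset κ)} {L : V × Finset κ → Finset (V × κ)}

theorem XTo_W1 {i w : V} {a : κ} (h : w ∈ t.W1 P i a) :
    t.K w = some i ∧ t.K (t.E.N a w) = some i := by
  have h0 : w ∈ t.W0 P i a := (mem_filter.1 h).1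
  obtain ⟨-, hr, hc⟩ := mem_filter.1 h0
  have hw : t.K w = some i := (mem_filter.1 hr).2.1
  refine ⟨hw, ?_⟩
  rcases hc with hc | hc
  · have : t.E.N a w = w := hc
    rw [this]
    exact hw
  · exact hc.2

theorem XTo_Al {p : V × κ} (h : p ∈ AlX P t) : ∃ i, p.2 ∈ t.Pb P i ∧ t.K p.1 = some i ∧
    t.K (t.E.N p.2 p.1) = some i := by
  obtain ⟨-, i, h1, h2⟩ := mem_filter.1 h
  exact ⟨i, h1, XTo_W1 h2⟩

theorem XTo_le (hBl : Blo P t Bl) (hL : ∀ u ∈ UX Bl, L u ⊆ OpX P t u) {f : V × κ → ℝ}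
    (hf : ∀ p, 0 ≤ f p) : ∑ u ∈ UX Bl, ∑ p ∈ L u, f p ≤ ∑ p ∈ AlX P t, f p := by
  have hdis : ((UX Bl : Finset (V × Finset κ)) : Set (V × Finset κ)).PairwiseDisjoint L := by
    intro u hu u' hu' hne
    rw [Function.onFun, Finset.disjoint_left]
    intro p hp hp'
    apply hne
    have hu1 := mem_coe.1 hu
    have hu1' := mem_coe.1 hu'
    obtain ⟨-, h1, h2⟩ := mem_filter.1 (hL u hu1 hp)
    obtain ⟨-, h1', h2'⟩ := mem_filter.1 (hL u' hu1' hp')
    have e1 : u.1 = u'.1 := by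
      have a1 := (XTo_W1 h2).1
      have a2 := (XTo_W1 h2').1
      rw [a1] at a2
      exact Option.some.inj a2
    have b1 : u.2 ∈ Bl u.1 := (mem_filter.1 hu1).2
    have b2 : u'.2 ∈ Bl u'.1 := (mem_filter.1 hu1').2
    rw [← e1] at b2
    exact Prod.ext e1 (hBl.dis u.1 u.2 b1 u'.2 b2 p.2 h1 h1')
  rw [← sum_biUnion hdis]
  refine sum_le_sum_of_subset_of_nonneg ?_ fun p _ _ => hf p
  intro p hp
  obtain ⟨u, hu, hpu⟩ := mem_biUnion.1 hp
  obtain ⟨-, h1, h2⟩ := mem_filter.1 (hL u hu hpu)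
  have b1 : u.2 ∈ Bl u.1 := (mem_filter.1 hu).2
  exact mem_filter.2 ⟨mem_univ _, u.1, hBl.sub u.1 u.2 b1 h1, h2⟩

/-- double counting -/
theorem XTo_dbl (t : Td V κ) (i : V) :
    ∑ w ∈ univ.filter (fun w => t.K w ≠ some i), (t.dk i w : ℝ) ≤ ∑ v ∈ t.Ki i, (t.oo v : ℝ) := by
  have e1 : ∀ w, (t.dk i w : ℝ) = ∑ v ∈ t.Ki i, if t.G.Adj v w then (1 : ℝ) else 0 := by
    intro w
    unfold Gd.dk Gd.Ki
    rw [card_filter, nb, sum_filter, sum_filter]
    push_cast
    refine sum_congr rfl fun v _ => ?_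
    by_cases h1 : t.K v = some i <;> by_cases h2 : t.G.Adj w v <;>
      simp [h1, h2, t.G.adj_comm v w]
  have e2 : ∀ v ∈ t.Ki i, (t.oo v : ℝ) =
      ∑ w ∈ univ.filter (fun w => t.K w ≠ some i), if t.G.Adj v w then (1 : ℝ) else 0 := by
    intro v hv
    have hv' : t.K v = some i := (mem_filter.1 hv).2
    unfold Gd.oo
    rw [card_filter, nb, sum_filter, sum_filter]
    push_cast
    refine sum_congr rfl fun w _ => ?_
    rw [hv']
    by_cases h1 : t.K w = some i <;> by_cases h2 : t.G.Adj v w <;> simp [h1, h2]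
  rw [sum_congr rfl e2, sum_comm]
  exact le_of_eq (sum_congr rfl fun w _ => e1 w)

theorem XTo_dKU (t : Td V κ) (x : V) (c : ℝ) :
    ∑ w, (if t.G.Adj x w ∧ t.K w ≠ none then c else 0) = t.dKU x * c := by
  rw [← sum_filter, sum_const, nsmul_eq_mul]
  congr 2
  unfold Gd.dKU nb
  rw [filter_filter]

/-- the colours of the cells of a row -/
theorem XTo_row (hB : Bse P t) (v : V) (F : κ → Prop) [DecidablePred F]
    (hF : ∀ a, F a → ∃ i, a ∈ t.Pb P i ∧ t.K v = some i) :
    ∑ a : κ, (if F a then (1 : ℝ) else 0) ≤ if t.K v ≠ none then P.pmax * P.D else 0 := by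
  rw [sum_boole]
  by_cases hv : t.K v = none
  · rw [if_neg (not_not.2 hv)]
    have : (univ.filter F) = ∅ := by
      refine filter_eq_empty_iff.2 fun a _ ha => ?_
      obtain ⟨i, -, h2⟩ := hF a ha
      rw [hv] at h2
      exact absurd h2 (by simp)
    rw [this]
    simp
  · rw [if_pos hv]
    obtain ⟨i, hi⟩ := Option.ne_none_iff_exists'.1 hv
    have h1 : (univ.filter F) ⊆ t.Pb P i := by
      intro a ha
      obtain ⟨j, h1, h2⟩ := hF a (mem_filter.1 ha).2
      rw [hi] at h2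
      rw [Option.some.inj h2]
      exact h1
    exact (Nat.cast_le.2 (card_le_card h1)).trans (hB.ed.pb i)

end xto

theorem thm_XTo : St_XTo := by
  intro P V κ _ _ t Bl L hB hBl hL
  refine ⟨fun i b => ?_, fun x => ?_, fun x => ?_⟩
  · refine (XTo_le hBl hL (f := TX t (Sum.inl (i, b))) fun p => ?_).trans ?_
    · simp only [TX]
      split_ifs
      · exact Nat.cast_nonneg _
      · exact le_rfl
    refine le_trans ?_ ((XTo_dbl t i).trans (hB.gr.d5 i))
    simp only [TX]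
    rw [← sum_filter]
    have hinj : Set.InjOn Prod.fst
        ((AlX P t).filter (fun p : V × κ => p.2 = b ∧ t.K p.1 ≠ some i) : Set (V × κ)) := by
      intro p hp q hq hpq
      have h1 := (mem_filter.1 (mem_coe.1 hp)).2.1
      have h2 := (mem_filter.1 (mem_coe.1 hq)).2.1
      exact Prod.ext hpq (h1.trans h2.symm)
    rw [← sum_image (f := fun w => (t.dk i w : ℝ)) hinj]
    refine sum_le_sum_of_subset_of_nonneg ?_ fun w _ _ => Nat.cast_nonneg _
    intro w hw
    obtain ⟨p, hp, rfl⟩ := mem_image.1 hw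
    exact mem_filter.2 ⟨mem_univ _, (mem_filter.1 hp).2.2⟩
  · refine (XTo_le hBl hL (f := TX t (Sum.inr (Sum.inl x))) fun p => ?_).trans ?_
    · simp only [TX]
      split_ifs <;> norm_num
    rw [← XTo_dKU t x (P.pmax * P.D)]
    unfold AlX
    rw [sum_filter, Fintype.sum_prod_type]
    refine sum_le_sum fun w _ => ?_
    by_cases hw : t.G.Adj x w
    · have h1 := XTo_row hB w (fun a => ∃ i, a ∈ t.Pb P i ∧ w ∈ t.W1 P i a)
        fun a ⟨i, h1, h2⟩ => ⟨i, h1, (XTo_W1 h2).1⟩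
      simp only [TX, hw, if_true, true_and]
      simpa only using h1
    · simp [TX, hw]
  · refine (XTo_le hBl hL (f := TX t (Sum.inr (Sum.inr x))) fun p => ?_).trans ?_
    · simp only [TX]
      split_ifs <;> norm_num
    rw [← XTo_dKU t x (P.pmax * P.D)]
    unfold AlX
    rw [sum_filter, Fintype.sum_prod_type, sum_comm]
    have e1 : ∀ a : κ, ∑ w : V, (if ∃ i, (w, a).2 ∈ t.Pb P i ∧ (w, a).1 ∈ t.W1 P i (w, a).2 then
        TX t (Sum.inr (Sum.inr x)) (w, a) else 0) =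
        ∑ v : V, (if t.G.Adj x v then (if ∃ i, a ∈ t.Pb P i ∧ t.E.N a v ∈ t.W1 P i a then
          (1 : ℝ) else 0) else 0) := by
      intro a
      refine sum_nbij' (fun w => t.E.N a w) (fun v => t.E.N a v) (fun _ _ => mem_univ _)
        (fun _ _ => mem_univ _) (fun w _ => t.E.inv a w) (fun v _ => t.E.inv a v) fun w _ => ?_
      simp only [TX, t.E.inv]
      by_cases h1 : t.G.Adj x (t.E.N a w) <;> simp [h1]
    rw [sum_congr rfl fun a _ => e1 a, sum_comm]
    refine sum_le_sum fun v _ => ?_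
    by_cases hv : t.G.Adj x v
    · have h1 := XTo_row hB v (fun a => ∃ i, a ∈ t.Pb P i ∧ t.E.N a v ∈ t.W1 P i a)
        fun a ⟨i, h1, h2⟩ => ⟨i, h1, by
          have := (XTo_W1 h2).2
          rwa [t.E.inv] at this⟩
      simp only [hv, if_true, true_and]
      exact h1
    · simp [hv]

end Pool.TCV
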