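import Pool.Agent.Helper3.TCS.LLL0
import Pool.Agent.Helper3.TCT.BernL
import Pool.Agent.Helper60.TCV.SmpP
import Pool.Agent.Helper60.TCV.Samp
import Pool.Agent.Helper60.TCV.Blo
import Pool.Agent.Helper60.TCV.XCf
import Pool.Agent.Helper60.TCV.XTo
import Pool.Agent.Helper60.TCV.XSu
import Pool.Agent.Helper60.TCV.XNu
import Pool.Agent.Helper60.TCV.X10

/-!
# T10, section 6: all parts together
-/

set_option autoImplicit false

namespace Pool.TCV

theorem all_Samp : St_Samp := thm_Samp Pool.TCS.thm_LLL0 (thm_SmpP Pool.TCT.thm_BernL)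

theorem all_X10 : St_X10 := thm_X10 all_Samp thm_Blo thm_XCf thm_XTo thm_XSu thm_XNu

end Pool.TCV
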