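import Pool.Agent.Helper60.TCV.StK3

/-!
# T10, section 9d: for a last row most colours are good
-/

set_option autoImplicit false

namespace Pool.TCV

open Pool.TC Pool.TCM Pool.TCS Pool.TN Finset
open scoped Classical

/-- numerical facts -/
private structure Bd1_N (P : Par) : Prop where
  D1 : (1 : ℝ) ≤ P.D
  M1 : (1 : ℝ) ≤ P.MW
  a : (3 * P.eps + P.eta) * (100 * P.MW) ≤ 1
  b : (P.theta + 3 * P.eps) * (1000 * (P.MW : ℝ) ^ 2) ≤ 1
  c : 2 * P.pmax ≤ P.rho / 1000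
  d : 102 * P.delta ≤ 1 / 4
  D4 : (4 : ℝ) ≤ P.D
  e : 37 * (P.MW : ℝ) ^ 3 * P.rho + 16 * (P.MW : ℝ) ^ 2 * P.nz + 16 * P.eta * P.D +
    16 * P.MW * P.nz + 30000 * (P.MW : ℝ) ^ 2 ≤ P.rho * P.D / 1000
  rho0 : 0 ≤ P.rho
  eta0 : 0 ≤ P.eta
  nz0 : 0 ≤ P.nz

private theorem Bd1_num {P : Par} (hN : Num10 P) : Bd1_N P := by
  have hX : (10 : ℝ) ^ 20 ≤ P.X := by exact_mod_cast hN.X0
  set x : ℝ := (P.X : ℝ) with hx
  have hX1 : (1 : ℝ) ≤ x := le_trans (by norm_num) hX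
  have hX0 : (0 : ℝ) < x := by linarith
  have hD : x ^ 4000000 ≤ P.D := hN.XD
  set s : ℝ := Real.sqrt P.D with hs
  have hD0 : (0 : ℝ) ≤ P.D := Nat.cast_nonneg _
  have hss : s * s = P.D := Real.mul_self_sqrt hD0
  have hs0 : 0 ≤ s := Real.sqrt_nonneg _
  have hsx : x ^ 60 ≤ s := by
    apply Real.le_sqrt_of_sq_le
    rw [← pow_mul]
    exact le_trans (pow_le_pow_right₀ hX1 (by norm_num)) hD
  have hMW : (P.MW : ℝ) = x ^ 6 := by rw [hN.MW]; push_cast; rfl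
  have hp : ∀ n : ℕ, 0 < x ^ n := fun n => pow_pos hX0 n
  have hp1 : ∀ n : ℕ, 1 ≤ x ^ n := fun n => one_le_pow₀ hX1
  have heta : P.eta ≤ 1 / x ^ 30 := by
    rw [hN.eta]
    exact one_div_le_one_div_of_le (hp _) (pow_le_pow_right₀ hX1 (by norm_num))
  have hdel : P.delta ≤ 1 / x ^ 50 := by
    rw [hN.delta]
    exact one_div_le_one_div_of_le (hp _) (pow_le_pow_right₀ hX1 (by norm_num))
  have hpm : P.pmax ≤ 1 / x ^ 20 := by
    rw [hN.pmax, hN.theta, div_div_eq_mul_div, div_one]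
    have h1 : 103 * P.delta * x ^ 14 ≤ 103 * (1 / x ^ 50) * x ^ 14 :=
      mul_le_mul_of_nonneg_right (by linarith) (hp 14).le
    refine le_trans h1 ?_
    rw [mul_one_div, div_mul_eq_mul_div, div_le_div_iff₀ (hp _) (hp _)]
    have h2 : x ^ 50 = x ^ 16 * (x ^ 14 * x ^ 20) := by ring
    have h3 : (103 : ℝ) ≤ x ^ 16 := by
      have h4 : x ≤ x ^ 16 := le_self_pow₀ hX1 (by norm_num)
      linarith
    rw [h2, one_mul, mul_assoc]
    exact mul_le_mul_of_nonneg_right h3 (by positivity)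
  have heta0 : 0 ≤ P.eta := by rw [hN.eta]; positivity
  have hDx : x ^ 120 ≤ P.D := by
    rw [← hss]
    calc x ^ 120 = x ^ 60 * x ^ 60 := by ring
      _ ≤ s * s := mul_le_mul hsx hsx (hp _).le hs0
  have hnz : P.nz = x ^ 10 * s := hN.nz
  have hnz0 : 0 ≤ P.nz := by rw [hnz]; positivity
  have hnzD : P.nz * x ^ 50 ≤ P.D := by
    rw [hnz, ← hss]
    calc x ^ 10 * s * x ^ 50 = x ^ 60 * s := by ring
      _ ≤ s * s := mul_le_mul_of_nonneg_right hsx hs0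
  have hxx : ∀ n : ℕ, n ≠ 0 → x ≤ x ^ n := fun n hn => le_self_pow₀ hX1 hn
  refine ⟨le_trans (hp1 120) hDx, by rw [hMW]; exact hp1 6, ?_, ?_, ?_, ?_, ?_, ?_, ?_, heta0,
    hnz0⟩
  · rw [hN.eps, hMW]
    have h1 : (3 * (1 / x ^ 15) + P.eta) ≤ 4 / x ^ 15 := by
      have h2 : 1 / x ^ 30 ≤ 1 / x ^ 15 :=
        one_div_le_one_div_of_le (hp _) (pow_le_pow_right₀ hX1 (by norm_num))
      have h3 : 4 / x ^ 15 = 4 * (1 / x ^ 15) := by ring
      linarith
    refine le_trans (mul_le_mul_of_nonneg_right h1 (by positivity)) ?_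
    rw [div_mul_eq_mul_div, div_le_one (hp _)]
    have h2 : x ^ 15 = x ^ 9 * x ^ 6 := by ring
    rw [h2, ← mul_assoc]
    apply mul_le_mul_of_nonneg_right _ (hp _).le
    have := hxx 9 (by norm_num)
    linarith
  · rw [hN.eps, hMW, hN.theta]
    have h1 : (1 / x ^ 14 + 3 * (1 / x ^ 15)) ≤ 4 / x ^ 14 := by
      have h2 : 1 / x ^ 15 ≤ 1 / x ^ 14 :=
        one_div_le_one_div_of_le (hp _) (pow_le_pow_right₀ hX1 (by norm_num))
      have h3 : 4 / x ^ 14 = 4 * (1 / x ^ 14) := by ring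
      linarith
    refine le_trans (mul_le_mul_of_nonneg_right h1 (by positivity)) ?_
    rw [div_mul_eq_mul_div, div_le_one (hp _)]
    have h2 : x ^ 14 = x ^ 2 * (x ^ 6) ^ 2 := by ring
    rw [h2, ← mul_assoc]
    apply mul_le_mul_of_nonneg_right _ (by positivity)
    have := hxx 2 (by norm_num)
    linarith
  · rw [hN.rho]
    have h1 : 1 / x ^ 20 * 2 ≤ 1 / x ^ 13 / 1000 := by
      rw [div_div, one_div_mul_eq_div, div_le_div_iff₀ (hp _) (by positivity)]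
      have h2 : x ^ 20 = x ^ 7 * x ^ 13 := by ring
      rw [h2]
      have h3 := mul_le_mul_of_nonneg_right (le_trans (by linarith : (2000 : ℝ) ≤ x)
        (hxx 7 (by norm_num))) (hp 13).le
      linarith
    linarith
  · have h1 : 1 / x ^ 50 ≤ 1 / x :=
      one_div_le_one_div_of_le hX0 (hxx 50 (by norm_num))
    have h2 : 1 / x ≤ 1 / 1000 := one_div_le_one_div_of_le (by norm_num) (by linarith)
    linarith
  · have := hxx 120 (by norm_num)
    linarith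
  · rw [hN.rho, hMW]
    have hDp : (0 : ℝ) < P.D := lt_of_lt_of_le (hp _) hDx
    -- every term is at most `D / (6000 x ^ 13)`
    have key : ∀ (A : ℝ), A * x ^ 14 ≤ 10 ^ 6 * P.D → A ≤ 1 / 6 * (1 / x ^ 13 * P.D / 1000) := by
      intro A hA
      have e1 : 1 / 6 * (1 / x ^ 13 * P.D / 1000) = P.D / (6000 * x ^ 13) := by
        field_simp
        ring
      rw [e1, le_div_iff₀ (by positivity)]
      have e2 : 10 ^ 6 * (A * (6000 * x ^ 13)) ≤ 10 ^ 6 * P.D := by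
        by_cases hA0 : A ≤ 0
        · have := mul_nonneg (neg_nonneg.2 hA0) (by positivity : (0 : ℝ) ≤ 6000 * x ^ 13)
          nlinarith
        · push Not at hA0
          have e3 : 10 ^ 6 * (A * (6000 * x ^ 13)) ≤ A * x ^ 14 := by
            have e4 : A * x ^ 14 = x * (A * x ^ 13) := by ring
            rw [e4]
            have e5 : 0 ≤ A * x ^ 13 := by positivity
            have e6 : (6000 * 10 ^ 6 : ℝ) ≤ x := by linarith
            nlinarith [mul_le_mul_of_nonneg_right e6 e5]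
          linarith
      linarith
    have t1 : 37 * (x ^ 6) ^ 3 * (1 / x ^ 13) ≤ 1 / 6 * (1 / x ^ 13 * P.D / 1000) := by
      apply key
      have e1 : 37 * (x ^ 6) ^ 3 * (1 / x ^ 13) * x ^ 14 = 37 * x ^ 19 := by
        field_simp
      rw [e1]
      have e2 : x ^ 19 ≤ x ^ 120 := pow_le_pow_right₀ hX1 (by norm_num)
      linarith
    have t2 : 16 * (x ^ 6) ^ 2 * P.nz ≤ 1 / 6 * (1 / x ^ 13 * P.D / 1000) := by
      apply key
      have e2 : P.nz * x ^ 26 ≤ P.nz * x ^ 50 :=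
        mul_le_mul_of_nonneg_left (pow_le_pow_right₀ hX1 (by norm_num)) hnz0
      have e1 : 16 * (x ^ 6) ^ 2 * P.nz * x ^ 14 = 16 * (P.nz * x ^ 26) := by ring
      rw [e1]
      linarith
    have t3 : 16 * P.eta * P.D ≤ 1 / 6 * (1 / x ^ 13 * P.D / 1000) := by
      apply key
      have e1 : P.eta * x ^ 14 ≤ 1 := by
        have e2 := mul_le_mul_of_nonneg_right heta (hp 14).le
        refine le_trans e2 ?_
        rw [one_div_mul_eq_div, div_le_one (hp _)]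
        exact pow_le_pow_right₀ hX1 (by norm_num)
      have e3 : 16 * P.eta * P.D * x ^ 14 = 16 * (P.eta * x ^ 14) * P.D := by ring
      rw [e3]
      apply mul_le_mul_of_nonneg_right _ hD0
      linarith
    have t4 : 16 * x ^ 6 * P.nz ≤ 1 / 6 * (1 / x ^ 13 * P.D / 1000) := by
      apply key
      have e2 : P.nz * x ^ 20 ≤ P.nz * x ^ 50 :=
        mul_le_mul_of_nonneg_left (pow_le_pow_right₀ hX1 (by norm_num)) hnz0
      have e1 : 16 * x ^ 6 * P.nz * x ^ 14 = 16 * (P.nz * x ^ 20) := by ring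
      rw [e1]
      linarith
    have t5 : 30000 * (x ^ 6) ^ 2 ≤ 1 / 6 * (1 / x ^ 13 * P.D / 1000) := by
      apply key
      have e1 : 30000 * (x ^ 6) ^ 2 * x ^ 14 = 30000 * x ^ 26 := by ring
      rw [e1]
      have e2 : x ^ 26 ≤ x ^ 120 := pow_le_pow_right₀ hX1 (by norm_num)
      linarith
    have t6 : 0 ≤ 1 / 6 * (1 / x ^ 13 * P.D / 1000) := by positivity
    linarith
  · rw [hN.rho]; positivity

section

variable {V κ : Type} [Fintype V] [Fintype κ] {P : Par} {t : Td V κ}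

private theorem Bd1_two (hB : Bse P t) (w v : V) :
    (univ.filter (fun a => t.E.N a w = v)).card ≤ 2 := by
  by_cases hv : v = w
  · subst hv
    have hc : Fintype.card κ = (univ.filter (fun a => t.E.N a v = v)).card +
        (univ.filter (fun a => ¬ t.E.N a v = v)).card := by
      rw [card_filter_add_card_filter_not, card_univ]
    have hn : (nb t.G v).card ≤ (univ.filter (fun a => ¬ t.E.N a v = v)).card + 1 := by
      have hsub : nb t.G v ⊆ (univ.filter (fun a => ¬ t.E.N a v = v)).image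
          (fun a => t.E.N a v) ∪ {t.z v} := by
        intro x hx
        have hx' : t.G.Adj v x := (mem_filter.1 hx).2
        rw [mem_union]
        rcases hB.ed.cov v x hx' with ⟨a, ha⟩ | hz
        · left
          refine mem_image.2 ⟨a, mem_filter.2 ⟨mem_univ _, ?_⟩, ha⟩
          rw [ha]
          exact (t.G.ne_of_adj hx').symm
        · right
          exact mem_singleton.2 hz.symm
      refine le_trans (card_le_card hsub) (le_trans (card_union_le _ _) ?_)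
      rw [card_singleton]
      exact Nat.add_le_add_right card_image_le 1
    rw [hB.gr.reg v] at hn
    rw [hB.ed.col] at hc
    omega
  · refine le_trans (card_le_one.2 ?_) (by norm_num)
    intro a ha b hb
    have h1 := (mem_filter.1 ha).2
    have h2 := (mem_filter.1 hb).2
    exact t.E.uniq a b w (h1.trans h2.symm) (by rw [h1]; exact hv)

private theorem Bd1_rg {i w : V} (h : w ∈ t.Rg P i) : t.K w = some i ∧ ¬ t.Sp P w :=
  (mem_filter.1 h).2

private theorem Bd1_inj (a : κ) : Function.Injective (fun w => t.E.N a w) := by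
  intro w w' h
  have h1 := congrArg (t.E.N a) h
  simpa [t.E.inv] using h1

/-- the rows which can be used for `u` -/
private noncomputable def Bd1_T (t : Td V κ) (C Y : V → Prop) (c : V → κ) (i u : V) : Finset V :=
  univ.filter (fun w => Y w ∧ t.K w = some i ∧ t.cr u (c w) ∧
    t.K (t.E.N (c w) u) = some i ∧ t.W (t.E.N (c w) u) ∧
    ¬ col2 t C c (t.E.N (c w) u) ∧ ¬ bk2 t C c (c w) u)

private theorem Bd1_memT {C Y : V → Prop} {c : V → κ} {i u w : V} :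
    w ∈ Bd1_T t C Y c i u ↔ Y w ∧ t.K w = some i ∧ t.cr u (c w) ∧
    t.K (t.E.N (c w) u) = some i ∧ t.W (t.E.N (c w) u) ∧
    ¬ col2 t C c (t.E.N (c w) u) ∧ ¬ bk2 t C c (c w) u := by
  unfold Bd1_T
  rw [mem_filter]
  exact ⟨fun h => h.2, fun h => ⟨mem_univ _, h⟩⟩

private theorem Bd1_TR {C Y : V → Prop} {c : V → κ} {Qp : V → Finset κ} {i u w : V}
    (hA : HA P t C Y c Qp) (hw : w ∈ Bd1_T t C Y c i u) : w ∈ t.Rg P i := by
  have h := Bd1_memT.1 hw
  obtain ⟨_, j, hj⟩ := hA.yrow w h.1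
  have h1 := (Bd1_rg hj).1
  rw [h.2.1] at h1
  rw [Option.some.inj h1]
  exact hj

private theorem Bd1_cf {α : Type} (s : Finset α) (p q : α → Prop) {dp : DecidablePred p}
    {dq : DecidablePred q} (h : ∀ a ∈ s, p a → q a) : (s.filter p).card ≤ (s.filter q).card := by
  apply card_le_card
  intro a ha
  have ha' := mem_filter.1 ha
  exact mem_filter.2 ⟨ha'.1, h a ha'.1 ha'.2⟩

private theorem Bd1_A {C Y : V → Prop} {c : V → κ} {Qp : V → Finset κ} {i u : V}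
    (hn : Bd1_N P) (hB : Bse P t) (hBn : HB P t C Y c Qp) (hKi : t.K i = some i)
    (hKu : t.K u = some i) (huR : u ∈ t.Rg P i) :
    44 / 100 * (P.D : ℝ) ≤ (Bd1_T t C Y c i u).card * P.MW := by
  have hD0 : (0 : ℝ) < P.D := by linarith [hn.D1]
  have hM0 : (0 : ℝ) < P.MW := by linarith [hn.M1]
  have hoo : (t.oo u : ℝ) ≤ P.eta * P.D := by
    have h1 := (Bd1_rg huR).2
    by_contra h2
    push Not at h2
    exact h1 ⟨by rw [hKu]; exact Option.some_ne_none i, Or.inr h2.le⟩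
  obtain ⟨S5, hS5, h5⟩ : ∃ S5 : Finset κ, (∀ a ∈ S5, a ∉ t.Q ∧ a ∉ t.mF i ∧ a ∉ t.Pb P i ∧
      t.cr u a ∧ t.E.N a u ∈ t.Rg P i ∧ t.W (t.E.N a u)) ∧ 45 * P.D ≤ 100 * P.MW * S5.card :=
    ⟨_, fun a ha => (mem_filter.1 ha).2, hB.tk.k5 i u huR⟩
  obtain ⟨Y5, hY5, hY5c⟩ : ∃ Y5 : Finset κ, (∀ a, (a ∉ t.Pb P i ∧ a ∉ t.Q ∧ a ∉ t.mF i ∧
      ∀ w, Y w → t.K w = some i → c w ≠ a) → a ∈ Y5) ∧ (Y5.card : ℝ) ≤ P.eps * P.D :=
    ⟨_, fun a ha => mem_filter.2 ⟨mem_univ _, ha⟩, hBn.y5 i hKi⟩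
  obtain ⟨Z, hZ, hZc⟩ : ∃ Z : Finset V, (∀ v, (t.K v = some i ∧ t.W v ∧ col2 t C c v) → v ∈ Z) ∧
      (Z.card : ℝ) ≤ 2 * P.eps * P.D :=
    ⟨_, fun a ha => mem_filter.2 ⟨mem_univ _, ha⟩, hBn.y6 i⟩
  have hsub : S5 ⊆ (Bd1_T t C Y c i u).image c ∪
      (Y5 ∪ (S5.filter (fun a => col2 t C c (t.E.N a u)) ∪
      ((nb t.G u).filter (fun v => t.K v ≠ t.K u)).image c)) := by
    intro a ha
    have ha' := hS5 a ha
    by_cases h1 : a ∈ Y5
    · exact mem_union_right _ (mem_union_left _ h1)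
    by_cases h2 : col2 t C c (t.E.N a u)
    · exact mem_union_right _ (mem_union_right _ (mem_union_left _ (mem_filter.2 ⟨ha, h2⟩)))
    by_cases h3 : bk2 t C c a u
    · obtain ⟨x, hx1, hx2, _, hx4⟩ := h3
      refine mem_union_right _ (mem_union_right _ (mem_union_right _ ?_))
      exact mem_image.2 ⟨x, mem_filter.2 ⟨mem_filter.2 ⟨mem_univ _, hx1⟩, hx2⟩, hx4⟩
    · have h4 : ∃ w, Y w ∧ t.K w = some i ∧ c w = a := by
        by_contra h5
        push Not at h5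
        exact h1 (hY5 a ⟨ha'.2.2.1, ha'.1, ha'.2.1, h5⟩)
      obtain ⟨w, hw1, hw2, hw3⟩ := h4
      refine mem_union_left _ (mem_image.2 ⟨w, Bd1_memT.2 ⟨hw1, hw2, ?_⟩, hw3⟩)
      rw [hw3]
      exact ⟨ha'.2.2.2.1, (Bd1_rg ha'.2.2.2.2.1).1, ha'.2.2.2.2.2, h2, h3⟩
  have hc1 : (S5.filter (fun a => col2 t C c (t.E.N a u))).card ≤ Z.card := by
    refine card_le_card_of_injOn (fun a => t.E.N a u) ?_ ?_
    · intro a ha
      have ha1 := mem_filter.1 (mem_coe.1 ha)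
      have ha2 := hS5 a ha1.1
      exact mem_coe.2 (hZ _ ⟨(Bd1_rg ha2.2.2.2.2.1).1, ha2.2.2.2.2.2, ha1.2⟩)
    · intro a ha b hb hab
      have ha1 := mem_filter.1 (mem_coe.1 ha)
      have ha2 := hS5 a ha1.1
      exact t.E.uniq a b u hab ha2.2.2.2.1.1.1
  have hc2 : (((nb t.G u).filter (fun v => t.K v ≠ t.K u)).image c).card ≤ t.oo u :=
    card_image_le
  have hcard := card_le_card hsub
  have hu1 := card_union_le ((Bd1_T t C Y c i u).image c)
    (Y5 ∪ (S5.filter (fun a => col2 t C c (t.E.N a u)) ∪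
      ((nb t.G u).filter (fun v => t.K v ≠ t.K u)).image c))
  have hu2 := card_union_le Y5 (S5.filter (fun a => col2 t C c (t.E.N a u)) ∪
      ((nb t.G u).filter (fun v => t.K v ≠ t.K u)).image c)
  have hu3 := card_union_le (S5.filter (fun a => col2 t C c (t.E.N a u)))
      (((nb t.G u).filter (fun v => t.K v ≠ t.K u)).image c)
  have hu4 : ((Bd1_T t C Y c i u).image c).card ≤ (Bd1_T t C Y c i u).card := card_image_le
  have hnat : S5.card ≤ (Bd1_T t C Y c i u).card + (Y5.card + (Z.card + t.oo u)) := by omega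
  have hre : (S5.card : ℝ) ≤ (Bd1_T t C Y c i u).card + (Y5.card + (Z.card + t.oo u)) := by
    exact_mod_cast hnat
  have h5r : 45 * (P.D : ℝ) ≤ 100 * P.MW * S5.card := by exact_mod_cast h5
  have h6 := mul_le_mul_of_nonneg_right hn.a hD0.le
  have h7 : (S5.card : ℝ) ≤ (Bd1_T t C Y c i u).card + (3 * P.eps + P.eta) * P.D := by linarith
  have h8 := mul_le_mul_of_nonneg_left h7 (by positivity : (0 : ℝ) ≤ 100 * P.MW)
  linarith

private theorem Bd1_E {C Y : V → Prop} {c : V → κ} {i u : V}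
    (hn : Bd1_N P) (hB : Bse P t) :
    ((univ.filter (fun a => (P.D : ℝ) < 10 ^ 4 * (P.MW : ℝ) ^ 2 *
      ((Bd1_T t C Y c i u).filter (fun w => t.E.N (c w) u = t.E.N a w)).card)).card : ℝ) ≤
      30000 * (P.MW : ℝ) ^ 2 := by
  have hD0 : (0 : ℝ) < P.D := by linarith [hn.D1]
  have hT1u : ((Bd1_T t C Y c i u).card : ℝ) ≤ 3 / 2 * P.D := by
    have h1 : Bd1_T t C Y c i u ⊆ t.Ki i := by
      intro w hw
      exact mem_filter.2 ⟨mem_univ _, (Bd1_memT.1 hw).2.1⟩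
    have h2 : ((Bd1_T t C Y c i u).card : ℝ) ≤ (t.Ki i).card := by
      exact_mod_cast card_le_card h1
    have h3 := hB.gr.k2 i
    have h4 := mul_le_mul_of_nonneg_right hn.d hD0.le
    have h5 := hn.D4
    linarith
  have hEs : ∑ a, ((Bd1_T t C Y c i u).filter (fun w => t.E.N (c w) u = t.E.N a w)).card ≤
      2 * (Bd1_T t C Y c i u).card := by
    have h1 : ∑ a, ((Bd1_T t C Y c i u).filter (fun w => t.E.N (c w) u = t.E.N a w)).card =
        ∑ w ∈ Bd1_T t C Y c i u, (univ.filter (fun a => t.E.N a w = t.E.N (c w) u)).card := by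
      simp only [card_filter]
      rw [sum_comm]
      refine sum_congr rfl (fun w _ => sum_congr rfl (fun a _ => ?_))
      by_cases h : t.E.N (c w) u = t.E.N a w
      · rw [if_pos h, if_pos h.symm]
      · rw [if_neg h, if_neg (fun h' => h h'.symm)]
    rw [h1]
    have h2 := sum_le_card_nsmul (Bd1_T t C Y c i u) (fun w => (univ.filter
      (fun a => t.E.N a w = t.E.N (c w) u)).card) 2 (fun w _ => Bd1_two hB w _)
    rw [smul_eq_mul] at h2
    linarith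
  generalize hF : (fun a => (((Bd1_T t C Y c i u).filter
    (fun w => t.E.N (c w) u = t.E.N a w)).card)) = F at hEs
  have hF' : ∀ a, ((Bd1_T t C Y c i u).filter (fun w => t.E.N (c w) u = t.E.N a w)).card = F a :=
    fun a => congrFun hF a
  simp only [hF'] at hEs ⊢
  generalize (Bd1_T t C Y c i u).card = n at hEs hT1u
  set BE : Finset κ := univ.filter (fun a => (P.D : ℝ) < 10 ^ 4 * (P.MW : ℝ) ^ 2 * (F a : ℝ))
    with hBE
  have h1 : (BE.card : ℝ) * P.D ≤ ∑ a ∈ BE, 10 ^ 4 * (P.MW : ℝ) ^ 2 * (F a : ℝ) := by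
    rw [← nsmul_eq_mul]
    exact card_nsmul_le_sum _ _ _ (fun a ha => (mem_filter.1 ha).2.le)
  rw [← mul_sum] at h1
  have h2 : 10 ^ 4 * (P.MW : ℝ) ^ 2 * ∑ a ∈ BE, (F a : ℝ) ≤
      10 ^ 4 * (P.MW : ℝ) ^ 2 * ∑ a, (F a : ℝ) :=
    mul_le_mul_of_nonneg_left
      (sum_le_sum_of_subset_of_nonneg (subset_univ _) (fun _ _ _ => by positivity))
      (by positivity)
  have h3 : (∑ a, (F a : ℝ)) ≤ 2 * n := by exact_mod_cast hEs
  have h4 : 10 ^ 4 * (P.MW : ℝ) ^ 2 * (∑ a, (F a : ℝ)) ≤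
      10 ^ 4 * (P.MW : ℝ) ^ 2 * (3 * P.D) :=
    mul_le_mul_of_nonneg_left (by linarith) (by positivity)
  have h5 : (BE.card : ℝ) * P.D ≤ (30000 * (P.MW : ℝ) ^ 2) * P.D := by linarith
  exact le_of_mul_le_mul_right h5 hD0

/-- numbers of the second moment bound -/
private theorem Bd1_B {P : Par} (hn : Bd1_N P) {q n : ℝ} (hq : q ≤ P.rho * P.D) (hn0 : 0 < n)
    (hA1 : 44 / 100 * (P.D : ℝ) ≤ n * P.MW) :
    4 * q / ((1 / (2 * (P.MW : ℝ))) ^ 2 * n) +
      4 * (P.nz + 2 * (1 / (2 * (P.MW : ℝ))) * (P.eta * P.D / P.MW + P.nz)) /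
        (1 / (2 * (P.MW : ℝ))) ^ 2 ≤ 37 * (P.MW : ℝ) ^ 3 * P.rho + 16 * (P.MW : ℝ) ^ 2 * P.nz +
      16 * P.eta * P.D + 16 * P.MW * P.nz := by
  have hM0 : (0 : ℝ) < P.MW := by linarith [hn.M1]
  have h1 : 4 * q / ((1 / (2 * (P.MW : ℝ))) ^ 2 * n) ≤ 37 * (P.MW : ℝ) ^ 3 * P.rho := by
    rw [div_le_iff₀ (by positivity)]
    have h2 : 37 * (P.MW : ℝ) ^ 3 * P.rho * ((1 / (2 * (P.MW : ℝ))) ^ 2 * n) =
        37 / 4 * (P.rho * (n * P.MW)) := by
      field_simp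
      ring
    rw [h2]
    have h3 := mul_le_mul_of_nonneg_left hA1 hn.rho0
    have h4 : P.rho * (44 / 100 * P.D) = 44 / 100 * (P.rho * P.D) := by ring
    have h5 : 0 ≤ P.rho * P.D := mul_nonneg hn.rho0 (by linarith [hn.D1])
    linarith
  have h2 : 4 * (P.nz + 2 * (1 / (2 * (P.MW : ℝ))) * (P.eta * P.D / P.MW + P.nz)) /
      (1 / (2 * (P.MW : ℝ))) ^ 2 = 16 * (P.MW : ℝ) ^ 2 * P.nz + 16 * P.eta * P.D +
        16 * P.MW * P.nz := by
    field_simp
    ring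
  rw [h2]
  linarith

private theorem Bd1_M (hMom : St_Mom) {C Y : V → Prop} {c : V → κ} {Qp : V → Finset κ} {i u : V}
    (hn : Bd1_N P) (hB : Bse P t) (hA : HA P t C Y c Qp)
    (hA1 : 44 / 100 * (P.D : ℝ) ≤ (Bd1_T t C Y c i u).card * P.MW) :
    ((t.Q.filter (fun a => 2 * (((Bd1_T t C Y c i u).filter (fun w => t.cr w a ∧
      t.E.N a w ∈ t.Rg P i ∧ t.W (t.E.N a w))).card : ℝ) <
      1 / (2 * P.MW) * (Bd1_T t C Y c i u).card)).card : ℝ) ≤
      37 * (P.MW : ℝ) ^ 3 * P.rho + 16 * (P.MW : ℝ) ^ 2 * P.nz +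
      16 * P.eta * P.D + 16 * P.MW * P.nz := by
  have hD0 : (0 : ℝ) < P.D := by linarith [hn.D1]
  have hM0 : (0 : ℝ) < P.MW := by linarith [hn.M1]
  have hT1p : 0 < (Bd1_T t C Y c i u).card := by
    rcases Nat.eq_zero_or_pos (Bd1_T t C Y c i u).card with h | h
    · rw [h] at hA1
      norm_num at hA1
      linarith
    · exact h
  have hQc : (t.Q.card : ℝ) ≤ P.rho * P.D := by
    rw [hB.ed.q2]
    exact Nat.floor_le (mul_nonneg hn.rho0 hD0.le)
  have hm := hMom V κ (Bd1_T t C Y c i u) t.Q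
    (fun w a => t.cr w a ∧ t.E.N a w ∈ t.Rg P i ∧ t.W (t.E.N a w))
    (1 / (2 * P.MW)) (P.eta * P.D / P.MW + P.nz) P.nz
    (by positivity) hT1p (by have := hn.eta0; have := hn.nz0; positivity) hn.nz0
    (by
      intro w hw
      have h1 := hB.tk.k6 i w (Bd1_TR hA hw)
      have h2 : 1 / (2 * (P.MW : ℝ)) * t.Q.card - (P.eta * P.D / P.MW + P.nz) =
          ((t.Q.card : ℝ) - 2 * P.eta * P.D) / (2 * P.MW) - P.nz := by
        field_simp
        ring
      rw [h2]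
      refine le_trans h1 ?_
      exact_mod_cast Bd1_cf _ _ _ (fun a _ h => h))
    (by
      intro w hw w' hw' hne
      have h1 := hB.tk.k6' i w (Bd1_TR hA hw) w' (Bd1_TR hA hw') hne
      have h2 : (1 / (2 * (P.MW : ℝ))) ^ 2 * t.Q.card + P.nz =
          (t.Q.card : ℝ) / (4 * (P.MW : ℝ) ^ 2) + P.nz := by
        field_simp
        ring
      rw [h2]
      refine le_trans ?_ h1
      refine Nat.cast_le.2 (Bd1_cf _ _ _ (fun a _ h => ?_))
      exact ⟨h.1.1, h.2.1, h.1.2.2, h.2.2.2⟩)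
  refine le_trans ?_ (le_trans hm (Bd1_B hn hQc (by exact_mod_cast hT1p) hA1))
  refine Nat.cast_le.2 (Bd1_cf _ _ _ (fun a _ h => ?_))
  refine lt_of_le_of_lt (mul_le_mul_of_nonneg_left (Nat.cast_le.2 (Bd1_cf _ _ _
    (fun _ _ h => h))) (by norm_num)) h

private theorem Bd1_D {C Y : V → Prop} {c : V → κ} {Qp : V → Finset κ} {i u : V} {a : κ}
    (hn : Bd1_N P) (hA : HA P t C Y c Qp) (hBn : HB P t C Y c Qp)
    (hKu : t.K u = some i)
    (hA1 : 44 / 100 * (P.D : ℝ) ≤ (Bd1_T t C Y c i u).card * P.MW)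
    (n2 : 1 / (2 * P.MW) * ((Bd1_T t C Y c i u).card : ℝ) ≤
      2 * (((Bd1_T t C Y c i u).filter (fun w => t.cr w a ∧
      t.E.N a w ∈ t.Rg P i ∧ t.W (t.E.N a w))).card : ℝ))
    (n3 : (((t.Rg P i).filter (fun w => bk2 t C c a w)).card : ℝ) ≤ (P.theta + P.eps) * P.D)
    (n4 : 10 ^ 4 * (P.MW : ℝ) ^ 2 *
      ((Bd1_T t C Y c i u).filter (fun w => t.E.N (c w) u = t.E.N a w)).card ≤ P.D) :
    (P.D : ℝ) ≤ 1500 * (P.MW : ℝ) ^ 2 * (opt t C Y c u a).card := by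
  have hD0 : (0 : ℝ) < P.D := by linarith [hn.D1]
  have hM0 : (0 : ℝ) < P.MW := by linarith [hn.M1]
  obtain ⟨Z, hZ, hZc⟩ : ∃ Z : Finset V, (∀ v, (t.K v = some i ∧ t.W v ∧ col2 t C c v) → v ∈ Z) ∧
      (Z.card : ℝ) ≤ 2 * P.eps * P.D :=
    ⟨_, fun a ha => mem_filter.2 ⟨mem_univ _, ha⟩, hBn.y6 i⟩
  obtain ⟨G, hG, hGm⟩ : ∃ G : Finset V, G = (Bd1_T t C Y c i u).filter (fun w => t.cr w a ∧
      t.E.N a w ∈ t.Rg P i ∧ t.W (t.E.N a w)) ∧ ∀ w ∈ G, w ∈ Bd1_T t C Y c i u ∧ t.cr w a ∧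
      t.E.N a w ∈ t.Rg P i ∧ t.W (t.E.N a w) :=
    ⟨_, rfl, fun w hw => mem_filter.1 hw⟩
  rw [← hG] at n2
  have hss : G ⊆ opt t C Y c u a ∪
      ((t.Rg P i).filter (fun w => bk2 t C c a w) ∪
      (G.filter (fun w => col2 t C c (t.E.N a w)) ∪
      (Bd1_T t C Y c i u).filter (fun w => t.E.N (c w) u = t.E.N a w))) := by
    intro w hw
    obtain ⟨hw1, hw2⟩ := hGm w hw
    have hw3 := Bd1_memT.1 hw1
    by_cases h1 : bk2 t C c a w
    · exact mem_union_right _ (mem_union_left _ (mem_filter.2 ⟨Bd1_TR hA hw1, h1⟩))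
    by_cases h2 : col2 t C c (t.E.N a w)
    · exact mem_union_right _ (mem_union_right _ (mem_union_left _ (mem_filter.2 ⟨hw, h2⟩)))
    by_cases h3 : t.E.N (c w) u = t.E.N a w
    · exact mem_union_right _ (mem_union_right _ (mem_union_right _
        (mem_filter.2 ⟨hw1, h3⟩)))
    refine mem_union_left _ (mem_filter.2 ⟨mem_univ _, hw3.1, ?_, ⟨hw3.2.2.1, ?_,
      hw3.2.2.2.2.1, hw3.2.2.2.2.2.1, hw3.2.2.2.2.2.2⟩, h1, Or.inr ⟨hw2.1, ?_, hw2.2.2, h2⟩,
      h3⟩)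
    · rw [hw3.2.1, hKu]
    · rw [hw3.2.2.2.1, hKu]
    · rw [(Bd1_rg hw2.2.1).1, hw3.2.1]
  have hcol : (G.filter (fun w => col2 t C c (t.E.N a w))).card ≤ Z.card := by
    refine card_le_card_of_injOn (fun w => t.E.N a w) ?_ ?_
    · intro w hw
      have hw1 := mem_filter.1 (mem_coe.1 hw)
      have hw2 := (hGm w hw1.1).2
      exact mem_coe.2 (hZ _ ⟨(Bd1_rg hw2.2.1).1, hw2.2.2, hw1.2⟩)
    · exact (Bd1_inj a).injOn
  have hcard := card_le_card hss
  have hu1 := card_union_le (opt t C Y c u a) ((t.Rg P i).filter (fun w => bk2 t C c a w) ∪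
      (G.filter (fun w => col2 t C c (t.E.N a w)) ∪
      (Bd1_T t C Y c i u).filter (fun w => t.E.N (c w) u = t.E.N a w)))
  have hu2 := card_union_le ((t.Rg P i).filter (fun w => bk2 t C c a w))
      (G.filter (fun w => col2 t C c (t.E.N a w)) ∪
      (Bd1_T t C Y c i u).filter (fun w => t.E.N (c w) u = t.E.N a w))
  have hu3 := card_union_le (G.filter (fun w => col2 t C c (t.E.N a w)))
    ((Bd1_T t C Y c i u).filter (fun w => t.E.N (c w) u = t.E.N a w))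
  generalize ((Bd1_T t C Y c i u).filter (fun w => t.E.N (c w) u = t.E.N a w)).card = e
    at hu1 hu2 hu3 hcard n4
  generalize ((t.Rg P i).filter (fun w => bk2 t C c a w)).card = b at hu1 hu2 n3
  have hnat : G.card ≤ (opt t C Y c u a).card + (b + (Z.card + e)) := by omega
  have hre : (G.card : ℝ) ≤ (opt t C Y c u a).card + (b + (Z.card + e)) := by
    exact_mod_cast hnat
  have hM2 : (0 : ℝ) < (P.MW : ℝ) ^ 2 := by positivity
  have e1 : 11 / 100 * (P.D : ℝ) ≤ (P.MW : ℝ) ^ 2 * G.card := by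
    have e2 := mul_le_mul_of_nonneg_left n2 hM2.le
    have e3 : (P.MW : ℝ) ^ 2 * (1 / (2 * (P.MW : ℝ)) * (Bd1_T t C Y c i u).card) =
        (Bd1_T t C Y c i u).card * P.MW / 2 := by
      field_simp
    rw [e3] at e2
    linarith
  have e4 := mul_le_mul_of_nonneg_right hn.b hD0.le
  have e5 : (G.card : ℝ) ≤ (opt t C Y c u a).card +
      ((P.theta + 3 * P.eps) * P.D + e) := by linarith
  have e6 := mul_le_mul_of_nonneg_left e5 hM2.le
  have e7 : (P.theta + 3 * P.eps) * (1000 * (P.MW : ℝ) ^ 2) * P.D =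
      1000 * ((P.MW : ℝ) ^ 2 * ((P.theta + 3 * P.eps) * P.D)) := by ring
  rw [e7] at e4
  have e8 : (P.MW : ℝ) ^ 2 * ((opt t C Y c u a).card + ((P.theta + 3 * P.eps) * P.D + e)) =
      (P.MW : ℝ) ^ 2 * (opt t C Y c u a).card + ((P.MW : ℝ) ^ 2 * ((P.theta + 3 * P.eps) * P.D) +
        (P.MW : ℝ) ^ 2 * e) := by ring
  rw [e8] at e6
  have e9 : 10 ^ 4 * (P.MW : ℝ) ^ 2 * (e : ℝ) = 10000 * ((P.MW : ℝ) ^ 2 * e) := by ring
  rw [e9] at n4
  linarith

end

theorem thm_Bd1 (hMom : St_Mom) : St_Bd1 := by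
  intro P V κ _ _ t C Y c Qp hN hB hA hBn hC i u hKu hCu
  have hn := Bd1_num hN
  have hKi : t.K i = some i := hB.gr.rt i u hKu
  have hD0 : (0 : ℝ) < P.D := by linarith [hn.D1]
  have hM0 : (0 : ℝ) < P.MW := by linarith [hn.M1]
  have huR : u ∈ t.Rg P i := by
    obtain ⟨j, hj⟩ := hA.rem u hCu
    have h1 := (Bd1_rg hj).1
    rw [hKu] at h1
    rw [Option.some.inj h1]
    exact hj
  have hA1 := Bd1_A hn hB hBn hKi hKu huR
  obtain ⟨BM, hBM, hBMc⟩ : ∃ BM : Finset κ, (∀ a ∈ t.Q, 2 * (((Bd1_T t C Y c i u).filter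
      (fun w => t.cr w a ∧ t.E.N a w ∈ t.Rg P i ∧ t.W (t.E.N a w))).card : ℝ) <
      1 / (2 * P.MW) * (Bd1_T t C Y c i u).card → a ∈ BM) ∧ (BM.card : ℝ) ≤
      37 * (P.MW : ℝ) ^ 3 * P.rho + 16 * (P.MW : ℝ) ^ 2 * P.nz +
      16 * P.eta * P.D + 16 * P.MW * P.nz :=
    ⟨_, fun a h h' => mem_filter.2 ⟨h, h'⟩, Bd1_M hMom hn hB hA hA1⟩
  obtain ⟨BE, hBE, hBEc⟩ : ∃ BE : Finset κ, (∀ a, (P.D : ℝ) < 10 ^ 4 * (P.MW : ℝ) ^ 2 *
      ((Bd1_T t C Y c i u).filter (fun w => t.E.N (c w) u = t.E.N a w)).card → a ∈ BE) ∧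
      (BE.card : ℝ) ≤ 30000 * (P.MW : ℝ) ^ 2 :=
    ⟨_, fun a h => mem_filter.2 ⟨mem_univ _, h⟩, Bd1_E hn hB⟩
  obtain ⟨BK, hBK, hBKc⟩ : ∃ BK : Finset κ, (∀ a, (P.theta + P.eps) * P.D <
      (((t.Rg P i).filter (fun w => bk2 t C c a w)).card : ℝ) → a ∈ BK) ∧
      (BK.card : ℝ) ≤ P.pmax * P.D :=
    ⟨_, fun a h => mem_filter.2 ⟨mem_univ _, h⟩, hC.y10 i⟩
  obtain ⟨BQ, hBQ, hBQc⟩ : ∃ BQ : Finset κ, (∀ a ∈ Qp i, a ∉ t.Q → a ∈ BQ) ∧
      (BQ.card : ℝ) ≤ P.pmax * P.D :=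
    ⟨_, fun a h h' => mem_filter.2 ⟨h, h'⟩, hBn.qQ i⟩
  have hsub : (Qp i).filter (fun a => 1500 * P.MW ^ 2 * (opt t C Y c u a).card < P.D) ⊆
      BQ ∪ (BM ∪ (BK ∪ BE)) := by
    intro a ha
    obtain ⟨ha1, ha2⟩ := mem_filter.1 ha
    by_contra hno
    rw [mem_union, mem_union, mem_union] at hno
    push Not at hno
    obtain ⟨n1, n2, n3, n4⟩ := hno
    have haQ : a ∈ t.Q := by
      by_contra h
      exact n1 (hBQ a ha1 h)
    have hfin := Bd1_D (a := a) hn hA hBn hKu hA1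
      (le_of_not_gt (fun h => n2 (hBM a haQ h)))
      (le_of_not_gt (fun h => n3 (hBK a h)))
      (le_of_not_gt (fun h => n4 (hBE a h)))
    have ha3 : 1500 * (P.MW : ℝ) ^ 2 * (opt t C Y c u a).card < P.D := by exact_mod_cast ha2
    linarith
  have hcard := le_trans (card_le_card hsub) (le_trans (card_union_le _ _)
    (Nat.add_le_add_left (le_trans (card_union_le _ _)
      (Nat.add_le_add_left (card_union_le _ _) _)) _))
  have hre : (((Qp i).filter (fun a => 1500 * P.MW ^ 2 * (opt t C Y c u a).card < P.D)).card :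
      ℝ) ≤ BQ.card + (BM.card + (BK.card + BE.card)) := by
    exact_mod_cast hcard
  have hc := mul_le_mul_of_nonneg_right hn.c hD0.le
  have he := hn.e
  have hr := mul_nonneg hn.rho0 hD0.le
  linarith

end Pool.TCV
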