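import Pool.Agent.Helper60.TCV.StK3
import Pool.Agent.Helper60.TCV.XNu

/-!
# T10, section 9d: most last rows are good for a reserved colour
-/

set_option autoImplicit false

namespace Pool.TCV

open Pool.TC Pool.TCM Pool.TCS Pool.TN Finset
open scoped Classical

/-! ### Numbers -/

private structure Nm (M D x rho theta eps eta delta pmax nz : ℝ) : Prop where
  M1 : 1 ≤ M
  D1 : 10 ^ 20 ≤ D
  x0 : 0 ≤ x
  nz0 : 0 ≤ nz
  rho0 : 0 < rho
  eta0 : 0 < eta
  eps0 : 0 ≤ eps
  th0 : 0 ≤ theta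
  de0 : 0 ≤ delta
  pm0 : 0 ≤ pmax
  a1 : 10 ^ 10 * (M * rho) ≤ 1
  a2 : 10 ^ 10 * (M * pmax) ≤ 1
  a3 : 10 ^ 10 * (M ^ 2 * eps) ≤ 1
  a4 : 10 ^ 10 * (M ^ 2 * eta) ≤ 1
  a5 : 10 ^ 10 * theta ≤ rho
  a6 : 10 ^ 10 * (104 * delta * D / eta) ≤ rho * D
  a7 : 10 ^ 10 * M ^ 3 ≤ rho * D
  a8 : 10 ^ 10 * (M ^ 2 * nz) ≤ rho * D
  a9 : 10 ^ 10 * x ≤ rho * D
  a10 : 10 ^ 10 * (M * (1 / rho)) ≤ D
  a11 : 10 ^ 10 * delta ≤ 1

private theorem nm (P : Par) (hN : Num10 P) :
    Nm P.MW P.D P.X P.rho P.theta P.eps P.eta P.delta P.pmax P.nz := by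
  have hX0 := hN.X0
  have hx20 : (10 : ℝ) ^ 20 ≤ (P.X : ℝ) := by exact_mod_cast hX0
  have hMWx : (P.MW : ℝ) = (P.X : ℝ) ^ 6 := by rw [hN.MW]; push_cast; rfl
  rw [hMWx]
  have hXD : (P.X : ℝ) ^ 4000000 ≤ (P.D : ℝ) := hN.XD
  have hrho := hN.rho
  have htheta := hN.theta
  have heps := hN.eps
  have heta := hN.eta
  have hdelta := hN.delta
  have hpmax := hN.pmax
  have hnz := hN.nz
  generalize (P.X : ℝ) = x at *
  generalize (P.D : ℝ) = D at *
  have hx1 : (1 : ℝ) ≤ x := le_trans (by norm_num) hx20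
  have hxpos : 0 < x := by linarith
  have hDk : ∀ k : ℕ, k ≤ 4000000 → x ^ k ≤ D := fun k hk =>
    (pow_le_pow_right₀ hx1 hk).trans hXD
  have hDx : x ≤ D := by simpa using hDk 1 (by norm_num)
  have hDbig : (10 : ℝ) ^ 20 ≤ D := hx20.trans hDx
  have hDpos : 0 < D := lt_of_lt_of_le (by norm_num) hDbig
  obtain ⟨y, hy⟩ : ∃ y : ℝ, y = 1 / x := ⟨_, rfl⟩
  have hy0 : 0 < y := by rw [hy]; positivity
  have hxy : x * y = 1 := by rw [hy]; field_simp
  have hyb : 10 ^ 20 * y ≤ 1 := by
    calc 10 ^ 20 * y ≤ x * y := mul_le_mul_of_nonneg_right hx20 hy0.le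
      _ = 1 := hxy
  have hyk : ∀ k : ℕ, 1 / x ^ k = y ^ k := fun k => by rw [hy, one_div_pow]
  have hxyk : ∀ k : ℕ, x ^ k * y ^ k = 1 := fun k => by rw [← mul_pow, hxy, one_pow]
  have hshift : ∀ k j : ℕ, x ^ k * y ^ (k + j) = y ^ j := fun k j => by
    rw [pow_add, ← mul_assoc, hxyk, one_mul]
  rw [hyk] at hrho htheta heps heta hdelta
  have hpm : P.pmax = 103 * y ^ 4886 := by
    rw [hpmax, hdelta, htheta, div_eq_iff (by positivity), mul_assoc, ← pow_add]
  rw [hrho, htheta, heps, heta, hdelta, hpm, hnz]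
  -- powers of `y` are small
  have hsm : ∀ k : ℕ, 0 < k → 10 ^ 20 * y ^ k ≤ 1 := fun k hk => by
    have h := XNu_pw y hy0 hyb 0 k hk
    rwa [pow_zero] at h
  -- `y ^ k * D` is large
  have hbig : ∀ k j : ℕ, k + j ≤ 4000000 → x ^ j ≤ y ^ k * D := fun k j hkj => by
    calc x ^ j = y ^ k * x ^ (k + j) := by
          rw [pow_add, ← mul_assoc, mul_comm (y ^ k), hxyk, one_mul]
      _ ≤ y ^ k * D := mul_le_mul_of_nonneg_left (hDk _ hkj) (by positivity)
  have hyle : ∀ k : ℕ, y ^ k ≤ 1 := fun k =>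
    pow_le_one₀ hy0.le (by nlinarith)
  have hxk : ∀ k : ℕ, x ^ k ≤ x ^ k * x := fun k =>
    le_mul_of_one_le_right (by positivity) hx1
  have hxmul : ∀ k : ℕ, 10 ^ 20 * x ^ k ≤ x ^ (k + 1) := fun k => by
    rw [pow_succ, mul_comm]
    exact mul_le_mul_of_nonneg_left hx20 (by positivity)
  refine ⟨one_le_pow₀ hx1, hDbig, hxpos.le, by positivity, by positivity, by positivity,
    by positivity, by positivity, by positivity, by positivity, ?_, ?_, ?_, ?_, ?_, ?_, ?_, ?_,
    ?_, ?_, ?_⟩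
  · have h := hsm 7 (by norm_num)
    have e := hshift 6 7
    norm_num at e
    rw [e]
    have : 0 < y ^ 7 := by positivity
    linarith
  · have h := hsm 4880 (by norm_num)
    have e := hshift 6 4880
    norm_num at e
    rw [show x ^ 6 * (103 * y ^ 4886) = 103 * (x ^ 6 * y ^ 4886) by ring, e]
    have : 0 < y ^ 4880 := by positivity
    linarith
  · have h := hsm 3 (by norm_num)
    have e := hshift 12 3
    norm_num at e
    rw [← pow_mul]
    norm_num
    rw [e]
    have : 0 < y ^ 3 := by positivity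
    linarith
  · have h := hsm 1588 (by norm_num)
    have e := hshift 12 1588
    norm_num at e
    rw [← pow_mul]
    norm_num
    rw [e]
    have : 0 < y ^ 1588 := by positivity
    linarith
  · have h := XNu_pw y hy0 hyb 13 14 (by norm_num)
    have : 0 < y ^ 14 := by positivity
    linarith
  · have e : 104 * y ^ 4900 * D / y ^ 1600 = 104 * (y ^ 3300 * D) := by
      rw [show (4900 : ℕ) = 3300 + 1600 by norm_num, pow_add]
      field_simp
    rw [e]
    have h := XNu_pw y hy0 hyb 13 3300 (by norm_num)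
    have h2 := mul_le_mul_of_nonneg_right h hDpos.le
    have : 0 < y ^ 3300 * D := by positivity
    linarith
  · have h1 := hbig 13 19 (by norm_num)
    have h2 := hxmul 18
    norm_num at h2
    rw [← pow_mul]
    norm_num
    have : 0 < x ^ 18 := by positivity
    linarith
  · obtain ⟨r, hr⟩ : ∃ r : ℝ, r = Real.sqrt D := ⟨_, rfl⟩
    have hr0 : 0 < r := by rw [hr]; exact Real.sqrt_pos.2 hDpos
    have hr2 : r * r = D := by rw [hr]; exact Real.mul_self_sqrt hDpos.le
    rw [← hr]
    have h1 : x ^ 36 ≤ r := by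
      rw [hr]
      apply Real.le_sqrt_of_sq_le
      rw [← pow_mul]
      exact hDk _ (by norm_num)
    have h2 : (10 : ℝ) ^ 20 * x ^ 35 ≤ x ^ 36 := by
      have := hxmul 35
      norm_num at this ⊢
      linarith
    have h3 : (x ^ 6) ^ 2 * (x ^ 10 * r) = y ^ 13 * (x ^ 35 * r) := by
      have e := hshift 13 0
      rw [pow_zero, add_zero] at e
      calc (x ^ 6) ^ 2 * (x ^ 10 * r) = (x ^ 13 * y ^ 13) * (x ^ 22 * r) := by
            rw [e]; ring
        _ = y ^ 13 * (x ^ 35 * r) := by ring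
    rw [h3, ← hr2]
    have h4 : (10 : ℝ) ^ 10 * x ^ 35 ≤ r := by
      have : 0 < x ^ 35 := by positivity
      linarith
    calc 10 ^ 10 * (y ^ 13 * (x ^ 35 * r)) = y ^ 13 * ((10 ^ 10 * x ^ 35) * r) := by ring
      _ ≤ y ^ 13 * (r * r) := by
          apply mul_le_mul_of_nonneg_left _ (by positivity)
          exact mul_le_mul_of_nonneg_right h4 hr0.le
  · have h1 := hbig 13 2 (by norm_num)
    have h2 := hxmul 1
    norm_num at h2
    linarith
  · have e : 1 / y ^ 13 = x ^ 13 := by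
      rw [div_eq_iff (by positivity)]
      exact (hxyk 13).symm
    rw [e, ← pow_add]
    norm_num
    have h1 := hDk 20 (by norm_num)
    have h2 := hxmul 19
    norm_num at h2
    have : 0 < x ^ 19 := by positivity
    linarith
  · have h := hsm 4900 (by norm_num)
    have : 0 < y ^ 4900 := by positivity
    linarith

/-- the final estimate -/
private theorem fin1 {M D x rho theta eps eta delta pmax nz : ℝ}
    (h : Nm M D x rho theta eps eta delta pmax nz) (n T Sp : ℝ) (hn0 : 0 ≤ n) (hn : n ≤ 2 * D)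
    (hT : D ≤ 311 * M * T) (hSp : Sp ≤ 104 * delta * D / eta) :
    4 * n / ((1 / (2 * M)) ^ 2 * T) + 4 * (nz + 2 * (1 / (2 * M)) *
      ((rho * n / 1000 + theta * D + Sp + 2 * x) / (2 * M) + nz)) / (1 / (2 * M)) ^ 2 ≤
      rho * D / 25 := by
  have hM := h.M1
  have hM0 : 0 < M := by linarith
  have hD0 : 0 < D := lt_of_lt_of_le (by norm_num) h.D1
  have hT0 : 0 < T := by
    by_contra h0
    push Not at h0
    have : 311 * M * T ≤ 0 := mul_nonpos_of_nonneg_of_nonpos (by positivity) h0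
    linarith
  have e1 : 4 * n / ((1 / (2 * M)) ^ 2 * T) = 16 * M ^ 2 * n / T := by
    field_simp
    ring
  have e2 : 4 * (nz + 2 * (1 / (2 * M)) *
      ((rho * n / 1000 + theta * D + Sp + 2 * x) / (2 * M) + nz)) / (1 / (2 * M)) ^ 2 =
      16 * (M ^ 2 * nz) + 8 * (rho * n / 1000 + theta * D + Sp + 2 * x) + 16 * (M * nz) := by
    field_simp
    ring
  rw [e1, e2]
  have h1 : 16 * M ^ 2 * n / T ≤ 9952 * M ^ 3 := by
    rw [div_le_iff₀ hT0]
    have h2 : 16 * M ^ 2 * n ≤ 32 * M ^ 2 * D := by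
      have := mul_le_mul_of_nonneg_left hn (show 0 ≤ 16 * M ^ 2 by positivity)
      linarith
    have h3 := mul_le_mul_of_nonneg_left hT (show 0 ≤ 32 * M ^ 2 by positivity)
    nlinarith
  have a7 := h.a7
  have a8 := h.a8
  have a9 := h.a9
  have a6 := h.a6
  have a5 := mul_le_mul_of_nonneg_right h.a5 hD0.le
  have hnz := h.nz0
  have h4 : M * nz ≤ M ^ 2 * nz := by
    apply mul_le_mul_of_nonneg_right _ hnz
    nlinarith
  have h5 : rho * n ≤ rho * (2 * D) := mul_le_mul_of_nonneg_left hn h.rho0.le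
  have h6 : 0 < rho * D := mul_pos h.rho0 hD0
  nlinarith

section

variable {P : Par} {V κ : Type} [Fintype V] [Fintype κ] {t : Td V κ}

/-- at most two colours are missing -/
private theorem miss2 (hB : Bse P t) (u : V) : (univ.filter (fun b => t.fx u b)).card ≤ 2 := by
  have h1 : (nb t.G u).card = P.D := hB.gr.reg u
  have h2 : ((nb t.G u).erase (t.z u)).card ≤ (univ.filter (fun b => ¬ t.fx u b)).card := by
    refine le_trans (card_le_card ?_) (card_image_le (f := fun b => t.E.N b u))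
    intro v hv
    obtain ⟨h3, h4⟩ := mem_erase.1 hv
    unfold nb at h4
    have h5 : t.G.Adj u v := (mem_filter.1 h4).2
    rcases hB.ed.cov u v h5 with ⟨b, hb⟩ | hz
    · refine mem_image.2 ⟨b, mem_filter.2 ⟨mem_univ _, ?_⟩, hb⟩
      intro h6
      have h7 : t.E.N b u = u := h6
      have h8 : t.E.N b u = v := hb
      rw [h7] at h8
      rw [← h8] at h5
      exact t.G.loopless.irrefl u h5
    · exact absurd hz.symm h3
  have h3 : P.D - 1 ≤ ((nb t.G u).erase (t.z u)).card := by
    rw [← h1]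
    exact pred_card_le_card_erase
  have h4 : (univ.filter (fun b => t.fx u b)).card + (univ.filter (fun b => ¬ t.fx u b)).card =
      P.D + 1 := by
    rw [card_filter_add_card_filter_not, card_univ]
    exact hB.ed.col
  omega

/-- few colours are missing at many rows -/
private theorem few (hB : Bse P t) (i : V) (r : ℝ) (hr : 0 < r) (hn : 0 < (t.Rg P i).card) :
    ((univ.filter (fun b => r * ((t.Rg P i).card : ℝ) ≤
      1000 * (((t.Rg P i).filter (fun u => t.fx u b)).card : ℝ))).card : ℝ) ≤ 2000 * (1 / r) := by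
  obtain ⟨n, hnn⟩ : ∃ n : ℝ, n = ((t.Rg P i).card : ℝ) := ⟨_, rfl⟩
  have hn0 : 0 < n := by rw [hnn]; exact_mod_cast hn
  rw [← hnn]
  have h1 : ∑ b, (((t.Rg P i).filter (fun u => t.fx u b)).card : ℝ) ≤ 2 * n := by
    have e : ∑ b, (((t.Rg P i).filter (fun u => t.fx u b)).card : ℝ) =
        ∑ u ∈ t.Rg P i, ((univ.filter (fun b => t.fx u b)).card : ℝ) := by
      simp only [← Finset.sum_boole]
      rw [sum_comm]
    rw [e, hnn]
    calc ∑ u ∈ t.Rg P i, ((univ.filter (fun b => t.fx u b)).card : ℝ) ≤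
        ∑ _u ∈ t.Rg P i, (2 : ℝ) := by
          refine sum_le_sum fun u _ => ?_
          exact_mod_cast miss2 hB u
      _ = 2 * ((t.Rg P i).card : ℝ) := by rw [sum_const, nsmul_eq_mul]; ring
  obtain ⟨H, hH⟩ : ∃ H : Finset κ, H = univ.filter (fun b => r * n ≤
      1000 * (((t.Rg P i).filter (fun u => t.fx u b)).card : ℝ)) := ⟨_, rfl⟩
  rw [← hH]
  have h2 : (H.card : ℝ) * (r * n) ≤ 2000 * n := by
    calc (H.card : ℝ) * (r * n) = ∑ _b ∈ H, r * n := by rw [sum_const, nsmul_eq_mul]
      _ ≤ ∑ b ∈ H, 1000 * (((t.Rg P i).filter (fun u => t.fx u b)).card : ℝ) := by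
          refine sum_le_sum fun b hb => ?_
          rw [hH] at hb
          exact (mem_filter.1 hb).2
      _ ≤ ∑ b, 1000 * (((t.Rg P i).filter (fun u => t.fx u b)).card : ℝ) := by
          refine sum_le_sum_of_subset_of_nonneg (subset_univ _) fun b _ _ => by positivity
      _ = 1000 * ∑ b, (((t.Rg P i).filter (fun u => t.fx u b)).card : ℝ) := by rw [mul_sum]
      _ ≤ 2000 * n := by linarith
  rw [mul_one_div, le_div_iff₀ hr]
  have h3 : ((H.card : ℝ) * r) * n ≤ 2000 * n := by linarith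
  exact le_of_mul_le_mul_right h3 hn0

end

theorem thm_Bd2 (hMom : St_Mom) : St_Bd2 := by
  intro P V κ _ _ t C Y c Qp hN hB hA hb hC i hi a ha
  have num := nm P hN
  obtain ⟨M, hM⟩ : ∃ M : ℝ, M = (P.MW : ℝ) := ⟨_, rfl⟩
  obtain ⟨D, hD⟩ : ∃ D : ℝ, D = (P.D : ℝ) := ⟨_, rfl⟩
  rw [← hM, ← hD] at num
  have hM1 := num.M1
  have hM0 : 0 < M := by linarith
  have hD0 : 0 < D := lt_of_lt_of_le (by norm_num) num.D1
  have haP : a ∉ t.Pb P i := hb.qP i a ha
  have inj : ∀ b u v, t.E.N b u = t.E.N b v → u = v := by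
    intro b u v h
    rw [← t.E.inv b u, h, t.E.inv]
  have rgK : ∀ v, v ∈ t.Rg P i → t.K v = some i := by
    intro v hv
    unfold Gd.Rg at hv
    exact (mem_filter.1 hv).2.1
  -- the number of rows
  obtain ⟨n, hn⟩ : ∃ n : ℝ, n = ((t.Rg P i).card : ℝ) := ⟨_, rfl⟩
  have hKi : ((t.Ki i).card : ℝ) ≤ 2 * D := by
    have h1 := hB.gr.k2 i
    have h2 := num.a11
    have h3 := num.D1
    rw [← hD] at h1
    have h4 := mul_le_mul_of_nonneg_right h2 hD0.le
    nlinarith
  have hnD : n ≤ 2 * D := by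
    refine le_trans ?_ hKi
    rw [hn]
    have h1 : (t.Rg P i).card ≤ (t.Ki i).card := by
      refine card_le_card fun v hv => ?_
      unfold Gd.Ki
      exact mem_filter.2 ⟨mem_univ _, rgK v hv⟩
    exact_mod_cast h1
  have hn1 : 0 < (t.Rg P i).card := by
    have h1 := hB.gr.n1 i hi
    have h2 : 0 < P.D := by
      have : (0 : ℝ) < (P.D : ℝ) := by rw [← hD]; exact hD0
      exact_mod_cast this
    by_contra h3
    have h4 : (t.Rg P i).card = 0 := by omega
    rw [h4] at h1
    omega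
  have hn0 : 0 ≤ n := by rw [hn]; positivity
  -- the set `Psi`
  obtain ⟨Psi, hPsi⟩ : ∃ S : Finset V, S = univ.filter (fun w => Y w ∧ t.K w = some i ∧
    ¬ bk2 t C c a w ∧ (t.fx w a ∨ (t.cr w a ∧ t.E.N a w ∈ t.Rg P i ∧ t.W (t.E.N a w) ∧
      ¬ col2 t C c (t.E.N a w)))) := ⟨_, rfl⟩
  have hPs : ∀ w ∈ Psi, Y w ∧ t.K w = some i ∧
    ¬ bk2 t C c a w ∧ (t.fx w a ∨ (t.cr w a ∧ t.E.N a w ∈ t.Rg P i ∧ t.W (t.E.N a w) ∧
      ¬ col2 t C c (t.E.N a w))) := by
    intro w hw
    rw [hPsi] at hw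
    exact (mem_filter.1 hw).2
  have hcinj : ∀ w ∈ Psi, ∀ w' ∈ Psi, c w = c w' → w = w' := by
    intro w hw w' hw' h
    by_contra hne
    have h1 := hPs w hw
    have h2 := hPs w' hw'
    exact hA.yun w w' h1.1 (hA.yrow w' h2.1).1 (by rw [h1.2.1, h2.2.1]) (Ne.symm hne) h.symm
  -- used columns
  obtain ⟨Us, hUs⟩ : ∃ S : Finset V, S = univ.filter (fun v => t.K v = some i ∧ t.W v ∧
    col2 t C c v) := ⟨_, rfl⟩
  have hUc : (Us.card : ℝ) ≤ 2 * P.eps * D := by
    rw [hUs, hD]
    exact hb.y6 i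
  -- (A)
  have hPA : D ≤ 310 * M * Psi.card := by
    obtain ⟨T, hT1, hT2, hT3⟩ := hC.y8 i a hi
    have hk4 := hB.tk.k4 i a T hi haP hT1 hT2
    obtain ⟨A0, hA0⟩ : ∃ S : Finset V, S = univ.filter (fun w => w ∈ t.Rg P i ∧ ¬ t.F0 w ∧
      w ∉ t.FB i a ∧ w ∉ T ∧ (t.fx w a ∨ (t.cr w a ∧ t.E.N a w ∈ t.Rg P i ∧
        t.W (t.E.N a w)))) := ⟨_, rfl⟩
    obtain ⟨B1, hB1⟩ : ∃ S : Finset V, S = univ.filter (fun w => w ∈ t.Rg P i ∧ ¬ t.F0 w ∧
      ¬ Y w) := ⟨_, rfl⟩
    obtain ⟨B2, hB2⟩ : ∃ S : Finset V, S = univ.filter (fun w => w ∈ t.Rg P i ∧ w ∉ T ∧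
      w ∉ t.FB i a ∧ bk2 t C c a w) := ⟨_, rfl⟩
    have hsub : A0 ⊆ Psi ∪ (B1 ∪ (B2 ∪ Us.image (fun v => t.E.N a v))) := by
      intro w hw
      rw [hA0] at hw
      obtain ⟨h1, h2, h3, h4, h5⟩ := (mem_filter.1 hw).2
      by_cases hY : Y w
      · by_cases hbk : bk2 t C c a w
        · refine mem_union_right _ (mem_union_right _ (mem_union_left _ ?_))
          rw [hB2]
          exact mem_filter.2 ⟨mem_univ _, h1, h4, h3, hbk⟩
        · rcases h5 with h5 | ⟨h5, h6, h7⟩
          · refine mem_union_left _ ?_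
            rw [hPsi]
            exact mem_filter.2 ⟨mem_univ _, hY, rgK w h1, hbk, Or.inl h5⟩
          · by_cases hcol : col2 t C c (t.E.N a w)
            · refine mem_union_right _ (mem_union_right _ (mem_union_right _ ?_))
              refine mem_image.2 ⟨t.E.N a w, ?_, t.E.inv a w⟩
              rw [hUs]
              exact mem_filter.2 ⟨mem_univ _, rgK _ h6, h7, hcol⟩
            · refine mem_union_left _ ?_
              rw [hPsi]
              exact mem_filter.2 ⟨mem_univ _, hY, rgK w h1, hbk, Or.inr ⟨h5, h6, h7, hcol⟩⟩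
      · refine mem_union_right _ (mem_union_left _ ?_)
        rw [hB1]
        exact mem_filter.2 ⟨mem_univ _, h1, h2, hY⟩
    have hcard : A0.card ≤ Psi.card + (B1.card + (B2.card + Us.card)) := by
      refine (card_le_card hsub).trans ((card_union_le _ _).trans ?_)
      refine Nat.add_le_add_left ((card_union_le _ _).trans ?_) _
      refine Nat.add_le_add_left ((card_union_le _ _).trans ?_) _
      exact Nat.add_le_add_left card_image_le _
    have hcr : (A0.card : ℝ) ≤ Psi.card + (B1.card + (B2.card + Us.card)) := by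
      exact_mod_cast hcard
    have hb1 : (B1.card : ℝ) ≤ (P.rho + 2 * P.pmax) * D := by
      rw [hB1, hD]
      exact hb.y7 i hi
    have hb2 : (B2.card : ℝ) ≤ 4 * P.eps * D := by
      rw [hB2, hD]
      exact hT3
    have hk4r : D ≤ 300 * M * A0.card := by
      rw [hD, hM, hA0]
      exact_mod_cast hk4
    have h1 : D ≤ 300 * M * (Psi.card + ((P.rho + 2 * P.pmax) * D + (4 * P.eps * D +
        2 * P.eps * D))) := by
      refine hk4r.trans (mul_le_mul_of_nonneg_left ?_ (by positivity))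
      linarith
    have a1 := mul_le_mul_of_nonneg_right num.a1 hD0.le
    have a2 := mul_le_mul_of_nonneg_right num.a2 hD0.le
    have a3 : 10 ^ 10 * (M * P.eps) * D ≤ 1 * D := by
      apply mul_le_mul_of_nonneg_right _ hD0.le
      refine le_trans ?_ num.a3
      have h2 : M * P.eps ≤ M ^ 2 * P.eps := by
        apply mul_le_mul_of_nonneg_right _ num.eps0
        nlinarith
      linarith
    nlinarith
  have hPK : (Psi.card : ℝ) ≤ 2 * D := by
    refine le_trans ?_ hKi
    have h1 : Psi.card ≤ (t.Ki i).card := by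
      refine card_le_card fun v hv => ?_
      unfold Gd.Ki
      exact mem_filter.2 ⟨mem_univ _, (hPs v hv).2.1⟩
    exact_mod_cast h1
  -- (B)
  obtain ⟨Hv, hHv⟩ : ∃ S : Finset κ, S = univ.filter (fun b => P.rho * ((t.Rg P i).card : ℝ) ≤
      1000 * (((t.Rg P i).filter (fun u => t.fx u b)).card : ℝ)) := ⟨_, rfl⟩
  have hHc : (Hv.card : ℝ) ≤ 2000 * (1 / P.rho) := by
    rw [hHv]
    exact few hB i P.rho num.rho0 hn1
  obtain ⟨T2, hT2⟩ : ∃ S : Finset κ, S = (Psi.image c) \ Hv := ⟨_, rfl⟩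
  have hT2m : ∀ b ∈ T2, (∃ w ∈ Psi, c w = b) ∧ 1000 * (((t.Rg P i).filter
      (fun u => t.fx u b)).card : ℝ) < P.rho * n := by
    intro b hb'
    rw [hT2] at hb'
    obtain ⟨h1, h2⟩ := mem_sdiff.1 hb'
    refine ⟨mem_image.1 h1, ?_⟩
    by_contra h3
    push Not at h3
    apply h2
    rw [hHv]
    refine mem_filter.2 ⟨mem_univ _, ?_⟩
    rw [← hn]
    exact h3
  have hT2c : D ≤ 311 * M * T2.card := by
    have h1 : Psi.card ≤ T2.card + Hv.card := by
      rw [← card_image_of_injOn (s := Psi) (f := c) (fun w hw w' hw' h => hcinj w hw w' hw' h),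
        hT2]
      have := card_le_card_sdiff_add_card (s := Psi.image c) (t := Hv)
      omega
    have h2 : (Psi.card : ℝ) ≤ T2.card + Hv.card := by exact_mod_cast h1
    have a10 := num.a10
    have h3 : D ≤ 310 * M * (T2.card + 2000 * (1 / P.rho)) :=
      hPA.trans (mul_le_mul_of_nonneg_left (by linarith) (by positivity))
    nlinarith
  have hT20 : 0 < T2.card := by
    by_contra h0
    have h1 : T2.card = 0 := by omega
    rw [h1] at hT2c
    norm_num at hT2c
    linarith
  -- (C)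
  obtain ⟨e1, he1⟩ : ∃ e : ℝ, e = (P.rho * n / 1000 + P.theta * D + ((t.Spi P i).card : ℝ) +
      2 * (P.X : ℝ)) / (2 * M) + P.nz := ⟨_, rfl⟩
  have hrho0 := num.rho0
  have he10 : 0 ≤ e1 := by
    rw [he1]
    have h1 := num.th0
    have h2 := num.nz0
    positivity
  obtain ⟨R, hR⟩ : ∃ R : κ → V → Prop, ∀ b u, R b u ↔ (t.cr u b ∧ t.E.N b u ∈ t.Rg P i ∧
      t.W (t.E.N b u)) := ⟨fun b u => (t.cr u b ∧ t.E.N b u ∈ t.Rg P i ∧ t.W (t.E.N b u)),
        fun _ _ => Iff.rfl⟩
  obtain ⟨bad1, hbad1⟩ : ∃ S : Finset V, S = (t.Rg P i).filter (fun u =>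
    2 * ((T2.filter (fun b => R b u)).card : ℝ) < 1 / (2 * M) * T2.card) := ⟨_, rfl⟩
  have hbad1c : (bad1.card : ℝ) ≤ P.rho * D / 25 := by
    have h1 := hMom κ V T2 (t.Rg P i) R (1 / (2 * M)) e1 P.nz (by positivity) hT20 he10
      num.nz0 ?_ ?_
    · rw [hbad1]
      refine h1.trans ?_
      rw [← hn, he1]
      exact fin1 num n T2.card ((t.Spi P i).card : ℝ) hn0 hnD hT2c
        (by rw [hD]; exact hB.gr.sp1 i)
    · intro b hb'
      obtain ⟨⟨w, hw, hwb⟩, hmis⟩ := hT2m b hb'
      have hbP : b ∉ t.Pb P i := by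
        rw [← hwb]
        exact hb.yP i w (hPs w hw).1 (hPs w hw).2.1
      have hk7 := hB.tk.k7 i b
      refine le_trans (le_trans ?_ hk7) (Nat.cast_le.2 (card_le_card (fun u hu => ?_)))
      rotate_left
      · obtain ⟨-, h2, h3⟩ := mem_filter.1 hu
        exact mem_filter.2 ⟨h2, (hR b u).2 h3⟩
      obtain ⟨G, hG⟩ : ∃ S : Finset V, S = univ.filter (fun u => u ∈ t.Rg P i ∧ t.gc u b ∧
        t.E.N b u ∈ t.Rg P i) := ⟨_, rfl⟩
      obtain ⟨O, hO⟩ : ∃ S : Finset V, S = univ.filter (fun w => t.K w = some i ∧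
        t.K (t.E.N b w) ≠ some i) := ⟨_, rfl⟩
      obtain ⟨Z, hZ⟩ : ∃ S : Finset V, S = univ.filter (fun w => t.K w = some i ∧
        t.z w ≠ w) := ⟨_, rfl⟩
      have hsub : t.Rg P i ⊆ G ∪ ((t.Rg P i).filter (fun u => t.fx u b) ∪ (O ∪
          ((t.Spi P i).image (fun v => t.E.N b v) ∪ Z.image (fun v => t.E.N b v)))) := by
        intro u hu
        by_cases h2 : t.fx u b
        · exact mem_union_right _ (mem_union_left _ (mem_filter.2 ⟨hu, h2⟩))
        · by_cases h3 : t.K (t.E.N b u) = some i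
          · by_cases h4 : t.z (t.E.N b u) = t.E.N b u
            · by_cases h5 : t.E.N b u ∈ t.Rg P i
              · refine mem_union_left _ ?_
                rw [hG]
                exact mem_filter.2 ⟨mem_univ _, hu, ⟨h2, h4⟩, h5⟩
              · refine mem_union_right _ (mem_union_right _ (mem_union_right _
                  (mem_union_left _ ?_)))
                refine mem_image.2 ⟨t.E.N b u, ?_, t.E.inv b u⟩
                unfold Gd.Spi
                refine mem_filter.2 ⟨mem_univ _, h3, ?_⟩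
                by_contra h6
                apply h5
                unfold Gd.Rg
                exact mem_filter.2 ⟨mem_univ _, h3, h6⟩
            · refine mem_union_right _ (mem_union_right _ (mem_union_right _
                  (mem_union_right _ ?_)))
              refine mem_image.2 ⟨t.E.N b u, ?_, t.E.inv b u⟩
              rw [hZ]
              exact mem_filter.2 ⟨mem_univ _, h3, h4⟩
          · refine mem_union_right _ (mem_union_right _ (mem_union_left _ ?_))
            rw [hO]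
            exact mem_filter.2 ⟨mem_univ _, rgK u hu, h3⟩
      have hcard : (t.Rg P i).card ≤ G.card + (((t.Rg P i).filter (fun u => t.fx u b)).card +
          (O.card + ((t.Spi P i).card + Z.card))) := by
        refine (card_le_card hsub).trans ((card_union_le _ _).trans ?_)
        refine Nat.add_le_add_left ((card_union_le _ _).trans ?_) _
        refine Nat.add_le_add_left ((card_union_le _ _).trans ?_) _
        refine Nat.add_le_add_left ((card_union_le _ _).trans ?_) _
        exact Nat.add_le_add card_image_le card_image_le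
      have hcr : n ≤ G.card + (((t.Rg P i).filter (fun u => t.fx u b)).card +
          (O.card + ((t.Spi P i).card + Z.card))) := by
        rw [hn]
        exact_mod_cast hcard
      have hOc : (O.card : ℝ) ≤ P.theta * D := by
        by_contra h2
        push Not at h2
        apply hbP
        unfold Ed.Pb
        refine mem_filter.2 ⟨mem_univ _, ?_⟩
        rw [hO, hD] at h2
        exact h2
      have hZc : (Z.card : ℝ) ≤ 2 * (P.X : ℝ) := by
        have h2 := hB.ed.r4' i
        rw [hZ]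
        exact_mod_cast h2
      rw [← hn, ← hM, ← hG, he1]
      have h2 : n - (P.rho * n / 1000 + P.theta * D + ((t.Spi P i).card : ℝ) +
          2 * (P.X : ℝ)) ≤ G.card := by linarith
      have h3 := div_le_div_of_nonneg_right h2 (show (0 : ℝ) ≤ 2 * M by positivity)
      have e : (n - (P.rho * n / 1000 + P.theta * D + ((t.Spi P i).card : ℝ) +
          2 * (P.X : ℝ))) / (2 * M) = 1 / (2 * M) * n - (P.rho * n / 1000 + P.theta * D +
            ((t.Spi P i).card : ℝ) + 2 * (P.X : ℝ)) / (2 * M) := by ring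
      rw [e] at h3
      linarith
    · intro b _ b' _ hbb
      have hk7 := hB.tk.k7' i b b' hbb
      rw [← hn, ← hM] at hk7
      rw [← hn]
      have e : (1 / (2 * M)) ^ 2 * n = n / (4 * M ^ 2) := by
        field_simp
        ring
      rw [e]
      refine le_trans (Nat.cast_le.2 (card_le_card (fun u hu => ?_))) hk7
      obtain ⟨h3, h4', h6'⟩ := mem_filter.1 hu
      obtain ⟨h4, _, h5⟩ := (hR b u).1 h4'
      obtain ⟨h6, _, h7⟩ := (hR b' u).1 h6'
      exact mem_filter.2 ⟨mem_univ _, h3, h4, h6, h5, h7⟩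
  -- (D)
  obtain ⟨bad2, hbad2⟩ : ∃ S : Finset V, S = univ.filter (fun u : V =>
    D < 10 ^ 4 * M ^ 2 * ((Psi.filter (fun w => t.E.N (c w) u = t.E.N a w)).card : ℝ)) :=
      ⟨_, rfl⟩
  have hbad2c : (bad2.card : ℝ) ≤ 2 * 10 ^ 4 * M ^ 2 := by
    have h1 : ∑ u, ((Psi.filter (fun w => t.E.N (c w) u = t.E.N a w)).card : ℝ) ≤ Psi.card := by
      have e : ∑ u, ((Psi.filter (fun w => t.E.N (c w) u = t.E.N a w)).card : ℝ) =
          ∑ w ∈ Psi, ((univ.filter (fun u => t.E.N (c w) u = t.E.N a w)).card : ℝ) := by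
        simp only [← Finset.sum_boole]
        rw [sum_comm]
      rw [e]
      calc ∑ w ∈ Psi, ((univ.filter (fun u => t.E.N (c w) u = t.E.N a w)).card : ℝ) ≤
          ∑ _w ∈ Psi, (1 : ℝ) := by
            refine sum_le_sum fun w _ => ?_
            have h2 : (univ.filter (fun u => t.E.N (c w) u = t.E.N a w)).card ≤ 1 := by
              rw [card_le_one]
              intro u hu v hv
              have h3 := (mem_filter.1 hu).2
              have h4 := (mem_filter.1 hv).2
              exact inj (c w) u v (h3.trans h4.symm)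
            exact_mod_cast h2
        _ = Psi.card := by rw [sum_const, nsmul_eq_mul, mul_one]
    have h2 : (bad2.card : ℝ) * D ≤ (2 * 10 ^ 4 * M ^ 2) * D := by
      calc (bad2.card : ℝ) * D = ∑ _u ∈ bad2, D := by rw [sum_const, nsmul_eq_mul]
        _ ≤ ∑ u ∈ bad2, 10 ^ 4 * M ^ 2 *
            ((Psi.filter (fun w => t.E.N (c w) u = t.E.N a w)).card : ℝ) := by
            refine sum_le_sum fun u hu => ?_
            rw [hbad2] at hu
            exact (mem_filter.1 hu).2.le
        _ ≤ ∑ u, 10 ^ 4 * M ^ 2 *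
            ((Psi.filter (fun w => t.E.N (c w) u = t.E.N a w)).card : ℝ) := by
            refine sum_le_sum_of_subset_of_nonneg (subset_univ _) fun b _ _ => by positivity
        _ = 10 ^ 4 * M ^ 2 *
            ∑ u, ((Psi.filter (fun w => t.E.N (c w) u = t.E.N a w)).card : ℝ) := by
            rw [mul_sum]
        _ ≤ 10 ^ 4 * M ^ 2 * (2 * D) :=
            mul_le_mul_of_nonneg_left (h1.trans hPK) (by positivity)
        _ = (2 * 10 ^ 4 * M ^ 2) * D := by ring
    exact le_of_mul_le_mul_right h2 hD0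
  -- (E)
  have hfin : (Rr t C i).filter (fun u => 1500 * P.MW ^ 2 * (opt t C Y c u a).card < P.D) ⊆
      bad1 ∪ bad2 := by
    intro u hu
    obtain ⟨huR, hlt⟩ := mem_filter.1 hu
    unfold Rr at huR
    obtain ⟨-, huK, huC⟩ := mem_filter.1 huR
    obtain ⟨j, hj⟩ := hA.rem u huC
    have hij : j = i := by
      unfold Gd.Rg at hj
      have h1 := (mem_filter.1 hj).2.1
      rw [huK] at h1
      exact (Option.some_injective _ h1).symm
    rw [hij] at hj
    by_contra hnot
    rw [mem_union] at hnot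
    push Not at hnot
    obtain ⟨hn1', hn2'⟩ := hnot
    have hX : 1 / (2 * M) * T2.card ≤ 2 * ((T2.filter (fun b => R b u)).card : ℝ) := by
      by_contra h1
      push Not at h1
      apply hn1'
      rw [hbad1]
      exact mem_filter.2 ⟨hj, h1⟩
    have hE : 10 ^ 4 * M ^ 2 * ((Psi.filter (fun w => t.E.N (c w) u = t.E.N a w)).card : ℝ) ≤
        D := by
      by_contra h1
      push Not at h1
      apply hn2'
      rw [hbad2]
      exact mem_filter.2 ⟨mem_univ _, h1⟩
    obtain ⟨Zu, hZu⟩ : ∃ S : Finset V, S = Psi.filter (fun w => c w ∈ T2 ∧ t.cr u (c w) ∧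
      t.E.N (c w) u ∈ t.Rg P i ∧ t.W (t.E.N (c w) u)) := ⟨_, rfl⟩
    have hZ1 : (T2.filter (fun b => R b u)).card ≤ Zu.card := by
      refine le_trans (card_le_card ?_) (card_image_le (f := c))
      intro b hb'
      obtain ⟨h1, h2'⟩ := mem_filter.1 hb'
      have h2 := (hR b u).1 h2'
      obtain ⟨⟨w, hw, hwb⟩, -⟩ := hT2m b h1
      refine mem_image.2 ⟨w, ?_, hwb⟩
      rw [hZu, mem_filter, hwb]
      exact ⟨hw, h1, h2⟩
    obtain ⟨C1, hC1⟩ : ∃ S : Finset V, S = Zu.filter (fun w => col2 t C c (t.E.N (c w) u)) :=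
      ⟨_, rfl⟩
    obtain ⟨C2, hC2⟩ : ∃ S : Finset V, S = Zu.filter (fun w => bk2 t C c (c w) u) := ⟨_, rfl⟩
    have hC1c : (C1.card : ℝ) ≤ 2 * P.eps * D := by
      refine le_trans ?_ hUc
      have h1 : C1.card ≤ Us.card := by
        refine card_le_card_of_injOn (fun w => t.E.N (c w) u) ?_ ?_
        · intro w hw
          have hw' : w ∈ C1 := hw
          rw [hC1] at hw'
          obtain ⟨h2, h3⟩ := mem_filter.1 hw'
          rw [hZu] at h2
          obtain ⟨h4, h5, h6, h7, h8⟩ := mem_filter.1 h2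
          show t.E.N (c w) u ∈ (Us : Set V)
          rw [mem_coe, hUs]
          exact mem_filter.2 ⟨mem_univ _, rgK _ h7, h8, h3⟩
        · intro w hw w' hw' h
          have hw1 : w ∈ C1 := hw
          have hw2 : w' ∈ C1 := hw'
          rw [hC1] at hw1 hw2
          have h2 := (mem_filter.1 hw1).1
          have h3 := (mem_filter.1 hw2).1
          rw [hZu] at h2 h3
          obtain ⟨h4, h5, h6, h7, h8⟩ := mem_filter.1 h2
          obtain ⟨h4', h5', h6', h7', h8'⟩ := mem_filter.1 h3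
          exact hcinj w h4 w' h4' (t.E.uniq (c w) (c w') u h h6.1.1)
      exact_mod_cast h1
    have hC2c : C2.card ≤ t.oo u := by
      have h1 : (C2.image c).card = C2.card := by
        refine card_image_of_injOn fun w hw w' hw' h => ?_
        have hw1 : w ∈ C2 := hw
        have hw2 : w' ∈ C2 := hw'
        rw [hC2] at hw1 hw2
        have h2 := (mem_filter.1 hw1).1
        have h3 := (mem_filter.1 hw2).1
        rw [hZu] at h2 h3
        exact hcinj w (mem_filter.1 h2).1 w' (mem_filter.1 h3).1 h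
      rw [← h1]
      unfold Gd.oo
      refine le_trans (card_le_card ?_) (card_image_le (f := c))
      intro b hb'
      obtain ⟨w, hw, hwb⟩ := mem_image.1 hb'
      rw [hC2] at hw
      obtain ⟨x, hx1, hx2, hx3, hx4⟩ := (mem_filter.1 hw).2
      refine mem_image.2 ⟨x, mem_filter.2 ⟨?_, hx2⟩, hx4.trans hwb⟩
      unfold nb
      exact mem_filter.2 ⟨mem_univ _, hx1⟩
    have hoo : (t.oo u : ℝ) ≤ P.eta * D := by
      unfold Gd.Rg at hj
      have h1 := (mem_filter.1 hj).2.2
      unfold Gd.Sp at h1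
      push Not at h1
      have h2 := (h1 (by rw [huK]; exact Option.some_ne_none i)).2
      rw [hD]
      exact h2.le
    have hsub : Zu ⊆ opt t C Y c u a ∪ (C1 ∪ (C2 ∪
        Psi.filter (fun w => t.E.N (c w) u = t.E.N a w))) := by
      intro w hw
      by_cases h1 : col2 t C c (t.E.N (c w) u)
      · refine mem_union_right _ (mem_union_left _ ?_)
        rw [hC1]
        exact mem_filter.2 ⟨hw, h1⟩
      · by_cases h2 : bk2 t C c (c w) u
        · refine mem_union_right _ (mem_union_right _ (mem_union_left _ ?_))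
          rw [hC2]
          exact mem_filter.2 ⟨hw, h2⟩
        · have hw' := hw
          rw [hZu] at hw'
          obtain ⟨h4, h5, h6, h7, h8⟩ := mem_filter.1 hw'
          by_cases h3 : t.E.N (c w) u = t.E.N a w
          · exact mem_union_right _ (mem_union_right _ (mem_union_right _
              (mem_filter.2 ⟨h4, h3⟩)))
          · refine mem_union_left _ ?_
            obtain ⟨p1, p2, p3, p4⟩ := hPs w h4
            unfold opt
            refine mem_filter.2 ⟨mem_univ _, p1, by rw [p2, huK], ⟨h6, by rw [rgK _ h7, huK], h8,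
              h1, h2⟩, p3, ?_, h3⟩
            rcases p4 with p4 | ⟨p4, p5, p6, p7⟩
            · exact Or.inl p4
            · exact Or.inr ⟨p4, by rw [rgK _ p5, p2], p6, p7⟩
    have hcard : Zu.card ≤ (opt t C Y c u a).card + (C1.card + (C2.card +
        (Psi.filter (fun w => t.E.N (c w) u = t.E.N a w)).card)) := by
      refine (card_le_card hsub).trans ((card_union_le _ _).trans ?_)
      refine Nat.add_le_add_left ((card_union_le _ _).trans ?_) _
      exact Nat.add_le_add_left (card_union_le _ _) _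
    have hcr : ((T2.filter (fun b => R b u)).card : ℝ) ≤ ((opt t C Y c u a).card : ℝ) + (C1.card + (t.oo u +
        (Psi.filter (fun w => t.E.N (c w) u = t.E.N a w)).card)) := by
      have := hZ1.trans (hcard.trans (Nat.add_le_add_left (Nat.add_le_add_left
        (Nat.add_le_add_right hC2c _) _) _))
      exact_mod_cast this
    have hltr : 1500 * M ^ 2 * ((opt t C Y c u a).card : ℝ) < D := by
      rw [hM, hD]
      exact_mod_cast hlt
    generalize ((opt t C Y c u a).card : ℝ) = o at hcr hltr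
    generalize ((T2.filter (fun b => R b u)).card : ℝ) = xu at hcr hX
    generalize ((Psi.filter (fun w => t.E.N (c w) u = t.E.N a w)).card : ℝ) = eu at hcr hE
    generalize (C1.card : ℝ) = c1 at hcr hC1c
    generalize (t.oo u : ℝ) = ou at hcr hoo
    generalize (T2.card : ℝ) = τ at hX hT2c
    have hX' : τ ≤ 4 * M * xu := by
      have h1 : 1 / (2 * M) * τ = τ / (2 * M) := by ring
      rw [h1, div_le_iff₀ (by positivity)] at hX
      linarith
    have h1 : D ≤ 1244 * M ^ 2 * xu := by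
      have h2 := mul_le_mul_of_nonneg_left hX' (show 0 ≤ 311 * M by positivity)
      nlinarith
    have h2 : xu ≤ o + (2 * P.eps * D + (P.eta * D + eu)) := by linarith
    have h3 : D ≤ 1244 * M ^ 2 * (o + (2 * P.eps * D + (P.eta * D + eu))) :=
      h1.trans (mul_le_mul_of_nonneg_left h2 (by positivity))
    have a3 := mul_le_mul_of_nonneg_right num.a3 hD0.le
    have a4 := mul_le_mul_of_nonneg_right num.a4 hD0.le
    have e : 1244 * M ^ 2 * (o + (2 * P.eps * D + (P.eta * D + eu))) =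
        1244 / 1500 * (1500 * M ^ 2 * o) + 2488 * (M ^ 2 * P.eps * D) +
          1244 * (M ^ 2 * P.eta * D) + 1244 / 10 ^ 4 * (10 ^ 4 * M ^ 2 * eu) := by ring
    rw [e] at h3
    have a3' : M ^ 2 * P.eps * D ≤ D / 10 ^ 10 := by linarith
    have a4' : M ^ 2 * P.eta * D ≤ D / 10 ^ 10 := by linarith
    linarith
  have hc := (card_le_card hfin).trans (card_union_le _ _)
  have hcr : (((Rr t C i).filter (fun u => 1500 * P.MW ^ 2 * (opt t C Y c u a).card <
      P.D)).card : ℝ) ≤ bad1.card + bad2.card := by exact_mod_cast hc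
  rw [← hD]
  have a7 := num.a7
  have h1 : M ^ 2 ≤ M ^ 3 := pow_le_pow_right₀ hM1 (by norm_num)
  have h2 : 0 < P.rho * D := mul_pos num.rho0 hD0
  linarith

end Pool.TCV
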