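import Pool.Agent.Helper60.TCV.StK2

/-!
# The base colouring of the K-stage is proper
-/

set_option autoImplicit false

namespace Pool.TCV

open Pool.TC Pool.TCM Pool.TCS Pool.TN Finset
open scoped Classical

section

variable {P : Par} {V κ : Type} [Fintype V] [Fintype κ] {k : Kd V κ}

private theorem CbP_X (h : KdP P k) {y : V} (hy : k.X y) :
    ∃ i, k.K y = some i ∧ ¬ k.Sp P y ∧ k.cX y ∈ k.Pb P i ∧ y ∉ k.FB i (k.cX y) := by
  obtain ⟨i, hi⟩ := h.xp.row y hy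
  have h1 : k.K y = some i ∧ ¬ k.Sp P y := by
    simpa [Gd.Rg] using hi
  obtain ⟨h2, h3⟩ := h.xp.x1 i y hy h1.1
  have h4 : y ∉ k.FB i (k.cX y) := by
    have h5 := (mem_filter.1 h3).2
    exact h5.1
  exact ⟨i, h1.1, h1.2, h2, h4⟩

private theorem CbP_F (h : KdP P k) {y : V} (hy : k.FF y) :
    ∃ i, k.K y = some i ∧ ¬ k.Sp P y ∧ k.m y ∉ k.Pb P i ∧ k.m y ∈ k.mF i ∧ k.cand P y := by
  have hc := h.bs.ac.f0 y hy.1
  rcases hc with h1 | ⟨i, h1, -, -, -, h2⟩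
  · exact absurd h1.1.1 hy.2.1
  · have h3 : k.K y = some i ∧ ¬ k.Sp P y := by
      simpa [Gd.Rg] using h1
    refine ⟨i, h3.1, h3.2, h2, ?_, h.bs.ac.f0 y hy.1⟩
    exact mem_image.2 ⟨y, by simpa [Fd.F0i] using ⟨h3.1, hy.1⟩, rfl⟩

/-- the four types of coloured vertices -/
private theorem CbP_cls (h : KdP P k) {y : V} (hy : k.Cb P y) :
    (k.K y = none ∧ k.cb P y = k.cS y) ∨
    (k.X y ∧ k.cb P y = k.cX y) ∨
    (k.K y ≠ none ∧ k.Sp P y ∧ k.cb P y = k.cZ y) ∨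
    (k.FF y ∧ k.cb P y = k.m y) := by
  by_cases h0 : k.K y = none
  · left
    refine ⟨h0, ?_⟩
    unfold Kd.cb
    rw [if_pos h0]
  · by_cases h1 : k.X y
    · right; left
      refine ⟨h1, ?_⟩
      unfold Kd.cb
      rw [if_neg h0, if_pos h1]
    · by_cases h2 : k.Sp P y
      · right; right; left
        refine ⟨h0, h2, ?_⟩
        unfold Kd.cb
        rw [if_neg h0, if_neg h1, if_pos h2]
      · right; right; right
        have h3 : k.FF y := by
          rcases hy with h4 | h4 | h4 | h4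
          · exact absurd h4 h0
          · exact absurd h4 h1
          · exact absurd h4 h2
          · exact h4
        refine ⟨h3, ?_⟩
        unfold Kd.cb
        rw [if_neg h0, if_neg h1, if_neg h2]

private theorem CbP_SX (h : KdP P k) {u v : V} (hu : k.K u = none) (hv : k.X v)
    (ha : k.G.Adj u v) : k.cS u ≠ k.cX v := by
  by_cases hf : k.F0 u
  · rw [h.sp.fr u hu hf]
    intro e
    obtain ⟨i, h1, -, -, h2⟩ := CbP_X h hv
    apply h2
    simp only [Fd.FB, mem_filter, mem_univ, true_and]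
    refine ⟨h1, u, hf, ?_, ha, e⟩
    rw [hu]
    exact (Option.some_ne_none i).symm
  · exact fun e => (h.sp.g2 u ⟨hu, hf⟩).2.2.2 v hv ha e.symm

private theorem CbP_SZ (h : KdP P k) {u v : V} (hu : k.K u = none) (hv0 : k.K v ≠ none)
    (hv : k.Sp P v) (ha : k.G.Adj u v) : k.cS u ≠ k.cZ v := by
  have h1 := h.zp.z5 v u hv ha.symm (by rw [hu]; exact hv0.symm) (Or.inl hu)
  unfold cd at h1
  rw [if_pos hu] at h1
  exact h1

private theorem CbP_SF (h : KdP P k) {u v : V} (hu : k.K u = none) (hv : k.FF v)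
    (ha : k.G.Adj u v) : k.cS u ≠ k.m v := by
  by_cases hf : k.F0 u
  · rw [h.sp.fr u hu hf]
    intro e
    exact h.bs.ac.f1 u v hf hv.1 ⟨ha.ne, h.bs.ac.f0 u hf, h.bs.ac.f0 v hv.1, e, Or.inl ha⟩
  · intro e
    exact hv.2.2.2 ⟨u, ⟨hu, hf⟩, ha.symm, e⟩

private theorem CbP_XZ (h : KdP P k) {u v : V} (hu : k.X u) (hv0 : k.K v ≠ none)
    (hv : k.Sp P v) (ha : k.G.Adj u v ∨ k.K u = k.K v) : k.cX u ≠ k.cZ v := by
  obtain ⟨i, h1, -, h2, -⟩ := CbP_X h hu
  by_cases hk : k.K u = k.K v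
  · intro e
    have h3 := (h.zp.z2 i v hv (hk.symm.trans h1)).1
    rw [e] at h2
    exact h3 h2
  · have ha' : k.G.Adj u v := ha.resolve_right hk
    have h3 := h.zp.z5 v u hv ha'.symm hk (Or.inr (Or.inl hu))
    unfold cd at h3
    rw [if_neg (by rw [h1]; exact Option.some_ne_none i), if_pos hu] at h3
    exact h3

private theorem CbP_XF (h : KdP P k) {u v : V} (hu : k.X u) (hv : k.FF v)
    (ha : k.G.Adj u v ∨ k.K u = k.K v) : k.cX u ≠ k.m v := by
  obtain ⟨i, h1, -, h2, h3⟩ := CbP_X h hu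
  obtain ⟨j, h4, -, h5, -, -⟩ := CbP_F h hv
  by_cases hk : k.K u = k.K v
  · intro e
    have hij : i = j := Option.some_injective _ (h1.symm.trans (hk.trans h4))
    rw [e, hij] at h2
    exact h5 h2
  · have ha' : k.G.Adj u v := ha.resolve_right hk
    intro e
    apply h3
    simp only [Fd.FB, mem_filter, mem_univ, true_and]
    refine ⟨h1, v, hv.1, ?_, ha'.symm, e.symm⟩
    intro h6
    exact hk (h1.trans h6.symm)

private theorem CbP_ZF (h : KdP P k) {u v : V} (hu : k.Sp P u) (hv : k.FF v)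
    (ha : k.G.Adj u v ∨ k.K u = k.K v) : k.cZ u ≠ k.m v := by
  obtain ⟨j, h4, -, h5, h6, -⟩ := CbP_F h hv
  by_cases hk : k.K u = k.K v
  · intro e
    have h3 := (h.zp.z2 j u hu (hk.trans h4)).2.2
    rw [e] at h3
    exact h3 h6
  · have ha' : k.G.Adj u v := ha.resolve_right hk
    have h3 := h.zp.z5 u v hu ha' (fun e => hk e.symm) (Or.inr (Or.inr hv.1))
    unfold cd at h3
    rw [if_neg hv.2.1, if_neg hv.2.2.1] at h3
    exact h3.symm

private theorem CbP_ZZ (h : KdP P k) {u v : V} (hu : k.Sp P u) (hv : k.Sp P v)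
    (ha : k.G.Adj u v) : k.cZ u ≠ k.cZ v := by
  by_cases hk : k.K u = k.K v
  · intro e
    rcases h.zp.z1 u v hu hv hk e with h1 | h1
    · exact ha.ne h1.symm
    · by_cases h2 : k.pr u = u
      · exact ha.ne (h1.trans h2).symm
      · apply (h.bs.gr.padj u h2).2.2
        rw [← h1]
        exact ha
  · exact h.zp.z6 u v hu hv ha hk

private theorem CbP_FF (h : KdP P k) {u v : V} (hu : k.FF u) (hv : k.FF v) (huv : u ≠ v)
    (ha : k.G.Adj u v ∨ (k.K u ≠ none ∧ k.K u = k.K v)) : k.m u ≠ k.m v := by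
  intro e
  exact h.bs.ac.f1 u v hu.1 hv.1 ⟨huv, h.bs.ac.f0 u hu.1, h.bs.ac.f0 v hv.1, e, ha⟩

end

/-- **[CBP]** the base colouring is proper -/
theorem thm_CbP : St_CbP := by
  intro P V κ _ _ k h
  constructor
  · intro u v hu hv ha
    rcases CbP_cls h hu with ⟨a0, a⟩ | ⟨a0, a⟩ | ⟨a0, a1, a⟩ | ⟨a0, a⟩ <;>
    rcases CbP_cls h hv with ⟨b0, b⟩ | ⟨b0, b⟩ | ⟨b0, b1, b⟩ | ⟨b0, b⟩ <;> rw [a, b]
    · exact h.sp.g1 u v a0 b0 (Or.inl ha)
    · exact CbP_SX h a0 b0 ha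
    · exact CbP_SZ h a0 b0 b1 ha
    · exact CbP_SF h a0 b0 ha
    · exact (CbP_SX h b0 a0 ha.symm).symm
    · exact h.xp.x3 u v a0 b0 ha.ne (Or.inr ha)
    · exact CbP_XZ h a0 b0 b1 (Or.inl ha)
    · exact CbP_XF h a0 b0 (Or.inl ha)
    · exact (CbP_SZ h b0 a0 a1 ha.symm).symm
    · exact (CbP_XZ h b0 a0 a1 (Or.inl ha.symm)).symm
    · exact CbP_ZZ h a1 b1 ha
    · exact CbP_ZF h a1 b0 (Or.inl ha)
    · exact (CbP_SF h b0 a0 ha.symm).symm
    · exact (CbP_XF h b0 a0 (Or.inl ha.symm)).symm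
    · exact (CbP_ZF h b1 a0 (Or.inl ha.symm)).symm
    · exact CbP_FF h a0 b0 ha.ne (Or.inl ha)
  · intro u v hu hv hk huv hne hc
    have hkv : k.K v ≠ none := by
      rw [← huv]
      exact hk
    rcases CbP_cls h hu with ⟨a0, a⟩ | ⟨a0, a⟩ | ⟨a0, a1, a⟩ | ⟨a0, a⟩ <;>
    rcases CbP_cls h hv with ⟨b0, b⟩ | ⟨b0, b⟩ | ⟨b0, b1, b⟩ | ⟨b0, b⟩ <;> rw [a, b] at hc
    · exact absurd a0 hk
    · exact absurd a0 hk
    · exact absurd a0 hk
    · exact absurd a0 hk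
    · exact absurd b0 hkv
    · exact absurd hc (h.xp.x3 u v a0 b0 hne (Or.inl huv))
    · exact absurd hc (CbP_XZ h a0 b0 b1 (Or.inr huv))
    · exact absurd hc (CbP_XF h a0 b0 (Or.inr huv))
    · exact absurd b0 hkv
    · exact absurd hc (CbP_XZ h b0 a0 a1 (Or.inr huv.symm)).symm
    · rcases h.zp.z1 u v a1 b1 huv hc with h1 | h1
      · exact absurd h1.symm hne
      · exact ⟨a1, h1⟩
    · exact absurd hc (CbP_ZF h a1 b0 (Or.inr huv))
    · exact absurd b0 hkv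
    · exact absurd hc (CbP_XF h b0 a0 (Or.inr huv.symm)).symm
    · exact absurd hc (CbP_ZF h b1 a0 (Or.inr huv.symm)).symm
    · exact absurd hc (CbP_FF h a0 b0 hne (Or.inr ⟨hk, huv⟩))

end Pool.TCV
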