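import Pool.Agent.Helper60.TCV.StK3

/-!
# T10, section 9d: the number of conflicts of a swap
-/

set_option autoImplicit false

namespace Pool.TCV

open Pool.TC Pool.TCM Pool.TCS Pool.TN Finset
open scoped Classical

theorem thm_Cn10 : St_Cn10 := by
  intro P V κ _ _ t C Y c Qp α hB hA hal i u w hu hCu hw
  have hEd := hB.ed
  have hopt : ∀ u' w', w' ∈ opt t C Y c u' (α u') → Y w' ∧ t.K w' = t.K u' ∧
      t.E.N (c w') u' ≠ u' ∧ t.K (t.E.N (c w') u') = t.K u' ∧ t.K (t.E.N (α u') w') = t.K w' := by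
    intro u' w' h
    unfold opt at h
    rw [mem_filter] at h
    obtain ⟨-, h1, h2, ⟨h3, h4, -, -, -⟩, -, h5, -⟩ := h
    refine ⟨h1, h2, h3.1.1, h4, ?_⟩
    rcases h5 with h5 | h5
    · have h6 : t.E.N (α u') w' = w' := h5
      rw [h6]
    · exact h5.2.1
  have hrem : ∀ u', ¬ C u' → t.K u' ≠ none := by
    intro u' h
    obtain ⟨j, hj⟩ := hA.rem u' h
    unfold Gd.Rg at hj
    rw [mem_filter] at hj
    have h1 : t.K u' = some j := hj.2.1
    rw [h1]
    exact Option.some_ne_none j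
  obtain ⟨hYw, hKw, hn1, hK1, hK2⟩ := hopt u w hw
  have hCw : C w := (hA.yrow w hYw).1
  have hKw' : t.K w = some i := hKw.trans hu
  -- the row is determined by its colour and its cluster
  have hyun : ∀ x y, Y x → Y y → t.K x = t.K y → c x = c y → x = y := by
    intro x y hx hy h1 h2
    by_contra h3
    exact hA.yun y x hy (hA.yrow x hx).1 h1 h3 h2
  set T := univ.filter (fun p : V × V => ¬ C p.1 ∧ p.1 ≠ u ∧ p.2 ∈ opt t C Y c p.1 (α p.1) ∧
    cfF t c α u w p.1 p.2) with hT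
  have hTm : ∀ p ∈ T, ¬ C p.1 ∧ p.1 ≠ u ∧ p.2 ∈ opt t C Y c p.1 (α p.1) ∧
      cfF t c α u w p.1 p.2 := by
    intro p hp
    rw [hT, mem_filter] at hp
    exact hp.2
  have hRr : ∀ u', ¬ C u' → t.K u' = some i → u' ∈ Rr t C i := by
    intro u' h1 h2
    unfold Rr
    exact mem_filter.2 ⟨mem_univ _, h2, h1⟩
  -- columns: type A, `N_{c w'} u' = v`
  have hA1 : ∀ v, t.K v = some i →
      (T.filter (fun p => v = t.E.N (c p.2) p.1)).card ≤ (Rr t C i).card := by
    intro v hv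
    refine card_le_card_of_injOn Prod.fst ?_ ?_
    · intro p hp
      obtain ⟨h1, h2⟩ := mem_filter.1 (mem_coe.1 hp)
      obtain ⟨h3, h4, h5, h6⟩ := hTm p h1
      obtain ⟨h7, h8, h9, h10, h11⟩ := hopt _ _ h5
      refine mem_coe.2 (hRr p.1 h3 ?_)
      rw [← h10, ← h2]
      exact hv
    · intro p hp p' hp' hpp
      obtain ⟨h1, h2⟩ := mem_filter.1 (mem_coe.1 hp)
      obtain ⟨h3, h4, h5, h6⟩ := hTm p h1
      obtain ⟨h7, h8, h9, h10, h11⟩ := hopt _ _ h5
      obtain ⟨h1', h2'⟩ := mem_filter.1 (mem_coe.1 hp')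
      obtain ⟨h3', h4', h5', h6'⟩ := hTm p' h1'
      obtain ⟨h7', h8', h9', h10', h11'⟩ := hopt _ _ h5'
      have h12 : t.E.N (c p.2) p.1 = t.E.N (c p'.2) p.1 := by
        rw [← h2, h2', hpp]
      have h13 := t.E.uniq _ _ _ h12 h9
      have h14 : t.K p.2 = t.K p'.2 := by rw [h8, h8', hpp]
      exact Prod.ext hpp (hyun _ _ h7 h7' h14 h13)
  -- columns: type B, `N_{α u'} w' = v`
  have hB1 : ∀ v, t.K v = some i →
      (T.filter (fun p => v = t.E.N (α p.1) p.2)).card ≤ (Rr t C i).card := by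
    intro v hv
    refine card_le_card_of_injOn Prod.fst ?_ ?_
    · intro p hp
      obtain ⟨h1, h2⟩ := mem_filter.1 (mem_coe.1 hp)
      obtain ⟨h3, h4, h5, h6⟩ := hTm p h1
      obtain ⟨h7, h8, h9, h10, h11⟩ := hopt _ _ h5
      refine mem_coe.2 (hRr p.1 h3 ?_)
      rw [← h8, ← h11, ← h2]
      exact hv
    · intro p hp p' hp' hpp
      obtain ⟨h1, h2⟩ := mem_filter.1 (mem_coe.1 hp)
      obtain ⟨h1', h2'⟩ := mem_filter.1 (mem_coe.1 hp')
      have hpp' : p.1 = p'.1 := hpp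
      have h3 : t.E.N (α p.1) v = p.2 := by rw [h2, t.E.inv]
      have h4 : t.E.N (α p.1) v = p'.2 := by rw [hpp', h2', t.E.inv]
      exact Prod.ext hpp (h3.symm.trans h4)
  -- `w' = w`
  have h1c : (T.filter (fun p => w = p.2)).card ≤ (Rr t C i).card := by
    refine card_le_card_of_injOn Prod.fst ?_ ?_
    · intro p hp
      obtain ⟨h1, h2⟩ := mem_filter.1 (mem_coe.1 hp)
      obtain ⟨h3, h4, h5, h6⟩ := hTm p h1
      obtain ⟨h7, h8, h9, h10, h11⟩ := hopt _ _ h5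
      refine mem_coe.2 (hRr p.1 h3 ?_)
      rw [← h8, ← h2]
      exact hKw'
    · intro p hp p' hp' hpp
      obtain ⟨h1, h2⟩ := mem_filter.1 (mem_coe.1 hp)
      obtain ⟨h1', h2'⟩ := mem_filter.1 (mem_coe.1 hp')
      exact Prod.ext hpp (h2.symm.trans h2')
  -- the neighbours outside of the cluster: type C, `u'` is a neighbour
  have hC1 : ∀ (x : V) (b : κ), (T.filter (fun p => t.G.Adj x p.1 ∧ t.K p.1 ≠ t.K x ∧
      c p.2 = b)).card ≤ t.oo x := by
    intro x b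
    unfold Gd.oo
    refine card_le_card_of_injOn Prod.fst ?_ ?_
    · intro p hp
      obtain ⟨h1, h2, h2a, h2b⟩ := mem_filter.1 (mem_coe.1 hp)
      refine mem_coe.2 (mem_filter.2 ⟨?_, h2a⟩)
      simp only [nb, mem_filter, mem_univ, true_and]
      exact h2
    · intro p hp p' hp' hpp
      obtain ⟨h1, h2, h2a, h2b⟩ := mem_filter.1 (mem_coe.1 hp)
      obtain ⟨h1', h2', h2a', h2b'⟩ := mem_filter.1 (mem_coe.1 hp')
      obtain ⟨h7, h8, -⟩ := hopt _ _ (hTm p h1).2.2.1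
      obtain ⟨h7', h8', -⟩ := hopt _ _ (hTm p' h1').2.2.1
      have h14 : t.K p.2 = t.K p'.2 := by rw [h8, h8', hpp]
      exact Prod.ext hpp (hyun _ _ h7 h7' h14 (h2b.trans h2b'.symm))
  -- type D, `w'` is a neighbour
  have hD1 : ∀ (x : V) (b : κ), (T.filter (fun p => t.G.Adj x p.2 ∧ t.K p.2 ≠ t.K x ∧
      α p.1 = b)).card ≤ t.oo x := by
    intro x b
    unfold Gd.oo
    refine card_le_card_of_injOn Prod.snd ?_ ?_
    · intro p hp
      obtain ⟨h1, h2, h2a, h2b⟩ := mem_filter.1 (mem_coe.1 hp)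
      refine mem_coe.2 (mem_filter.2 ⟨?_, h2a⟩)
      simp only [nb, mem_filter, mem_univ, true_and]
      exact h2
    · intro p hp p' hp' hpp
      obtain ⟨h1, h2, h2a, h2b⟩ := mem_filter.1 (mem_coe.1 hp)
      obtain ⟨h1', h2', h2a', h2b'⟩ := mem_filter.1 (mem_coe.1 hp')
      obtain ⟨h3, -, h5, -⟩ := hTm p h1
      obtain ⟨h3', -, h5', -⟩ := hTm p' h1'
      obtain ⟨h7, h8, -⟩ := hopt _ _ h5
      obtain ⟨h7', h8', -⟩ := hopt _ _ h5'
      have h14 : t.K p.1 = t.K p'.1 := by rw [← h8, ← h8', hpp]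
      exact Prod.ext (hal.inj _ _ h3 h3' h14 (h2b.trans h2b'.symm)) hpp
  have hKv1 : t.K (t.E.N (c w) u) = some i := hK1.trans hu
  have hKv2 : t.K (t.E.N (α u) w) = some i := hK2.trans hKw'
  have hsub : T ⊆ (T.filter (fun p => w = p.2)) ∪
      (T.filter (fun p => t.E.N (c w) u = t.E.N (c p.2) p.1)) ∪
      (T.filter (fun p => t.E.N (c w) u = t.E.N (α p.1) p.2)) ∪
      (T.filter (fun p => t.E.N (α u) w = t.E.N (c p.2) p.1)) ∪
      (T.filter (fun p => t.E.N (α u) w = t.E.N (α p.1) p.2)) ∪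
      (T.filter (fun p => t.G.Adj u p.1 ∧ t.K p.1 ≠ t.K u ∧ c p.2 = c w)) ∪
      (T.filter (fun p => t.G.Adj w p.2 ∧ t.K p.2 ≠ t.K w ∧ α p.1 = α u)) ∪
      (T.filter (fun p => t.G.Adj u p.2 ∧ t.K p.2 ≠ t.K u ∧ α p.1 = c w)) ∪
      (T.filter (fun p => t.G.Adj w p.1 ∧ t.K p.1 ≠ t.K w ∧ c p.2 = α u)) := by
    intro p hp
    obtain ⟨h3, h4, h5, h6⟩ := hTm p hp
    obtain ⟨h7, h8, h9, h10, h11⟩ := hopt _ _ h5
    simp only [mem_union, mem_filter]
    rcases h6 with h6 | h6 | h6 | h6 | h6 | h6 | h6 | h6 | h6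
    · exact (Or.inl (Or.inl (Or.inl (Or.inl (Or.inl (Or.inl (Or.inl (Or.inl ⟨hp, h6⟩))))))))
    · exact (Or.inl (Or.inl (Or.inl (Or.inl (Or.inl (Or.inl (Or.inl (Or.inr ⟨hp, h6⟩))))))))
    · exact (Or.inl (Or.inl (Or.inl (Or.inl (Or.inl (Or.inl (Or.inr ⟨hp, h6⟩)))))))
    · exact (Or.inl (Or.inl (Or.inl (Or.inl (Or.inl (Or.inr ⟨hp, h6⟩))))))
    · exact (Or.inl (Or.inl (Or.inl (Or.inl (Or.inr ⟨hp, h6⟩)))))
    · by_cases h12 : t.K p.1 = t.K u
      · have h13 : w = p.2 := hyun _ _ hYw h7 (by rw [hKw, h8, h12]) h6.2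
        exact (Or.inl (Or.inl (Or.inl (Or.inl (Or.inl (Or.inl (Or.inl (Or.inl ⟨hp, h13⟩))))))))
      · exact (Or.inl (Or.inl (Or.inl (Or.inr ⟨hp, h6.1, h12, h6.2.symm⟩))))
    · by_cases h12 : t.K p.2 = t.K w
      · exact absurd (hal.inj _ _ h3 hCu (by rw [← h8, h12, hKw]) h6.2.symm) h4
      · exact (Or.inl (Or.inl (Or.inr ⟨hp, h6.1, h12, h6.2.symm⟩)))
    · by_cases h12 : t.K p.2 = t.K u
      · have h13 : α p.1 ∈ Qp i := hal.mem p.1 i h3 (by rw [← h8, h12, hu])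
        exact absurd h6.2 (hA.qun i _ h13 w hCw hKw')
      · exact (Or.inl (Or.inr ⟨hp, h6.1, h12, h6.2.symm⟩))
    · by_cases h12 : t.K p.1 = t.K w
      · have h13 : α u ∈ Qp i := hal.mem u i hCu hu
        exact absurd h6.2.symm (hA.qun i _ h13 p.2 (hA.yrow _ h7).1 (by rw [h8, h12, hKw']))
      · exact Or.inr ⟨hp, h6.1, h12, h6.2.symm⟩
  have e1 := card_le_card hsub
  have b1 := h1c
  have b2 := hA1 _ hKv1
  have b3 := hB1 _ hKv1
  have b4 := hA1 _ hKv2
  have b5 := hB1 _ hKv2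
  have b6 := hC1 u (c w)
  have b7 := hD1 w (α u)
  have b8 := hD1 u (c w)
  have b9 := hC1 w (α u)
  refine e1.trans ?_
  refine (card_union_le _ _).trans ?_
  refine (Nat.add_le_add_right (card_union_le _ _) _).trans ?_
  refine (Nat.add_le_add_right (Nat.add_le_add_right (card_union_le _ _) _) _).trans ?_
  refine (Nat.add_le_add_right (Nat.add_le_add_right (Nat.add_le_add_right
    (card_union_le _ _) _) _) _).trans ?_
  refine (Nat.add_le_add_right (Nat.add_le_add_right (Nat.add_le_add_right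
    (Nat.add_le_add_right (card_union_le _ _) _) _) _) _).trans ?_
  refine (Nat.add_le_add_right (Nat.add_le_add_right (Nat.add_le_add_right
    (Nat.add_le_add_right (Nat.add_le_add_right (card_union_le _ _) _) _) _) _) _).trans ?_
  refine (Nat.add_le_add_right (Nat.add_le_add_right (Nat.add_le_add_right
    (Nat.add_le_add_right (Nat.add_le_add_right (Nat.add_le_add_right
      (card_union_le _ _) _) _) _) _) _) _).trans ?_
  refine (Nat.add_le_add_right (Nat.add_le_add_right (Nat.add_le_add_right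
    (Nat.add_le_add_right (Nat.add_le_add_right (Nat.add_le_add_right
      (Nat.add_le_add_right (card_union_le _ _) _) _) _) _) _) _) _).trans ?_
  omega

end Pool.TCV
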