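import Pool.Agent.Helper60.TCV.StK2

/-!
# TCV: module Few (helper75): small sets
-/

set_option autoImplicit false

namespace Pool.TCV

open Pool.TC Pool.TCM Pool.TCS Pool.TN Finset
open scoped Classical

private theorem Few_num {P : Par} (hn : Num10 P) :
    P.pmax ≤ P.eps ∧ 0 < P.theta ∧ 0 ≤ P.eps ∧ (1 : ℝ) ≤ P.D ∧
      P.pmax * P.theta = 103 * P.delta := by
  have hX : (10 : ℝ) ^ 20 ≤ P.X := by exact_mod_cast hn.X0
  have hX1 : (1 : ℝ) ≤ P.X := le_trans (by norm_num) hX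
  have hX0 : (0 : ℝ) < P.X := by linarith
  have h103 : (103 : ℝ) ≤ P.X := le_trans (by norm_num) hX
  have hth : 0 < P.theta := by
    rw [hn.theta]
    positivity
  refine ⟨?_, hth, ?_, ?_, ?_⟩
  · rw [hn.pmax, hn.delta, hn.theta, hn.eps, div_le_div_iff₀ (by positivity) (by positivity)]
    rw [mul_one_div, one_mul, div_mul_eq_mul_div, div_le_div_iff₀ (by positivity) (by positivity),
      one_mul]
    calc 103 * (P.X : ℝ) ^ 15 * (P.X : ℝ) ^ 14 ≤ P.X * (P.X : ℝ) ^ 15 * (P.X : ℝ) ^ 14 := by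
          gcongr
      _ = (P.X : ℝ) ^ 30 := by ring
      _ ≤ (P.X : ℝ) ^ 4900 := pow_le_pow_right₀ hX1 (by norm_num)
  · rw [hn.eps]
    positivity
  · exact (one_le_pow₀ hX1).trans hn.XD
  · rw [hn.pmax]
    field_simp

section

variable {V κ : Type} [Fintype V] [Fintype κ]

private theorem Few_1 {P : Par} {k : Kd V κ} (hn : Num10 P) (h : KdP P k) (i : V) :
    ((univ.filter (fun w => k.K w = some i ∧ k.F0 w ∧ ¬ k.FF w)).card : ℝ) ≤
      2 * P.eps * P.D := by
  obtain ⟨n1, n2, n3, n4, n5⟩ := Few_num hn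
  have h1 := h.xp.x7 i
  have h2 := h.sp.q2 i
  have h3 : univ.filter (fun w => k.K w = some i ∧ k.F0 w ∧ ¬ k.FF w) ⊆
      univ.filter (fun w => k.K w = some i ∧ k.X w) ∪
      univ.filter (fun w => k.K w = some i ∧ k.F0 w ∧
        ∃ x, k.U x ∧ k.G.Adj w x ∧ k.cS x = k.m w) := by
    intro w hw
    obtain ⟨-, q1, q2, q3⟩ := mem_filter.1 hw
    rw [mem_union]
    by_cases hx : k.X w
    · exact Or.inl (mem_filter.2 ⟨mem_univ _, q1, hx⟩)
    · right
      refine mem_filter.2 ⟨mem_univ _, q1, q2, ?_⟩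
      by_contra hc
      apply q3
      unfold Kd.FF
      refine ⟨q2, ?_, hx, hc⟩
      rw [q1]
      simp
  have h4 := (card_le_card h3).trans (card_union_le _ _)
  have h5 : ((univ.filter (fun w => k.K w = some i ∧ k.F0 w ∧ ¬ k.FF w)).card : ℝ) ≤
      ((univ.filter (fun w => k.K w = some i ∧ k.X w)).card : ℝ) +
      ((univ.filter (fun w => k.K w = some i ∧ k.F0 w ∧
        ∃ x, k.U x ∧ k.G.Adj w x ∧ k.cS x = k.m w)).card : ℝ) := by
    exact_mod_cast h4
  have h6 : P.pmax * P.D ≤ P.eps * P.D := mul_le_mul_of_nonneg_right n1 (by linarith)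
  linarith

private theorem Few_bl {P : Par} {k : Kd V κ} (w : V) :
    (univ.filter (fun a => k.bl P a w)).card ≤ k.oo w := by
  have h1 : univ.filter (fun a => k.bl P a w) ⊆
      ((nb k.G w).filter (fun v => k.K v ≠ k.K w)).image (fun x => k.cb P x) := by
    intro a ha
    obtain ⟨-, x, q1, q2, -, q3⟩ := mem_filter.1 ha
    refine mem_image.2 ⟨x, mem_filter.2 ⟨?_, q2⟩, q3⟩
    unfold nb
    exact mem_filter.2 ⟨mem_univ _, q1⟩
  exact (card_le_card h1).trans card_image_le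

private theorem Few_2 {P : Par} {k : Kd V κ} (hn : Num10 P) (h : KdP P k) (i : V) :
    ((univ.filter (fun a => P.theta * P.D <
      (((k.Rg P i).filter (fun w => k.bl P a w)).card : ℝ))).card : ℝ) ≤ P.pmax * P.D := by
  obtain ⟨n1, n2, n3, n4, n5⟩ := Few_num hn
  obtain ⟨B, hB⟩ : ∃ B : Finset κ, B = univ.filter (fun a => P.theta * P.D <
      (((k.Rg P i).filter (fun w => k.bl P a w)).card : ℝ)) := ⟨_, rfl⟩
  rw [← hB]
  have h1 : (B.card : ℝ) * (P.theta * P.D) ≤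
      ∑ a ∈ B, (((k.Rg P i).filter (fun w => k.bl P a w)).card : ℝ) := by
    rw [← nsmul_eq_mul, ← sum_const]
    refine sum_le_sum fun a ha => ?_
    rw [hB] at ha
    exact (mem_filter.1 ha).2.le
  have h2 : ∑ a ∈ B, ((k.Rg P i).filter (fun w => k.bl P a w)).card ≤
      ∑ a, ((k.Rg P i).filter (fun w => k.bl P a w)).card :=
    sum_le_sum_of_subset (subset_univ _)
  have h3 : ∑ a, ((k.Rg P i).filter (fun w => k.bl P a w)).card =
      ∑ w ∈ k.Rg P i, (univ.filter (fun a => k.bl P a w)).card := by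
    have e1 : ∀ a, ((k.Rg P i).filter (fun w => k.bl P a w)).card =
        ∑ w ∈ k.Rg P i, if k.bl P a w then 1 else 0 := fun a => card_filter _ _
    have e2 : ∀ w, (univ.filter (fun a => k.bl P a w)).card =
        ∑ a, if k.bl P a w then 1 else 0 := fun w => card_filter _ _
    rw [sum_congr rfl fun a _ => e1 a, sum_congr rfl fun w _ => e2 w, sum_comm]
  have h4 : ∑ w ∈ k.Rg P i, (univ.filter (fun a => k.bl P a w)).card ≤
      ∑ w ∈ k.Ki i, k.oo w := by
    refine (sum_le_sum fun w _ => Few_bl w).trans ?_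
    refine sum_le_sum_of_subset ?_
    intro w hw
    unfold Gd.Rg at hw
    unfold Gd.Ki
    exact mem_filter.2 ⟨mem_univ _, (mem_filter.1 hw).2.1⟩
  have h5 := h.bs.gr.d5 i
  have h6 : (∑ a ∈ B, ((k.Rg P i).filter (fun w => k.bl P a w)).card) ≤ ∑ w ∈ k.Ki i, k.oo w :=
    h2.trans (h3.le.trans h4)
  have h7 : (∑ a ∈ B, (((k.Rg P i).filter (fun w => k.bl P a w)).card : ℝ)) ≤
      ∑ w ∈ k.Ki i, (k.oo w : ℝ) := by
    exact_mod_cast h6
  have h8 : (B.card : ℝ) * (P.theta * P.D) ≤ 103 * P.delta * P.D ^ 2 := h1.trans (h7.trans h5)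
  have h9 : 103 * P.delta * (P.D : ℝ) ^ 2 = (P.pmax * P.D) * (P.theta * P.D) := by
    rw [← n5]
    ring
  rw [h9] at h8
  exact le_of_mul_le_mul_right h8 (mul_pos n2 (by linarith))

private theorem Few_4 {P : Par} {k : Kd V κ} (h : KdP P k) (i : V) :
    ((univ.filter (fun v => k.K v = some i ∧ k.sc P v)).card : ℝ) ≤
      104 * P.delta * P.D / P.eta := by
  have h1 := h.bs.gr.sp1 i
  have h2 : univ.filter (fun v => k.K v = some i ∧ k.sc P v) ⊆
      (k.Spi P i).image (fun w => k.E.N (k.cZ w) w) := by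
    intro v hv
    obtain ⟨-, q1, w, q2, q3⟩ := mem_filter.1 hv
    refine mem_image.2 ⟨w, ?_, q3⟩
    have q4 : k.K w ≠ none := q2.1
    obtain ⟨j, hj⟩ := Option.ne_none_iff_exists'.1 q4
    have q5 := (h.zp.z3 j w q2 hj).2.1
    rw [q3] at q5
    unfold Gd.Rg at q5
    have q6 := (mem_filter.1 q5).2.1
    rw [q1] at q6
    unfold Gd.Spi
    refine mem_filter.2 ⟨mem_univ _, ?_, q2⟩
    rw [hj]
    exact q6.symm
  have h3 : ((univ.filter (fun v => k.K v = some i ∧ k.sc P v)).card : ℝ) ≤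
      ((k.Spi P i).card : ℝ) := by
    exact_mod_cast (card_le_card h2).trans card_image_le
  exact h3.trans h1

private theorem Few_5 {P : Par} {k : Kd V κ} (hn : Num10 P) (h : KdP P k) (i : V) :
    (((k.mF i) \ (k.mFF i)).card : ℝ) ≤ 2 * P.eps * P.D := by
  refine le_trans ?_ (Few_1 hn h i)
  have h1 : (k.mF i) \ (k.mFF i) ⊆
      (univ.filter (fun w => k.K w = some i ∧ k.F0 w ∧ ¬ k.FF w)).image k.m := by
    intro a ha
    obtain ⟨q1, q2⟩ := mem_sdiff.1 ha
    unfold Fd.mF Fd.F0i at q1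
    obtain ⟨w, q3, q4⟩ := mem_image.1 q1
    obtain ⟨-, q5, q6⟩ := mem_filter.1 q3
    refine mem_image.2 ⟨w, mem_filter.2 ⟨mem_univ _, q5, q6, fun q7 => q2 ?_⟩, q4⟩
    unfold Kd.mFF
    exact mem_image.2 ⟨w, mem_filter.2 ⟨mem_univ _, q5, q7⟩, q4⟩
  exact_mod_cast (card_le_card h1).trans card_image_le

end

theorem thm_Few (hUse : St_Use) : St_Few := by
  intro P V κ _ _ k hn h i
  refine ⟨Few_1 hn h i, Few_2 hn h i, ?_, Few_4 h i, Few_5 hn h i⟩
  exact hUse P V κ k.toTd k.X k.cX k.cS hn h.bs h.xp h.sp i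

end Pool.TCV
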