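import Pool.Agent.Helper60.TCV.StK3

/-!
# T10, section 9d, FI10: the final colouring

By helper38.
-/

set_option autoImplicit false

namespace Pool.TCV

open Pool.TC Pool.TCM Pool.TCS Pool.TN Finset
open scoped Classical

section fi10

variable {V κ : Type} [Fintype V] [Fintype κ]

/-- the colour of `x` is `a`: uncoloured row, chosen row, other row -/
private inductive Fi10_ty (C : V → Prop) (c α : V → κ) (g : V → V) : V → κ → Prop
  | r (x : V) (h : ¬ C x) : Fi10_ty C c α g x (c (g x))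
  | g (u : V) (h : ¬ C u) (h' : C (g u)) : Fi10_ty C c α g (g u) (α u)
  | o (x : V) (h : C x) (h' : ∀ u, ¬ C u → g u ≠ x) : Fi10_ty C c α g x (c x)

private theorem Fi10_ex (C : V → Prop) (c α : V → κ) (g : V → V) (x : V) :
    ∃ a, Fi10_ty C c α g x a := by
  by_cases h : C x
  · by_cases h' : ∃ u, ¬ C u ∧ g u = x
    · obtain ⟨u, hu, rfl⟩ := h'
      exact ⟨_, Fi10_ty.g u hu h⟩
    · push Not at h'
      exact ⟨_, Fi10_ty.o x h h'⟩
  · exact ⟨_, Fi10_ty.r x h⟩

private theorem Fi10_opt {t : Td V κ} {C Y : V → Prop} {c : V → κ} {u w : V} {a : κ}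
    (h : w ∈ opt t C Y c u a) : Y w ∧ t.K w = t.K u ∧
    (t.cr u (c w) ∧ t.K (t.E.N (c w) u) = t.K u ∧ t.W (t.E.N (c w) u) ∧
      ¬ col2 t C c (t.E.N (c w) u) ∧ ¬ bk2 t C c (c w) u) ∧
    ¬ bk2 t C c a w ∧
    (t.fx w a ∨ (t.cr w a ∧ t.K (t.E.N a w) = t.K w ∧ t.W (t.E.N a w) ∧
      ¬ col2 t C c (t.E.N a w))) ∧ t.E.N (c w) u ≠ t.E.N a w :=
  (Finset.mem_filter.mp h).2

private theorem Fi10_prop {P : Par} {t : Td V κ} {C Y : V → Prop} {c : V → κ} {Qp : V → Finset κ}
    {α : V → κ} {g : V → V} (hA : HA P t C Y c Qp) (hAl : AlP P t C Y c Qp α)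
    (hS : SwP t C Y c α g) {x y : V} {a b : κ} (hx : Fi10_ty C c α g x a)
    (hy : Fi10_ty C c α g y b) (hxy : t.G.Adj x y) : a ≠ b := by
  have key : ∀ {u : V}, ¬ C u → ∃ i, t.K u = some i ∧ t.K (g u) = some i ∧ C (g u) ∧
      α u ∈ Qp i := by
    intro u hu
    obtain ⟨i, hi⟩ := hA.rem u hu
    have hi' : t.K u = some i := (Finset.mem_filter.mp hi).2.1
    have hg := Fi10_opt (hS.mem u hu)
    exact ⟨i, hi', hg.2.1.trans hi', (hA.yrow _ hg.1).1, hAl.mem u i hu hi'⟩
  -- R-G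
  have hRG : ∀ u v : V, ¬ C u → ¬ C v → t.G.Adj u (g v) → c (g u) ≠ α v := by
    intro u v hu hv huv
    by_cases huv' : u = v
    · subst huv'
      obtain ⟨i, h1, h2, h3, h4⟩ := key hu
      exact hA.qun i _ h4 _ h3 h2
    · intro h
      apply hS.cf u v hu hv huv'
      exact Or.inr (Or.inr (Or.inr (Or.inr (Or.inr (Or.inr (Or.inr (Or.inl ⟨huv, h⟩)))))))
  -- R-O
  have hRO : ∀ u y : V, ¬ C u → C y → (∀ u, ¬ C u → g u ≠ y) → t.G.Adj u y →
      c (g u) ≠ c y := by
    intro u y hu hy hy' huy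
    obtain ⟨i, h1, h2, h3, h4⟩ := key hu
    have hg := Fi10_opt (hS.mem u hu)
    by_cases hK : t.K y = t.K u
    · exact (hA.yun (g u) y hg.1 hy (hK.trans (h1.trans h2.symm)) (hy' u hu).symm).symm
    · intro h
      exact hg.2.2.1.2.2.2.2 ⟨y, huy, hK, hy, h.symm⟩
  -- G-O
  have hGO : ∀ u y : V, ¬ C u → C y → t.G.Adj (g u) y → α u ≠ c y := by
    intro u y hu hy huy
    obtain ⟨i, h1, h2, h3, h4⟩ := key hu
    have hg := Fi10_opt (hS.mem u hu)
    by_cases hK : t.K y = t.K (g u)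
    · exact (hA.qun i _ h4 y hy (hK.trans h2)).symm
    · intro h
      exact hg.2.2.2.1 ⟨y, huy, hK, hy, h.symm⟩
  cases hx with
  | r _ h =>
    cases hy with
    | r _ h' =>
      intro he
      apply hS.cf x y h h' hxy.ne
      exact Or.inr (Or.inr (Or.inr (Or.inr (Or.inr (Or.inl ⟨hxy, he⟩)))))
    | g u h' h'' => exact hRG x u h h' hxy
    | o _ h' h'' => exact hRO x y h h' h'' hxy
  | g u h h1 =>
    cases hy with
    | r _ h' => exact (hRG y u h' h hxy.symm).symm
    | g v h' h'' =>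
      intro he
      have huv : u ≠ v := by
        rintro rfl
        exact hxy.ne rfl
      apply hS.cf u v h h' huv
      exact Or.inr (Or.inr (Or.inr (Or.inr (Or.inr (Or.inr (Or.inl ⟨hxy, he⟩))))))
    | o _ h' h'' => exact hGO u y h h' hxy
  | o _ h h1 =>
    cases hy with
    | r _ h' => exact (hRO y x h' h h1 hxy.symm).symm
    | g v h' h'' => exact (hGO v x h' h hxy.symm).symm
    | o _ h' h'' => exact hA.prop x y h h' hxy

private theorem Fi10_inj {P : Par} {t : Td V κ} {C Y : V → Prop} {c : V → κ} {Qp : V → Finset κ}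
    {α : V → κ} {g : V → V} (hA : HA P t C Y c Qp)
    (hS : SwP t C Y c α g) {x y : V} {a b : κ} (hx : Fi10_ty C c α g x a)
    (hy : Fi10_ty C c α g y b) (hfx : ¬ t.fx x a) (hfy : ¬ t.fx y b)
    (he : t.E.N a x = t.E.N b y) : x = y := by
  have hRG : ∀ u v : V, ¬ C u → ¬ C v → t.E.N (c (g u)) u ≠ t.E.N (α v) (g v) := by
    intro u v hu hv h
    by_cases huv' : u = v
    · subst huv'
      exact (Fi10_opt (hS.mem u hu)).2.2.2.2.2 h
    · apply hS.cf u v hu hv huv'
      exact Or.inr (Or.inr (Or.inl h))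
  have hRO : ∀ u y : V, ¬ C u → C y → ¬ t.fx y (c y) → t.E.N (c (g u)) u ≠ t.E.N (c y) y := by
    intro u y hu hy hf h
    exact (Fi10_opt (hS.mem u hu)).2.2.1.2.2.2.1 ⟨y, hy, hf, h.symm⟩
  have hGO : ∀ u y : V, ¬ C u → C y → ¬ t.fx (g u) (α u) → ¬ t.fx y (c y) →
      t.E.N (α u) (g u) ≠ t.E.N (c y) y := by
    intro u y hu hy hf hf' h
    rcases (Fi10_opt (hS.mem u hu)).2.2.2.2.1 with h1 | h1
    · exact hf h1
    · exact h1.2.2.2 ⟨y, hy, hf', h.symm⟩
  cases hx with
  | r _ h =>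
    cases hy with
    | r _ h' =>
      by_contra hne
      apply hS.cf x y h h' hne
      exact Or.inr (Or.inl he)
    | g u h' h'' => exact absurd he (hRG x u h h')
    | o _ h' h'' => exact absurd he (hRO x y h h' hfy)
  | g u h h1 =>
    cases hy with
    | r _ h' => exact absurd he.symm (hRG y u h' h)
    | g v h' h'' =>
      by_contra hne
      have huv : u ≠ v := by
        rintro rfl
        exact hne rfl
      apply hS.cf u v h h' huv
      exact Or.inr (Or.inr (Or.inr (Or.inr (Or.inl he))))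
    | o _ h' h'' => exact absurd he (hGO u y h h' hfx hfy)
  | o _ h h1 =>
    cases hy with
    | r _ h' => exact absurd he.symm (hRO y x h' h hfx)
    | g v h' h'' => exact absurd he.symm (hGO v x h' h hfy hfx)
    | o _ h' h'' => exact hA.inj x y h h' hfx hfy he

end fi10

theorem thm_Fi10 : St_Fi10 := by
  intro P V κ _ _ t C Y c Qp α g hB hA hAl hS
  choose c' hc' using Fi10_ex C c α g
  refine ⟨c', ?_, ?_, ?_⟩
  · intro u v huv
    exact Fi10_prop hA hAl hS (hc' u) (hc' v) huv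
  · intro u
    have h := hc' u
    generalize c' u = a at h
    cases h with
    | r _ h => exact Or.inr (Fi10_opt (hS.mem u h)).2.2.1.1
    | g v h h1 =>
      rcases (Fi10_opt (hS.mem v h)).2.2.2.2.1 with h2 | h2
      · exact Or.inl h2
      · exact Or.inr h2.1
    | o _ h h1 => exact hA.cell u h
  · intro u v hu hv he
    exact Fi10_inj hA hS (hc' u) (hc' v) hu hv he

end Pool.TCV
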