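import Pool.Agent.Helper60.TCV.StK2
import Pool.Agent.Helper3.TCS.Num5

/-!
# GDN. Numerical conditions for the nibble with `g = rho / 2`
-/

set_option autoImplicit false

namespace Pool.TCV

open Pool.TC Pool.TCM Pool.TCS Pool.TN Finset
open scoped Classical

private theorem GdN_exp {X D : ℕ} (hX : 100 ≤ X) (hD : D < 2 ^ (X + 1)) :
    4 * Real.exp (-(X : ℝ) ^ 3) * ((3 * ((2 * D + 4 : ℕ) : ℝ) + 2) ^ 12 + 1) ≤ 1 := by
  have h1 : 3 * (2 * D + 4) + 2 ≤ 2 ^ (X + 5) := by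
    have e : 2 ^ (X + 5) = 16 * 2 ^ (X + 1) := by rw [show X + 5 = (X + 1) + 4 by ring, pow_add]; ring
    have e2 : 2 ≤ 2 ^ (X + 1) := by
      calc 2 = 2 ^ 1 := by norm_num
        _ ≤ 2 ^ (X + 1) := Nat.pow_le_pow_right (by norm_num) (by omega)
    omega
  have h2 : (3 * (2 * D + 4) + 2) ^ 12 + 1 ≤ 2 ^ (12 * X + 61) := by
    have h3 : (3 * (2 * D + 4) + 2) ^ 12 ≤ 2 ^ (12 * X + 60) := by
      calc (3 * (2 * D + 4) + 2) ^ 12 ≤ (2 ^ (X + 5)) ^ 12 := Nat.pow_le_pow_left h1 12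
        _ = 2 ^ (12 * X + 60) := by rw [← pow_mul]; congr 1; ring
    have h4 : 1 ≤ 2 ^ (12 * X + 60) := Nat.one_le_two_pow
    have h5 : 2 ^ (12 * X + 61) = 2 * 2 ^ (12 * X + 60) := by rw [pow_succ]; ring
    omega
  have h3 : 4 * ((3 * (2 * D + 4) + 2) ^ 12 + 1) ≤ 2 ^ (X ^ 3) := by
    calc 4 * ((3 * (2 * D + 4) + 2) ^ 12 + 1) ≤ 4 * 2 ^ (12 * X + 61) := Nat.mul_le_mul_left _ h2
      _ = 2 ^ (12 * X + 63) := by rw [show 12 * X + 63 = (12 * X + 61) + 2 by ring, pow_add]; ring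
      _ ≤ 2 ^ (X ^ 3) := by
        apply Nat.pow_le_pow_right (by norm_num)
        have : 100 * 100 * X ≤ X ^ 3 := by
          have := Nat.mul_le_mul (Nat.mul_le_mul hX hX) (le_refl X)
          calc 100 * 100 * X ≤ X * X * X := this
            _ = X ^ 3 := by ring
        omega
  have h4 : (4 : ℝ) * ((3 * ((2 * D + 4 : ℕ) : ℝ) + 2) ^ 12 + 1) ≤ 2 ^ (X ^ 3) := by
    exact_mod_cast h3
  have h5 : (2 : ℝ) ^ (X ^ 3) ≤ Real.exp ((X : ℝ) ^ 3) := by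
    have e : Real.exp ((X : ℝ) ^ 3) = Real.exp 1 ^ (X ^ 3) := by
      rw [Real.exp_one_pow]
      push_cast
      rfl
    rw [e]
    apply pow_le_pow_left₀ (by norm_num)
    have := Real.add_one_le_exp (1 : ℝ)
    linarith
  rw [Real.exp_neg]
  have h6 : 0 < Real.exp ((X : ℝ) ^ 3) := Real.exp_pos _
  have h7 : 4 * (Real.exp ((X : ℝ) ^ 3))⁻¹ * ((3 * ((2 * D + 4 : ℕ) : ℝ) + 2) ^ 12 + 1) =
      (4 * ((3 * ((2 * D + 4 : ℕ) : ℝ) + 2) ^ 12 + 1)) / Real.exp ((X : ℝ) ^ 3) := by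
    field_simp
  rw [h7, div_le_one h6]
  exact h4.trans h5

private theorem GdN_err {X : ℕ} (hX : 10 ^ 20 ≤ X) :
    8 * Err (X ^ 12) (X ^ 3) ((X : ℝ) ^ 3) ((X ^ 80 : ℕ) : ℝ) ≤
      1 / (X : ℝ) ^ 13 / 2 * bet (X ^ 12) (X ^ 3) / 16 := by
  have hx : (10 : ℝ) ^ 20 ≤ X := by exact_mod_cast hX
  have hx0 : (0 : ℝ) < X := by linarith [show (0 : ℝ) < 10 ^ 20 by norm_num]
  have hX1 : 1 ≤ X := le_trans (by norm_num) hX
  have h8 : 8 * X ^ 3 ≤ X ^ 12 := by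
    calc 8 * X ^ 3 ≤ X * X ^ 3 := Nat.mul_le_mul_right _ (le_trans (by norm_num) hX)
      _ = X ^ 4 := by ring
      _ ≤ X ^ 12 := Nat.pow_le_pow_right hX1 (by norm_num)
  obtain ⟨hb, -⟩ := num5_bet (by positivity : 0 < X ^ 12) h8
  have hR : 3 / 128 * (1 / (X : ℝ) ^ 25) ≤ 1 / (X : ℝ) ^ 13 / 2 * bet (X ^ 12) (X ^ 3) / 16 := by
    have e : 3 / 128 * (1 / (X : ℝ) ^ 25) =
        1 / (X : ℝ) ^ 13 / 2 * (3 / 4 * (1 / ((X ^ 12 : ℕ) : ℝ))) / 16 := by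
      push_cast
      field_simp
      norm_num
    rw [e]
    gcongr
  refine le_trans ?_ hR
  obtain ⟨y, hy⟩ : ∃ y : ℝ, y = 1 / (X : ℝ) ^ 27 := ⟨_, rfl⟩
  have hy0 : 0 < y := by rw [hy]; positivity
  have ha : 40 * (((X ^ 3 : ℕ) : ℝ)) ^ 3 * (1 / ((X ^ 12 : ℕ) : ℝ)) ^ 3 = 40 * y := by
    rw [hy]
    push_cast
    field_simp
  have hb' : (2 : ℝ) ^ 14 * (1 / 2) ^ (X ^ 3) ≤ y := by
    have h1 : 2 ^ 14 * X ^ 27 ≤ 2 ^ (X ^ 3) := by
      calc 2 ^ 14 * X ^ 27 ≤ 2 ^ 14 * (2 ^ X) ^ 27 := by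
            gcongr
            exact Nat.lt_two_pow_self.le
        _ = 2 ^ (14 + X * 27) := by rw [← pow_mul, ← pow_add]
        _ ≤ 2 ^ (X ^ 3) := by
          apply Nat.pow_le_pow_right (by norm_num)
          have h100 : 100 ≤ X := le_trans (by norm_num) hX
          have := Nat.mul_le_mul (Nat.mul_le_mul h100 h100) (le_refl X)
          have e : X * X * X = X ^ 3 := by ring
          omega
    have h2 : (2 : ℝ) ^ 14 * (X : ℝ) ^ 27 ≤ 2 ^ (X ^ 3) := by exact_mod_cast h1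
    have h3 : (2 : ℝ) ^ 14 * (1 / 2) ^ (X ^ 3) = 2 ^ 14 / 2 ^ (X ^ 3) := by
      rw [one_div_pow, mul_one_div]
    rw [h3, hy, div_le_div_iff₀ (by positivity) (by positivity), one_mul]
    exact h2
  have hc : 64 * (((X ^ 3 : ℕ) : ℝ)) ^ 2 * Real.sqrt ((X : ℝ) ^ 3 / ((X ^ 80 : ℕ) : ℝ)) ≤ y := by
    have h1 : (X : ℝ) ^ 3 / ((X ^ 80 : ℕ) : ℝ) ≤ (1 / (X : ℝ) ^ 38) ^ 2 := by
      push_cast
      rw [one_div_pow, div_le_div_iff₀ (by positivity) (by positivity), one_mul, ← pow_mul,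
        ← pow_add]
      exact pow_le_pow_right₀ (by exact_mod_cast hX1) (by norm_num)
    have h2 : Real.sqrt ((X : ℝ) ^ 3 / ((X ^ 80 : ℕ) : ℝ)) ≤ 1 / (X : ℝ) ^ 38 := by
      refine (Real.sqrt_le_sqrt h1).trans ?_
      rw [Real.sqrt_sq (by positivity)]
    have h3 : 64 * (((X ^ 3 : ℕ) : ℝ)) ^ 2 * (1 / (X : ℝ) ^ 38) = 64 / (X : ℝ) ^ 5 * y := by
      rw [hy]
      push_cast
      field_simp
    have h4 : 64 / (X : ℝ) ^ 5 ≤ 1 := by
      rw [div_le_one (by positivity)]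
      calc (64 : ℝ) ≤ (10 ^ 20) ^ 5 := by norm_num
        _ ≤ (X : ℝ) ^ 5 := by gcongr
    calc 64 * (((X ^ 3 : ℕ) : ℝ)) ^ 2 * Real.sqrt ((X : ℝ) ^ 3 / ((X ^ 80 : ℕ) : ℝ))
        ≤ 64 * (((X ^ 3 : ℕ) : ℝ)) ^ 2 * (1 / (X : ℝ) ^ 38) := by gcongr
      _ = 64 / (X : ℝ) ^ 5 * y := h3
      _ ≤ 1 * y := by gcongr
      _ = y := one_mul _
  have hd : 8 * (42 * y) ≤ 3 / 128 * (1 / (X : ℝ) ^ 25) := by
    have e : 1 / (X : ℝ) ^ 25 = (X : ℝ) ^ 2 * y := by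
      rw [hy]
      field_simp
    rw [e]
    have h1 : (14336 : ℝ) ≤ (X : ℝ) ^ 2 := by
      calc (14336 : ℝ) ≤ (10 ^ 20) ^ 2 := by norm_num
        _ ≤ (X : ℝ) ^ 2 := by gcongr
    nlinarith
  unfold Err
  rw [ha]
  linarith

/-- the length of the lists -/
private theorem GdN_lY {P : Par} (hP : Num10 P) : (P.X : ℝ) ^ 1585 ≤ lY P := by
  have hx : (10 : ℝ) ^ 20 ≤ P.X := by exact_mod_cast hP.X0
  have hx0 : (0 : ℝ) < P.X := by linarith [show (0 : ℝ) < 10 ^ 20 by norm_num]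
  have hx1 : (1 : ℝ) ≤ P.X := by linarith [show (1 : ℝ) ≤ 10 ^ 20 by norm_num]
  obtain ⟨x, hxd⟩ : ∃ x : ℝ, x = P.X := ⟨_, rfl⟩
  obtain ⟨d, hd⟩ : ∃ d : ℝ, d = P.D := ⟨_, rfl⟩
  have hXD := hP.XD
  rw [← hxd] at hx hx0 hx1 hXD ⊢
  rw [← hd] at hXD
  have hd0 : 0 < d := lt_of_lt_of_le (by positivity) hXD
  have hrho : P.rho = 1 / x ^ 13 := by rw [hxd]; exact hP.rho
  have heta : P.eta = 1 / x ^ 1600 := by rw [hxd]; exact hP.eta
  have hed : 1 ≤ P.eta * d := by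
    rw [heta, one_div, inv_mul_eq_div, one_le_div (by positivity)]
    exact (pow_le_pow_right₀ hx1 (by norm_num)).trans hXD
  have hB : (P.B : ℝ) ≤ 2 * (P.eta * d) := by
    rw [hP.B, ← hd]
    have := Nat.ceil_lt_add_one (a := P.eta * d) (by linarith)
    linarith
  have hB0 : (1 : ℝ) ≤ P.B := by
    rw [hP.B, ← hd]
    exact hed.trans (Nat.le_ceil _)
  have hrho0 : 0 < P.rho := by rw [hrho]; positivity
  have hrho1 : P.rho ≤ 1 := by
    rw [hrho, div_le_one (by positivity)]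
    exact one_le_pow₀ hx1
  obtain ⟨q, hq⟩ : ∃ q : ℝ, q = (Nq3 P : ℝ) := ⟨_, rfl⟩
  have hq1 : q ≤ 129 * (P.eta * d) * x ^ 13 := by
    have h1 := Nat.ceil_lt_add_one (a := 64 * (P.B : ℝ) / P.rho) (by positivity)
    have h2 : q < 64 * (P.B : ℝ) / P.rho + 1 := by rw [hq]; exact h1
    have h3 : 64 * (P.B : ℝ) / P.rho = 64 * P.B * x ^ 13 := by
      rw [hrho]
      field_simp
    have h4 : (1 : ℝ) ≤ P.eta * d * x ^ 13 := by
      have h5 : (1 : ℝ) ≤ x ^ 13 := one_le_pow₀ hx1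
      nlinarith
    rw [h3] at h2
    have h6 : 64 * P.B * x ^ 13 ≤ 64 * (2 * (P.eta * d)) * x ^ 13 := by gcongr
    linarith
  have hq0 : 0 < q := by
    rw [hq]
    have : 0 < Nq3 P := Nat.ceil_pos.2 (by positivity)
    exact_mod_cast this
  have h1 : x ^ 1587 / 129 ≤ d / q := by
    rw [div_le_div_iff₀ (by norm_num) hq0]
    calc x ^ 1587 * q ≤ x ^ 1587 * (129 * (P.eta * d) * x ^ 13) := by gcongr
      _ = d * 129 := by
        rw [heta]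
        have e : x ^ 1600 = x ^ 1587 * x ^ 13 := by rw [← pow_add]
        rw [e]
        have h5 : x ^ 1587 ≠ 0 := by positivity
        have h6 : x ^ 13 ≠ 0 := by positivity
        field_simp
  have h2 : x ^ 1585 + 1 ≤ (1 - P.rho / 8) * (2 / 5 * d / q) := by
    have h3 : 7 / 8 * (2 / 5 * (x ^ 1587 / 129)) ≤ (1 - P.rho / 8) * (2 / 5 * d / q) := by
      have e : 2 / 5 * d / q = 2 / 5 * (d / q) := by ring
      rw [e]
      have h4 : 0 ≤ x ^ 1587 / 129 := by positivity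
      have h5 : (7 : ℝ) / 8 ≤ 1 - P.rho / 8 := by linarith
      have h6 : 0 ≤ 2 / 5 * (x ^ 1587 / 129) := by positivity
      exact mul_le_mul h5 (by linarith) h6 (by linarith)
    refine le_trans ?_ h3
    have e : x ^ 1587 = x ^ 1585 * x ^ 2 := by rw [← pow_add]
    rw [e]
    have h4 : (1 : ℝ) ≤ x ^ 1585 := one_le_pow₀ hx1
    have h5 : (1000 : ℝ) ≤ x ^ 2 := by
      calc (1000 : ℝ) ≤ (10 ^ 20) ^ 2 := by norm_num
        _ ≤ x ^ 2 := by gcongr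
    nlinarith
  have h3 : (1 - P.rho / 8) * (2 / 5 * d / q) < (lY P : ℝ) + 1 := by
    have := Nat.lt_floor_add_one ((1 - P.rho / 8) * (2 / 5 * P.D / (Nq3 P : ℝ)))
    rw [← hd, ← hq] at this
    unfold lY
    rw [← hd, ← hq]
    exact this
  linarith

private theorem GdN_end {X : ℕ} (hX : 10 ^ 20 ≤ X) : ∃ n : ℕ,
    7 / 8 ≤ 1 / (X : ℝ) ^ 13 / 2 * (1 + bet (X ^ 12) (X ^ 3) / 16) ^ n ∧
    1 / (X : ℝ) ^ 887 ≤ (1 - 3 * bet (X ^ 12) (X ^ 3)) ^ n := by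
  have hx : (10 : ℝ) ^ 20 ≤ X := by exact_mod_cast hX
  have hx0 : (0 : ℝ) < X := by linarith [show (0 : ℝ) < 10 ^ 20 by norm_num]
  have hX1 : 1 ≤ X := le_trans (by norm_num) hX
  have hx1 : (1 : ℝ) ≤ X := by exact_mod_cast hX1
  have h8 : 8 * X ^ 3 ≤ X ^ 12 := by
    calc 8 * X ^ 3 ≤ X * X ^ 3 := Nat.mul_le_mul_right _ (le_trans (by norm_num) hX)
      _ = X ^ 4 := by ring
      _ ≤ X ^ 12 := Nat.pow_le_pow_right hX1 (by norm_num)
  obtain ⟨hb, hb'⟩ := num5_bet (by positivity : 0 < X ^ 12) h8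
  obtain ⟨b, hbd⟩ : ∃ b, b = bet (X ^ 12) (X ^ 3) := ⟨_, rfl⟩
  rw [← hbd] at hb hb' ⊢
  have hb0 : 0 < b := lt_of_lt_of_le (by positivity) hb
  have hb1 : b ≤ 1 / 100 := by
    refine hb'.trans ?_
    push_cast
    apply one_div_le_one_div_of_le (by norm_num)
    calc (100 : ℝ) ≤ (10 ^ 20) ^ 12 := by norm_num
      _ ≤ (X : ℝ) ^ 12 := by gcongr
  obtain ⟨y, hy⟩ : ∃ y : ℝ, y = 4 * (X : ℝ) ^ 13 := ⟨_, rfl⟩
  have hy1 : 1 ≤ y := by
    rw [hy]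
    have : (1 : ℝ) ≤ (X : ℝ) ^ 13 := one_le_pow₀ hx1
    linarith
  have hy0 : 0 < y := by linarith
  have hl0 : 0 ≤ Real.log y := Real.log_nonneg hy1
  refine ⟨⌈17 / b * Real.log y⌉₊, ?_, ?_⟩
  · have h1 : Real.exp (b / 17) ≤ 1 + b / 16 := by
      have h2 : 1 - b / 17 ≤ Real.exp (-(b / 17)) := by
        have := Real.add_one_le_exp (-(b / 17))
        linarith
      have h3 : 0 < Real.exp (-(b / 17)) := Real.exp_pos _
      have h4 : Real.exp (b / 17) * Real.exp (-(b / 17)) = 1 := by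
        rw [← Real.exp_add]
        simp
      have h5 : 1 ≤ (1 + b / 16) * (1 - b / 17) := by nlinarith
      have h6 : Real.exp (b / 17) * Real.exp (-(b / 17)) ≤ (1 + b / 16) * Real.exp (-(b / 17)) := by
        rw [h4]
        refine h5.trans ?_
        gcongr
      exact le_of_mul_le_mul_right h6 h3
    have h2 : y ≤ (1 + b / 16) ^ ⌈17 / b * Real.log y⌉₊ := by
      calc y = Real.exp (Real.log y) := (Real.exp_log hy0).symm
        _ ≤ Real.exp ((⌈17 / b * Real.log y⌉₊ : ℝ) * (b / 17)) := by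
          apply Real.exp_le_exp.2
          have h3 := Nat.le_ceil (17 / b * Real.log y)
          calc Real.log y = 17 / b * Real.log y * (b / 17) := by field_simp
            _ ≤ (⌈17 / b * Real.log y⌉₊ : ℝ) * (b / 17) := by gcongr
        _ = Real.exp (b / 17) ^ ⌈17 / b * Real.log y⌉₊ := by rw [Real.exp_nat_mul]
        _ ≤ (1 + b / 16) ^ ⌈17 / b * Real.log y⌉₊ := by gcongr
    calc (7 : ℝ) / 8 ≤ 1 / (X : ℝ) ^ 13 / 2 * y := by
          rw [hy]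
          field_simp
          norm_num
      _ ≤ 1 / (X : ℝ) ^ 13 / 2 * (1 + b / 16) ^ ⌈17 / b * Real.log y⌉₊ := by gcongr
  · have h1 : Real.exp (-(4 * b)) ≤ 1 - 3 * b := by
      rw [Real.exp_neg]
      have h2 := Real.add_one_le_exp (4 * b)
      have h3 : (Real.exp (4 * b))⁻¹ ≤ (4 * b + 1)⁻¹ := inv_anti₀ (by linarith) h2
      refine h3.trans ?_
      rw [inv_le_iff_one_le_mul₀ (by linarith)]
      nlinarith
    have h2 : (⌈17 / b * Real.log y⌉₊ : ℝ) ≤ 17 / b * Real.log y + 1 :=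
      (Nat.ceil_lt_add_one (by positivity)).le
    calc 1 / (X : ℝ) ^ 887 ≤ 1 / (2 * y ^ 68) := by
          apply one_div_le_one_div_of_le (by positivity)
          rw [hy, mul_pow, ← pow_mul]
          have e : (X : ℝ) ^ 887 = (X : ℝ) ^ 3 * (X : ℝ) ^ (13 * 68) := by rw [← pow_add]
          rw [e]
          have h3 : (2 : ℝ) * 4 ^ 68 ≤ (X : ℝ) ^ 3 := by
            calc (2 : ℝ) * 4 ^ 68 ≤ (10 ^ 20) ^ 3 := by norm_num
              _ ≤ (X : ℝ) ^ 3 := by gcongr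
          calc 2 * (4 ^ 68 * (X : ℝ) ^ (13 * 68)) = 2 * 4 ^ 68 * (X : ℝ) ^ (13 * 68) := by ring
            _ ≤ (X : ℝ) ^ 3 * (X : ℝ) ^ (13 * 68) := by gcongr
      _ ≤ Real.exp (-(68 * Real.log y + 4 * b)) := by
        have h3 : Real.exp (-(68 * Real.log y + 4 * b)) = (y ^ 68)⁻¹ * Real.exp (-(4 * b)) := by
          rw [neg_add, Real.exp_add]
          congr 1
          rw [Real.exp_neg, ← Real.log_rpow hy0, Real.exp_log (by positivity)]
          norm_cast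
        rw [h3]
        have h4 : (1 : ℝ) / 2 ≤ Real.exp (-(4 * b)) := by
          have := Real.add_one_le_exp (-(4 * b))
          linarith
        have h5 : 1 / (2 * y ^ 68) = (y ^ 68)⁻¹ * (1 / 2) := by
          field_simp
        rw [h5]
        gcongr
      _ ≤ Real.exp ((⌈17 / b * Real.log y⌉₊ : ℝ) * -(4 * b)) := by
        apply Real.exp_le_exp.2
        have h3 : (⌈17 / b * Real.log y⌉₊ : ℝ) * (4 * b) ≤ (17 / b * Real.log y + 1) * (4 * b) := by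
          gcongr
        have h4 : (17 / b * Real.log y + 1) * (4 * b) = 68 * Real.log y + 4 * b := by
          field_simp
          ring
        linarith
      _ = Real.exp (-(4 * b)) ^ ⌈17 / b * Real.log y⌉₊ := by rw [Real.exp_nat_mul]
      _ ≤ (1 - 3 * b) ^ ⌈17 / b * Real.log y⌉₊ := by gcongr

theorem thm_GdN : St_GdN := by
  intro P hP
  have hX := hP.X0
  have hx : (10 : ℝ) ^ 20 ≤ P.X := by exact_mod_cast hX
  have hx0 : (0 : ℝ) < P.X := by linarith [show (0 : ℝ) < 10 ^ 20 by norm_num]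
  have hX1 : 1 ≤ P.X := le_trans (by norm_num) hX
  have hx1 : (1 : ℝ) ≤ P.X := by exact_mod_cast hX1
  have h8 : 8 * P.X ^ 3 ≤ P.X ^ 12 := by
    calc 8 * P.X ^ 3 ≤ P.X * P.X ^ 3 := Nat.mul_le_mul_right _ (le_trans (by norm_num) hX)
      _ = P.X ^ 4 := by ring
      _ ≤ P.X ^ 12 := Nat.pow_le_pow_right hX1 (by norm_num)
  obtain ⟨n, hn1, hn2⟩ := GdN_end hX
  refine ⟨P.X ^ 12, n, P.X ^ 80, ?_, ?_, ?_, ?_, ?_, ?_, ?_, ?_, ?_, ?_, ?_, ?_⟩
  · rw [hP.rho]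
    positivity
  · rw [hP.rho]
    have h1 : 1 / (P.X : ℝ) ^ 13 ≤ 1 := by
      rw [div_le_one (by positivity)]
      exact one_le_pow₀ hx1
    linarith
  · rw [hP.kn]
    exact h8
  · rw [hP.kn]
    calc 24 ≤ P.X ^ 1 := by rw [pow_one]; exact le_trans (by norm_num) hX
      _ ≤ P.X ^ 3 := Nat.pow_le_pow_right hX1 (by norm_num)
  · rw [hP.Lam]
    positivity
  · rw [hP.Lam, hP.kn]
    push_cast
    exact le_refl _
  · rw [hP.Lam]
    refine GdN_exp (le_trans (by norm_num) hX) ?_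
    rw [hP.XL]
    exact Nat.lt_pow_succ_log_self (by norm_num) _
  · positivity
  · rw [hP.Lam]
    push_cast
    exact pow_le_pow_right₀ hx1 (by norm_num)
  · rw [hP.Lam, hP.kn, hP.rho]
    exact GdN_err hX
  · rw [hP.kn, hP.rho]
    exact hn1
  · rw [hP.kn]
    have h1 := GdN_lY hP
    calc ((P.X ^ 80 : ℕ) : ℝ) = (P.X : ℝ) ^ 80 := by push_cast; rfl
      _ ≤ (P.X : ℝ) ^ 698 := pow_le_pow_right₀ hx1 (by norm_num)
      _ = (P.X : ℝ) ^ 1585 * (1 / (P.X : ℝ) ^ 887) := by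
        have e : (P.X : ℝ) ^ 1585 = (P.X : ℝ) ^ 698 * (P.X : ℝ) ^ 887 := by rw [← pow_add]
        rw [e, mul_one_div, mul_div_cancel_right₀]
        positivity
      _ ≤ lY P * (1 - 3 * bet (P.X ^ 12) (P.X ^ 3)) ^ n := by
        apply mul_le_mul h1 hn2 (by positivity) (by positivity)

end Pool.TCV
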