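import Pool.Agent.Helper60.TCV.StK2

/-!
# T10, section 9c: the rows of the good colours
-/

set_option autoImplicit false

namespace Pool.TCV

open Pool.TC Pool.TCM Pool.TCS Pool.TN Finset
open scoped Classical

private theorem Good10_bet {m K : ℕ} (h1 : 8 * K ≤ m) (h2 : 24 ≤ K) :
    0 ≤ 1 - 3 * bet m K ∧ 1 - 3 * bet m K ≤ 1 := by
  have hm : (192 : ℝ) ≤ m := by
    have : 192 ≤ m := by omega
    exact_mod_cast this
  have hm0 : (0 : ℝ) < m := by linarith
  have h3 : 1 / (m : ℝ) ≤ 1 / 192 := one_div_le_one_div_of_le (by norm_num) hm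
  have h4 : (0 : ℝ) ≤ 1 - 1 / (m : ℝ) := by linarith
  have h0 : 0 ≤ 1 / (m : ℝ) := by positivity
  have h5 : (1 - 1 / (m : ℝ)) ^ (2 * K) ≤ 1 := pow_le_one₀ h4 (by linarith)
  have h7 : 0 ≤ (1 - 1 / (m : ℝ)) ^ (2 * K) := pow_nonneg h4 _
  have h6 : bet m K ≤ 1 / (m : ℝ) := by
    unfold bet
    nlinarith
  have h8 : 0 ≤ bet m K := by
    unfold bet
    exact mul_nonneg h0 h7
  constructor <;> linarith

private theorem Good10_Cv {V κ : Type} [Fintype V] [Fintype κ] {S : CS V κ} {U : Finset V}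
    {L : V → Finset κ} {v : V} {p : V × κ} :
    p ∈ Cv S U L v ↔ p.1 ∈ U ∧ p.2 ∈ L p.1 ∧ S.r p.1 p.2 = v := by
  simp [Cv]

private theorem Good10_Pn {V κ : Type} [Fintype V] [Fintype κ] {S : CS V κ} {U : Finset V}
    {L : V → Finset κ} {u w : V} {a : κ} :
    w ∈ Pn S U L u a ↔ w ∈ U ∧ S.adj u w ∧ a ∈ L w := by
  simp [Pn]

/-- a small set can be numbered -/
private theorem Good10_num {V : Type} (s : Finset V) (n : ℕ) (hn : s.card ≤ n + 1) :
    ∃ f : V → Fin (n + 1), ∀ u ∈ s, ∀ v ∈ s, f u = f v → u = v := by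
  refine ⟨fun w => if h : w ∈ s then Fin.castLE hn (s.equivFin ⟨w, h⟩) else 0, ?_⟩
  intro u hu v hv h
  simp only [dif_pos hu, dif_pos hv] at h
  have h1 := s.equivFin.injective (Fin.castLE_injective hn h)
  exact congrArg Subtype.val h1

/-- the indices -/
private theorem Good10_idx {V κ : Type} [Fintype V] (P : Par) (t : Td V κ)
    (hN : Num10 P) (hG : GrP P t.toGd) :
    ∃ idx : V → Fin (2 * P.D + 3 + 1), ∀ i w w', t.K w = some i → t.K w' = some i →
      idx w = idx w' → w = w' := by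
  have hX : (1 : ℝ) ≤ (P.X : ℝ) := by
    have h := hN.X0
    have h1 : 1 ≤ P.X := le_trans (by norm_num) h
    exact_mod_cast h1
  have hX2 : (102 : ℝ) ≤ (P.X : ℝ) := by
    have h := hN.X0
    have h1 : 102 ≤ P.X := le_trans (by norm_num) h
    exact_mod_cast h1
  have hd : 102 * P.delta ≤ 1 := by
    rw [hN.delta]
    have h1 : (P.X : ℝ) ≤ (P.X : ℝ) ^ 4900 := le_self_pow₀ hX (by norm_num)
    have h2 : (0 : ℝ) < (P.X : ℝ) ^ 4900 := by positivity
    rw [← mul_div_assoc, mul_one, div_le_one h2]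
    linarith
  have hc : ∀ i, (t.Ki i).card ≤ 2 * P.D + 3 + 1 := by
    intro i
    have h1 := hG.k2 i
    have h2 : 102 * P.delta * P.D ≤ 1 * P.D := mul_le_mul_of_nonneg_right hd (Nat.cast_nonneg _)
    have h3 : ((t.Ki i).card : ℝ) ≤ ((2 * P.D + 3 + 1 : ℕ) : ℝ) := by
      push_cast
      have h4 : ((t.Ki i).card : ℝ) ≤ (P.D : ℝ) + 1 + 102 * P.delta * P.D := h1
      linarith
    exact_mod_cast h3
  have hf : ∀ i, ∃ f : V → Fin (2 * P.D + 3 + 1), ∀ u ∈ t.Ki i, ∀ v ∈ t.Ki i,
      f u = f v → u = v := fun i => Good10_num _ _ (hc i)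
  choose f hf using hf
  refine ⟨fun w => f ((t.K w).getD w) w, ?_⟩
  intro i w w' h1 h2 h
  simp only [h1, h2, Option.getD_some] at h
  refine hf i w ?_ w' ?_ h
  · unfold Gd.Ki
    exact mem_filter.2 ⟨mem_univ _, h1⟩
  · unfold Gd.Ki
    exact mem_filter.2 ⟨mem_univ _, h2⟩

theorem thm_Good10 (hIter : Pool.TCS.St_Iter) (hExt : Pool.TCT.St_Ext) (hGdN : St_GdN) :
    St_Good10 := by
  intro P V κ _ _ t A Gs hN hB hcol hlow hrow hcl
  obtain ⟨m, n, L0, g0, g1, g2, g3, g4, g5, g6, g7, g8, g9, g10, g11⟩ := hGdN P hN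
  have hbet := Good10_bet g2 g3
  obtain ⟨idx, hidx⟩ := Good10_idx P t hN hB.gr
  have hNinj : ∀ a u u', t.E.N a u = t.E.N a u' → u = u' := by
    intro a u u' h
    rw [← t.E.inv a u, h, t.E.inv]
  have hlY : (8 : ℝ) ≤ lY P := by
    have h1 : (lY P : ℝ) * (1 - 3 * bet m P.kn) ^ n ≤ lY P * 1 :=
      mul_le_mul_of_nonneg_left (pow_le_one₀ hbet.1 hbet.2) (Nat.cast_nonneg _)
    have h2 : (8 : ℝ) ≤ P.Lam := by
      rw [hN.Lam]
      have h := hN.X0
      have h3 : 8 ≤ P.X := le_trans (by norm_num) h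
      have h4 : (8 : ℝ) ≤ P.X := by exact_mod_cast h3
      have h5 : (P.X : ℝ) ≤ (P.X : ℝ) ^ 3 := le_self_pow₀ (by linarith) (by norm_num)
      linarith
    linarith
  -- the row with a given index
  have hex : ∀ i (s : Fin (2 * P.D + 3 + 1)), ∃ w : V, (∃ w', t.K w' = some i ∧ idx w' = s) →
      t.K w = some i ∧ idx w = s := by
    intro i s
    by_cases h : ∃ w', t.K w' = some i ∧ idx w' = s
    · obtain ⟨w, hw⟩ := h
      exact ⟨w, fun _ => hw⟩
    · exact ⟨i, fun h' => absurd h' h⟩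
  choose wi hwi using hex
  have hwi2 : ∀ i w, t.K w = some i → wi i (idx w) = w := by
    intro i w hw
    obtain ⟨h1, h2⟩ := hwi i (idx w) ⟨w, hw, rfl⟩
    exact hidx i _ w h1 hw h2
  -- the conflict structure
  let f : Fin (2 * P.D + 3 + 1) → (V × κ) ⊕ V → (V × κ) ⊕ V := fun s x =>
    match x with
    | Sum.inr v => Sum.inr v
    | Sum.inl p => if t.E.N p.2 (wi p.1 s) = wi p.1 s then Sum.inl (wi p.1 s, p.2)
        else Sum.inr (t.E.N p.2 (wi p.1 s))
  let Y : Fin (2 * P.D + 3 + 1) → Finset ((V × κ) ⊕ V) := fun s =>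
    univ.filter (fun x => ∃ i a, x = Sum.inl (i, a) ∧ ∃ w, t.K w = some i ∧ idx w = s ∧ A w a)
  have hfY : ∀ s, ∀ u ∈ Y s, ∀ v ∈ Y s, f s u = f s v → u = v := by
    intro s u hu v hv h
    obtain ⟨i, a, rfl, w, hw1, hw2, hw3⟩ := (mem_filter.1 hu).2
    obtain ⟨j, b, rfl, w', hw1', hw2', hw3'⟩ := (mem_filter.1 hv).2
    have h1 : wi i s = w := by rw [← hw2]; exact hwi2 i w hw1
    have h2 : wi j s = w' := by rw [← hw2']; exact hwi2 j w' hw1'
    have h3 : (if t.E.N a w = w then (Sum.inl (w, a) : (V × κ) ⊕ V) else Sum.inr (t.E.N a w)) =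
        if t.E.N b w' = w' then Sum.inl (w', b) else Sum.inr (t.E.N b w') := by
      rw [← h1, ← h2]
      exact h
    by_cases h4 : t.E.N a w = w
    · by_cases h5 : t.E.N b w' = w'
      · rw [if_pos h4, if_pos h5] at h3
        have h6 := Prod.ext_iff.1 (Sum.inl_injective h3)
        have h7 : w = w' := h6.1
        have h8 : a = b := h6.2
        rw [← h7, hw1] at hw1'
        rw [h8, Option.some.inj hw1']
      · rw [if_pos h4, if_neg h5] at h3
        cases h3
    · by_cases h5 : t.E.N b w' = w'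
      · rw [if_neg h4, if_pos h5] at h3
        cases h3
      · rw [if_neg h4, if_neg h5] at h3
        have h6 : t.E.N a w = t.E.N b w' := Sum.inr_injective h3
        have h7 := hcol w a hw3
        rw [h6, hcol w' b hw3', hw1, hw1'] at h7
        have h8 : j = i := Option.some.inj h7
        rw [h8] at h2
        have h9 : w = w' := h1.symm.trans h2
        rw [← h9] at h6
        rw [h8, t.E.uniq a b w h6 h4]
  have hgex : ∀ s, ∃ g : (V × κ) ⊕ V → (V × κ) ⊕ V, (∀ u ∈ Y s, g u = f s u) ∧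
      Function.Injective g := fun s => hExt _ (Y s) (f s) (hfY s)
  choose gg hgg1 hgg2 using hgex
  obtain ⟨S, hSA, hSR⟩ : ∃ S : CS ((V × κ) ⊕ V) (Fin (2 * P.D + 3 + 1)),
      (∀ x y, S.adj x y ↔ ∃ i a b, x = Sum.inl (i, a) ∧ y = Sum.inl (i, b) ∧ a ≠ b) ∧
      ∀ u s, S.r u s = gg s u :=
    ⟨{ adj := fun x y => ∃ i a b, x = Sum.inl (i, a) ∧ y = Sum.inl (i, b) ∧ a ≠ b
       r := fun u s => gg s u
       symm := by
         rintro x y ⟨i, a, b, hx, hy, hab⟩
         exact ⟨i, b, a, hy, hx, hab.symm⟩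
       irr := by
         rintro x ⟨i, a, b, hx, hy, hab⟩
         rw [hx] at hy
         exact hab (Prod.ext_iff.1 (Sum.inl_injective hy)).2
       inj := fun u u' s h => hgg2 s h }, fun _ _ => Iff.rfl, fun _ _ => rfl⟩
  have hSadj : ∀ i a j b, S.adj (Sum.inl (i, a)) (Sum.inl (j, b)) ↔ i = j ∧ a ≠ b := by
    intro i a j b
    rw [hSA]
    constructor
    · rintro ⟨i', a', b', h1, h2, h3⟩
      have h4 := Prod.ext_iff.1 (Sum.inl_injective h1)
      have h5 := Prod.ext_iff.1 (Sum.inl_injective h2)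
      simp only at h4 h5
      exact ⟨h4.1.trans h5.1.symm, by rw [h4.2, h5.2]; exact h3⟩
    · rintro ⟨rfl, h⟩
      exact ⟨i, a, b, rfl, rfl, h⟩
  -- the lists
  have hLex : ∀ x : (V × κ) ⊕ V, ∃ l : Finset (Fin (2 * P.D + 3 + 1)), ∀ i a,
      x = Sum.inl (i, a) → t.K i = some i → a ∈ Gs i →
      l.card = lY P ∧ ∀ s ∈ l, ∃ w, t.K w = some i ∧ A w a ∧ idx w = s := by
    intro x
    rcases x with ⟨i, a⟩ | v
    · by_cases ha : t.K i = some i ∧ a ∈ Gs i
      · have h1 : ((univ.filter (fun w => t.K w = some i ∧ A w a)).image idx).card =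
            (univ.filter (fun w => t.K w = some i ∧ A w a)).card := by
          apply card_image_of_injOn
          intro w hw w' hw' h
          have h2 := (mem_filter.1 (mem_coe.1 hw)).2.1
          have h3 := (mem_filter.1 (mem_coe.1 hw')).2.1
          exact hidx i w w' h2 h3 h
        have h2 : lY P ≤ ((univ.filter (fun w => t.K w = some i ∧ A w a)).image idx).card := by
          rw [h1]
          exact hlow i ha.1 a ha.2
        obtain ⟨l, hl1, hl2⟩ := exists_subset_card_eq h2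
        refine ⟨l, fun j b hjb _ _ => ?_⟩
        have h5 := Prod.ext_iff.1 (Sum.inl_injective hjb)
        simp only at h5
        obtain ⟨rfl, rfl⟩ := h5
        refine ⟨hl2, fun s hs => ?_⟩
        obtain ⟨w, hw, hws⟩ := mem_image.1 (hl1 hs)
        exact ⟨w, (mem_filter.1 hw).2.1, (mem_filter.1 hw).2.2, hws⟩
      · refine ⟨∅, fun j b hjb hj hb => ?_⟩
        have h5 := Prod.ext_iff.1 (Sum.inl_injective hjb)
        simp only at h5
        obtain ⟨rfl, rfl⟩ := h5
        exact absurd ⟨hj, hb⟩ ha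
    · exact ⟨∅, fun i a h => by cases h⟩
  choose L hL using hLex
  obtain ⟨U, hU⟩ : ∃ U : Finset ((V × κ) ⊕ V), ∀ x, x ∈ U ↔
      ∃ i a, x = Sum.inl (i, a) ∧ t.K i = some i ∧ a ∈ Gs i :=
    ⟨univ.filter (fun x => ∃ i a, x = Sum.inl (i, a) ∧ t.K i = some i ∧ a ∈ Gs i),
      fun x => by simp⟩
  have hLm : ∀ i, t.K i = some i → ∀ a ∈ Gs i, ∀ s ∈ L (Sum.inl (i, a)),
      t.K (wi i s) = some i ∧ A (wi i s) a ∧ idx (wi i s) = s ∧
      S.r (Sum.inl (i, a)) s = if t.E.N a (wi i s) = wi i s then Sum.inl (wi i s, a)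
        else Sum.inr (t.E.N a (wi i s)) := by
    intro i hi a ha s hs
    obtain ⟨w, hw1, hw2, hw3⟩ := (hL (Sum.inl (i, a)) i a rfl hi ha).2 s hs
    have h1 : wi i s = w := by
      rw [← hw3]
      exact hwi2 i w hw1
    refine ⟨by rw [h1]; exact hw1, by rw [h1]; exact hw2, by rw [h1]; exact hw3, ?_⟩
    rw [hSR]
    exact hgg1 s _ (mem_filter.2 ⟨mem_univ _, i, a, rfl, w, hw1, hw3, hw2⟩)
  -- a value `inr v`
  have hrr : ∀ i, t.K i = some i → ∀ a ∈ Gs i, ∀ s ∈ L (Sum.inl (i, a)), ∀ v,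
      S.r (Sum.inl (i, a)) s = Sum.inr v → t.E.N a (wi i s) ≠ wi i s ∧ t.E.N a (wi i s) = v := by
    intro i hi a ha s hs v h
    rw [(hLm i hi a ha s hs).2.2.2] at h
    by_cases h1 : t.E.N a (wi i s) = wi i s
    · rw [if_pos h1] at h
      cases h
    · rw [if_neg h1] at h
      exact ⟨h1, Sum.inr_injective h⟩
  have hrl : ∀ i, t.K i = some i → ∀ a ∈ Gs i, ∀ s ∈ L (Sum.inl (i, a)), ∀ q,
      S.r (Sum.inl (i, a)) s = Sum.inl q → wi i s = q.1 ∧ a = q.2 := by
    intro i hi a ha s hs q h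
    rw [(hLm i hi a ha s hs).2.2.2] at h
    by_cases h1 : t.E.N a (wi i s) = wi i s
    · rw [if_pos h1] at h
      have h2 := Sum.inl_injective h
      exact Prod.ext_iff.1 h2
    · rw [if_neg h1] at h
      cases h
  have hsolv : Solv S U L := by
    refine hIter ((V × κ) ⊕ V) (Fin (2 * P.D + 3 + 1)) S n U L (2 * P.D + 4) (lY P) m P.kn L0
      (P.rho / 2) P.Lam ?_ ?_ ?_ ?_ ?_ ?_ g0 g1 g2 g3 g4 g5 g6 g7 g8 g9 g10 g11
    · -- degrees
      intro u
      rcases u with ⟨i, a⟩ | v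
      · have h1 : univ.filter (fun v' => S.adj (Sum.inl (i, a)) v') ⊆
            (univ : Finset κ).image (fun b => (Sum.inl (i, b) : (V × κ) ⊕ V)) := by
          intro x hx
          obtain ⟨j, a', b', h2, h3, h4⟩ := (hSA _ _).1 (mem_filter.1 hx).2
          have h5 := Prod.ext_iff.1 (Sum.inl_injective h2)
          simp only at h5
          rw [mem_image]
          exact ⟨b', mem_univ _, by rw [h3, h5.1]⟩
        refine (card_le_card h1).trans (card_image_le.trans ?_)
        rw [card_univ, hB.ed.col]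
        omega
      · have : univ.filter (fun v' => S.adj (Sum.inr v) v') = ∅ := by
          rw [filter_eq_empty_iff]
          rintro x _ h0
          obtain ⟨i, a, b, h, _⟩ := (hSA _ _).1 h0
          cases h
        rw [this, card_empty]
        exact Nat.zero_le _
    · rw [Fintype.card_fin]
    · intro u hu
      obtain ⟨i, a, rfl, hi, ha⟩ := (hU u).1 hu
      exact (hL _ i a rfl hi ha).1
    · intro u hu s hs s' hs' h
      obtain ⟨i, a, rfl, hi, ha⟩ := (hU u).1 hu
      obtain ⟨_, _, h3, _⟩ := hLm i hi a ha s hs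
      obtain ⟨_, _, h3', _⟩ := hLm i hi a ha s' hs'
      rcases hq : S.r (Sum.inl (i, a)) s with q | v
      · have h4 := (hrl i hi a ha s hs q hq).1
        rw [h] at hq
        have h5 := (hrl i hi a ha s' hs' q hq).1
        rw [← h3, ← h3', h4, h5]
      · have h4 := (hrr i hi a ha s hs v hq).2
        rw [h] at hq
        have h5 := (hrr i hi a ha s' hs' v hq).2
        have h6 := hNinj a _ _ (h4.trans h5.symm)
        rw [← h3, ← h3', h6]
    · intro v
      rcases v with q | v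
      · have h1 : (Cv S U L (Sum.inl q)).card ≤ 1 := by
          rw [card_le_one]
          rintro ⟨x, s⟩ hp ⟨x', s'⟩ hp'
          obtain ⟨h1, h2, h3⟩ := Good10_Cv.1 hp
          obtain ⟨i, a, h4, hi, ha⟩ := (hU x).1 h1
          obtain ⟨h1', h2', h3'⟩ := Good10_Cv.1 hp'
          obtain ⟨i', a', h4', hi', ha'⟩ := (hU x').1 h1'
          simp only at h2 h3 h4 h2' h3' h4'
          subst h4
          subst h4'
          obtain ⟨h5, h6⟩ := hrl i hi a ha s h2 q h3
          obtain ⟨h5', h6'⟩ := hrl i' hi' a' ha' s' h2' q h3'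
          have h7 := (hLm i hi a ha s h2).1
          have h7' := (hLm i' hi' a' ha' s' h2').1
          have h8 := (hLm i hi a ha s h2).2.2.1
          have h8' := (hLm i' hi' a' ha' s' h2').2.2.1
          rw [h5] at h7
          rw [h5', h7] at h7'
          have h9 : i = i' := Option.some.inj h7'
          have h10 : s = s' := by rw [← h8, ← h8', h5, h5']
          rw [h9, h10, h6, h6']
        have h2 : ((Cv S U L (Sum.inl q)).card : ℝ) ≤ 1 := by exact_mod_cast h1
        have h3 : (1 / 8 : ℝ) ≤ 1 - P.rho / 2 := by linarith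
        have h4 : (1 / 8 : ℝ) * 8 ≤ (1 - P.rho / 2) * lY P :=
          mul_le_mul h3 hlY (by norm_num) (by linarith)
        linarith
      · refine le_trans ?_ (hcl v)
        refine Nat.cast_le.2 ?_
        have hne : Nonempty κ := by
          rw [← Fintype.card_pos_iff, hB.ed.col]
          exact Nat.succ_pos _
        refine card_le_card_of_injOn (fun p => match p.1 with
          | Sum.inr _ => (Classical.choice hne : κ)
          | Sum.inl q => q.2) ?_ ?_
        · rintro ⟨x, s⟩ hp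
          obtain ⟨h1, h2, h3⟩ := Good10_Cv.1 (mem_coe.1 hp)
          obtain ⟨i, a, h4, hi, ha⟩ := (hU x).1 h1
          simp only at h2 h3 h4
          subst h4
          obtain ⟨h5, h6⟩ := hrr i hi a ha s h2 v h3
          have h7 : t.E.N a v = wi i s := by rw [← h6, t.E.inv]
          refine mem_coe.2 (mem_filter.2 ⟨mem_univ _, ?_, ?_⟩)
          · show t.E.N a v ≠ v
            rw [h7]
            intro h8
            exact h5 (h6.trans h8.symm)
          · show A (t.E.N a v) a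
            rw [h7]
            exact (hLm i hi a ha s h2).2.1
        · rintro ⟨x, s⟩ hp ⟨x', s'⟩ hp' hxx
          obtain ⟨h1, h2, h3⟩ := Good10_Cv.1 (mem_coe.1 hp)
          obtain ⟨i, a, h4, hi, ha⟩ := (hU x).1 h1
          obtain ⟨h1', h2', h3'⟩ := Good10_Cv.1 (mem_coe.1 hp')
          obtain ⟨i', a', h4', hi', ha'⟩ := (hU x').1 h1'
          simp only at h2 h3 h4 h2' h3' h4'
          subst h4
          subst h4'
          have haa : a = a' := hxx
          subst haa
          obtain ⟨h5, h6⟩ := hrr i hi a ha s h2 v h3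
          obtain ⟨h5', h6'⟩ := hrr i' hi' a ha' s' h2' v h3'
          have h9 : wi i s = wi i' s' := hNinj a _ _ (h6.trans h6'.symm)
          have h7 := (hLm i hi a ha s h2).1
          have h7' := (hLm i' hi' a ha' s' h2').1
          have h8 := (hLm i hi a ha s h2).2.2.1
          have h8' := (hLm i' hi' a ha' s' h2').2.2.1
          rw [h9, h7'] at h7
          have h10 : i' = i := Option.some.inj h7
          have h11 : s = s' := by rw [← h8, ← h8', h9]
          rw [h10, h11]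
    · intro u hu s hs
      obtain ⟨i, a, rfl, hi, ha⟩ := (hU u).1 hu
      refine le_trans ?_ (hrow (wi i s))
      refine Nat.cast_le.2 ?_
      refine card_le_card_of_injOn (fun p => match p with
          | Sum.inr _ => a
          | Sum.inl q => q.2) ?_ ?_
      · intro x hp
        obtain ⟨h1, h2, h3⟩ := Good10_Pn.1 (mem_coe.1 hp)
        obtain ⟨j, b, h4, hj, hb⟩ := (hU x).1 h1
        subst h4
        have h5 := ((hSadj i a j b).1 h2).1
        subst h5
        exact mem_coe.2 (mem_filter.2 ⟨mem_univ _, (hLm i hj b hb s h3).2.1⟩)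
      · intro x hp x' hp' hxx
        obtain ⟨h1, h2, h3⟩ := Good10_Pn.1 (mem_coe.1 hp)
        obtain ⟨j, b, h4, hj, hb⟩ := (hU x).1 h1
        obtain ⟨h1', h2', h3'⟩ := Good10_Pn.1 (mem_coe.1 hp')
        obtain ⟨j', b', h4', hj', hb'⟩ := (hU x').1 h1'
        subst h4
        subst h4'
        have h5 := ((hSadj i a j b).1 h2).1
        have h5' := ((hSadj i a j' b').1 h2').1
        have hbb : b = b' := hxx
        rw [← h5, ← h5', hbb]
  -- the result
  obtain ⟨c, hc1, hc2, hc3⟩ := hsolv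
  have hmU : ∀ i, t.K i = some i → ∀ a ∈ Gs i, (Sum.inl (i, a) : (V × κ) ⊕ V) ∈ U :=
    fun i hi a ha => (hU _).2 ⟨i, a, rfl, hi, ha⟩
  refine ⟨fun i a => wi i (c (Sum.inl (i, a))), ?_, ?_, ?_⟩
  · intro i hi a ha
    obtain ⟨h1, h2, _, _⟩ := hLm i hi a ha _ (hc1 _ (hmU i hi a ha))
    exact ⟨h1, h2⟩
  · intro i hi a ha b hb h
    by_contra hab
    obtain ⟨_, _, h1, _⟩ := hLm i hi a ha _ (hc1 _ (hmU i hi a ha))
    obtain ⟨_, _, h2, _⟩ := hLm i hi b hb _ (hc1 _ (hmU i hi b hb))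
    refine hc3 _ (hmU i hi a ha) _ (hmU i hi b hb) ((hSadj i a i b).2 ⟨rfl, hab⟩) ?_
    rw [← h1, ← h2]
    exact congrArg idx h
  · intro i hi a ha b hb h1 h2 h
    by_contra hab
    have h3 := (hLm i hi a ha _ (hc1 _ (hmU i hi a ha))).2.2.2
    have h4 := (hLm i hi b hb _ (hc1 _ (hmU i hi b hb))).2.2.2
    simp only at h1 h2 h
    rw [if_neg h1] at h3
    rw [if_neg h2] at h4
    refine hc2 _ (hmU i hi a ha) _ (hmU i hi b hb) ?_ ?_
    · intro h5
      exact hab (Prod.ext_iff.1 (Sum.inl_injective h5)).2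
    · rw [h3, h4]
      exact congrArg Sum.inr h

end Pool.TCV
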