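import Pool.Agent.Helper60.TCV.StT

set_option autoImplicit false

namespace Pool.TCV

open Pool.TC Pool.TCM Pool.TCS Pool.TCT Finset
open scoped Classical

/-- One block of small weight. -/
private theorem Grp_block (κ : Type) (J : Finset κ) (x : κ → ℕ) (t : ℕ) (ht : 0 < t)
    (hx : ∀ a ∈ J, x a < t) (hS : t ≤ ∑ a ∈ J, x a) :
    ∃ A ⊆ J, t ≤ ∑ a ∈ A, x a ∧ ∑ a ∈ A, x a < 2 * t := by
  obtain ⟨A, hA, hmin⟩ := (J.powerset.filter (fun A => t ≤ ∑ a ∈ A, x a)).exists_min_image
    Finset.card ⟨J, by simp [hS]⟩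
  simp only [Finset.mem_filter, Finset.mem_powerset] at hA hmin
  refine ⟨A, hA.1, hA.2, ?_⟩
  have hne : A.Nonempty := by
    rw [Finset.nonempty_iff_ne_empty]
    intro h
    have := hA.2
    rw [h, Finset.sum_empty] at this
    omega
  obtain ⟨b, hb⟩ := hne
  have h1 : ∑ a ∈ A.erase b, x a < t := by
    by_contra hc
    have h2 := hmin (A.erase b) ⟨(Finset.erase_subset _ _).trans hA.1, not_lt.mp hc⟩
    have h3 := Finset.card_erase_lt_of_mem hb
    omega
  have h4 := Finset.add_sum_erase A x hb
  have h5 := hx b (hA.1 hb)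
  omega

theorem thm_Grp : St_Grp := by
  intro κ J x t N hx
  revert J
  induction N with
  | zero =>
    intro J _ _
    exact ⟨fun _ => ∅, fun k => k.elim0, fun k => k.elim0, fun k => k.elim0⟩
  | succ N ih =>
    intro J hx hS
    rcases Nat.eq_zero_or_pos t with ht | ht
    · subst ht
      exact ⟨fun _ => ∅, fun _ => Finset.empty_subset _, fun _ _ _ => Finset.disjoint_empty_left _,
        fun _ => Nat.zero_le _⟩
    · have hS1 : t ≤ ∑ a ∈ J, x a := by
        have : 2 * (N + 1) * t = 2 * N * t + 2 * t := by ring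
        omega
      obtain ⟨A, hAJ, hA1, hA2⟩ := Grp_block κ J x t ht hx hS1
      have hsum : ∑ a ∈ J \ A, x a + ∑ a ∈ A, x a = ∑ a ∈ J, x a := Finset.sum_sdiff hAJ
      obtain ⟨Γ, hΓ1, hΓ2, hΓ3⟩ := ih (J \ A) (fun a ha => hx a (Finset.mem_sdiff.mp ha).1) (by
        have : 2 * (N + 1) * t = 2 * N * t + 2 * t := by ring
        omega)
      have hd : ∀ k, Disjoint A (Γ k) := fun k =>
        Finset.disjoint_of_subset_right (hΓ1 k) Finset.disjoint_sdiff
      refine ⟨Fin.cons A Γ, ?_, ?_, ?_⟩
      · intro k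
        refine Fin.cases ?_ (fun i => ?_) k
        · simpa using hAJ
        · simpa using (hΓ1 i).trans Finset.sdiff_subset
      · intro k k'
        refine Fin.cases ?_ (fun i => ?_) k
        · refine Fin.cases ?_ (fun j => ?_) k'
          · intro h; exact absurd rfl h
          · intro _; simpa using hd j
        · refine Fin.cases ?_ (fun j => ?_) k'
          · intro _; simpa using (hd i).symm
          · intro h
            simpa using hΓ2 i j (fun e => h (by rw [e]))
      · intro k
        refine Fin.cases ?_ (fun i => ?_) k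
        · simpa using hA1
        · simpa using hΓ3 i

end Pool.TCV
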