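import Pool.Agent.Helper60.TCV.StT

set_option autoImplicit false

namespace Pool.TCV

open Pool.TC Pool.TCM Pool.TCS Pool.TCT Finset
open scoped Classical

/-- One block of bounded weight. -/
private theorem Grp2_block (κ : Type) (J : Finset κ) (x : κ → ℕ) (M t : ℕ)
    (hx : ∀ a ∈ J, x a ≤ M) (ht : 2 * t ≤ M) (hS : t ≤ ∑ a ∈ J, x a) :
    ∃ A ⊆ J, t ≤ ∑ a ∈ A, x a ∧ ∑ a ∈ A, x a ≤ M := by
  obtain ⟨A, hA, hmin⟩ := (J.powerset.filter (fun A => t ≤ ∑ a ∈ A, x a)).exists_min_image
    Finset.card ⟨J, by simp [hS]⟩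
  simp only [Finset.mem_filter, Finset.mem_powerset] at hA hmin
  refine ⟨A, hA.1, hA.2, ?_⟩
  have hsm : ∀ b ∈ A, ∑ a ∈ A.erase b, x a < t := by
    intro b hb
    by_contra hc
    have h2 := hmin (A.erase b) ⟨(Finset.erase_subset _ _).trans hA.1, not_lt.mp hc⟩
    have h3 := Finset.card_erase_lt_of_mem hb
    omega
  rcases A.eq_empty_or_nonempty with h | ⟨b, hb⟩
  · rw [h, Finset.sum_empty]
    exact Nat.zero_le _
  · have h4 := Finset.add_sum_erase A x hb
    have h5 := hsm b hb
    rcases (A.erase b).eq_empty_or_nonempty with h6 | ⟨b', hb'⟩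
    · rw [h6, Finset.sum_empty] at h4
      have h7 := hx b (hA.1 hb)
      omega
    · obtain ⟨hne, hb'A⟩ := Finset.mem_erase.mp hb'
      have h7 : x b ≤ ∑ a ∈ A.erase b', x a :=
        Finset.single_le_sum (f := x) (fun _ _ => Nat.zero_le _)
          (Finset.mem_erase.mpr ⟨fun e => hne e.symm, hb⟩)
      have h8 := hsm b' hb'A
      omega

theorem thm_Grp2 : St_Grp2 := by
  intro κ J x M t N hx ht
  revert J
  induction N with
  | zero =>
    intro J _ _
    exact ⟨fun _ => ∅, fun k => k.elim0, fun k => k.elim0, fun k => k.elim0⟩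
  | succ N ih =>
    intro J hx hS
    have hN : (N + 1) * M = N * M + M := by ring
    have hS1 : t ≤ ∑ a ∈ J, x a := by omega
    obtain ⟨A, hAJ, hA1, hA2⟩ := Grp2_block κ J x M t hx ht hS1
    have hsum : ∑ a ∈ J \ A, x a + ∑ a ∈ A, x a = ∑ a ∈ J, x a := Finset.sum_sdiff hAJ
    obtain ⟨Γ, hΓ1, hΓ2, hΓ3⟩ := ih (J \ A) (fun a ha => hx a (Finset.mem_sdiff.mp ha).1)
      (by omega)
    have hd : ∀ k, Disjoint A (Γ k) := fun k =>
      Finset.disjoint_of_subset_right (hΓ1 k) Finset.disjoint_sdiff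
    refine ⟨Fin.cons A Γ, ?_, ?_, ?_⟩
    · intro k
      refine Fin.cases ?_ (fun i => ?_) k
      · simpa using hAJ
      · simpa using (hΓ1 i).trans Finset.sdiff_subset
    · intro k k'
      refine Fin.cases ?_ (fun i => ?_) k
      · refine Fin.cases ?_ (fun j => ?_) k'
        · intro h; exact absurd rfl h
        · intro _; simpa using hd j
      · refine Fin.cases ?_ (fun j => ?_) k'
        · intro _; simpa using (hd i).symm
        · intro h
          simpa using hΓ2 i j (fun e => h (by rw [e]))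
    · intro k
      refine Fin.cases ?_ (fun i => ?_) k
      · simpa using hA1
      · simpa using hΓ3 i

end Pool.TCV
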