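import Pool.Agent.Helper60.TCV.StK3

/-!
# The colours after section 9c
-/

set_option autoImplicit false

namespace Pool.TCV

open Pool.TC Pool.TCM Pool.TCS Pool.TN Finset
open scoped Classical

section

variable {P : Par} {V κ : Type} [Fintype V] [Fintype κ] {k : Kd V κ} {ro : V → κ → V}

omit [Fintype κ] in
private theorem HAs_Rg {i w : V} (h : w ∈ k.Rg P i) : k.K w = some i ∧ ¬ k.Sp P w := by
  simpa [Gd.Rg] using h

omit [Fintype κ] in
private theorem HAs_inRg {i w : V} (h1 : k.K w = some i) (h2 : ¬ k.Sp P w) : w ∈ k.Rg P i := by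
  simp only [Gd.Rg, mem_filter, mem_univ, true_and]
  exact ⟨h1, h2⟩

omit [Fintype κ] in
/-- the types of the vertices of the base colouring -/
private theorem HAs_cls {y : V} (hy : k.Cb P y) :
    (k.K y = none ∧ k.cb P y = k.cS y) ∨
    (k.X y ∧ k.K y ≠ none ∧ k.cb P y = k.cX y) ∨
    (k.K y ≠ none ∧ k.Sp P y ∧ k.cb P y = k.cZ y) ∨
    (k.FF y ∧ k.cb P y = k.m y) := by
  by_cases h0 : k.K y = none
  · left
    refine ⟨h0, ?_⟩
    unfold Kd.cb
    rw [if_pos h0]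
  · by_cases h1 : k.X y
    · right; left
      refine ⟨h1, h0, ?_⟩
      unfold Kd.cb
      rw [if_neg h0, if_pos h1]
    · by_cases h2 : k.Sp P y
      · right; right; left
        refine ⟨h0, h2, ?_⟩
        unfold Kd.cb
        rw [if_neg h0, if_neg h1, if_pos h2]
      · right; right; right
        have h3 : k.FF y := by
          rcases hy with h4 | h4 | h4 | h4
          · exact absurd h4 h0
          · exact absurd h4 h1
          · exact absurd h4 h2
          · exact h4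
        refine ⟨h3, ?_⟩
        unfold Kd.cb
        rw [if_neg h0, if_neg h1, if_neg h2]

/-- the rows of the good colours -/
private theorem HAs_Y (hr : RoP P k ro) {w : V} (hw : k.Yr P ro w) :
    ∃ i a, k.K i = some i ∧ a ∈ k.Gc P i ∧ ro i a = w ∧ k.c2 P ro w = a ∧ k.K w = some i ∧
      w ∈ k.Rg P i ∧ ¬ k.F0 w ∧ ¬ k.X w ∧ ¬ k.Sp P w ∧ ¬ k.bl P a w ∧
      (k.fx w a ∨ (k.cr w a ∧ k.E.N a w ∈ k.Rg P i ∧ ¬ k.us (k.E.N a w) ∧
        ¬ k.sc P (k.E.N a w))) := by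
  obtain ⟨i, a, hi, ha, hia⟩ := hw
  obtain ⟨h1, j, h2, h3, h4, h5⟩ := hr.al i hi a ha
  rw [hia] at h1 h2 h4 h5
  have h6 := mem_filter.1 h2
  have h7 := HAs_Rg h6.1
  have hij : j = i := Option.some_injective _ (h7.1.symm.trans h1)
  rw [hij] at h6 h5
  refine ⟨i, a, hi, ha, hia, ?_, h1, h6.1, h6.2.1, h6.2.2, h7.2, h4, ?_⟩
  · have hex : ∃ a, ∃ i, k.K i = some i ∧ a ∈ k.Gc P i ∧ ro i a = w := ⟨a, i, hi, ha, hia⟩
    unfold Kd.c2
    rw [dif_pos hex]
    obtain ⟨i', g1, g2, g3⟩ := hex.choose_spec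
    have g4 := (hr.al i' g1 _ g2).1
    rw [g3] at g4
    have g5 : i' = i := Option.some_injective _ (g4.symm.trans h1)
    rw [g5] at g2 g3
    exact hr.inj i hi _ g2 a ha (g3.trans hia.symm)
  · rcases h5 with h5 | h5
    · exact Or.inl h5
    · exact Or.inr ⟨h5.1, h5.2.1, h5.2.2.2.1, h5.2.2.2.2⟩

private theorem HAs_C (hr : RoP P k ro) {w : V} (hw : k.Cb P w) : k.c2 P ro w = k.cb P w := by
  have hn : ¬ ∃ a, ∃ i, k.K i = some i ∧ a ∈ k.Gc P i ∧ ro i a = w := by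
    rintro ⟨a, i, h⟩
    obtain ⟨j, b, -, -, -, -, h1, -, h2, h3, h4, -⟩ := HAs_Y hr (w := w) ⟨i, a, h⟩
    rcases hw with h5 | h5 | h5 | h5
    · rw [h1] at h5
      exact Option.some_ne_none j h5
    · exact h3 h5
    · exact h4 h5
    · exact h2 h5.1
  unfold Kd.c2
  rw [dif_neg hn]

/-- a candidate in a cluster -/
private theorem HAs_F (h : KdP P k) {i y : V} (hy : k.FF y) (hi : k.K y = some i) :
    k.m y ∈ k.mFF i ∧ k.m y ∈ k.J1 := by
  refine ⟨mem_image.2 ⟨y, by simp only [mem_filter, mem_univ, true_and]; exact ⟨hi, hy⟩, rfl⟩, ?_⟩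
  rcases h.bs.ac.f0 y hy.1 with h1 | ⟨j, -, -, h2, -⟩
  · exact absurd h1.1.1 hy.2.1
  · exact h2

/-- colours of the base colouring in the cluster `i` -/
private theorem HAs_same (h : KdP P k) {i x : V} (hx : k.Cb P x) (hi : k.K x = some i) :
    k.cb P x ∈ k.Pb P i ∨ (k.cb P x ∉ k.Q ∧ k.cb P x ∈ k.cSp P i) ∨
      (k.cb P x ∉ k.Q ∧ k.cb P x ∈ k.mFF i) := by
  rcases HAs_cls hx with ⟨h1, -⟩ | ⟨h1, -, h2⟩ | ⟨-, h1, h2⟩ | ⟨h1, h2⟩
  · rw [hi] at h1
    exact absurd h1 (Option.some_ne_none i)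
  · left
    rw [h2]
    exact (h.xp.x1 i x h1 hi).1
  · right; left
    rw [h2]
    refine ⟨(h.zp.z2 i x h1 hi).2.1, mem_image.2 ⟨x, ?_, rfl⟩⟩
    simp only [Gd.Spi, mem_filter, mem_univ, true_and]
    exact ⟨hi, h1⟩
  · right; right
    rw [h2]
    obtain ⟨h3, h4⟩ := HAs_F h h1 hi
    exact ⟨fun h5 => h.bs.ed.q1 _ h5 h4, h3⟩

private theorem HAs_Gc {i : V} {a : κ} (ha : a ∈ k.Gc P i) : a ∉ k.Pb P i ∧ a ∉ k.Q ∧
    a ∉ k.mFF i ∧ a ∉ k.cSp P i ∧ a ∉ k.Bk P i := (mem_filter.1 ha).2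

private theorem HAs_sg (h : KdP P k) {i x : V} {a : κ} (hx : k.Cb P x) (hi : k.K x = some i)
    (ha : a ∈ k.Gc P i) : k.cb P x ≠ a := by
  intro e
  obtain ⟨g1, -, g3, g4, -⟩ := HAs_Gc ha
  rcases HAs_same h hx hi with h1 | ⟨-, h1⟩ | ⟨-, h1⟩
  · rw [e] at h1
    exact g1 h1
  · rw [e] at h1
    exact g4 h1
  · rw [e] at h1
    exact g3 h1

private theorem HAs_CY (h : KdP P k) (hr : RoP P k ro) {u v : V} (hu : k.Cb P u)
    (hv : k.Yr P ro v) (ha : k.G.Adj u v ∨ k.K u = k.K v) : k.cb P u ≠ k.c2 P ro v := by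
  obtain ⟨i, a, -, h2, -, h4, h5, -, -, -, -, h6, -⟩ := HAs_Y hr hv
  rw [h4]
  by_cases hk : k.K u = k.K v
  · exact HAs_sg h hu (hk.trans h5) h2
  · intro e
    exact h6 ⟨u, (ha.resolve_right hk).symm, hk, hu, e⟩

private theorem HAs_YY (hr : RoP P k ro) {u v : V} (hu : k.Yr P ro u) (hv : k.Yr P ro v)
    (ha : k.G.Adj u v ∨ k.K u = k.K v) (huv : u ≠ v) : k.c2 P ro u ≠ k.c2 P ro v := by
  obtain ⟨i, a, g1, g2, g3, g4, g5, -⟩ := HAs_Y hr hu
  obtain ⟨j, b, h1, h2, h3, h4, h5, -⟩ := HAs_Y hr hv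
  rw [g4, h4]
  intro e
  rw [← e] at h2 h3
  have hij : i = j := by
    rcases ha with ha | ha
    · rw [← g3, ← h3] at ha
      exact hr.cross i j a g1 h1 g2 h2 ha
    · exact Option.some_injective _ (g5.symm.trans (ha.trans h5))
  rw [← hij] at h3
  exact huv (g3.symm.trans h3)

/-- the cells which are not fixed -/
private theorem HAs_nf (h : KdP P k) (hr : RoP P k ro) {u : V} (hu : k.C2 P ro u)
    (hf : ¬ k.fx u (k.c2 P ro u)) :
    (k.U u ∧ k.c2 P ro u = k.cS u) ∨ (k.X u ∧ k.c2 P ro u = k.cX u) ∨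
      (k.Sp P u ∧ k.c2 P ro u = k.cZ u) ∨ k.Yr P ro u := by
  rcases hu with hu | hu
  · rw [HAs_C hr hu] at hf ⊢
    rcases HAs_cls hu with ⟨h1, h2⟩ | ⟨h1, -, h2⟩ | ⟨-, h1, h2⟩ | ⟨-, h2⟩
    · left
      refine ⟨⟨h1, fun h3 => hf ?_⟩, h2⟩
      rw [h2, h.sp.fr u h1 h3]
      exact h.bs.ed.miss u
    · right; left
      exact ⟨h1, h2⟩
    · right; right; left
      exact ⟨h1, h2⟩
    · exact absurd (by rw [h2]; exact h.bs.ed.miss u) hf
  · right; right; right
    exact hu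

/-- a cell which is used by `U` or `X` and a special cell or a cell of a good colour -/
private theorem HAs_col (h : KdP P k) (hr : RoP P k ro) {u v : V}
    (hu : (k.U u ∧ k.c2 P ro u = k.cS u) ∨ (k.X u ∧ k.c2 P ro u = k.cX u))
    (hv : (k.Sp P v ∧ k.K v ≠ none ∧ k.c2 P ro v = k.cZ v) ∨ k.Yr P ro v)
    (hf : ¬ k.fx v (k.c2 P ro v))
    (e : k.E.N (k.c2 P ro u) u = k.E.N (k.c2 P ro v) v) : False := by
  have h1 : k.us (k.E.N (k.c2 P ro u) u) := by
    rcases hu with ⟨h1, h2⟩ | ⟨h1, h2⟩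
    · left
      exact ⟨u, h1, by rw [h2]⟩
    · right
      exact ⟨u, h1, by rw [h2]⟩
  rw [e] at h1
  rcases hv with ⟨h2, h3, h4⟩ | h2
  · rw [h4] at h1
    obtain ⟨i, hi⟩ := Option.ne_none_iff_exists'.1 h3
    exact (h.zp.z3 i v h2 hi).2.2.2 h1
  · obtain ⟨i, a, -, -, -, g4, -, -, -, -, -, -, g⟩ := HAs_Y hr h2
    rw [g4] at h1 hf
    rcases g with g | g
    · exact hf g
    · exact g.2.2.1 h1

end

theorem thm_HAs (hCbP : St_CbP) : St_HAs := by
  intro P V κ _ _ k ro hN h hr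
  have hC := hCbP P V κ k h
  have hSpK : ∀ w, k.Sp P w → k.K w ≠ none := fun w hw => hw.1
  refine ⟨?_, ?_, ?_, ?_, ?_, ?_, ?_⟩
  · intro w hw
    obtain ⟨i, a, -, -, -, -, -, h1, -⟩ := HAs_Y hr hw
    exact ⟨Or.inr hw, i, h1⟩
  · intro u hu
    have h1 : ¬ k.Cb P u := fun h1 => hu (Or.inl h1)
    have h2 : k.K u ≠ none := fun h2 => h1 (Or.inl h2)
    have h3 : ¬ k.Sp P u := fun h3 => h1 (Or.inr (Or.inr (Or.inl h3)))
    obtain ⟨i, hi⟩ := Option.ne_none_iff_exists'.1 h2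
    exact ⟨i, HAs_inRg hi h3⟩
  · intro u v hu hv huv
    rcases hu with hu | hu
    · rw [HAs_C hr hu]
      rcases hv with hv | hv
      · rw [HAs_C hr hv]
        exact hC.1 u v hu hv huv
      · exact HAs_CY h hr hu hv (Or.inl huv)
    · rcases hv with hv | hv
      · rw [HAs_C hr hv]
        exact (HAs_CY h hr hv hu (Or.inl huv.symm)).symm
      · exact HAs_YY hr hu hv (Or.inl huv) huv.ne
  · intro u hu
    rcases hu with hu | hu
    · rw [HAs_C hr hu]
      rcases HAs_cls hu with ⟨h1, h2⟩ | ⟨h1, h0, h2⟩ | ⟨h0, h1, h2⟩ | ⟨h1, h2⟩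
      · rw [h2]
        by_cases h3 : k.F0 u
        · left
          rw [h.sp.fr u h1 h3]
          exact h.bs.ed.miss u
        · right
          exact (h.sp.g2 u ⟨h1, h3⟩).2.1
      · rw [h2]
        obtain ⟨i, hi⟩ := Option.ne_none_iff_exists'.1 h0
        exact ((mem_filter.1 (h.xp.x1 i u h1 hi).2).2).2
      · rw [h2]
        obtain ⟨i, hi⟩ := Option.ne_none_iff_exists'.1 h0
        right
        exact (h.zp.z3 i u h1 hi).1
      · left
        rw [h2]
        exact h.bs.ed.miss u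
    · obtain ⟨i, a, -, -, -, h4, -, -, -, -, -, -, h5⟩ := HAs_Y hr hu
      rw [h4]
      rcases h5 with h5 | h5
      · exact Or.inl h5
      · exact Or.inr h5.1
  · intro u v hu hv hfu hfv e
    have e' : k.E.N (k.c2 P ro u) u = k.E.N (k.c2 P ro v) v := e
    rcases HAs_nf h hr hu hfu with u1 | u1 | u1 | u1
    · rcases HAs_nf h hr hv hfv with v1 | v1 | v1 | v1
      · rw [u1.2, v1.2] at e'
        exact h.sp.g3 u v u1.1 v1.1 e'
      · rw [u1.2, v1.2] at e'
        exact absurd ⟨v, v1.1, e'.symm⟩ (h.sp.g2 u u1.1).2.2.1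
      · exact (HAs_col h hr (Or.inl u1) (Or.inl ⟨v1.1, hSpK v v1.1, v1.2⟩) hfv e').elim
      · exact (HAs_col h hr (Or.inl u1) (Or.inr v1) hfv e').elim
    · rcases HAs_nf h hr hv hfv with v1 | v1 | v1 | v1
      · rw [u1.2, v1.2] at e'
        exact absurd ⟨u, u1.1, e'⟩ (h.sp.g2 v v1.1).2.2.1
      · rw [u1.2, v1.2] at e'
        exact h.xp.x2 u v u1.1 v1.1 e'
      · exact (HAs_col h hr (Or.inr u1) (Or.inl ⟨v1.1, hSpK v v1.1, v1.2⟩) hfv e').elim
      · exact (HAs_col h hr (Or.inr u1) (Or.inr v1) hfv e').elim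
    · rcases HAs_nf h hr hv hfv with v1 | v1 | v1 | v1
      · exact (HAs_col h hr (Or.inl v1) (Or.inl ⟨u1.1, hSpK u u1.1, u1.2⟩) hfu e'.symm).elim
      · exact (HAs_col h hr (Or.inr v1) (Or.inl ⟨u1.1, hSpK u u1.1, u1.2⟩) hfu e'.symm).elim
      · rw [u1.2, v1.2] at e'
        exact h.zp.z4 u v u1.1 v1.1 e'
      · obtain ⟨i, a, -, -, -, g4, -, -, -, -, -, -, g⟩ := HAs_Y hr v1
        have hf2 : ¬ k.fx v a := by
          rw [← g4]
          exact hfv
        rw [u1.2, g4] at e'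
        exact absurd ⟨u, u1.1, e'⟩ (g.resolve_left hf2).2.2.2
    · obtain ⟨i, a, g1, g2, g3, g4, -, -, -, -, -, -, g⟩ := HAs_Y hr u1
      have hf1 : ¬ k.fx u a := by
        rw [← g4]
        exact hfu
      have g' := g.resolve_left hf1
      rcases HAs_nf h hr hv hfv with v1 | v1 | v1 | v1
      · exact (HAs_col h hr (Or.inl v1) (Or.inr u1) hfu e'.symm).elim
      · exact (HAs_col h hr (Or.inr v1) (Or.inr u1) hfu e'.symm).elim
      · rw [v1.2, g4] at e'
        exact absurd ⟨v, v1.1, e'.symm⟩ g'.2.2.2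
      · obtain ⟨j, b, h1, h2, h3, h4, -, -, -, -, -, -, h5⟩ := HAs_Y hr v1
        have hf2 : ¬ k.fx v b := by
          rw [← h4]
          exact hfv
        have h5' := h5.resolve_left hf2
        rw [g4, h4] at e'
        have r1 := (HAs_Rg g'.2.1).1
        have r2 := (HAs_Rg h5'.2.1).1
        rw [e'] at r1
        have hij : i = j := Option.some_injective _ (r1.symm.trans r2)
        rw [← hij] at h2 h3
        have hab : a = b := by
          refine hr.col i g1 a g2 b h2 ?_ ?_ ?_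
          · rw [g3]
            exact hf1
          · rw [h3]
            exact hf2
          · rw [g3, h3]
            exact e'
        rw [← hab] at h3
        exact g3.symm.trans h3
  · intro w x hw hx hk hxw
    rcases hx with hx | hx
    · rw [HAs_C hr hx]
      exact HAs_CY h hr hx hw (Or.inr hk)
    · exact HAs_YY hr hx hw (Or.inr hk) hxw
  · intro i a ha x hx hk
    have ha' : a ∉ k.Pb P i ∧ (a ∈ k.Q ∨ a ∈ k.Bk P i) := by
      unfold Kd.Qp at ha
      rw [mem_union, mem_sdiff] at ha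
      rcases ha with ha | ha
      · exact ⟨ha.2, Or.inl ha.1⟩
      · exact ⟨(mem_filter.1 ha).2.1, Or.inr ha⟩
    rcases hx with hx | hx
    · rw [HAs_C hr hx]
      intro e
      rcases HAs_same h hx hk with h1 | ⟨h0, h1⟩ | ⟨h0, h1⟩
      · rw [e] at h1
        exact ha'.1 h1
      · rw [e] at h0 h1
        rcases ha'.2 with h2 | h2
        · exact h0 h2
        · exact (mem_filter.1 h2).2.2.2.2.1 h1
      · rw [e] at h0 h1
        rcases ha'.2 with h2 | h2
        · exact h0 h2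
        · exact (mem_filter.1 h2).2.2.2.1 h1
    · obtain ⟨j, b, -, h2, -, h4, h5, -⟩ := HAs_Y hr hx
      have hij : j = i := Option.some_injective _ (h5.symm.trans hk)
      rw [hij] at h2
      rw [h4]
      intro e
      rw [e] at h2
      obtain ⟨-, g2, -, -, g5⟩ := HAs_Gc h2
      rcases ha'.2 with h6 | h6
      · exact g2 h6
      · exact g5 h6

end Pool.TCV
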