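import Pool.Agent.Helper60.TCV.StK3

/-!
# T10, HBS: the numbers after section 9c
-/

set_option autoImplicit false

namespace Pool.TCV

open Pool.TC Pool.TCM Pool.TCS Pool.TN Finset
open scoped Classical

section hbs

variable {V κ : Type} [Fintype V] [Fintype κ] (P : Par) (k : Kd V κ) (ro : V → κ → V)

private theorem HBs_Yr (hR : RoP P k ro) {w : V} (hw : k.Yr P ro w) : ∃ i a,
    k.K i = some i ∧ a ∈ k.Gc P i ∧ ro i a = w ∧ k.K w = some i ∧ k.al P w a ∧
      k.c2 P ro w = a := by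
  obtain ⟨i, a, h1, h2, h3⟩ := hw
  have hex : ∃ a, ∃ i, k.K i = some i ∧ a ∈ k.Gc P i ∧ ro i a = w := ⟨a, i, h1, h2, h3⟩
  have hc : k.c2 P ro w = hex.choose := by
    unfold Kd.c2
    rw [dif_pos hex]
  obtain ⟨j, g1, g2, g3⟩ := hex.choose_spec
  have e1 := hR.al j g1 _ g2
  rw [g3] at e1
  have e2 := hR.al i h1 a h2
  rw [h3] at e2
  have e3 : j = i := by
    have := e1.1.symm.trans e2.1
    exact Option.some.inj this
  subst e3
  have e4 : hex.choose = a := hR.inj j g1 _ g2 _ h2 (g3.trans h3.symm)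
  refine ⟨j, a, h1, h2, h3, e1.1, e2.2, ?_⟩
  rw [hc, e4]

private theorem HBs_Yr_c {w : V} (hw : ¬ k.Yr P ro w) : k.c2 P ro w = k.cb P w := by
  unfold Kd.c2
  rw [dif_neg]
  rintro ⟨a, i, h⟩
  exact hw ⟨i, a, h⟩

private theorem HBs_Rg {i w : V} (h : w ∈ k.Rg P i) : k.K w = some i ∧ ¬ k.Sp P w := by
  unfold Gd.Rg at h
  rw [mem_filter] at h
  exact h.2

private theorem HBs_Yr_Rw (hR : RoP P k ro) {i : V} {a : κ} (h1 : k.K i = some i)
    (h2 : a ∈ k.Gc P i) : ro i a ∈ k.Rg P i ∧ ¬ k.F0 (ro i a) ∧ ¬ k.X (ro i a) := by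
  obtain ⟨e1, j, e2, -⟩ := hR.al i h1 a h2
  unfold Kd.Rw at e2
  rw [mem_filter] at e2
  have e3 : j = i := by
    have := (HBs_Rg P k e2.1).1.symm.trans e1
    exact Option.some.inj this
  rw [e3] at e2
  exact e2

private theorem HBs_FF (hk : KdP P k) {i w : V} (h1 : k.K w = some i) (h2 : k.FF w) :
    w ∈ k.Rg P i := by
  rcases hk.bs.ac.f0 w h2.1 with h3 | ⟨j, h3, -⟩
  · exact absurd h3.1.1 (by rw [h1]; simp)
  · have := (HBs_Rg P k h3).1.symm.trans h1
    rw [Option.some.inj this] at h3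
    exact h3

private theorem HBs_X (hk : KdP P k) {i w : V} (h1 : k.K w = some i) (h2 : k.X w) :
    w ∈ k.Rg P i := by
  obtain ⟨j, h3⟩ := hk.xp.row w h2
  have := (HBs_Rg P k h3).1.symm.trans h1
  rw [Option.some.inj this] at h3
  exact h3

private theorem HBs_rcard (hCnt : St_Cnt) (hk : KdP P k) (hR : RoP P k ro) (i : V)
    (hi : k.K i = some i) : (Rr k.toTd (k.C2 P ro) i).card ≤ (k.Qp P i).card := by
  have h1 := hCnt P V κ k hk i hi
  have h2 := hk.xp.x4 i
  have h3 : ((k.Gc P i).image (ro i)).card = (k.Gc P i).card := by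
    apply card_image_of_injOn
    intro a ha b hb hab
    exact hR.inj i hi a (mem_coe.1 ha) b (mem_coe.1 hb) hab
  have d1 : Disjoint (univ.filter (fun w => k.K w = some i ∧ k.X w))
      (univ.filter (fun w => k.K w = some i ∧ k.FF w)) := by
    rw [disjoint_left]
    intro w hw hw'
    rw [mem_filter] at hw hw'
    exact hw'.2.2.2.2.1 hw.2.2
  have d2 : Disjoint ((univ.filter (fun w => k.K w = some i ∧ k.X w)) ∪
      (univ.filter (fun w => k.K w = some i ∧ k.FF w))) ((k.Gc P i).image (ro i)) := by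
    rw [disjoint_left]
    intro w hw hw'
    rw [mem_image] at hw'
    obtain ⟨a, ha, rfl⟩ := hw'
    obtain ⟨-, e1, e2⟩ := HBs_Yr_Rw P k ro hR hi ha
    rw [mem_union, mem_filter, mem_filter] at hw
    rcases hw with hw | hw
    · exact e2 hw.2.2
    · exact e1 hw.2.2.1
  have d3 : Disjoint ((univ.filter (fun w => k.K w = some i ∧ k.X w)) ∪
      (univ.filter (fun w => k.K w = some i ∧ k.FF w)) ∪ ((k.Gc P i).image (ro i)))
      (Rr k.toTd (k.C2 P ro) i) := by
    rw [disjoint_left]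
    intro w hw hw'
    unfold Rr at hw'
    rw [mem_filter] at hw'
    apply hw'.2.2
    rw [mem_union, mem_union, mem_filter, mem_filter, mem_image] at hw
    rcases hw with (hw | hw) | hw
    · exact Or.inl (Or.inr (Or.inl hw.2.2))
    · exact Or.inl (Or.inr (Or.inr (Or.inr hw.2.2)))
    · obtain ⟨a, ha, he⟩ := hw
      exact Or.inr ⟨i, a, hi, ha, he⟩
  have h4 : (univ.filter (fun w => k.K w = some i ∧ k.X w)) ∪
      (univ.filter (fun w => k.K w = some i ∧ k.FF w)) ∪ ((k.Gc P i).image (ro i)) ∪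
      (Rr k.toTd (k.C2 P ro) i) ⊆ k.Rg P i := by
    intro w hw
    rw [mem_union, mem_union, mem_union, mem_filter, mem_filter, mem_image] at hw
    rcases hw with ((hw | hw) | hw) | hw
    · exact HBs_X P k hk hw.2.1 hw.2.2
    · exact HBs_FF P k hk hw.2.1 hw.2.2
    · obtain ⟨a, ha, he⟩ := hw
      rw [← he]
      exact (HBs_Yr_Rw P k ro hR hi ha).1
    · unfold Rr at hw
      rw [mem_filter] at hw
      unfold Gd.Rg
      rw [mem_filter]
      exact ⟨mem_univ _, hw.2.1, fun h5 => hw.2.2 (Or.inl (Or.inr (Or.inr (Or.inl h5))))⟩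
  have h5 := card_le_card h4
  rw [card_union_of_disjoint d3, card_union_of_disjoint d2, card_union_of_disjoint d1, h3] at h5
  omega

private theorem HBs_Bk (hN : Num10 P) (hFew : St_Few) (hk : KdP P k) (i : V) :
    ((k.Bk P i).card : ℝ) ≤ P.pmax * P.D := by
  refine le_trans ?_ (hFew P V κ k hN hk i).2.1
  have : k.Bk P i ⊆ univ.filter (fun a => P.theta * P.D <
    (((k.Rg P i).filter (fun w => k.bl P a w)).card : ℝ)) := by
    intro a ha
    unfold Kd.Bk at ha
    rw [mem_filter] at ha ⊢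
    exact ⟨mem_univ _, ha.2.2.2.2.2⟩
  exact_mod_cast card_le_card this

private theorem HBs_qc1 (hN : Num10 P) (hFew : St_Few) (hk : KdP P k) (i : V) :
    ((k.Qp P i).card : ℝ) ≤ (P.rho + P.pmax) * P.D := by
  have h1 : (k.Qp P i).card ≤ k.Q.card + (k.Bk P i).card := by
    unfold Kd.Qp
    exact le_trans (card_union_le _ _) (Nat.add_le_add_right (card_le_card sdiff_subset) _)
  have h2 : ((k.Qp P i).card : ℝ) ≤ (k.Q.card : ℝ) + ((k.Bk P i).card : ℝ) := by
    exact_mod_cast h1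
  have h3 := HBs_Bk P k hN hFew hk i
  have h0 : 0 ≤ P.rho * P.D := by
    rw [hN.rho]; positivity
  have h4 : (k.Q.card : ℝ) ≤ P.rho * P.D := by
    rw [hk.bs.ed.q2]
    exact Nat.floor_le h0
  linarith [add_mul P.rho P.pmax (P.D : ℝ)]

private theorem HBs_num (hN : Num10 P) :
    1 + P.pmax * P.D ≤ 1 / 100 * P.rho * P.D ∧
    104 * P.delta * P.D / P.eta + P.pmax * P.D ≤ P.eps * P.D := by
  have hX : (10 : ℝ) ^ 20 ≤ (P.X : ℝ) := by
    have := hN.X0
    exact_mod_cast this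
  have hX0 : (0 : ℝ) < P.X := lt_of_lt_of_le (by norm_num) hX
  have hX1 : (1 : ℝ) ≤ P.X := le_trans (by norm_num) hX
  have hXD := hN.XD
  have hD : (0 : ℝ) < P.D := lt_of_lt_of_le (by positivity) hXD
  have hpm : P.pmax = 103 / (P.X : ℝ) ^ 4886 := by
    rw [hN.pmax, hN.delta, hN.theta]
    have : (P.X : ℝ) ^ 4900 = (P.X : ℝ) ^ 4886 * (P.X : ℝ) ^ 14 := by rw [← pow_add]
    rw [this]
    field_simp
  have hde : P.delta / P.eta = 1 / (P.X : ℝ) ^ 3300 := by
    rw [hN.eta, hN.delta]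
    have : (P.X : ℝ) ^ 4900 = (P.X : ℝ) ^ 3300 * (P.X : ℝ) ^ 1600 := by rw [← pow_add]
    rw [this]
    field_simp
  constructor
  · rw [hpm, hN.rho]
    have h1 : (1 : ℝ) ≤ 1 / 200 * (1 / (P.X : ℝ) ^ 13) * P.D := by
      have h2 : 200 * (P.X : ℝ) ^ 13 ≤ P.D := by
        calc 200 * (P.X : ℝ) ^ 13 ≤ (P.X : ℝ) * (P.X : ℝ) ^ 13 := by
              apply mul_le_mul_of_nonneg_right _ (by positivity)
              exact le_trans (by norm_num) hX
          _ = (P.X : ℝ) ^ 14 := by ring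
          _ ≤ (P.X : ℝ) ^ 4000000 := pow_le_pow_right₀ hX1 (by norm_num)
          _ ≤ P.D := hXD
      have h3 : (0 : ℝ) < (P.X : ℝ) ^ 13 := by positivity
      have h4 : 1 / 200 * (1 / (P.X : ℝ) ^ 13) * P.D = P.D / (200 * (P.X : ℝ) ^ 13) := by
        field_simp
      rw [h4, le_div_iff₀ (by positivity)]
      linarith
    have h5 : 103 / (P.X : ℝ) ^ 4886 ≤ 1 / 200 * (1 / (P.X : ℝ) ^ 13) := by
      have h6 : (P.X : ℝ) ^ 4886 = (P.X : ℝ) ^ 4873 * (P.X : ℝ) ^ 13 := by rw [← pow_add]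
      have h7 : (20600 : ℝ) ≤ (P.X : ℝ) ^ 4873 := by
        calc (20600 : ℝ) ≤ (P.X : ℝ) := le_trans (by norm_num) hX
          _ = (P.X : ℝ) ^ 1 := (pow_one _).symm
          _ ≤ (P.X : ℝ) ^ 4873 := pow_le_pow_right₀ hX1 (by norm_num)
      have h8 : (0 : ℝ) < (P.X : ℝ) ^ 13 := by positivity
      have h9 : (0 : ℝ) < (P.X : ℝ) ^ 4873 := by positivity
      have h10 : 1 / 200 * (1 / (P.X : ℝ) ^ 13) = 1 / (200 * (P.X : ℝ) ^ 13) := by
        field_simp
      rw [h6, h10, div_le_div_iff₀ (mul_pos h9 h8) (by positivity)]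
      nlinarith [mul_le_mul_of_nonneg_right h7 h8.le]
    have h11 := mul_le_mul_of_nonneg_right h5 hD.le
    linarith
  · have h1 : 104 * P.delta * P.D / P.eta = 104 * (P.delta / P.eta) * P.D := by ring
    rw [h1, ← add_mul]
    apply mul_le_mul_of_nonneg_right _ hD.le
    rw [hde, hpm, hN.eps]
    have h6 : (P.X : ℝ) ^ 4886 = (P.X : ℝ) ^ 4871 * (P.X : ℝ) ^ 15 := by rw [← pow_add]
    have h6' : (P.X : ℝ) ^ 3300 = (P.X : ℝ) ^ 3285 * (P.X : ℝ) ^ 15 := by rw [← pow_add]
    have h8 : (0 : ℝ) < (P.X : ℝ) ^ 15 := by positivity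
    have h7 : (206 : ℝ) ≤ (P.X : ℝ) ^ 4871 := by
      calc (206 : ℝ) ≤ (P.X : ℝ) := le_trans (by norm_num) hX
        _ = (P.X : ℝ) ^ 1 := (pow_one _).symm
        _ ≤ (P.X : ℝ) ^ 4871 := pow_le_pow_right₀ hX1 (by norm_num)
    have h7' : (208 : ℝ) ≤ (P.X : ℝ) ^ 3285 := by
      calc (208 : ℝ) ≤ (P.X : ℝ) := le_trans (by norm_num) hX
        _ = (P.X : ℝ) ^ 1 := (pow_one _).symm
        _ ≤ (P.X : ℝ) ^ 3285 := pow_le_pow_right₀ hX1 (by norm_num)
    have e1 : 103 / (P.X : ℝ) ^ 4886 ≤ 1 / 2 * (1 / (P.X : ℝ) ^ 15) := by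
      have h10 : 1 / 2 * (1 / (P.X : ℝ) ^ 15) = 1 / (2 * (P.X : ℝ) ^ 15) := by
        field_simp
      rw [h6, h10, div_le_div_iff₀ (mul_pos (by positivity) h8) (by positivity)]
      nlinarith [mul_le_mul_of_nonneg_right h7 h8.le]
    have e2 : 104 * (1 / (P.X : ℝ) ^ 3300) ≤ 1 / 2 * (1 / (P.X : ℝ) ^ 15) := by
      have h10 : 1 / 2 * (1 / (P.X : ℝ) ^ 15) = 1 / (2 * (P.X : ℝ) ^ 15) := by
        field_simp
      rw [h6', h10, mul_one_div, div_le_div_iff₀ (mul_pos (by positivity) h8) (by positivity)]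
      nlinarith [mul_le_mul_of_nonneg_right h7' h8.le]
    linarith

private theorem HBs_qc2 (hN : Num10 P) (hk : KdP P k) (i : V) :
    99 / 100 * P.rho * P.D ≤ ((k.Qp P i).card : ℝ) := by
  have h1 : k.Q.card ≤ (k.Qp P i).card + (k.Pb P i).card := by
    have h2 := le_card_sdiff (k.Pb P i) k.Q
    have h3 : (k.Q \ k.Pb P i).card ≤ (k.Qp P i).card := by
      unfold Kd.Qp
      exact card_le_card subset_union_left
    omega
  have h2 : (k.Q.card : ℝ) ≤ ((k.Qp P i).card : ℝ) + ((k.Pb P i).card : ℝ) := by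
    exact_mod_cast h1
  have h3 := hk.bs.ed.pb i
  have h4 : P.rho * P.D - 1 < (k.Q.card : ℝ) := by
    rw [hk.bs.ed.q2]
    have := Nat.lt_floor_add_one (P.rho * (P.D : ℝ))
    linarith
  have h5 := (HBs_num P hN).1
  linarith

private theorem HBs_y5 (hN : Num10 P) (hFew : St_Few) (hk : KdP P k) (hR : RoP P k ro) (i : V)
    (hi : k.K i = some i) :
    ((univ.filter (fun a => a ∉ k.Pb P i ∧ a ∉ k.Q ∧ a ∉ k.mF i ∧
    ∀ w, k.Yr P ro w → k.K w = some i → k.c2 P ro w ≠ a)).card : ℝ) ≤ P.eps * P.D := by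
  have h1 : univ.filter (fun a => a ∉ k.Pb P i ∧ a ∉ k.Q ∧ a ∉ k.mF i ∧
    ∀ w, k.Yr P ro w → k.K w = some i → k.c2 P ro w ≠ a) ⊆ k.cSp P i ∪ k.Bk P i := by
    intro a ha
    rw [mem_filter] at ha
    obtain ⟨-, a1, a2, a3, a4⟩ := ha
    by_contra hc
    rw [mem_union] at hc
    push Not at hc
    have h2 : a ∉ k.mFF i := by
      intro h3
      apply a3
      unfold Kd.mFF at h3
      rw [mem_image] at h3
      obtain ⟨w, hw, he⟩ := h3
      rw [mem_filter] at hw
      unfold Fd.mF Fd.F0i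
      rw [mem_image]
      exact ⟨w, by rw [mem_filter]; exact ⟨mem_univ _, hw.2.1, hw.2.2.1⟩, he⟩
    have h3 : a ∈ k.Gc P i := by
      unfold Kd.Gc
      rw [mem_filter]
      exact ⟨mem_univ _, a1, a2, h2, hc.1, hc.2⟩
    have hY : k.Yr P ro (ro i a) := ⟨i, a, hi, h3, rfl⟩
    have h4 := (hR.al i hi a h3).1
    obtain ⟨j, b, e1, e2, e3, e4, -, e5⟩ := HBs_Yr P k ro hR hY
    have hj : j = i := Option.some.inj (e4.symm.trans h4)
    subst hj
    have e6 : b = a := hR.inj j e1 b e2 a h3 e3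
    rw [e6] at e5
    exact a4 _ hY h4 e5
  have h2 : (k.cSp P i).card ≤ (k.Spi P i).card := by
    unfold Kd.cSp
    exact card_image_le
  have h3 := le_trans (card_le_card h1) (card_union_le _ _)
  have h4 : ((univ.filter (fun a => a ∉ k.Pb P i ∧ a ∉ k.Q ∧ a ∉ k.mF i ∧
    ∀ w, k.Yr P ro w → k.K w = some i → k.c2 P ro w ≠ a)).card : ℝ) ≤
      ((k.Spi P i).card : ℝ) + ((k.Bk P i).card : ℝ) := by
    exact_mod_cast le_trans h3 (Nat.add_le_add_right h2 _)
  have h5 := hk.bs.gr.sp1 i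
  have h6 := HBs_Bk P k hN hFew hk i
  have h7 := (HBs_num P hN).2
  linarith

private theorem HBs_y6 (hN : Num10 P) (hFew : St_Few) (hk : KdP P k) (hR : RoP P k ro) (i : V) :
    ((univ.filter (fun v => k.K v = some i ∧ k.W v ∧
      col2 k.toTd (k.C2 P ro) (k.c2 P ro) v)).card : ℝ) ≤ 2 * P.eps * P.D := by
  refine le_trans ?_ (hFew P V κ k hN hk i).2.2.1
  have h1 : univ.filter (fun v => k.K v = some i ∧ k.W v ∧
      col2 k.toTd (k.C2 P ro) (k.c2 P ro) v) ⊆ univ.filter (fun v => k.K v = some i ∧ k.us v) := by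
    intro v hv
    rw [mem_filter] at hv ⊢
    obtain ⟨-, v1, v2, x, x1, x2, x3⟩ := hv
    refine ⟨mem_univ _, v1, ?_⟩
    by_cases hY : k.Yr P ro x
    · exfalso
      obtain ⟨j, b, e1, e2, e3, e4, e5, e6⟩ := HBs_Yr P k ro hR hY
      rw [e6] at x2 x3
      obtain ⟨j', -, -, -, e7⟩ := e5
      rcases e7 with e7 | e7
      · exact x2 e7
      · apply e7.2.2.1
        rw [x3]
        exact v2
    · have hC : k.Cb P x := x1.resolve_right hY
      have hc := HBs_Yr_c P k ro hY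
      rw [hc] at x2 x3
      unfold Kd.us usd
      by_cases hK : k.K x = none
      · have hcb : k.cb P x = k.cS x := by
          unfold Kd.cb
          rw [if_pos hK]
        rw [hcb] at x2 x3
        by_cases hF : k.F0 x
        · exfalso
          apply x2
          rw [hk.sp.fr x hK hF]
          exact hk.bs.ed.miss x
        · exact Or.inl ⟨x, ⟨hK, hF⟩, x3⟩
      · by_cases hX : k.X x
        · have hcb : k.cb P x = k.cX x := by
            unfold Kd.cb
            rw [if_neg hK, if_pos hX]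
          rw [hcb] at x2 x3
          exact Or.inr ⟨x, hX, x3⟩
        · exfalso
          by_cases hS : k.Sp P x
          · have hcb : k.cb P x = k.cZ x := by
              unfold Kd.cb
              rw [if_neg hK, if_neg hX, if_pos hS]
            rw [hcb] at x2 x3
            obtain ⟨j, hj⟩ := Option.ne_none_iff_exists'.1 hK
            have h4 := (hk.zp.z3 j x hS hj).2.2.1
            apply h4
            rw [x3]
            exact v2
          · have hcb : k.cb P x = k.m x := by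
              unfold Kd.cb
              rw [if_neg hK, if_neg hX, if_neg hS]
            apply x2
            rw [hcb]
            exact hk.bs.ed.miss x
  exact_mod_cast card_le_card h1

end hbs

theorem thm_HBs (hCnt : St_Cnt) (hFew : St_Few) : St_HBs := by
  intro P V κ _ _ k ro hN hk hR
  refine ⟨?_, ?_, ?_, ?_, ?_, ?_, ?_, ?_, ?_⟩
  · exact fun i hi => HBs_rcard P k ro hCnt hk hR i hi
  · exact fun i => HBs_qc1 P k hN hFew hk i
  · exact fun i _ => HBs_qc2 P k hN hk i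
  · intro i a ha
    unfold Kd.Qp Kd.Bk at ha
    rw [mem_union, mem_sdiff, mem_filter] at ha
    rcases ha with ha | ha
    · exact ha.2
    · exact ha.2.1
  · intro i
    refine le_trans ?_ (HBs_Bk P k hN hFew hk i)
    have h1 : (k.Qp P i).filter (fun a => a ∉ k.Q) ⊆ k.Bk P i := by
      intro a ha
      unfold Kd.Qp at ha
      rw [mem_filter, mem_union, mem_sdiff] at ha
      rcases ha.1 with h2 | h2
      · exact absurd h2.1 ha.2
      · exact h2
    exact_mod_cast card_le_card h1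
  · intro i w hY hw
    obtain ⟨j, b, e1, e2, e3, e4, -, e5⟩ := HBs_Yr P k ro hR hY
    have hj : j = i := Option.some.inj (e4.symm.trans hw)
    subst hj
    rw [e5]
    unfold Kd.Gc at e2
    rw [mem_filter] at e2
    exact e2.2.1
  · exact fun i hi => HBs_y5 P k ro hN hFew hk hR i hi
  · exact fun i => HBs_y6 P k ro hN hFew hk hR i
  · intro i hi
    have h1 : univ.filter (fun w => w ∈ k.Rg P i ∧ ¬ k.F0 w ∧ ¬ k.Yr P ro w) ⊆
        univ.filter (fun w => k.K w = some i ∧ k.X w) ∪ Rr k.toTd (k.C2 P ro) i := by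
      intro w hw
      rw [mem_filter] at hw
      obtain ⟨-, w1, w2, w3⟩ := hw
      obtain ⟨w4, w5⟩ := HBs_Rg P k w1
      unfold Rr
      rw [mem_union, mem_filter, mem_filter]
      by_cases hX : k.X w
      · exact Or.inl ⟨mem_univ _, w4, hX⟩
      · refine Or.inr ⟨mem_univ _, w4, ?_⟩
        rintro ((h2 | h2 | h2 | h2) | h2)
        · rw [w4] at h2; cases h2
        · exact hX h2
        · exact w5 h2
        · exact w2 h2.1
        · exact w3 h2
    have h2 := le_trans (card_le_card h1) (card_union_le _ _)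
    have h3 : ((univ.filter (fun w => w ∈ k.Rg P i ∧ ¬ k.F0 w ∧ ¬ k.Yr P ro w)).card : ℝ) ≤
        ((univ.filter (fun w => k.K w = some i ∧ k.X w)).card : ℝ) +
          ((Rr k.toTd (k.C2 P ro) i).card : ℝ) := by
      exact_mod_cast h2
    have h4 := hk.xp.x7 i
    have h5 : ((Rr k.toTd (k.C2 P ro) i).card : ℝ) ≤ ((k.Qp P i).card : ℝ) := by
      exact_mod_cast HBs_rcard P k ro hCnt hk hR i hi
    have h6 := HBs_qc1 P k hN hFew hk i
    linarith

end Pool.TCV
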