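import Pool.Agent.Helper60.TCV.StK3

/-!
# T10, HCS: the blocked rows after section 9c
-/

set_option autoImplicit false

namespace Pool.TCV

open Pool.TC Pool.TCM Pool.TCS Pool.TN Finset
open scoped Classical

section

variable {P : Par} {V κ : Type} [Fintype V] [Fintype κ] {k : Kd V κ} {ro : V → κ → V}

omit [Fintype κ] in
private theorem HCs_Rg {i w : V} (h : w ∈ k.Rg P i) : k.K w = some i ∧ ¬ k.Sp P w := by
  simpa [Gd.Rg] using h

omit [Fintype κ] in
/-- the types of the vertices of the base colouring -/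
private theorem HCs_cls {y : V} (hy : k.Cb P y) :
    (k.K y = none ∧ k.cb P y = k.cS y) ∨
    (k.X y ∧ k.K y ≠ none ∧ k.cb P y = k.cX y) ∨
    (k.K y ≠ none ∧ k.Sp P y ∧ k.cb P y = k.cZ y) ∨
    (k.FF y ∧ k.cb P y = k.m y) := by
  by_cases h0 : k.K y = none
  · left
    refine ⟨h0, ?_⟩
    unfold Kd.cb
    rw [if_pos h0]
  · by_cases h1 : k.X y
    · right; left
      refine ⟨h1, h0, ?_⟩
      unfold Kd.cb
      rw [if_neg h0, if_pos h1]
    · by_cases h2 : k.Sp P y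
      · right; right; left
        refine ⟨h0, h2, ?_⟩
        unfold Kd.cb
        rw [if_neg h0, if_neg h1, if_pos h2]
      · right; right; right
        have h3 : k.FF y := by
          rcases hy with h4 | h4 | h4 | h4
          · exact absurd h4 h0
          · exact absurd h4 h1
          · exact absurd h4 h2
          · exact h4
        refine ⟨h3, ?_⟩
        unfold Kd.cb
        rw [if_neg h0, if_neg h1, if_neg h2]

/-- the rows of the good colours -/
private theorem HCs_Y (hr : RoP P k ro) {w : V} (hw : k.Yr P ro w) :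
    ∃ i a, k.K i = some i ∧ a ∈ k.Gc P i ∧ ro i a = w ∧ k.c2 P ro w = a ∧ k.K w = some i ∧
      w ∈ k.Rg P i ∧ ¬ k.F0 w ∧ ¬ k.X w ∧ ¬ k.Sp P w := by
  obtain ⟨i, a, hi, ha, hia⟩ := hw
  obtain ⟨h1, j, h2, h3, h4, h5⟩ := hr.al i hi a ha
  rw [hia] at h1 h2 h4 h5
  have h6 := mem_filter.1 h2
  have h7 := HCs_Rg h6.1
  have hij : j = i := Option.some_injective _ (h7.1.symm.trans h1)
  rw [hij] at h6 h5
  refine ⟨i, a, hi, ha, hia, ?_, h1, h6.1, h6.2.1, h6.2.2, h7.2⟩
  have hex : ∃ a, ∃ i, k.K i = some i ∧ a ∈ k.Gc P i ∧ ro i a = w := ⟨a, i, hi, ha, hia⟩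
  unfold Kd.c2
  rw [dif_pos hex]
  obtain ⟨i', g1, g2, g3⟩ := hex.choose_spec
  have g4 := (hr.al i' g1 _ g2).1
  rw [g3] at g4
  have g5 : i' = i := Option.some_injective _ (g4.symm.trans h1)
  rw [g5] at g2 g3
  exact hr.inj i hi _ g2 a ha (g3.trans hia.symm)

private theorem HCs_C (hr : RoP P k ro) {w : V} (hw : k.Cb P w) : k.c2 P ro w = k.cb P w := by
  have hn : ¬ ∃ a, ∃ i, k.K i = some i ∧ a ∈ k.Gc P i ∧ ro i a = w := by
    rintro ⟨a, i, h⟩
    obtain ⟨j, b, -, -, -, -, h1, -, h2, h3, h4⟩ := HCs_Y hr (w := w) ⟨i, a, h⟩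
    rcases hw with h5 | h5 | h5 | h5
    · rw [h1] at h5
      exact Option.some_ne_none j h5
    · exact h3 h5
    · exact h4 h5
    · exact h2 h5.1
  unfold Kd.c2
  rw [dif_neg hn]

/-- the neighbours in a cluster -/
private noncomputable def HCs_N (k : Kd V κ) (i : V) (T : Finset V) : Finset V :=
  univ.filter (fun w => k.K w = some i ∧ ∃ x ∈ T, k.G.Adj w x)

omit [Fintype κ] in
private theorem HCs_memN {i : V} {T : Finset V} {w : V} :
    w ∈ HCs_N k i T ↔ k.K w = some i ∧ ∃ x ∈ T, k.G.Adj w x := by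
  unfold HCs_N
  rw [mem_filter]
  exact ⟨fun h => h.2, fun h => ⟨mem_univ _, h⟩⟩

omit [Fintype κ] in
/-- counting the neighbours in a cluster -/
private theorem HCs_cnt (k : Kd V κ) (i : V) (T : Finset V) :
    (HCs_N k i T).card ≤ ∑ x ∈ T, k.dk i x := by
  have h1 : HCs_N k i T ⊆ T.biUnion (fun x => (nb k.G x).filter (fun v => k.K v = some i)) := by
    intro w hw
    obtain ⟨h2, x, h3, h4⟩ := HCs_memN.1 hw
    rw [mem_biUnion]
    refine ⟨x, h3, ?_⟩
    rw [mem_filter]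
    refine ⟨?_, h2⟩
    unfold nb
    rw [mem_filter]
    exact ⟨mem_univ _, h4.symm⟩
  exact le_trans (card_le_card h1) card_biUnion_le

private theorem HCs_y10 (hN : Num10 P) (hFew : St_Few) (h : KdP P k) (hr : RoP P k ro) (i : V) :
    ((univ.filter (fun a => (P.theta + P.eps) * P.D <
      (((k.Rg P i).filter (fun w => bk2 k.toTd (k.C2 P ro) (k.c2 P ro) a w)).card : ℝ))).card : ℝ) ≤
      P.pmax * P.D := by
  refine le_trans ?_ (hFew P V κ k hN h i).2.1
  have hsub : univ.filter (fun a => (P.theta + P.eps) * P.D <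
      (((k.Rg P i).filter (fun w => bk2 k.toTd (k.C2 P ro) (k.c2 P ro) a w)).card : ℝ)) ⊆
      univ.filter (fun a => P.theta * P.D <
        (((k.Rg P i).filter (fun w => k.bl P a w)).card : ℝ)) := by
    intro a ha
    rw [mem_filter] at ha ⊢
    refine ⟨mem_univ _, ?_⟩
    have h1 := ha.2
    have h2 := hr.p5 i a
    have h3 : (k.Rg P i).filter (fun w => bk2 k.toTd (k.C2 P ro) (k.c2 P ro) a w) ⊆
        (k.Rg P i).filter (fun w => k.bl P a w) ∪
        HCs_N k i (univ.filter (fun x => k.K x ≠ some i ∧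
          ∃ j, k.K j = some j ∧ a ∈ k.Gc P j ∧ ro j a = x)) := by
      intro w hw
      rw [mem_filter] at hw
      obtain ⟨hw1, x, hx1, hx2, hx3, hx4⟩ := hw
      have hw2 := (HCs_Rg hw1).1
      rw [mem_union, mem_filter, HCs_memN]
      rcases hx3 with hx3 | hx3
      · left
        refine ⟨hw1, x, hx1, hx2, hx3, ?_⟩
        rw [← HCs_C hr hx3]
        exact hx4
      · right
        obtain ⟨j, b, g1, g2, g3, g4, -⟩ := HCs_Y hr hx3
        have hb : b = a := g4.symm.trans hx4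
        rw [hb] at g2 g3
        refine ⟨hw2, x, ?_, hx1⟩
        rw [mem_filter]
        refine ⟨mem_univ _, ?_, j, g1, g2, g3⟩
        rw [← hw2]
        exact hx2
    have h4 := le_trans (card_le_card h3) (card_union_le _ _)
    have h5 := HCs_cnt k i (univ.filter (fun x => k.K x ≠ some i ∧
          ∃ j, k.K j = some j ∧ a ∈ k.Gc P j ∧ ro j a = x))
    have h6 := le_trans h4 (Nat.add_le_add_left h5 _)
    have h7 : (((k.Rg P i).filter (fun w => bk2 k.toTd (k.C2 P ro) (k.c2 P ro) a w)).card : ℝ) ≤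
        (((k.Rg P i).filter (fun w => k.bl P a w)).card : ℝ) +
        ((∑ x ∈ univ.filter (fun x => k.K x ≠ some i ∧
          ∃ j, k.K j = some j ∧ a ∈ k.Gc P j ∧ ro j a = x), k.dk i x : ℕ) : ℝ) := by
      exact_mod_cast h6
    nlinarith [h7, h2, h1]
  exact_mod_cast card_le_card hsub

private theorem HCs_X (h : KdP P k) {w : V} (h2 : k.X w) : ¬ k.Sp P w := by
  obtain ⟨j, h3⟩ := h.xp.row w h2
  exact (HCs_Rg h3).2

/-- heavy vertices of `S \ F0` and heavy special rows with the colour `a` -/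
private def HCs_H (P : Par) (k : Kd V κ) (ro : V → κ → V) (i : V) (a : κ) (x : V) : Prop :=
  k.hv P i x ∧ ((k.K x = none ∧ ¬ k.F0 x) ∨ k.Sp P x) ∧ k.c2 P ro x = a

private theorem HCs_H1 (h : KdP P k) (hr : RoP P k ro) {i x y : V} {a : κ}
    (hx : HCs_H P k ro i a x) (hy : HCs_H P k ro i a y) : x = y ∨ x = k.pr y := by
  have hS : ∀ z, k.K z = none → k.c2 P ro z = k.cS z := by
    intro z hz
    rw [HCs_C hr (Or.inl hz)]
    unfold Kd.cb
    rw [if_pos hz]
  have hZ : ∀ z, k.Sp P z → k.c2 P ro z = k.cZ z := by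
    intro z hz
    rw [HCs_C hr (Or.inr (Or.inr (Or.inl hz)))]
    unfold Kd.cb
    rw [if_neg hz.1, if_neg (fun h1 => HCs_X h h1 hz), if_pos hz]
  obtain ⟨x1, x2, x3⟩ := hx
  obtain ⟨y1, y2, y3⟩ := hy
  rcases x2 with x2 | x2
  · rw [hS x x2.1] at x3
    rcases y2 with y2 | y2
    · rw [hS y y2.1] at y3
      left
      by_contra hne
      exact h.sp.g1 x y x2.1 y2.1 (Or.inr ⟨hne, x2.1, y2.1, i, x1, y1⟩) (x3.trans y3.symm)
    · rw [hZ y y2] at y3
      exact absurd (x3.trans y3.symm) (h.zp.z8 i y x y1 x1 y2 x2.1)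
  · rw [hZ x x2] at x3
    rcases y2 with y2 | y2
    · rw [hS y y2.1] at y3
      exact absurd (y3.trans x3.symm) (h.zp.z8 i x y x1 y1 x2 y2.1)
    · rw [hZ y y2] at y3
      exact h.zp.z7 i y x y1 x1 y2 x2 (y3.trans x3.symm)

private theorem HCs_del (hN : Num10 P) : 102 * P.delta ≤ 1 / 2 := by
  have hX : (10 : ℝ) ^ 20 ≤ (P.X : ℝ) := by
    have := hN.X0
    exact_mod_cast this
  have hX1 : (1 : ℝ) ≤ P.X := le_trans (by norm_num) hX
  rw [hN.delta]
  have h1 : (P.X : ℝ) ≤ (P.X : ℝ) ^ 4900 := le_self_pow₀ hX1 (by norm_num)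
  have h2 : (10 : ℝ) ^ 20 ≤ (P.X : ℝ) ^ 4900 := le_trans hX h1
  have h3 : 1 / (P.X : ℝ) ^ 4900 ≤ 1 / (10 : ℝ) ^ 20 :=
    one_div_le_one_div_of_le (by norm_num) h2
  have h4 : 102 * (1 / (10 : ℝ) ^ 20) ≤ 1 / 2 := by norm_num
  linarith

private theorem HCs_dk (h : KdP P k) {i y : V} (h1 : k.K y ≠ some i) (h2 : k.K y ≠ none) :
    99 * k.dk i y ≤ P.D := by
  have h3 : k.dk i y ≤ k.oo y := by
    unfold Gd.dk Gd.oo
    apply card_le_card
    intro v hv
    rw [mem_filter] at hv ⊢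
    refine ⟨hv.1, ?_⟩
    rw [hv.2]
    exact fun e => h1 e.symm
  have h4 := h.bs.gr.d4 y h2
  omega

private theorem HCs_T (hN : Num10 P) (h : KdP P k) {i y : V} (hi : k.K i = some i)
    (hy : k.K y ≠ some i) : P.D ≤ 113 * (k.Ki i \ (nb k.G y ∪ nb k.G (k.pr y))).card := by
  by_cases hp : k.pr y = y
  · rw [hp, union_self]
    exact h.bs.gr.d6 i y hi hy
  · obtain ⟨p1, p2, -⟩ := h.bs.gr.padj y hp
    have h1 := HCs_dk h hy p1
    have h2 : 99 * k.dk i (k.pr y) ≤ P.D := by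
      apply HCs_dk h
      · rw [p2]
        exact hy
      · rw [p2]
        exact p1
    have h3 : k.Ki i ⊆ (k.Ki i \ (nb k.G y ∪ nb k.G (k.pr y))) ∪
        ((nb k.G y).filter (fun v => k.K v = some i) ∪
          (nb k.G (k.pr y)).filter (fun v => k.K v = some i)) := by
      intro v hv
      have hv' : k.K v = some i := (mem_filter.1 hv).2
      rw [mem_union, mem_sdiff, mem_union, mem_union, mem_filter, mem_filter]
      by_cases g1 : v ∈ nb k.G y
      · exact Or.inr (Or.inl ⟨g1, hv'⟩)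
      · by_cases g2 : v ∈ nb k.G (k.pr y)
        · exact Or.inr (Or.inr ⟨g2, hv'⟩)
        · exact Or.inl ⟨hv, fun g3 => g3.elim g1 g2⟩
    have h4 := le_trans (card_le_card h3) (card_union_le _ _)
    have h5 := le_trans h4 (Nat.add_le_add_left (card_union_le _ _) _)
    have h6 : (k.Ki i).card ≤ (k.Ki i \ (nb k.G y ∪ nb k.G (k.pr y))).card +
        (k.dk i y + k.dk i (k.pr y)) := h5
    have h7 := h.bs.gr.k1 i hi
    have h8 : ((k.Ki i).card : ℝ) ≤ ((k.Ki i \ (nb k.G y ∪ nb k.G (k.pr y))).card : ℝ) +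
        ((k.dk i y : ℝ) + (k.dk i (k.pr y) : ℝ)) := by
      exact_mod_cast h6
    have h1' : 99 * (k.dk i y : ℝ) ≤ P.D := by exact_mod_cast h1
    have h2' : 99 * (k.dk i (k.pr y) : ℝ) ≤ P.D := by exact_mod_cast h2
    have hd := HCs_del hN
    have hD : (0 : ℝ) ≤ P.D := Nat.cast_nonneg _
    have h9 : 102 * P.delta * P.D ≤ 1 / 2 * P.D := mul_le_mul_of_nonneg_right hd hD
    have h10 : (P.D : ℝ) ≤ 113 * ((k.Ki i \ (nb k.G y ∪ nb k.G (k.pr y))).card : ℝ) := by
      linarith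
    exact_mod_cast h10

private theorem HCs_T0 (hN : Num10 P) (h : KdP P k) {i : V} (hi : k.K i = some i) :
    P.D ≤ 113 * (k.Ki i \ ∅).card := by
  rw [sdiff_empty]
  have h7 := h.bs.gr.k1 i hi
  have hd := HCs_del hN
  have hD : (0 : ℝ) ≤ P.D := Nat.cast_nonneg _
  have h9 : 102 * P.delta * P.D ≤ 1 / 2 * P.D := mul_le_mul_of_nonneg_right hd hD
  have h10 : (P.D : ℝ) ≤ 113 * ((k.Ki i).card : ℝ) := by linarith
  exact_mod_cast h10

/-- the blocked rows, if the heavy vertices of the colour `a` have their neighbours in `T` -/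
private theorem HCs_B (h : KdP P k) (hr : RoP P k ro) {i : V} {a : κ} {T : Finset V}
    (hT : ∀ x, HCs_H P k ro i a x → ∀ w, k.G.Adj w x → w ∈ T) :
    ((univ.filter (fun w => w ∈ k.Rg P i ∧ w ∉ T ∧ w ∉ k.FB i a ∧
      bk2 k.toTd (k.C2 P ro) (k.c2 P ro) a w)).card : ℝ) ≤ 4 * P.eps * P.D := by
  have q1 := h.sp.q3 i a
  have q2 := h.xp.x5 i a
  have q3 := h.zp.z9 i a
  have q4 := hr.p5 i a
  have c1 := HCs_cnt k i (univ.filter (fun x => k.U x ∧ ¬ k.hv P i x ∧ k.cS x = a))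
  have c2 := HCs_cnt k i (univ.filter (fun x => k.X x ∧ k.K x ≠ some i ∧ k.cX x = a))
  have c3 := HCs_cnt k i (univ.filter (fun x => k.Sp P x ∧ k.K x ≠ some i ∧
      ¬ k.hv P i x ∧ k.cZ x = a))
  have c4 := HCs_cnt k i (univ.filter (fun x => k.K x ≠ some i ∧
      ∃ j, k.K j = some j ∧ a ∈ k.Gc P j ∧ ro j a = x))
  have hsub : univ.filter (fun w => w ∈ k.Rg P i ∧ w ∉ T ∧ w ∉ k.FB i a ∧
      bk2 k.toTd (k.C2 P ro) (k.c2 P ro) a w) ⊆
    (HCs_N k i (univ.filter (fun x => k.U x ∧ ¬ k.hv P i x ∧ k.cS x = a)) ∪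
    HCs_N k i (univ.filter (fun x => k.X x ∧ k.K x ≠ some i ∧ k.cX x = a))) ∪
    (HCs_N k i (univ.filter (fun x => k.Sp P x ∧ k.K x ≠ some i ∧
      ¬ k.hv P i x ∧ k.cZ x = a)) ∪
    HCs_N k i (univ.filter (fun x => k.K x ≠ some i ∧
      ∃ j, k.K j = some j ∧ a ∈ k.Gc P j ∧ ro j a = x))) := by
    intro w hw
    rw [mem_filter] at hw
    obtain ⟨-, hw1, hw2, hw3, x, hx1, hx2, hx3, hx4⟩ := hw
    have hw4 := (HCs_Rg hw1).1
    have hx5 : k.K x ≠ some i := by
      rw [← hw4]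
      exact hx2
    have hFB : ¬ (k.F0 x ∧ k.m x = a) := by
      rintro ⟨g1, g2⟩
      apply hw3
      unfold Fd.FB
      rw [mem_filter]
      exact ⟨mem_univ _, hw4, x, g1, hx5, hx1.symm, g2⟩
    rw [mem_union, mem_union, mem_union, HCs_memN, HCs_memN, HCs_memN, HCs_memN]
    rcases hx3 with hx3 | hx3
    · have hx4' := hx4
      rw [HCs_C hr hx3] at hx4'
      rcases HCs_cls hx3 with ⟨g1, g2⟩ | ⟨g1, g0, g2⟩ | ⟨g0, g1, g2⟩ | ⟨g1, g2⟩
      · rw [g2] at hx4'
        have hF : ¬ k.F0 x := by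
          intro g3
          exact hFB ⟨g3, by rw [← h.sp.fr x g1 g3]; exact hx4'⟩
        have hh : ¬ k.hv P i x := by
          intro g3
          exact hw2 (hT x ⟨g3, Or.inl ⟨g1, hF⟩, hx4⟩ w hx1)
        left; left
        refine ⟨hw4, x, ?_, hx1⟩
        rw [mem_filter]
        exact ⟨mem_univ _, ⟨g1, hF⟩, hh, hx4'⟩
      · rw [g2] at hx4'
        left; right
        refine ⟨hw4, x, ?_, hx1⟩
        rw [mem_filter]
        exact ⟨mem_univ _, g1, hx5, hx4'⟩
      · rw [g2] at hx4'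
        have hh : ¬ k.hv P i x := by
          intro g3
          exact hw2 (hT x ⟨g3, Or.inr g1, hx4⟩ w hx1)
        right; left
        refine ⟨hw4, x, ?_, hx1⟩
        rw [mem_filter]
        exact ⟨mem_univ _, g1, hx5, hh, hx4'⟩
      · rw [g2] at hx4'
        exact absurd ⟨g1.1, hx4'⟩ hFB
    · obtain ⟨j, b, g1, g2, g3, g4, -⟩ := HCs_Y hr hx3
      have hb : b = a := g4.symm.trans hx4
      rw [hb] at g2 g3
      right; right
      refine ⟨hw4, x, ?_, hx1⟩
      rw [mem_filter]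
      exact ⟨mem_univ _, hx5, j, g1, g2, g3⟩
  have e1 := le_trans (card_le_card hsub) (card_union_le _ _)
  have e2 := le_trans e1 (Nat.add_le_add (card_union_le _ _) (card_union_le _ _))
  have e3 := le_trans e2 (Nat.add_le_add (Nat.add_le_add c1 c2) (Nat.add_le_add c3 c4))
  have e4 : ((univ.filter (fun w => w ∈ k.Rg P i ∧ w ∉ T ∧ w ∉ k.FB i a ∧
      bk2 k.toTd (k.C2 P ro) (k.c2 P ro) a w)).card : ℝ) ≤
      (((∑ x ∈ univ.filter (fun x => k.U x ∧ ¬ k.hv P i x ∧ k.cS x = a), k.dk i x : ℕ) : ℝ) +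
      ((∑ x ∈ univ.filter (fun x => k.X x ∧ k.K x ≠ some i ∧ k.cX x = a), k.dk i x : ℕ) : ℝ)) +
      (((∑ x ∈ univ.filter (fun x => k.Sp P x ∧ k.K x ≠ some i ∧ ¬ k.hv P i x ∧ k.cZ x = a),
        k.dk i x : ℕ) : ℝ) +
      ((∑ x ∈ univ.filter (fun x => k.K x ≠ some i ∧
        ∃ j, k.K j = some j ∧ a ∈ k.Gc P j ∧ ro j a = x), k.dk i x : ℕ) : ℝ)) := by
    exact_mod_cast e3
  linarith

end

theorem thm_HCs (hFew : St_Few) : St_HCs := by
  intro P V κ _ _ k ro hN h hr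
  refine ⟨?_, ?_⟩
  · intro i a hi
    by_cases hH : ∃ y, HCs_H P k ro i a y
    · obtain ⟨y, hy⟩ := hH
      refine ⟨nb k.G y ∪ nb k.G (k.pr y), Or.inr ⟨y, k.pr y, hy.1.1, ?_, rfl⟩,
        HCs_T hN h hi hy.1.1, ?_⟩
      · by_cases hp : k.pr y = y
        · rw [hp]
          exact hy.1.1
        · rw [(h.bs.gr.padj y hp).2.1]
          exact hy.1.1
      · apply HCs_B h hr
        intro x hx w hw
        rw [mem_union]
        rcases HCs_H1 h hr hx hy with e | e
        · left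
          unfold nb
          rw [mem_filter, ← e]
          exact ⟨mem_univ _, hw.symm⟩
        · right
          unfold nb
          rw [mem_filter, ← e]
          exact ⟨mem_univ _, hw.symm⟩
    · refine ⟨∅, Or.inl rfl, HCs_T0 hN h hi, ?_⟩
      apply HCs_B h hr
      intro x hx
      exact absurd ⟨x, hx⟩ hH
  · exact fun i => HCs_y10 hN hFew h hr i

end Pool.TCV
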