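import Pool.Agent.Helper60.TCV.StK3

/-!
# T10, section 9: the assembly of the K-stage (module K10, helper12)
-/

set_option autoImplicit false

namespace Pool.TCV

open Pool.TC Pool.TCM Pool.TCS Pool.TN Finset
open scoped Classical

theorem thm_K10 (hSp10 : St_Sp10) (hRo : St_Ro) (hHAs : St_HAs) (hHBs : St_HBs)
    (hHCs : St_HCs) (hPr10 : St_Pr10) (hTr10 : St_Tr10) (hFi10 : St_Fi10) : St_K10 := by
  intro P V κ _ _ t X cX cS hN hB hX hS
  obtain ⟨cZ, hZ⟩ := hSp10 P V κ t X cX cS hN hB hX hS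
  let k : Kd V κ := { toTd := t, X := X, cX := cX, cS := cS, cZ := cZ }
  have hk : KdP P k := ⟨hB, hX, hS, hZ⟩
  obtain ⟨ro, hro⟩ := hRo P V κ k hN hk
  have hA := hHAs P V κ k ro hN hk hro
  have hBB := hHBs P V κ k ro hN hk hro
  have hC := hHCs P V κ k ro hN hk hro
  obtain ⟨α, hα⟩ := hPr10 P V κ t _ _ _ _ hN hB hA hBB hC
  obtain ⟨g, hg⟩ := hTr10 P V κ t _ _ _ _ α hN hB hA hBB hα
  exact hFi10 P V κ t _ _ _ _ α g hB hA hα hg

end Pool.TCV
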