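import Pool.Agent.Helper60.TCV.StT

/-!
# T10, tool MOM: second moments
-/

set_option autoImplicit false

namespace Pool.TCV

open Pool.TC Pool.TCM Pool.TCS Pool.TCT Finset
open scoped Classical

theorem thm_Mom : St_Mom := by
  intro Y κ T Q R p e1 e2 hp hT he1 he2 h1 h2
  have ht : (0 : ℝ) < (T.card : ℝ) := by exact_mod_cast hT
  have hq : (0 : ℝ) ≤ (Q.card : ℝ) := Nat.cast_nonneg _
  set t : ℝ := (T.card : ℝ) with htdef
  set q : ℝ := (Q.card : ℝ) with hqdef
  -- the indicator
  let I : Y → κ → ℝ := fun y a => if R y a then 1 else 0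
  let X : κ → ℝ := fun a => ∑ y ∈ T, I y a
  have hX : ∀ a, ((T.filter (fun y => R y a)).card : ℝ) = X a := by
    intro a
    simp only [X, I, Finset.sum_boole]
  have hc1 : ∀ y, ((Q.filter (fun a => R y a)).card : ℝ) = ∑ a ∈ Q, I y a := by
    intro y
    simp only [I, Finset.sum_boole]
  have hc2 : ∀ y y', ((Q.filter (fun a => R y a ∧ R y' a)).card : ℝ) =
      ∑ a ∈ Q, I y a * I y' a := by
    intro y y'
    rw [← Finset.sum_boole]
    refine Finset.sum_congr rfl fun a _ => ?_
    simp only [I]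
    by_cases ha : R y a <;> by_cases hb : R y' a <;> simp [ha, hb]
  -- first moment
  have hS1 : t * (p * q - e1) ≤ ∑ a ∈ Q, X a := by
    have : ∑ a ∈ Q, X a = ∑ y ∈ T, ∑ a ∈ Q, I y a := by
      simp only [X]
      rw [Finset.sum_comm]
    rw [this]
    calc t * (p * q - e1) = ∑ _y ∈ T, (p * q - e1) := by
          rw [Finset.sum_const, nsmul_eq_mul]
      _ ≤ ∑ y ∈ T, ∑ a ∈ Q, I y a := by
          refine Finset.sum_le_sum fun y hy => ?_
          rw [← hc1 y]
          exact h1 y hy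
  -- second moment
  have hpq : 0 ≤ p ^ 2 * q + e2 := by positivity
  have hS2 : ∑ a ∈ Q, X a ^ 2 ≤ t * (q + t * (p ^ 2 * q + e2)) := by
    have e : ∑ a ∈ Q, X a ^ 2 = ∑ y ∈ T, ∑ y' ∈ T, ∑ a ∈ Q, I y a * I y' a := by
      have : ∀ a ∈ Q, X a ^ 2 = ∑ y ∈ T, ∑ y' ∈ T, I y a * I y' a := by
        intro a _
        simp only [X]
        rw [pow_two, Finset.sum_mul_sum]
      rw [Finset.sum_congr rfl this, Finset.sum_comm]
      refine Finset.sum_congr rfl fun y _ => ?_
      rw [Finset.sum_comm]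
    rw [e]
    calc ∑ y ∈ T, ∑ y' ∈ T, ∑ a ∈ Q, I y a * I y' a
        ≤ ∑ y ∈ T, ∑ y' ∈ T, ((if y = y' then q else 0) + (p ^ 2 * q + e2)) := by
          refine Finset.sum_le_sum fun y hy => Finset.sum_le_sum fun y' hy' => ?_
          rw [← hc2]
          by_cases hyy : y = y'
          · rw [if_pos hyy]
            have h3 : ((Q.filter (fun a => R y a ∧ R y' a)).card : ℝ) ≤ q := by
              rw [hqdef]
              exact_mod_cast Finset.card_filter_le _ _
            linarith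
          · rw [if_neg hyy, zero_add]
            exact h2 y hy y' hy' hyy
      _ = ∑ y ∈ T, (q + t * (p ^ 2 * q + e2)) := by
          refine Finset.sum_congr rfl fun y hy => ?_
          rw [Finset.sum_add_distrib, Finset.sum_ite_eq, if_pos hy, Finset.sum_const,
            nsmul_eq_mul]
      _ = t * (q + t * (p ^ 2 * q + e2)) := by
          rw [Finset.sum_const, nsmul_eq_mul]
  -- the variance
  set M : ℝ := p * t with hM
  have hM0 : 0 < M := mul_pos hp ht
  have hvar : ∑ a ∈ Q, (X a - M) ^ 2 ≤ t * q + t ^ 2 * (e2 + 2 * p * e1) := by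
    have e : ∑ a ∈ Q, (X a - M) ^ 2 =
        ∑ a ∈ Q, X a ^ 2 - 2 * M * ∑ a ∈ Q, X a + q * M ^ 2 := by
      have : ∀ a ∈ Q, (X a - M) ^ 2 = X a ^ 2 - 2 * M * X a + M ^ 2 := fun a _ => by ring
      rw [Finset.sum_congr rfl this, Finset.sum_add_distrib, Finset.sum_sub_distrib,
        ← Finset.mul_sum, Finset.sum_const, nsmul_eq_mul]
    rw [e]
    have h4 : 2 * M * (t * (p * q - e1)) ≤ 2 * M * ∑ a ∈ Q, X a :=
      mul_le_mul_of_nonneg_left hS1 (by positivity)
    have h5 : t * (q + t * (p ^ 2 * q + e2)) - 2 * M * (t * (p * q - e1)) + q * M ^ 2 =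
        t * q + t ^ 2 * (e2 + 2 * p * e1) := by
      rw [hM]; ring
    linarith
  -- the bad elements
  have hbad : ((Q.filter (fun a => 2 * ((T.filter (fun y => R y a)).card : ℝ) < p * t)).card : ℝ) *
      (M ^ 2 / 4) ≤ ∑ a ∈ Q, (X a - M) ^ 2 := by
    rw [← nsmul_eq_mul, ← Finset.sum_const]
    refine le_trans (Finset.sum_le_sum (g := fun a => (X a - M) ^ 2) fun a ha => ?_)
      (Finset.sum_le_sum_of_subset_of_nonneg (Finset.filter_subset _ _)
        fun a _ _ => sq_nonneg _)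
    have hb := (Finset.mem_filter.1 ha).2
    rw [hX a, ← hM] at hb
    have h6 : M / 2 < M - X a := by linarith
    show M ^ 2 / 4 ≤ (X a - M) ^ 2
    nlinarith
  have hfin := le_trans hbad hvar
  have hM2 : 0 < M ^ 2 / 4 := by positivity
  have h7 : ((Q.filter (fun a => 2 * ((T.filter (fun y => R y a)).card : ℝ) < p * t)).card : ℝ) ≤
      (t * q + t ^ 2 * (e2 + 2 * p * e1)) / (M ^ 2 / 4) := by
    rw [le_div_iff₀ hM2]
    exact hfin
  refine le_trans h7 (le_of_eq ?_)
  rw [hM]
  field_simp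

end Pool.TCV
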