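import Pool.Agent.Helper60.TCV.StK3

/-!
T10, section 9d: the pairing of the last rows and the reserved colours.
-/

set_option autoImplicit false

namespace Pool.TCV

open Pool.TC Pool.TCM Pool.TCS Pool.TN Finset
open scoped Classical

theorem thm_Pr10 (hPai : Pool.TCT.St_Pai) (hBd1 : St_Bd1) (hBd2 : St_Bd2) : St_Pr10 := by
  intro P V κ _ _ t C Y c Qp hN hB hHA hHB hHC
  have hne : Nonempty κ := by
    have h := hB.ed.col
    apply Fintype.card_pos_iff.1
    rw [h]
    exact Nat.succ_pos _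
  have hX : (0 : ℝ) < P.X := by
    have h := hN.X0
    have h2 : 0 < P.X := lt_of_lt_of_le (by norm_num) h
    exact_mod_cast h2
  have hD : (0 : ℝ) < P.D := lt_of_lt_of_le (pow_pos hX _) hN.XD
  have hrho : 0 < P.rho := by
    rw [hN.rho]
    exact div_pos one_pos (pow_pos hX _)
  have hrD : 0 < P.rho * P.D := mul_pos hrho hD
  have key : ∀ i, ∃ f : V → κ, t.K i = some i →
      (∀ u ∈ Rr t C i, f u ∈ Qp i ∧
        ¬ (1500 * P.MW ^ 2 * (opt t C Y c u (f u)).card < P.D)) ∧
      (∀ u ∈ Rr t C i, ∀ v ∈ Rr t C i, f u = f v → u = v) := by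
    intro i
    by_cases hi : t.K i = some i
    · have h1 : ∀ u ∈ Rr t C i, ((Qp i).filter (fun a =>
          1500 * P.MW ^ 2 * (opt t C Y c u a).card < P.D)).card ≤ ⌊P.rho * P.D / 20⌋₊ := by
        intro u hu
        rw [Rr, mem_filter] at hu
        exact Nat.le_floor (hBd1 P V κ t C Y c Qp hN hB hHA hHB hHC i u hu.2.1 hu.2.2)
      have h2 : ∀ a ∈ Qp i, ((Rr t C i).filter (fun u =>
          1500 * P.MW ^ 2 * (opt t C Y c u a).card < P.D)).card ≤ ⌊P.rho * P.D / 20⌋₊ := by
        intro a ha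
        exact Nat.le_floor (hBd2 P V κ t C Y c Qp hN hB hHA hHB hHC i hi a ha)
      have h3 : 2 * ⌊P.rho * P.D / 20⌋₊ < (Qp i).card := by
        have h4 : (⌊P.rho * P.D / 20⌋₊ : ℝ) ≤ P.rho * P.D / 20 :=
          Nat.floor_le (by positivity)
        have h5 := hHB.qc2 i hi
        have h6 : (2 * ⌊P.rho * P.D / 20⌋₊ : ℝ) < ((Qp i).card : ℝ) := by
          have h7 : 99 / 100 * P.rho * P.D = 99 / 100 * (P.rho * P.D) := by ring
          rw [h7] at h5
          linarith
        exact_mod_cast h6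
      obtain ⟨f, hf1, hf2⟩ := hPai V κ (Rr t C i) (Qp i)
        (fun u a => 1500 * P.MW ^ 2 * (opt t C Y c u a).card < P.D) _
        (fun u hu => by convert h1 u hu) (fun a ha => by convert h2 a ha)
        (hHB.rcard i hi) h3
      exact ⟨f, fun _ => ⟨hf1, hf2⟩⟩
    · exact ⟨fun _ => Classical.choice hne, fun h => absurd h hi⟩
  choose f hf using key
  have hval : ∀ u i, t.K u = some i → (t.K u).getD u = i := by
    intro u i h
    rw [h]
    rfl
  have hrem : ∀ u, ¬ C u → ∃ i, t.K u = some i := by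
    intro u hu
    obtain ⟨i, hi⟩ := hHA.rem u hu
    exact ⟨i, (mem_filter.1 hi).2.1⟩
  refine ⟨fun u => f ((t.K u).getD u) u, ?_, ?_, ?_⟩
  · intro u i hu hi
    have hR : u ∈ Rr t C i := by
      rw [Rr, mem_filter]
      exact ⟨mem_univ _, hi, hu⟩
    show f ((t.K u).getD u) u ∈ Qp i
    rw [hval u i hi]
    exact ((hf i (hB.gr.rt i u hi)).1 u hR).1
  · intro u hu
    obtain ⟨i, hi⟩ := hrem u hu
    have hR : u ∈ Rr t C i := by
      rw [Rr, mem_filter]
      exact ⟨mem_univ _, hi, hu⟩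
    show P.D ≤ 1500 * P.MW ^ 2 * (opt t C Y c u (f ((t.K u).getD u) u)).card
    rw [hval u i hi]
    exact not_lt.1 ((hf i (hB.gr.rt i u hi)).1 u hR).2
  · intro u v hu hv huv h
    obtain ⟨i, hi⟩ := hrem u hu
    have hvi : t.K v = some i := by rw [← huv, hi]
    have hR : u ∈ Rr t C i := by
      rw [Rr, mem_filter]
      exact ⟨mem_univ _, hi, hu⟩
    have hR' : v ∈ Rr t C i := by
      rw [Rr, mem_filter]
      exact ⟨mem_univ _, hvi, hv⟩
    have h' : f ((t.K u).getD u) u = f ((t.K v).getD v) v := h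
    rw [hval u i hi, hval v i hvi] at h'
    exact (hf i (hB.gr.rt i u hi)).2 u hR v hR' h'

end Pool.TCV
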