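import Pool.Agent.Helper60.TCV.StK2

/-!
# T10, section 9c: the rows of the good colours (helper42)
-/

set_option autoImplicit false

namespace Pool.TCV

open Pool.TC Pool.TCM Pool.TCS Pool.TN Finset
open scoped Classical

theorem Ro_Rg {V : Type} [Fintype V] (P : Par) (g : Gd V) (i w : V) (h : w ∈ g.Rg P i) :
    g.K w = some i := by
  unfold Gd.Rg at h
  exact (mem_filter.1 h).2.1

theorem thm_Ro (hAlB : St_AlB) (hSub10 : St_Sub10) (hGood10 : St_Good10) : St_Ro := by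
  intro P V κ _ _ k nm kp
  have hB := fun i (hi : k.K i = some i) => hAlB P V κ k nm kp i hi
  have rt := kp.bs.gr.rt
  have hal1 : ∀ w a, k.al P w a → ∃ i, w ∈ k.Rg P i := by
    rintro w a ⟨i, h, -⟩
    exact ⟨i, (mem_filter.1 h).1⟩
  have hal2 : ∀ w a, k.al P w a → k.K (k.E.N a w) = k.K w := by
    rintro w a ⟨i, h, -, -, h1⟩
    have h2 := Ro_Rg P k.toGd i w (mem_filter.1 h).1
    rcases h1 with h1 | ⟨-, h1, -⟩
    · have h3 : k.E.N a w = w := h1
      rw [h3]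
    · rw [Ro_Rg P k.toGd i _ h1, h2]
  obtain ⟨A, s1, s2, s3, s4, s5, s6⟩ := hSub10 P V κ k.toTd (k.al P) (k.Gc P) (k.a1 P) nm kp.bs
    hal1 hal2 (fun i hi => (hB i hi).1) (fun i hi => (hB i hi).2.1)
    (fun i w hw => (hB i (rt i w hw)).2.2.1 w hw) (fun i v hv => (hB i (rt i v hv)).2.2.2 v hv)
  obtain ⟨ro, r1, r2, r3⟩ := hGood10 P V κ k.toTd A (k.Gc P) nm kp.bs
    (fun w a h => hal2 w a (s1 w a h)) s3 s4 s5
  refine ⟨ro, ⟨fun i hi a ha => ⟨(r1 i hi a ha).1, s1 _ _ (r1 i hi a ha).2⟩, r2, r3, ?_, ?_⟩⟩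
  · intro i j a hi hj ha ha' hadj
    have h1 := r1 i hi a ha
    have h2 := r1 j hj a ha'
    have h3 := s2 _ _ a h1.2 h2.2 hadj
    rw [h1.1, h2.1] at h3
    exact Option.some_injective _ h3
  · intro i b
    refine le_trans ?_ (s6 i b)
    rw [Nat.cast_le]
    refine sum_le_sum_of_subset fun x hx => ?_
    obtain ⟨-, h1, j, hj, hb, rfl⟩ := mem_filter.1 hx
    exact mem_filter.2 ⟨mem_univ _, (r1 j hj b hb).2, h1⟩

end Pool.TCV
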