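import Pool.Agent.Helper60.TCV.StK1

/-!
# T10, section 9a: the colouring of the special rows
-/

set_option autoImplicit false

namespace Pool.TCV

open Pool.TC Pool.TCM Pool.TCS Pool.TN Finset
open scoped Classical

section sp10

variable {V κ : Type} [Fintype V]

private theorem Sp10_rp (t : Td V κ) (w : V) : rp t w = w ∨ rp t w = t.pr w := by
  unfold rp
  split_ifs
  · exact Or.inl rfl
  · exact Or.inr rfl

private theorem Sp10_rpr (t : Td V κ) (hp : ∀ w, t.pr (t.pr w) = w) (w : V) :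
    rp t (t.pr w) = rp t w := by
  unfold rp
  rw [hp]
  by_cases h1 : Fintype.equivFin V w ≤ Fintype.equivFin V (t.pr w)
  · by_cases h2 : Fintype.equivFin V (t.pr w) ≤ Fintype.equivFin V w
    · have h3 : w = t.pr w := (Fintype.equivFin V).injective (le_antisymm h1 h2)
      rw [if_pos h1, if_pos h2]
      exact h3.symm
    · rw [if_pos h1, if_neg h2]
  · have h2 : Fintype.equivFin V (t.pr w) ≤ Fintype.equivFin V w := le_of_lt (not_le.mp h1)
    rw [if_neg h1, if_pos h2]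

private theorem Sp10_rprp (t : Td V κ) (hp : ∀ w, t.pr (t.pr w) = w) (w : V) :
    rp t (rp t w) = rp t w := by
  rcases Sp10_rp t w with h | h
  · rw [h, h]
  · rw [h, Sp10_rpr t hp, h]

/-- `w` is an end of its representative -/
private theorem Sp10_end (t : Td V κ) (hp : ∀ w, t.pr (t.pr w) = w) (w : V) :
    w = rp t w ∨ w = t.pr (rp t w) := by
  rcases Sp10_rp t w with h | h
  · exact Or.inl h.symm
  · right
    rw [h, hp]

/-- two vertices with the same representative are equal or partners -/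
private theorem Sp10_same (t : Td V κ) (hp : ∀ w, t.pr (t.pr w) = w) (w w' : V)
    (h : rp t w = rp t w') : w' = w ∨ w' = t.pr w := by
  rcases Sp10_rp t w with h1 | h1 <;> rcases Sp10_end t hp w' with h2 | h2
  · left
    rw [h2, ← h, h1]
  · right
    rw [h2, ← h, h1]
  · right
    rw [h2, ← h, h1]
  · left
    rw [h2, ← h, h1, hp]

private theorem Sp10_K (P : Par) (t : Td V κ) (hG : GrP P t.toGd) (w : V) :
    t.K (t.pr w) = t.K w := by
  by_cases h : t.pr w = w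
  · rw [h]
  · exact (hG.padj w h).2.1

private theorem Sp10_Sp (P : Par) (t : Td V κ) (hG : GrP P t.toGd) (w : V) (h : t.Sp P w) :
    t.Sp P (t.pr w) := by
  by_cases h1 : t.pr w = w
  · rw [h1]
    exact h
  · refine ⟨?_, Or.inl ?_⟩
    · show t.K (t.pr w) ≠ none
      rw [Sp10_K P t hG]
      exact h.1
    · show t.pr (t.pr w) ≠ t.pr w
      rw [hG.pinv]
      exact fun h2 => h1 h2.symm

private theorem Sp10_Krp (P : Par) (t : Td V κ) (hG : GrP P t.toGd) (w : V) :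
    t.K (rp t w) = t.K w := by
  rcases Sp10_rp t w with h | h
  · rw [h]
  · rw [h, Sp10_K P t hG]

private theorem Sp10_US (P : Par) (t : Td V κ) (hG : GrP P t.toGd) (w : V) (h : t.Sp P w) :
    rp t w ∈ US P t := by
  unfold US
  rw [mem_filter]
  refine ⟨mem_univ _, ?_, Sp10_rprp t hG.pinv w⟩
  rcases Sp10_rp t w with h1 | h1
  · rw [h1]
    exact h
  · rw [h1]
    exact Sp10_Sp P t hG w h

private theorem Sp10_sym (P : Par) (t : Td V κ) (u : V) (a : κ) (w : V) (b : κ)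
    (h : cfS P t u a w b) : cfS P t w b u a := by
  rcases h with ⟨h1, h2⟩ | ⟨e, e', he, he', h⟩
  · exact Or.inl ⟨h1.symm, h2.symm⟩
  · right
    refine ⟨e', e, he', he, ?_⟩
    rcases h with h | ⟨h1, h | ⟨j, h2, h3⟩⟩
    · exact Or.inl h.symm
    · exact Or.inr ⟨h1.symm, Or.inl h.symm⟩
    · exact Or.inr ⟨h1.symm, Or.inr ⟨j, h3, h2⟩⟩

/-- the test sum -/
private theorem Sp10_sum (P : Par) (t : Td V κ) (hG : GrP P t.toGd) (c : V → κ) (i : V) (b : κ) :
    ((∑ x ∈ univ.filter (fun x => t.Sp P x ∧ t.K x ≠ some i ∧ ¬ t.hv P i x ∧ c (rp t x) = b),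
      t.dk i x : ℕ) : ℝ) ≤ ∑ w ∈ US P t, TS P t (i, b) w (c w) := by
  set F : V → ℕ := fun e => if t.K e ≠ some i ∧ ¬ t.hv P i e then t.dk i e else 0 with hF
  have h1 : ∑ w ∈ US P t, TS P t (i, b) w (c w) =
      ((∑ w ∈ (US P t).filter (fun w => c w = b), ∑ e ∈ ({w, t.pr w} : Finset V), F e : ℕ) : ℝ) := by
    rw [sum_filter]
    push_cast
    refine sum_congr rfl fun w _ => ?_
    unfold TS
    by_cases h : c w = b
    · rw [if_pos h, if_pos h]
      push_cast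
      refine sum_congr rfl fun e _ => ?_
      rw [hF]
      by_cases h5 : t.K e ≠ some i ∧ ¬ t.hv P i e
      · simp only [if_pos h5]
      · simp only [if_neg h5, Nat.cast_zero]
    · rw [if_neg h, if_neg h]
  rw [h1]
  refine Nat.cast_le.mpr ?_
  set S' := univ.filter (fun x => t.Sp P x ∧ t.K x ≠ some i ∧ ¬ t.hv P i x ∧ c (rp t x) = b)
    with hS'
  have h2 : ∑ x ∈ S', t.dk i x = ∑ x ∈ S', F x := by
    refine sum_congr rfl fun x hx => ?_
    rw [hS', mem_filter] at hx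
    show t.dk i x = if t.K x ≠ some i ∧ ¬ t.hv P i x then t.dk i x else 0
    rw [if_pos ⟨hx.2.2.1, hx.2.2.2.1⟩]
  rw [h2]
  have h3 : ∀ x ∈ S', rp t x ∈ (US P t).filter (fun w => c w = b) := by
    intro x hx
    rw [hS', mem_filter] at hx
    rw [mem_filter]
    exact ⟨Sp10_US P t hG x hx.2.1, hx.2.2.2.2⟩
  rw [← sum_fiberwise_of_maps_to h3]
  refine sum_le_sum fun w _ => ?_
  refine sum_le_sum_of_subset ?_
  intro x hx
  rw [mem_filter] at hx
  rw [mem_insert, mem_singleton]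
  have h4 := Sp10_end t hG.pinv x
  rw [hx.2] at h4
  exact h4

end sp10

theorem thm_Sp10 (hSamp : St_Samp) (hSpO : St_SpO) (hSpC : St_SpC) (hSpT : St_SpT)
    (hSpN : St_SpN) : St_Sp10 := by
  intro P V κ _ _ t X cX cS hN hB hX hS
  have hG := hB.gr
  obtain ⟨n1, n2, n3, n4, n5, n6, n7, n8, n9⟩ := hSpN P hN
  -- the lists
  have hL : ∀ w : V, ∃ L : Finset κ, w ∈ US P t →
      L ⊆ OpS P t X cX cS w ∧ L.card = 21 * P.D / 100 := by
    intro w
    by_cases hw : w ∈ US P t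
    · have hsp : t.Sp P w := by
        unfold US at hw
        rw [mem_filter] at hw
        exact hw.2.1
      have h1 := hSpO P V κ t X cX cS hN hB hX hS w hsp
      have h2 : 21 * P.D / 100 ≤ (OpS P t X cX cS w).card := by omega
      obtain ⟨L, hL1, hL2⟩ := exists_subset_card_eq h2
      exact ⟨L, fun _ => ⟨hL1, hL2⟩⟩
    · exact ⟨∅, fun h => absurd h hw⟩
  choose L hL using hL
  have : Nonempty κ := by
    rw [← Fintype.card_pos_iff, hB.ed.col]
    exact Nat.succ_pos _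
  obtain ⟨t1, t2, t3, t4⟩ := hSpT P V κ t L hN hB
  obtain ⟨c, hc1, hc2, hc3⟩ := hSamp V κ (V × κ) (US P t) L (cfS P t) (TS P t)
    (fun _ => 2 * (P.eta * P.D) + 1) (fun _ => 103 * P.delta * P.D ^ 2)
    (21 * P.D / 100) (25 * P.X ^ 3) ((P.D + 2) ^ 4) P.Lam
    (fun u hu => (hL u hu).2) n1 n2 n3 (Sp10_sym P t)
    (by
      intro u hu a ha
      have h1 := hSpC P V κ t X cX cS hN hB u hu a ((hL u hu).1 ha)
      have h2 : (univ.filter (fun p : V × κ => p.1 ∈ US P t ∧ p.1 ≠ u ∧ p.2 ∈ L p.1 ∧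
          cfS P t u a p.1 p.2)).card ≤
          (univ.filter (fun p : V × κ => p.1 ∈ US P t ∧ p.1 ≠ u ∧
            p.2 ∈ OpS P t X cX cS p.1 ∧ cfS P t u a p.1 p.2)).card := by
        refine card_le_card ?_
        intro p hp
        rw [mem_filter] at hp ⊢
        exact ⟨hp.1, hp.2.1, hp.2.2.1, (hL p.1 hp.2.1).1 hp.2.2.2.1, hp.2.2.2.2⟩
      have h3 : ((univ.filter (fun p : V × κ => p.1 ∈ US P t ∧ p.1 ≠ u ∧ p.2 ∈ L p.1 ∧
          cfS P t u a p.1 p.2)).card : ℝ) ≤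
          312 * P.delta * P.D / P.eta + 2 * P.D / 99 + 3 * P.delta * P.D / P.eta ^ 2 :=
        (Nat.cast_le.mpr h2).trans h1
      have h4 : ((8 * (univ.filter (fun p : V × κ => p.1 ∈ US P t ∧ p.1 ≠ u ∧ p.2 ∈ L p.1 ∧
          cfS P t u a p.1 p.2)).card : ℕ) : ℝ) ≤ ((21 * P.D / 100 : ℕ) : ℝ) := by
        push_cast at n7 ⊢
        linarith
      exact Nat.cast_le.mp h4)
    (fun j u _ a _ => t1 j u a) (fun _ => by linarith) t2 t3 t4 n4 n5 n6
  have hend := Sp10_end t hG.pinv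
  have hus := Sp10_US P t hG
  have hK := Sp10_Krp P t hG
  have hop : ∀ w, t.Sp P w → c (rp t w) ∈ OpS P t X cX cS (rp t w) := fun w hw =>
    (hL _ (hus w hw)).1 (hc1 _ (hus w hw))
  -- the conditions of `OpS` for the end `w`
  have hm : ∀ i w, t.Sp P w → t.K w = some i → c (rp t w) ∉ t.Pb P i ∧ c (rp t w) ∉ t.Q ∧
      c (rp t w) ∉ t.mF i ∧ t.cr w (c (rp t w)) ∧ t.E.N (c (rp t w)) w ∈ t.Rg P i ∧
      ¬ t.W (t.E.N (c (rp t w)) w) ∧ ¬ usd t X cX cS (t.E.N (c (rp t w)) w) ∧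
      (∀ y, t.G.Adj w y → t.K y ≠ some i → Cd t X y → cd t X cX cS y ≠ c (rp t w)) ∧
      (∀ j y, t.hv P j w → t.hv P j y → t.K y = none → cS y ≠ c (rp t w)) := by
    intro i w hw hi
    have h1 := hop w hw
    unfold OpS at h1
    rw [mem_filter] at h1
    obtain ⟨-, i', h2, h3, h4, h5, h6⟩ := h1
    rw [hK, hi] at h2
    have h7 : i = i' := Option.some.inj h2
    subst h7
    obtain ⟨h8, h9, h10, h11, h12, h13⟩ := h6 w (hend w)
    exact ⟨h3, h4, h5, h8, h9, h10, h11, h12, h13⟩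
  have hcf : ∀ w w', t.Sp P w → t.Sp P w' → rp t w ≠ rp t w' →
      ¬ cfS P t (rp t w) (c (rp t w)) (rp t w') (c (rp t w')) := fun w w' hw hw' h =>
    hc2 _ (hus w hw) _ (hus w' hw') h
  refine ⟨fun w => c (rp t w), ?_, ?_, ?_, ?_, ?_, ?_, ?_, ?_, ?_, ?_⟩
  · intro w _
    show c (rp t (t.pr w)) = c (rp t w)
    rw [Sp10_rpr t hG.pinv]
  · intro w w' hw hw' h1 h2
    by_contra h3
    refine hcf w w' hw hw' (fun h => h3 (Sp10_same t hG.pinv w w' h)) (Or.inl ⟨?_, h2⟩)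
    rw [hK, hK, h1]
  · intro i w hw hi
    have h := hm i w hw hi
    exact ⟨h.1, h.2.1, h.2.2.1⟩
  · intro i w hw hi
    have h := hm i w hw hi
    exact ⟨h.2.2.2.1, h.2.2.2.2.1, h.2.2.2.2.2.1, h.2.2.2.2.2.2.1⟩
  · intro w w' hw hw' h1
    by_cases h2 : rp t w = rp t w'
    · have h3 : t.E.N (c (rp t w)) w = t.E.N (c (rp t w)) w' := by
        have h4 : t.E.N (c (rp t w)) w = t.E.N (c (rp t w')) w' := h1
        rw [← h2] at h4
        exact h4
      have h5 := congrArg (t.E.N (c (rp t w))) h3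
      rw [t.E.inv, t.E.inv] at h5
      exact h5
    · exact absurd (Or.inr ⟨w, w', hend w, hend w', Or.inl h1⟩) (hcf w w' hw hw' h2)
  · intro w y hw h1 h2 h3
    obtain ⟨i, hi⟩ := Option.ne_none_iff_exists'.mp hw.1
    have h := hm i w hw hi
    refine h.2.2.2.2.2.2.2.1 y h1 ?_ h3
    rw [← hi]
    exact h2
  · intro w w' hw hw' h1 h2 h3
    refine hcf w w' hw hw' ?_ (Or.inr ⟨w, w', hend w, hend w', Or.inr ⟨h3, Or.inl h1⟩⟩)
    intro h
    refine h2 ?_
    rw [← hK w, ← hK w', h]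
  · intro j w w' h1 h2 hw hw' h3
    by_contra h4
    exact hcf w w' hw hw' (fun h => h4 (Sp10_same t hG.pinv w w' h))
      (Or.inr ⟨w, w', hend w, hend w', Or.inr ⟨h3, Or.inr ⟨j, h1, h2⟩⟩⟩)
  · intro j w y h1 h2 hw h3
    obtain ⟨i, hi⟩ := Option.ne_none_iff_exists'.mp hw.1
    have h := hm i w hw hi
    exact h.2.2.2.2.2.2.2.2 j y h1 h2 h3
  · intro i b
    exact (Sp10_sum P t hG c i b).trans ((hc3 (i, b)).trans n8)

end Pool.TCV
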