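import Pool.Agent.Helper60.TCV.StK1

/-!
# T10, section 9a, module SpC: the number of conflicts of a cell
-/

set_option autoImplicit false

namespace Pool.TCV

open Pool.TC Pool.TCM Pool.TCS Pool.TN Finset
open scoped Classical

private theorem SpC_card {α β : Type} (s : Finset α) (u : Finset β) (r : α → β → Prop)
    (h : ∀ x ∈ s, ∃ y ∈ u, r x y) (hi : ∀ x ∈ s, ∀ x' ∈ s, ∀ y ∈ u, r x y → r x' y → x = x') :
    s.card ≤ u.card := by
  rcases s.eq_empty_or_nonempty with h0 | ⟨x0, hx0⟩
  · rw [h0, Finset.card_empty]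
    exact Nat.zero_le _
  obtain ⟨y0, -⟩ := h x0 hx0
  have hne : Nonempty β := ⟨y0⟩
  choose! f hf hr using h
  refine Finset.card_le_card_of_injOn f (fun x hx => hf x hx) ?_
  intro x hx x' hx' hxx
  refine hi x hx x' hx' (f x) (hf x hx) (hr x hx) ?_
  rw [hxx]
  exact hr x' hx'

section spc
variable {V κ : Type} [Fintype V] [Fintype κ]

omit [Fintype κ] in
private theorem SpC_rp (t : Td V κ) (hinv : ∀ w, t.pr (t.pr w) = w) {w' e' : V}
    (h : rp t w' = w') (he : e' = w' ∨ e' = t.pr w') : rp t e' = w' := by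
  rcases he with rfl | rfl
  · exact h
  · unfold rp at h ⊢
    rw [hinv w']
    by_cases h1 : Fintype.equivFin V w' ≤ Fintype.equivFin V (t.pr w')
    · by_cases h2 : Fintype.equivFin V (t.pr w') ≤ Fintype.equivFin V w'
      · rw [if_pos h2]
        exact (Fintype.equivFin V).injective (le_antisymm h2 h1)
      · rw [if_neg h2]
    · rw [if_neg h1] at h
      exfalso
      apply h1
      rw [h]

omit [Fintype κ] in
private theorem SpC_end (P : Par) (t : Td V κ) (hG : GrP P t.toGd) {w e : V} {i : V}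
    (hs : t.Sp P w) (hK : t.K w = some i) (he : e = w ∨ e = t.pr w) :
    t.K e = some i ∧ t.Sp P e := by
  rcases he with rfl | rfl
  · exact ⟨hK, hs⟩
  · by_cases hp : t.pr w = w
    · rw [hp]
      exact ⟨hK, hs⟩
    · obtain ⟨h1, h2, -⟩ := hG.padj w hp
      refine ⟨h2.trans hK, ?_, Or.inl ?_⟩
      · rw [h2]
        exact h1
      · rw [hG.pinv w]
        exact fun h => hp h.symm

end spc

theorem thm_SpC : St_SpC := by
  intro P V κ _ _ t X cX cS hN hB w hw a ha
  have hG := hB.gr
  have hinv := hG.pinv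
  have hXp : (0 : ℝ) < P.X := by
    have : (0 : ℕ) < P.X := lt_of_lt_of_le (by norm_num) hN.X0
    exact_mod_cast this
  have heta : 0 < P.eta := by
    rw [hN.eta]
    positivity
  have hdelta : 0 < P.delta := by
    rw [hN.delta]
    positivity
  have hD0 : (0 : ℝ) ≤ P.D := Nat.cast_nonneg _
  obtain ⟨hws, hwr⟩ := (Finset.mem_filter.1 hw).2
  obtain ⟨i, hKi, -, -, -, hop⟩ := (Finset.mem_filter.1 ha).2
  have hwe : ∀ e, (e = w ∨ e = t.pr w) → t.K e = some i ∧ t.Sp P e := fun e he =>
    SpC_end P t hG hws hKi he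
  -- the sets
  obtain ⟨SA, hSA⟩ : ∃ SA : Finset (V × κ), SA = (t.Spi P i).image fun x => (rp t x, a) := ⟨_, rfl⟩
  obtain ⟨SB, hSB⟩ : ∃ SB : V → Finset (V × κ), SB = fun e => univ.filter fun p : V × κ =>
    ∃ x ∈ t.Spi P i, rp t x = p.1 ∧ t.E.N p.2 x = t.E.N a e ∧ t.E.N a e ≠ x := ⟨_, rfl⟩
  obtain ⟨SC, hSC⟩ : ∃ SC : V → Finset (V × κ), SC = fun e =>
    ((nb t.G e).filter (fun v => t.K v ≠ t.K e)).image fun x => (rp t x, a) := ⟨_, rfl⟩
  obtain ⟨SD, hSD⟩ : ∃ SD : V → Finset (V × κ), SD = fun e =>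
    ((univ.filter (fun j => t.hv P j e)).biUnion
      fun j => univ.filter (fun y => t.hv P j y)).image fun x => (rp t x, a) := ⟨_, rfl⟩
  have hsub : (univ.filter (fun p : V × κ => p.1 ∈ US P t ∧ p.1 ≠ w ∧ p.2 ∈ OpS P t X cX cS p.1 ∧
      cfS P t w a p.1 p.2)) ⊆ (SA ∪ (SB w ∪ SB (t.pr w))) ∪
        ((SC w ∪ SC (t.pr w)) ∪ (SD w ∪ SD (t.pr w))) := by
    rintro ⟨w', a'⟩ hp
    obtain ⟨hw', -, ha', hcf⟩ := (Finset.mem_filter.1 hp).2
    obtain ⟨hws', hwr'⟩ := (Finset.mem_filter.1 hw').2
    obtain ⟨i', hKi', -, -, -, hop'⟩ := (Finset.mem_filter.1 ha').2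
    have hwe' : ∀ e, (e = w' ∨ e = t.pr w') → t.K e = some i' ∧ t.Sp P e := fun e he =>
      SpC_end P t hG hws' hKi' he
    have memA : i' = i → a' = a → (w', a') ∈ SA := by
      rintro hii rfl
      rw [hSA]
      refine Finset.mem_image.2 ⟨w', Finset.mem_filter.2 ⟨Finset.mem_univ _, ?_, hws'⟩, ?_⟩
      · rw [← hii]
        exact hKi'
      · rw [hwr']
    rcases hcf with ⟨h1, h2⟩ | ⟨e, e', he, he', h⟩
    · refine Finset.mem_union.2 (Or.inl (Finset.mem_union.2 (Or.inl (memA ?_ h2.symm))))
      have h3 : some i = some i' := by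
        rw [← hKi, ← hKi']
        exact h1
      exact (Option.some.inj h3).symm
    · have hrp : rp t e' = w' := SpC_rp t hinv hwr' he'
      rcases h with h | ⟨haa, h⟩
      · -- equal columns
        have hv1 := (hop e he).2.1
        have hv2 := (hop' e' he').2.1
        have hk1 := (Finset.mem_filter.1 hv1).2
        have hk2 := (Finset.mem_filter.1 hv2).2
        have hB' : (w', a') ∈ SB e := by
          rw [hSB]
          refine Finset.mem_filter.2 ⟨Finset.mem_univ _, e', ?_, hrp, h.symm, ?_⟩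
          · refine Finset.mem_filter.2 ⟨Finset.mem_univ _, ?_, (hwe' e' he').2⟩
            have h3 : some i = some i' := by
              rw [← hk1.1, ← hk2.1, h]
            rw [(hwe' e' he').1, h3]
          · intro h4
            apply hk1.2
            rw [h4]
            exact (hwe' e' he').2
        refine Finset.mem_union.2 (Or.inl (Finset.mem_union.2 (Or.inr ?_)))
        rcases he with rfl | rfl
        · exact Finset.mem_union.2 (Or.inl hB')
        · exact Finset.mem_union.2 (Or.inr hB')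
      · subst haa
        rcases h with h | ⟨j, hj, hj'⟩
        · -- adjacent ends
          by_cases hK : t.K e' = t.K e
          · refine Finset.mem_union.2 (Or.inl (Finset.mem_union.2 (Or.inl (memA ?_ rfl))))
            rw [(hwe e he).1, (hwe' e' he').1] at hK
            exact Option.some.inj hK
          · have hC' : (w', a) ∈ SC e := by
              rw [hSC]
              refine Finset.mem_image.2 ⟨e', Finset.mem_filter.2 ⟨?_, hK⟩, ?_⟩
              · unfold nb
                simp only [Finset.mem_filter, Finset.mem_univ, true_and]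
                exact h
              · rw [hrp]
            refine Finset.mem_union.2 (Or.inr (Finset.mem_union.2 (Or.inl ?_)))
            rcases he with rfl | rfl
            · exact Finset.mem_union.2 (Or.inl hC')
            · exact Finset.mem_union.2 (Or.inr hC')
        · have hD' : (w', a) ∈ SD e := by
            rw [hSD]
            refine Finset.mem_image.2 ⟨e', Finset.mem_biUnion.2 ⟨j, ?_, ?_⟩, ?_⟩
            · exact Finset.mem_filter.2 ⟨Finset.mem_univ _, hj⟩
            · exact Finset.mem_filter.2 ⟨Finset.mem_univ _, hj'⟩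
            · rw [hrp]
          refine Finset.mem_union.2 (Or.inr (Finset.mem_union.2 (Or.inr ?_)))
          rcases he with rfl | rfl
          · exact Finset.mem_union.2 (Or.inl hD')
          · exact Finset.mem_union.2 (Or.inr hD')
  -- the bounds
  have cA : (SA.card : ℝ) ≤ 104 * P.delta * P.D / P.eta := by
    refine le_trans ?_ (hG.sp1 i)
    rw [hSA]
    exact_mod_cast Finset.card_image_le
  have cB : ∀ e, ((SB e).card : ℝ) ≤ 104 * P.delta * P.D / P.eta := by
    intro e
    refine le_trans ?_ (hG.sp1 i)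
    have h1 : (SB e).card ≤ (t.Spi P i).card := by
      refine SpC_card (SB e) (t.Spi P i)
        (fun p x => rp t x = p.1 ∧ t.E.N p.2 x = t.E.N a e ∧ t.E.N a e ≠ x) ?_ ?_
      · intro p hp
        rw [hSB] at hp
        exact (Finset.mem_filter.1 hp).2
      · rintro ⟨x, b⟩ - ⟨x', b'⟩ - y - ⟨h1, h2, h3⟩ ⟨h1', h2', -⟩
        have e1 : x = x' := h1.symm.trans h1'
        have e2 : b = b' := t.E.uniq b b' y (h2.trans h2'.symm) (by
          show t.E.N b y ≠ y
          rw [show t.E.N b y = t.E.N a e from h2]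
          exact h3)
        rw [e1, e2]
    exact_mod_cast h1
  have cC : ∀ e, (e = w ∨ e = t.pr w) → ((SC e).card : ℝ) ≤ P.D / 99 := by
    intro e he
    have h1 : (SC e).card ≤ t.oo e := by
      rw [hSC]
      exact Finset.card_image_le
    have h2 := hG.d4 e (by rw [(hwe e he).1]; exact Option.some_ne_none i)
    have h3 : ((SC e).card : ℝ) ≤ t.oo e := by exact_mod_cast h1
    have h4 : (99 : ℝ) * t.oo e ≤ P.D := by exact_mod_cast h2
    rw [le_div_iff₀ (by norm_num)]
    linarith
  have cD : ∀ e, (e = w ∨ e = t.pr w) →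
      ((SD e).card : ℝ) ≤ 1 / (99 * P.eta) * (103 * P.delta * P.D / P.eta) := by
    intro e he
    have h1 : (SD e).card ≤ ∑ j ∈ univ.filter (fun j => t.hv P j e),
        (univ.filter (fun y => t.hv P j y)).card := by
      rw [hSD]
      exact Finset.card_image_le.trans Finset.card_biUnion_le
    have h2 : ((SD e).card : ℝ) ≤ ∑ j ∈ univ.filter (fun j => t.hv P j e),
        ((univ.filter (fun y => t.hv P j y)).card : ℝ) := by
      have := (Nat.cast_le (α := ℝ)).2 h1
      rwa [Nat.cast_sum] at this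
    have h3 : ∑ j ∈ univ.filter (fun j => t.hv P j e),
        ((univ.filter (fun y => t.hv P j y)).card : ℝ) ≤
        ((univ.filter (fun j => t.hv P j e)).card : ℝ) * (103 * P.delta * P.D / P.eta) := by
      have := Finset.sum_le_card_nsmul (univ.filter (fun j => t.hv P j e))
        (fun j => ((univ.filter (fun y => t.hv P j y)).card : ℝ))
        (103 * P.delta * P.D / P.eta) (fun j _ => hG.hv1 j)
      rwa [nsmul_eq_mul] at this
    have h4 := hG.hv3 e (by rw [(hwe e he).1]; exact Option.some_ne_none i)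
    have h5 : ((univ.filter (fun j => t.hv P j e)).card : ℝ) ≤ 1 / (99 * P.eta) := by
      rw [le_div_iff₀ (by positivity)]
      calc ((univ.filter (fun j => t.hv P j e)).card : ℝ) * (99 * P.eta)
          = 99 * (P.eta * ((univ.filter (fun j => t.hv P j e)).card : ℝ)) := by ring
        _ ≤ 1 := h4
    exact (h2.trans h3).trans (mul_le_mul_of_nonneg_right h5 (by positivity))
  have htot := Finset.card_le_card hsub
  have hU1 := Finset.card_union_le (SA ∪ (SB w ∪ SB (t.pr w)))
    ((SC w ∪ SC (t.pr w)) ∪ (SD w ∪ SD (t.pr w)))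
  have hU2 := Finset.card_union_le SA (SB w ∪ SB (t.pr w))
  have hU3 := Finset.card_union_le (SB w) (SB (t.pr w))
  have hU4 := Finset.card_union_le (SC w ∪ SC (t.pr w)) (SD w ∪ SD (t.pr w))
  have hU5 := Finset.card_union_le (SC w) (SC (t.pr w))
  have hU6 := Finset.card_union_le (SD w) (SD (t.pr w))
  have hall : (univ.filter (fun p : V × κ => p.1 ∈ US P t ∧ p.1 ≠ w ∧
      p.2 ∈ OpS P t X cX cS p.1 ∧ cfS P t w a p.1 p.2)).card ≤
      SA.card + ((SB w).card + (SB (t.pr w)).card) +
        (((SC w).card + (SC (t.pr w)).card) + ((SD w).card + (SD (t.pr w)).card)) := by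
    omega
  have hallR : ((univ.filter (fun p : V × κ => p.1 ∈ US P t ∧ p.1 ≠ w ∧
      p.2 ∈ OpS P t X cX cS p.1 ∧ cfS P t w a p.1 p.2)).card : ℝ) ≤
      SA.card + ((SB w).card + (SB (t.pr w)).card) +
        (((SC w).card + (SC (t.pr w)).card) + ((SD w).card + (SD (t.pr w)).card)) := by
    exact_mod_cast hall
  have b1 := cB w
  have b2 := cB (t.pr w)
  have c1 := cC w (Or.inl rfl)
  have c2 := cC (t.pr w) (Or.inr rfl)
  have d1 := cD w (Or.inl rfl)
  have d2 := cD (t.pr w) (Or.inr rfl)
  have e1 : 1 / (99 * P.eta) * (103 * P.delta * P.D / P.eta) =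
      103 / 99 * (P.delta * P.D / P.eta ^ 2) := by
    field_simp
  have e2 : 0 ≤ P.delta * P.D / P.eta ^ 2 := by positivity
  have e3 : 104 * P.delta * P.D / P.eta = 104 * (P.delta * P.D / P.eta) := by ring
  have e4 : 312 * P.delta * P.D / P.eta = 312 * (P.delta * P.D / P.eta) := by ring
  have e5 : 3 * P.delta * P.D / P.eta ^ 2 = 3 * (P.delta * P.D / P.eta ^ 2) := by ring
  have e6 : 2 * (P.D : ℝ) / 99 = P.D / 99 + P.D / 99 := by ring
  rw [e1] at d1 d2
  rw [e3] at cA b1 b2
  rw [e4, e5, e6]
  linarith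

end Pool.TCV
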