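import Pool.Agent.Helper60.TCV.StK1
import Pool.Agent.Helper60.TCV.XNu

/-!
# T10, section 9a: the numerical conditions for the special rows
-/

set_option autoImplicit false

namespace Pool.TCV

open Pool.TC Pool.TCM Pool.TCS Pool.TN Finset
open scoped Classical

/-- the number of conflicts -/
private theorem SpN_conf (D η δ l a b : ℝ) (hD : 0 < D) (hη : 0 < η) (hl : 209 * D ≤ 1000 * l)
    (ha : δ = a * η) (hb : δ = b * η ^ 2) (ha1 : 10 ^ 6 * a ≤ 1) (hb1 : 10 ^ 6 * b ≤ 1) :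
    8 * (312 * δ * D / η + 2 * D / 99 + 3 * δ * D / η ^ 2) ≤ l := by
  have e1 : 312 * δ * D / η = 312 * (a * D) := by
    rw [ha]
    field_simp
  have e2 : 3 * δ * D / η ^ 2 = 3 * (b * D) := by
    rw [hb]
    field_simp
  rw [e1, e2]
  have h1 := mul_le_mul_of_nonneg_right ha1 hD.le
  have h2 := mul_le_mul_of_nonneg_right hb1 hD.le
  linarith

theorem thm_SpN : St_SpN := by
  intro P hN
  have hX0 := hN.X0
  have hx20 : (10 : ℝ) ^ 20 ≤ (P.X : ℝ) := by exact_mod_cast hX0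
  set x : ℝ := (P.X : ℝ) with hx
  have hx1 : (1 : ℝ) ≤ x := le_trans (by norm_num) hx20
  have hxpos : 0 < x := by linarith
  have hx100 : (100 : ℝ) ≤ x := le_trans (by norm_num) hx20
  -- the size of `D`
  have hXD : x ^ 4000000 ≤ (P.D : ℝ) := hN.XD
  have hDk : ∀ k : ℕ, k ≤ 4000000 → x ^ k ≤ (P.D : ℝ) := fun k hk =>
    (pow_le_pow_right₀ hx1 hk).trans hXD
  have hD4 : x ^ 4 ≤ (P.D : ℝ) := hDk 4 (by norm_num)
  have hD1600 : x ^ 1600 ≤ (P.D : ℝ) := hDk 1600 (by norm_num)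
  have hDx : x ≤ (P.D : ℝ) := by simpa using hDk 1 (by norm_num)
  have hDbig : (10 : ℝ) ^ 20 ≤ (P.D : ℝ) := hx20.trans hDx
  have hDN : 10 ^ 20 ≤ P.D := by exact_mod_cast hDbig
  have hDpos : (0 : ℝ) < (P.D : ℝ) := lt_of_lt_of_le (by norm_num) hDbig
  -- `y = 1 / x`
  obtain ⟨y, hy⟩ : ∃ y : ℝ, y = 1 / x := ⟨_, rfl⟩
  have hy0 : 0 < y := by rw [hy]; positivity
  have hxy : x * y = 1 := by rw [hy]; field_simp
  have hyb : 10 ^ 20 * y ≤ 1 := by
    calc 10 ^ 20 * y ≤ x * y := mul_le_mul_of_nonneg_right hx20 hy0.le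
      _ = 1 := hxy
  have hyk : ∀ k : ℕ, 1 / x ^ k = y ^ k := fun k => by rw [hy, one_div_pow]
  have hxyk : ∀ k : ℕ, x ^ k * y ^ k = 1 := fun k => by rw [← mul_pow, hxy, one_pow]
  have heta : P.eta = y ^ 1600 := by rw [hN.eta, ← hx, hyk]
  have hdelta : P.delta = y ^ 4900 := by rw [hN.delta, ← hx, hyk]
  have heps : P.eps = y ^ 15 := by rw [hN.eps, ← hx, hyk]
  have hLam : P.Lam = x ^ 3 := hN.Lam
  have heta0 : 0 < P.eta := by rw [heta]; positivity
  have hdelta0 : 0 < P.delta := by rw [hdelta]; positivity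
  -- smallness
  have hde : 10 ^ 5 * P.delta ≤ 2 * P.eta := by
    have h := XNu_pw y hy0 hyb 1600 4900 (by norm_num)
    rw [hdelta, heta]
    have h0 : 0 < y ^ 4900 := by positivity
    have h1 : 0 < y ^ 1600 := by positivity
    nlinarith
  have hee : 10 * (x ^ 3 * (2 * P.eta)) ≤ P.eps := by
    have h := XNu_pw y hy0 hyb 15 1597 (by norm_num)
    rw [heta, heps]
    have e : x ^ 3 * (2 * y ^ 1600) = 2 * y ^ 1597 := by
      rw [show (1600 : ℕ) = 3 + 1597 by norm_num, pow_add]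
      have h1 := hxyk 3
      calc x ^ 3 * (2 * (y ^ 3 * y ^ 1597)) = 2 * (x ^ 3 * y ^ 3) * y ^ 1597 := by ring
        _ = 2 * y ^ 1597 := by rw [h1, mul_one]
    rw [e]
    have h0 : 0 < y ^ 1597 := by positivity
    nlinarith
  have hetaD : 1 ≤ 2 * P.eta * P.D := by
    have h1 : (1 : ℝ) ≤ P.eta * P.D := by
      rw [heta]
      calc (1 : ℝ) = y ^ 1600 * x ^ 1600 := by rw [mul_comm]; exact (hxyk 1600).symm
        _ ≤ y ^ 1600 * P.D := mul_le_mul_of_nonneg_left hD1600 (by positivity)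
    linarith
  have ha1 : 10 ^ 6 * y ^ 3300 ≤ 1 := by
    have h := XNu_pw y hy0 hyb 0 3300 (by norm_num)
    have h0 : 0 < y ^ 3300 := by positivity
    rw [pow_zero] at h
    nlinarith
  have hb1 : 10 ^ 6 * y ^ 1700 ≤ 1 := by
    have h := XNu_pw y hy0 hyb 0 1700 (by norm_num)
    have h0 : 0 < y ^ 1700 := by positivity
    rw [pow_zero] at h
    nlinarith
  -- the natural number `l`
  have hl0 : 0 < 21 * P.D / 100 := Nat.div_pos (by omega) (by norm_num)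
  have hl1 : 209 * P.D ≤ 1000 * (21 * P.D / 100) := by omega
  have hl1r : 209 * (P.D : ℝ) ≤ 1000 * ((21 * P.D / 100 : ℕ) : ℝ) := by exact_mod_cast hl1
  have hq : ((25 * P.X ^ 3 : ℕ) : ℝ) = 25 * x ^ 3 := by push_cast; rfl
  have hlog : P.D < 2 ^ (P.X + 1) := by
    rw [hN.XL]
    exact Nat.lt_pow_succ_log_self (by norm_num) _
  refine ⟨hl0, ?_, ?_, ?_, ?_, ?_, ?_, ?_, ?_⟩
  · calc 21 * P.D / 100 ≤ P.D + 2 := by omega
      _ ≤ (P.D + 2) ^ 4 := Nat.le_self_pow (by norm_num) _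
  · have h1 : P.X ^ 4 ≤ P.D := by
      have h1' : (P.X : ℝ) ^ 4 ≤ (P.D : ℝ) := hD4
      exact_mod_cast h1'
    have h2 : 4 * (25 * P.X ^ 3) ≤ P.X ^ 4 := by
      have e : P.X ^ 4 = P.X * P.X ^ 3 := by ring
      rw [e]
      have h100 : 100 ≤ P.X := le_trans (by norm_num) hX0
      have h3 := Nat.mul_le_mul_right (P.X ^ 3) h100
      omega
    calc 4 * (25 * P.X ^ 3) ≤ P.D + 2 := by omega
      _ ≤ (P.D + 2) ^ 4 := Nat.le_self_pow (by norm_num) _
  · rw [hLam]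
    exact one_le_pow₀ hx1
  · rw [hLam, hq]
  · rw [hLam]
    exact XNu_exp P.X P.D (le_trans (by norm_num) hX0) hlog
  · refine SpN_conf P.D P.eta P.delta _ (y ^ 3300) (y ^ 1700) hDpos heta0 hl1r ?_ ?_ ha1 hb1
    · rw [hdelta, heta, ← pow_add]
    · rw [hdelta, heta, ← pow_mul, ← pow_add]
  · rw [hLam, hq]
    have h := XNu_l5 x P.D (2 * P.eta) P.delta ((21 * P.D / 100 : ℕ) : ℝ) P.eps hx100 hDpos hetaD
      (by linarith) hdelta0.le hde hee
    rw [mul_assoc 2 P.eta (P.D : ℝ)] at h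
    exact h
  · positivity

end Pool.TCV
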