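import Pool.Agent.Helper60.TCV.StK1

/-!
# T10, SPO: number of options of a special row (helper59)
-/

set_option autoImplicit false
set_option linter.unusedSectionVars false

namespace Pool.TCV

open Pool.TC Pool.TCM Pool.TCS Pool.TN Finset
open scoped Classical

section spo

variable {V κ : Type} [Fintype V] [Fintype κ]

/-- colours whose column is used -/
noncomputable def SpO_B1 (t : Td V κ) (X : V → Prop) (cX cS : V → κ) (i e : V) : Finset κ :=
  univ.filter (fun a => t.E.N a e ≠ e ∧ t.K (t.E.N a e) = some i ∧ usd t X cX cS (t.E.N a e))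

/-- colours of outer neighbours -/
noncomputable def SpO_B2 (t : Td V κ) (X : V → Prop) (cX cS : V → κ) (i e : V) : Finset κ :=
  univ.filter (fun a => ∃ y, t.G.Adj e y ∧ t.K y ≠ some i ∧ Cd t X y ∧ cd t X cX cS y = a)

/-- colours of heavy vertices -/
noncomputable def SpO_B3 (P : Par) (t : Td V κ) (cS : V → κ) (e : V) : Finset κ :=
  univ.filter (fun a => ∃ j y, t.hv P j e ∧ t.hv P j y ∧ t.K y = none ∧ cS y = a)

theorem SpO_b1 (t : Td V κ) (X : V → Prop) (cX cS : V → κ) (i e : V) :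
    (SpO_B1 t X cX cS i e).card ≤
      (univ.filter (fun v => t.K v = some i ∧ usd t X cX cS v)).card := by
  refine card_le_card_of_injOn (fun a => t.E.N a e) ?_ ?_
  · intro a ha
    have ha' := (mem_filter.1 (mem_coe.1 ha)).2
    exact mem_coe.2 (mem_filter.2 ⟨mem_univ _, ha'.2⟩)
  · intro a ha b _ hab
    have ha' := (mem_filter.1 (mem_coe.1 ha)).2
    exact t.E.uniq a b e hab ha'.1

theorem SpO_b2 (t : Td V κ) (X : V → Prop) (cX cS : V → κ) (i e : V) (he : t.K e = some i) :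
    (SpO_B2 t X cX cS i e).card ≤ t.oo e := by
  have h1 : SpO_B2 t X cX cS i e ⊆
      ((nb t.G e).filter (fun v => t.K v ≠ t.K e)).image (cd t X cX cS) := by
    intro a ha
    obtain ⟨y, h1, h2, -, h4⟩ := (mem_filter.1 ha).2
    refine mem_image.2 ⟨y, mem_filter.2 ⟨mem_filter.2 ⟨mem_univ _, h1⟩, ?_⟩, h4⟩
    rw [he]
    exact h2
  exact (card_le_card h1).trans card_image_le

theorem SpO_b3 {P : Par} {t : Td V κ} (hG : GrP P t.toGd) (cS : V → κ) {e : V} (he : t.K e ≠ none)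
    (hη : 0 < P.eta) (hδ : 0 ≤ P.delta) :
    ((SpO_B3 P t cS e).card : ℝ) ≤ 103 * P.delta * P.D / P.eta / (99 * P.eta) := by
  have h1 : SpO_B3 P t cS e ⊆ (univ.filter (fun j => t.hv P j e)).biUnion
      (fun j => (univ.filter (fun y => t.hv P j y)).image cS) := by
    intro a ha
    obtain ⟨j, y, h1, h2, -, h4⟩ := (mem_filter.1 ha).2
    exact mem_biUnion.2 ⟨j, mem_filter.2 ⟨mem_univ _, h1⟩,
      mem_image.2 ⟨y, mem_filter.2 ⟨mem_univ _, h2⟩, h4⟩⟩
  set M : ℝ := 103 * P.delta * P.D / P.eta with hM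
  have hM0 : 0 ≤ M := by positivity
  have h2 : ((SpO_B3 P t cS e).card : ℝ) ≤ ((univ.filter (fun j => t.hv P j e)).card : ℝ) * M := by
    have a1 : ((SpO_B3 P t cS e).card : ℝ) ≤
        ∑ j ∈ univ.filter (fun j => t.hv P j e),
          (((univ.filter (fun y => t.hv P j y)).image cS).card : ℝ) := by
      exact_mod_cast (card_le_card h1).trans card_biUnion_le
    refine a1.trans ?_
    rw [← nsmul_eq_mul]
    refine sum_le_card_nsmul _ _ _ fun j _ => ?_
    exact (Nat.cast_le.2 card_image_le).trans (hG.hv1 j)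
  refine h2.trans ?_
  have h3 := hG.hv3 e he
  rw [div_eq_mul_one_div M, mul_comm M]
  refine mul_le_mul_of_nonneg_right ?_ hM0
  rw [le_div_iff₀ (by positivity)]
  linarith

end spo

/-- the numbers -/
theorem SpO_num {P : Par} (h : Num10 P) : 0 < P.eta ∧ 0 ≤ P.delta ∧
    P.eps ≤ 1 / 10 ^ 4 ∧ 103 * P.delta * P.D / P.eta / (99 * P.eta) ≤ 1 / 10 ^ 4 * P.D := by
  have hX : (10 : ℝ) ^ 20 ≤ P.X := by exact_mod_cast h.X0
  set x : ℝ := (P.X : ℝ) with hx
  have hx1 : (1 : ℝ) ≤ x := le_trans (by norm_num) hX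
  have hx0 : 0 < x := lt_of_lt_of_le one_pos hx1
  have hη : 0 < P.eta := by rw [h.eta]; positivity
  have hδ : 0 ≤ P.delta := by rw [h.delta]; positivity
  have hk : ∀ k : ℕ, k ≠ 0 → 1 / x ^ k ≤ 1 / 10 ^ 20 := by
    intro k hk
    refine one_div_le_one_div_of_le (by norm_num) (hX.trans ?_)
    exact le_self_pow₀ hx1 hk
  refine ⟨hη, hδ, ?_, ?_⟩
  · rw [h.eps]
    exact (hk 15 (by norm_num)).trans (by norm_num)
  · have e1 : P.delta = 1 / x ^ 1700 * (P.eta * P.eta) := by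
      rw [h.delta, h.eta, ← hx, one_div_mul_one_div, one_div_mul_one_div, ← pow_add, ← pow_add]
    have e2 : 103 * P.delta * P.D / P.eta / (99 * P.eta) = 103 / 99 * (1 / x ^ 1700) * P.D := by
      rw [e1]
      generalize 1 / x ^ 1700 = y
      field_simp
    rw [e2]
    refine mul_le_mul_of_nonneg_right ?_ (Nat.cast_nonneg _)
    have := hk 1700 (by norm_num)
    have h2 : (103 : ℝ) / 99 * (1 / 10 ^ 20) ≤ 1 / 10 ^ 4 := by norm_num
    linarith

theorem thm_SpO (hUse : St_Use) : St_SpO := by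
  intro P V κ _ _ t X cX cS hN hB hX hS w hw
  obtain ⟨hη, hδ, heps, hnum⟩ := SpO_num hN
  obtain ⟨i, hi⟩ := Option.ne_none_iff_exists'.1 hw.1
  have hpr : t.K (t.pr w) = some i := by
    by_cases h : t.pr w = w
    · rw [h]
      exact hi
    · rw [(hB.gr.padj w h).2.1]
      exact hi
  have hKe : ∀ e, (e = w ∨ e = t.pr w) → t.K e = some i := by
    rintro e (rfl | rfl)
    · exact hi
    · exact hpr
  -- the initial set
  set A0 : Finset κ := univ.filter (fun a => a ∉ t.Q ∧ a ∉ t.mF i ∧ a ∉ t.Pb P i ∧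
    ∀ e, (e = w ∨ e = t.pr w) → t.cr e a ∧ t.E.N a e ∈ t.Rg P i ∧ ¬ t.W (t.E.N a e)) with hA0
  have hA : 24 * P.D ≤ 100 * A0.card := by
    by_cases h : t.pr w = w
    · have hir : t.Irr P w := by
        refine ⟨hw.1, ?_⟩
        rcases hw.2 with h1 | h1
        · exact absurd h h1
        · exact h1
      have h1 := hB.tk.k8' i w hi hir
      have h2 : (univ.filter (fun a => a ∉ t.Q ∧ a ∉ t.mF i ∧ a ∉ t.Pb P i ∧ t.cr w a ∧
          t.E.N a w ∈ t.Rg P i ∧ ¬ t.W (t.E.N a w))).card ≤ A0.card := by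
        refine card_le_card fun a ha => ?_
        obtain ⟨-, b1, b2, b3, b4, b5, b6⟩ := mem_filter.1 ha
        refine mem_filter.2 ⟨mem_univ _, b1, b2, b3, ?_⟩
        rintro e (rfl | rfl)
        · exact ⟨b4, b5, b6⟩
        · rw [h]
          exact ⟨b4, b5, b6⟩
      omega
    · have h1 := hB.tk.k8 i w hi h
      have h2 : (univ.filter (fun a => a ∉ t.Q ∧ a ∉ t.mF i ∧ a ∉ t.Pb P i ∧ t.cr w a ∧
          t.cr (t.pr w) a ∧ t.E.N a w ∈ t.Rg P i ∧ ¬ t.W (t.E.N a w) ∧
          t.E.N a (t.pr w) ∈ t.Rg P i ∧ ¬ t.W (t.E.N a (t.pr w)))).card ≤ A0.card := by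
        refine card_le_card fun a ha => ?_
        obtain ⟨-, b1, b2, b3, b4, b5, b6, b7, b8, b9⟩ := mem_filter.1 ha
        refine mem_filter.2 ⟨mem_univ _, b1, b2, b3, ?_⟩
        rintro e (rfl | rfl)
        · exact ⟨b4, b6, b7⟩
        · exact ⟨b5, b8, b9⟩
      omega
  -- the bad colours
  set B : V → Finset κ := fun e => SpO_B1 t X cX cS i e ∪ (SpO_B2 t X cX cS i e ∪
    SpO_B3 P t cS e) with hBd
  have hBc : ∀ e, (e = w ∨ e = t.pr w) →
      ((B e).card : ℝ) ≤ 2 * P.eps * P.D + P.D / 99 + 1 / 10 ^ 4 * P.D := by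
    intro e he
    have h0 := hKe e he
    have h1 : ((B e).card : ℝ) ≤ (SpO_B1 t X cX cS i e).card +
        ((SpO_B2 t X cX cS i e).card + (SpO_B3 P t cS e).card) := by
      exact_mod_cast (card_union_le _ _).trans (Nat.add_le_add_left (card_union_le _ _) _)
    have h2 : ((SpO_B1 t X cX cS i e).card : ℝ) ≤ 2 * P.eps * P.D :=
      (Nat.cast_le.2 (SpO_b1 t X cX cS i e)).trans (hUse P V κ t X cX cS hN hB hX hS i)
    have h3 : ((SpO_B2 t X cX cS i e).card : ℝ) ≤ P.D / 99 := by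
      have a1 : ((SpO_B2 t X cX cS i e).card : ℝ) ≤ t.oo e :=
        Nat.cast_le.2 (SpO_b2 t X cX cS i e h0)
      have a2 := hB.gr.d4 e (by rw [h0]; simp)
      have a3 : (99 : ℝ) * t.oo e ≤ P.D := by exact_mod_cast a2
      linarith
    have h4 := (SpO_b3 hB.gr cS (e := e) (by rw [h0]; simp) hη hδ).trans hnum
    linarith
  have hsub : A0 ⊆ OpS P t X cX cS w ∪ (B w ∪ B (t.pr w)) := by
    intro a ha
    obtain ⟨-, b1, b2, b3, b4⟩ := mem_filter.1 ha
    by_contra hc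
    rw [mem_union, mem_union, not_or, not_or] at hc
    obtain ⟨c1, c2, c3⟩ := hc
    apply c1
    refine mem_filter.2 ⟨mem_univ _, i, hi, b3, b1, b2, fun e he => ?_⟩
    have hBe : a ∉ B e := by
      rcases he with rfl | rfl
      · exact c2
      · exact c3
    rw [hBd] at hBe
    simp only [mem_union, not_or] at hBe
    obtain ⟨d1, d2, d3⟩ := hBe
    obtain ⟨f1, f2, f3⟩ := b4 e he
    refine ⟨f1, f2, f3, fun hu => d1 ?_, fun y y1 y2 y3 y4 => d2 ?_, fun j y y1 y2 y3 y4 => d3 ?_⟩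
    · exact mem_filter.2 ⟨mem_univ _, f1.1.1, (mem_filter.1 f2).2.1, hu⟩
    · exact mem_filter.2 ⟨mem_univ _, y, y1, y2, y3, y4⟩
    · exact mem_filter.2 ⟨mem_univ _, j, y, y1, y2, y3, y4⟩
  have hcard : (A0.card : ℝ) ≤ (OpS P t X cX cS w).card + ((B w).card + (B (t.pr w)).card) := by
    exact_mod_cast (card_le_card hsub).trans
      ((card_union_le _ _).trans (Nat.add_le_add_left (card_union_le _ _) _))
  have h1 := hBc w (Or.inl rfl)
  have h2 := hBc (t.pr w) (Or.inr rfl)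
  have h3 : (24 : ℝ) * P.D ≤ 100 * A0.card := by exact_mod_cast hA
  have hD0 : (0 : ℝ) ≤ P.D := Nat.cast_nonneg _
  have h4 : P.eps * P.D ≤ 1 / 10 ^ 4 * P.D := mul_le_mul_of_nonneg_right heps hD0
  have h5 : (21 : ℝ) * P.D ≤ 100 * (OpS P t X cX cS w).card := by
    norm_num at h1 h2 h4 ⊢
    linarith
  exact_mod_cast h5

end Pool.TCV
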