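import Pool.Agent.Helper60.TCV.StK1

/-!
# T10, section 9a: the tests of the special rows (helper82)
-/

set_option autoImplicit false
set_option linter.unusedSectionVars false

namespace Pool.TCV

open Pool.TC Pool.TCM Pool.TCS Pool.TN Finset
open scoped Classical

section spt

variable {V κ : Type} [Fintype V] [Fintype κ]

/-- the value of an end -/
private noncomputable def SpT_g (P : Par) (t : Td V κ) (i e : V) : ℕ :=
  if t.K e ≠ some i ∧ ¬ t.hv P i e then t.dk i e else 0

private theorem SpT_gle (P : Par) (t : Td V κ) (i e : V) : SpT_g P t i e ≤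
    if t.K e ≠ some i then t.dk i e else 0 := by
  unfold SpT_g
  by_cases h : t.K e ≠ some i
  · rw [if_pos h]
    split_ifs
    · exact le_rfl
    · exact Nat.zero_le _
  · rw [if_neg h, if_neg (fun h2 => h h2.1)]

private theorem SpT_glt (P : Par) (t : Td V κ) (i e : V) (h0 : 0 ≤ P.eta * P.D) :
    (SpT_g P t i e : ℝ) ≤ P.eta * P.D := by
  unfold SpT_g
  split_ifs with h
  · have h1 := h.2
    unfold Gd.hv at h1
    by_contra h2
    exact h1 ⟨h.1, le_of_lt (not_le.1 h2)⟩
  · simpa using h0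

private theorem SpT_TS (P : Par) (t : Td V κ) (j : V × κ) (w : V) (a : κ) : TS P t j w a =
    if a = j.2 then ((∑ e ∈ ({w, t.pr w} : Finset V), SpT_g P t j.1 e : ℕ) : ℝ) else 0 := rfl

private theorem SpT_nn (P : Par) (t : Td V κ) (j : V × κ) (w : V) (a : κ) :
    0 ≤ TS P t j w a := by
  rw [SpT_TS]
  split_ifs
  · exact Nat.cast_nonneg _
  · exact le_rfl

private theorem SpT_dk (t : Td V κ) (i e : V) :
    t.dk i e = ∑ v ∈ t.Ki i, if t.G.Adj v e then 1 else 0 := by
  rw [← card_filter]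
  unfold Gd.dk
  congr 1
  ext v
  simp only [nb, Gd.Ki, mem_filter, mem_univ, true_and]
  exact ⟨fun h => ⟨h.2, h.1.symm⟩, fun h => ⟨h.2.symm, h.1⟩⟩

/-- double counting -/
private theorem SpT_dc (t : Td V κ) (i : V) :
    (∑ e, if t.K e ≠ some i then t.dk i e else 0) = ∑ v ∈ t.Ki i, t.oo v := by
  have h1 : ∀ e, (if t.K e ≠ some i then t.dk i e else 0) =
      ∑ v ∈ t.Ki i, if t.K e ≠ some i ∧ t.G.Adj v e then 1 else 0 := by
    intro e
    by_cases h : t.K e ≠ some i
    · rw [if_pos h, SpT_dk]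
      refine sum_congr rfl fun v _ => ?_
      by_cases h2 : t.G.Adj v e
      · rw [if_pos h2, if_pos ⟨h, h2⟩]
      · rw [if_neg h2, if_neg (fun h3 => h2 h3.2)]
    · rw [if_neg h]
      symm
      refine sum_eq_zero fun v _ => ?_
      rw [if_neg (fun h3 => h h3.1)]
  rw [sum_congr rfl fun e _ => h1 e, sum_comm]
  refine sum_congr rfl fun v hv => ?_
  have hk : t.K v = some i := (mem_filter.1 hv).2
  rw [← card_filter]
  unfold Gd.oo
  congr 1
  ext e
  simp only [nb, mem_filter, mem_univ, true_and, hk]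
  exact ⟨fun h => ⟨h.2, h.1⟩, fun h => ⟨h.2, h.1⟩⟩

private theorem SpT_rp {t : Td V κ} {w : V} (h : rp t w = w) :
    Fintype.equivFin V w ≤ Fintype.equivFin V (t.pr w) := by
  by_contra h1
  unfold rp at h
  rw [if_neg h1] at h
  apply h1
  rw [h]

/-- different nodes have disjoint sets of ends -/
private theorem SpT_dj {P : Par} {t : Td V κ} (hG : GrP P t.toGd) :
    ((US P t : Finset V) : Set V).PairwiseDisjoint (fun w => ({w, t.pr w} : Finset V)) := by
  intro w hw w' hw' hne
  have h1 := SpT_rp (mem_filter.1 (mem_coe.1 hw)).2.2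
  have h2 := SpT_rp (mem_filter.1 (mem_coe.1 hw')).2.2
  refine disjoint_left.2 fun e he he' => ?_
  simp only [mem_insert, mem_singleton] at he he'
  have key : w = t.pr w' → False := by
    intro h
    have h3 : t.pr w = w' := by rw [h]; exact hG.pinv w'
    rw [h3] at h1
    rw [← h] at h2
    exact hne ((Fintype.equivFin V).injective (le_antisymm h1 h2))
  have key' : w' = t.pr w → False := by
    intro h
    apply key
    rw [h]
    exact (hG.pinv w).symm
  rcases he with rfl | rfl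
  · rcases he' with h | h
    · exact hne h
    · exact key h
  · rcases he' with h | h
    · exact key' h.symm
    · apply hne
      rw [← hG.pinv w, h]
      exact hG.pinv w'

/-- a nonzero value gives a neighbour in the cluster -/
private theorem SpT_ex {P : Par} {t : Td V κ} {j : V × κ} {w : V} {a : κ}
    (h : TS P t j w a ≠ 0) : ∃ e v, (e = w ∨ e = t.pr w) ∧ t.G.Adj e v ∧ t.K v = some j.1 := by
  rw [SpT_TS] at h
  by_cases ha : a = j.2
  · rw [if_pos ha] at h
    have h1 : (∑ e ∈ ({w, t.pr w} : Finset V), SpT_g P t j.1 e) ≠ 0 := by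
      intro h2
      rw [h2] at h
      exact h Nat.cast_zero
    obtain ⟨e, he, h2⟩ := exists_ne_zero_of_sum_ne_zero h1
    simp only [mem_insert, mem_singleton] at he
    have h3 : t.dk j.1 e ≠ 0 := by
      intro h4
      apply h2
      unfold SpT_g
      rw [h4]
      simp
    obtain ⟨v, hv⟩ := card_ne_zero.1 h3
    have h5 := mem_filter.1 hv
    exact ⟨e, v, he, (mem_filter.1 h5.1).2, h5.2⟩
  · rw [if_neg ha] at h
    exact absurd rfl h

end spt

/-- the numbers -/
private theorem SpT_num {P : Par} (h : Num10 P) : 0 ≤ P.eta * P.D ∧ 102 * P.delta ≤ 1 := by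
  have hX : (10 : ℝ) ^ 20 ≤ P.X := by exact_mod_cast h.X0
  set x : ℝ := (P.X : ℝ) with hx
  have hx1 : (1 : ℝ) ≤ x := le_trans (by norm_num) hX
  have hx0 : 0 < x := lt_of_lt_of_le one_pos hx1
  refine ⟨?_, ?_⟩
  · rw [h.eta]
    positivity
  · rw [h.delta]
    have h1 : 1 / x ^ 4900 ≤ 1 / 10 ^ 20 := by
      refine one_div_le_one_div_of_le (by norm_num) (hX.trans ?_)
      exact le_self_pow₀ hx1 (by norm_num)
    rw [← hx]
    have h2 : (1 : ℝ) / 10 ^ 20 ≤ 1 / 102 := by norm_num
    linarith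

theorem thm_SpT : St_SpT := by
  intro P V κ _ _ t L hN hB
  obtain ⟨hη, hδ⟩ := SpT_num hN
  have hG := hB.gr
  have hKi : ∀ i, (t.Ki i).card ≤ 2 * P.D + 1 := by
    intro i
    have h1 := hG.k2 i
    have h2 : 102 * P.delta * P.D ≤ 1 * P.D := mul_le_mul_of_nonneg_right hδ (Nat.cast_nonneg _)
    have h3 : ((t.Ki i).card : ℝ) ≤ 2 * P.D + 1 := by linarith
    exact_mod_cast h3
  refine ⟨fun j w a => ⟨SpT_nn P t j w a, ?_⟩, fun j => ?_, fun j => ?_, fun w hw => ?_⟩
  · -- values
    rw [SpT_TS]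
    split_ifs with ha
    · have h1 : ((∑ e ∈ ({w, t.pr w} : Finset V), SpT_g P t j.1 e : ℕ) : ℝ) ≤
          (({w, t.pr w} : Finset V).card : ℝ) * (P.eta * P.D) := by
        rw [Nat.cast_sum, ← nsmul_eq_mul]
        exact sum_le_card_nsmul _ _ _ fun e _ => SpT_glt P t j.1 e hη
      have h2 : (({w, t.pr w} : Finset V).card : ℝ) ≤ 2 := by exact_mod_cast card_le_two
      have h3 := mul_le_mul_of_nonneg_right h2 hη
      linarith
    · linarith
  · -- totals
    have h1 : ∀ w ∈ US P t, (∑ a ∈ L w, TS P t j w a) ≤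
        ((∑ e ∈ ({w, t.pr w} : Finset V), SpT_g P t j.1 e : ℕ) : ℝ) := by
      intro w _
      simp only [SpT_TS]
      rw [sum_ite_eq' (L w) j.2]
      split_ifs
      · exact le_rfl
      · exact Nat.cast_nonneg _
    refine (sum_le_sum h1).trans ?_
    have h2 : (∑ w ∈ US P t, ∑ e ∈ ({w, t.pr w} : Finset V), SpT_g P t j.1 e) ≤
        ∑ v ∈ t.Ki j.1, t.oo v := by
      rw [← sum_biUnion (SpT_dj hG), ← SpT_dc]
      refine (sum_le_sum fun e _ => SpT_gle P t j.1 e).trans ?_
      exact sum_le_sum_of_subset (subset_univ _)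
    have h3 := hG.d5 j.1
    have h4 : ((∑ w ∈ US P t, ∑ e ∈ ({w, t.pr w} : Finset V), SpT_g P t j.1 e : ℕ) : ℝ) ≤
        ∑ v ∈ t.Ki j.1, (t.oo v : ℝ) := by exact_mod_cast h2
    have h5 : (∑ w ∈ US P t, ((∑ e ∈ ({w, t.pr w} : Finset V), SpT_g P t j.1 e : ℕ) : ℝ)) =
        ((∑ w ∈ US P t, ∑ e ∈ ({w, t.pr w} : Finset V), SpT_g P t j.1 e : ℕ) : ℝ) := by
      push_cast
      rfl
    rw [h5]
    exact h4.trans h3
  · -- support of a test
    set M : Finset V := (t.Ki j.1).biUnion (fun v => nb t.G v) with hM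
    have hMc : M.card ≤ (t.Ki j.1).card * P.D := by
      refine card_biUnion_le_card_mul _ _ _ fun v _ => ?_
      rw [hG.reg v]
    have hsub : (US P t).filter (fun w => ∃ a ∈ L w, TS P t j w a ≠ 0) ⊆ M ∪ M.image t.pr := by
      intro w hw
      obtain ⟨a, -, ha⟩ := (mem_filter.1 hw).2
      obtain ⟨e, v, he, hev, hv⟩ := SpT_ex ha
      have hm : e ∈ M := mem_biUnion.2 ⟨v, mem_filter.2 ⟨mem_univ _, hv⟩,
        mem_filter.2 ⟨mem_univ _, hev.symm⟩⟩
      rcases he with rfl | rfl
      · exact mem_union_left _ hm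
      · exact mem_union_right _ (mem_image.2 ⟨_, hm, hG.pinv w⟩)
    have h1 := (card_le_card hsub).trans (card_union_le _ _)
    have h2 : (M.image t.pr).card ≤ M.card := card_image_le
    have h3 := Nat.mul_le_mul_right P.D (hKi j.1)
    have h4 : ((US P t).filter (fun w => ∃ a ∈ L w, TS P t j w a ≠ 0)).card ≤
        2 * ((2 * P.D + 1) * P.D) := by omega
    refine h4.trans ?_
    nlinarith [Nat.zero_le P.D, Nat.zero_le (P.D ^ 2), Nat.zero_le (P.D ^ 3),
      Nat.zero_le (P.D ^ 4)]
  · -- tests of a node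
    set M : Finset V := (nb t.G w ∪ nb t.G (t.pr w)).image (fun v => (t.K v).getD v) with hM
    have hMc : M.card ≤ P.D + P.D := by
      refine card_image_le.trans ((card_union_le _ _).trans ?_)
      rw [hG.reg, hG.reg]
    have hsub : univ.filter (fun j : V × κ => ∃ a ∈ L w, TS P t j w a ≠ 0) ⊆
        M ×ˢ (univ : Finset κ) := by
      intro j hj
      obtain ⟨a, -, ha⟩ := (mem_filter.1 hj).2
      obtain ⟨e, v, he, hev, hv⟩ := SpT_ex ha
      refine mem_product.2 ⟨mem_image.2 ⟨v, ?_, ?_⟩, mem_univ _⟩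
      · rcases he with rfl | rfl
        · exact mem_union_left _ (mem_filter.2 ⟨mem_univ _, hev⟩)
        · exact mem_union_right _ (mem_filter.2 ⟨mem_univ _, hev⟩)
      · simp only [hv, Option.getD_some]
    have h1 := card_le_card hsub
    rw [card_product, card_univ, hB.ed.col] at h1
    have h2 := Nat.mul_le_mul_right (P.D + 1) hMc
    have h3 := h1.trans h2
    refine h3.trans ?_
    nlinarith [Nat.zero_le P.D, Nat.zero_le (P.D ^ 2), Nat.zero_le (P.D ^ 3),
      Nat.zero_le (P.D ^ 4)]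

end Pool.TCV
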