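import Pool.Agent.Helper3.TCT.Defs

/-!
# T10 (`Δ + 3` for all graphs of large maximum degree): general tools

`St_Grp` (grouping of small weights), `St_SmpP`, `St_Samp` (random samples and a transversal),
`St_Mom` (second moments).  Paper proof: TC10_helper93.md, sections 6', 7c, 9d.
Namespace `Pool.TCV`; theorem `thm_X : St_X` in the file named in the docstring.
-/

set_option autoImplicit false

namespace Pool.TCV

open Pool.TC Pool.TCM Pool.TCS Pool.TCT Finset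
open scoped Classical

/-- GRP (file `Helper60/TCV/Grp.lean`). Small weights are grouped into `N` disjoint blocks of weight
at least `t`, if the total weight is at least `(2 N - 1) t`.

Proof. Induction on `N` (for all `J`). `N = 0`: the empty family. `N + 1`: if `t = 0` then `J` is
empty by `hx` and `Γ k = ∅` works. Let `t > 0`. The hypothesis gives `t ≤ ∑ a ∈ J, x a`. Take a
minimal (for inclusion) subset `A` of `J` with `t ≤ ∑ a ∈ A, x a` (`Finset.exists_minimal` or strong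
induction on the cardinality). `A` is not empty (`t > 0`); for `b ∈ A` the set `A.erase b` has weight
`< t` and `x b < t`, so `A` has weight `≤ 2 t - 2 < 2 t`. So `J \ A` has weight
`≥ (2 (N + 1) - 1) t - 2 t = (2 N - 1) t`, i.e. `2 * N * t ≤ (∑ a ∈ J \ A, x a) + t`; the induction
hypothesis gives `Γ'` for `J \ A`; put `Γ 0 = A`, `Γ (k + 1) = Γ' k` (`Fin.cons`). -/
def St_Grp : Prop := ∀ (κ : Type) (J : Finset κ) (x : κ → ℕ) (t N : ℕ),
  (∀ a ∈ J, x a < t) → 2 * N * t ≤ (∑ a ∈ J, x a) + t →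
  ∃ Γ : Fin N → Finset κ, (∀ k, Γ k ⊆ J) ∧ (∀ k k', k ≠ k' → Disjoint (Γ k) (Γ k')) ∧
    ∀ k, t ≤ ∑ a ∈ Γ k, x a

/-- GRP2 (file `Helper60/TCV/Grp2.lean`; this form is the one which is used, not `St_Grp`). Weights
`≤ M` are grouped into `N` disjoint blocks of weight at least `t`, if `2 t ≤ M` and the total weight
is at least `(N - 1) M + t`.

Proof. Induction on `N` (for all `J`). `N = 0`: the empty family. `N + 1`: the hypothesis says
`N * M + t ≤ ∑ a ∈ J, x a`, in particular `t ≤ ∑ a ∈ J, x a`. Take a subset `A` of `J` with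
`t ≤ ∑ a ∈ A, x a` which is minimal for inclusion (or of minimal cardinality). Its weight is at most
`M`: if `A` is empty the weight is `0`; if `A = {b}` it is `x b ≤ M`; otherwise, for `b ∈ A` there is
`b' ∈ A`, `b' ≠ b`, so `x b ≤ ∑ a ∈ A.erase b', x a < t`, and
`∑ a ∈ A, x a = x b + ∑ a ∈ A.erase b, x a < t + t ≤ M`. So `J \ A` has weight `≥ N * M + t - M`; the
induction hypothesis gives `Γ'` for `J \ A`; put `Γ 0 = A`, `Γ (k + 1) = Γ' k` (`Fin.cons`). -/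
def St_Grp2 : Prop := ∀ (κ : Type) (J : Finset κ) (x : κ → ℕ) (M t N : ℕ),
  (∀ a ∈ J, x a ≤ M) → 2 * t ≤ M → N * M + t ≤ (∑ a ∈ J, x a) + M →
  ∃ Γ : Fin N → Finset κ, (∀ k, Γ k ⊆ J) ∧ (∀ k k', k ≠ k' → Disjoint (Γ k) (Γ k')) ∧
    ∀ k, t ≤ ∑ a ∈ Γ k, x a

/-- SMPP (file `Helper60/TCV/SmpP.lean`). The sum of a weight over `4 q` independent uniform samples
for every `u ∈ U`.

Proof. `St_BernL` with `T = I × Fin (4 * q)`, `A = Fin l` (nonempty since `0 < l`), the function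
`F t i = if t.1 ∈ U then f t.1 (e t.1 i) else 0`, `c = mf`, `W = 4 q mf nf / l + Lam mf ^ 2`.
`0 ≤ nf` (it bounds a sum of nonnegative terms). `Lam * c ^ 2 ≤ W` is clear. `|F t i| ≤ mf` by `hf`
(`e t.1 i ∈ L t.1` by `he`). For `u ∈ U` the map `e u : Fin l → A` is injective with image `L u`, so
`∑ i, f u (e u i) = ∑ a ∈ L u, f u a` (`Finset.sum_nbij` / `sum_image`); hence
`∑ t, ∑ i, F t i = 4 q ∑ u ∈ U, ∑ a ∈ L u, f u a ≤ 4 q nf` (`Fintype.sum_prod_type`, the second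
coordinate does not matter), and `∑ t, ∑ i, F t i ^ 2 ≤ mf ∑ t, ∑ i, F t i ≤ 4 q mf nf ≤ W * l`.
The event of the statement is contained in the event of `St_BernL` because
`(∑ t, ∑ i, F t i) / l ≤ 4 q nf / l`. -/
def St_SmpP : Prop := ∀ (I A : Type) [Fintype I] [Fintype A] (U : Finset I) (L : I → Finset A)
  (l q : ℕ) (e : I → Fin l → A) (f : I → A → ℝ) (mf nf Lam : ℝ), 0 < l →
  (∀ u ∈ U, Function.Injective (e u)) → (∀ u ∈ U, ∀ a, a ∈ L u ↔ ∃ i, e u i = a) →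
  (∀ u ∈ U, ∀ a ∈ L u, 0 ≤ f u a ∧ f u a ≤ mf) → 0 < mf → (∑ u ∈ U, ∑ a ∈ L u, f u a) ≤ nf →
  1 ≤ Lam →
  ((univ.filter (fun ω : I × Fin (4 * q) → Fin l => 4 * q * nf / l +
    3 * Real.sqrt ((4 * q * mf * nf / l + Lam * mf ^ 2) * Lam) ≤
      ∑ t : I × Fin (4 * q), if t.1 ∈ U then f t.1 (e t.1 (ω t)) else 0)).card : ℝ) ≤
    Real.exp (-Lam) * Fintype.card (I × Fin (4 * q) → Fin l)

/-- SAMP (file `Helper60/TCV/Samp.lean`). Choice of one option in every list without conflicts, if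
every option conflicts with at most `l / 8` options of other lists; sums of tests over the chosen
options are controlled up to the factor `4 q`.

Proof. Enumerate the lists: `e u : Fin l → A` injective with image `L u` for `u ∈ U`
(`Finset.equivFinOfCardEq`, arbitrary otherwise). Apply `St_LLL0` with `T = I × Fin (4 * q)`,
`A = Fin l`, the index type `(I × A) ⊕ J` of events and `p = exp (-Lam)`:
* `inl (u, a)`: `u ∈ U`, `a ∈ L u` and
  `q ≤ ∑ t, if t.1 ∈ U then (if t.1 ≠ u ∧ cf u a t.1 (e t.1 (ω t)) then 1 else 0) else 0`;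
  coordinates `{t | t.1 ∈ U, t.1 ≠ u, ∃ b ∈ L t.1, cf u a t.1 b}` (empty if `u ∉ U` or `a ∉ L u`), at
  most `(l / 8) * 4 q ≤ N ^ 2` of them.
* `inr j`: `4 q nT j / l + 3 √(..) ≤ ∑ t, if t.1 ∈ U then T j t.1 (e t.1 (ω t)) else 0`; coordinates
  `{t | t.1 ∈ U, ∃ a ∈ L t.1, T j t.1 a ≠ 0}`, at most `N * 4 q ≤ N ^ 2` of them.
Probabilities: `inr j` is `St_SmpP` with `f = T j`. `inl (u, a)` is `St_SmpP` with
`f w b = if w ≠ u ∧ cf u a w b then 1 else 0`, `mf = 1`, `nf = l / 8` (real): the threshold is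
`q / 2 + 3 √((q / 2 + Lam) Lam) ≤ q` because `Lam ≤ q / 25`: `(q/2 + q/25) q / 25 = 0.0216 q ^ 2` and
`3 √0.0216 < 0.45`.
Dependencies: a coordinate `t = (w, k)` with `w ∈ U` lies in the set of `inl (u, a)` only if
`u ∈ U`, `a ∈ L u`, `u ≠ w` and `cf w b u a` for some `b ∈ L w`: at most `l * (l / 8) ≤ N ^ 2` pairs
`(u, a)`; and in the set of `inr j` for at most `N` indices `j`. So an event meets at most
`N ^ 2 (N ^ 2 + N) ≤ 2 N ^ 4` others (bound the number of `j'` by a sum over the coordinates), and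
`4 exp (-Lam) (2 N ^ 4 + 1) ≤ 1` by hypothesis.
So there is `ω` without bad events. Let `o t := e t.1 (ω t)`. Apply
`Pool.Agent.Helper45.Vu.exists_transversal` (file `Pool/Agent/Helper45/Vu/IT.lean`; constant 4) to the
graph on `I × Fin (4 * q)` in which `t`, `t'` are adjacent iff `t.1 ∈ U`, `t'.1 ∈ U`, `t.1 ≠ t'.1` and
`cf t.1 (o t) t'.1 (o t')` (symmetric by hypothesis), parts `P u = {t | t.1 = u}` (`4 q` elements),
`S = U`, `D = q > 0`. The degree of `(u, k)` into the other parts is `< q` since `inl (u, o (u, k))`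
does not happen. Result `t : I → I × Fin (4 * q)`, `(t u).1 = u`; put `c u = o (t u)` for `u ∈ U`
(arbitrary otherwise; if `U` is empty use `Nonempty A`). Then `c u ∈ L u`, no conflicts, and
`∑ u ∈ U, T j u (c u) ≤ ∑ t, if t.1 ∈ U then T j t.1 (o t) else 0` (nonnegative terms, the chosen
samples are different coordinates), which is smaller than the threshold. -/
def St_Samp : Prop := ∀ (I A J : Type) [Fintype I] [Fintype A] [Fintype J] [Nonempty A]
  (U : Finset I) (L : I → Finset A) (cf : I → A → I → A → Prop) (T : J → I → A → ℝ)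
  (mT nT : J → ℝ) (l q N : ℕ) (Lam : ℝ),
  (∀ u ∈ U, (L u).card = l) → 0 < l → l ≤ N → 4 * q ≤ N →
  (∀ u a w b, cf u a w b → cf w b u a) →
  (∀ u ∈ U, ∀ a ∈ L u, 8 * (univ.filter (fun p : I × A => p.1 ∈ U ∧ p.1 ≠ u ∧ p.2 ∈ L p.1 ∧
    cf u a p.1 p.2)).card ≤ l) →
  (∀ j, ∀ u ∈ U, ∀ a ∈ L u, 0 ≤ T j u a ∧ T j u a ≤ mT j) → (∀ j, 0 < mT j) →
  (∀ j, (∑ u ∈ U, ∑ a ∈ L u, T j u a) ≤ nT j) →
  (∀ j, (U.filter (fun u => ∃ a ∈ L u, T j u a ≠ 0)).card ≤ N) →
  (∀ u ∈ U, (univ.filter (fun j => ∃ a ∈ L u, T j u a ≠ 0)).card ≤ N) →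
  1 ≤ Lam → 25 * Lam ≤ q → 4 * Real.exp (-Lam) * (2 * (N : ℝ) ^ 4 + 1) ≤ 1 →
  ∃ c : I → A, (∀ u ∈ U, c u ∈ L u) ∧ (∀ u ∈ U, ∀ w ∈ U, u ≠ w → ¬ cf u (c u) w (c w)) ∧
    ∀ j, (∑ u ∈ U, T j u (c u)) ≤ 4 * q * nT j / l +
      3 * Real.sqrt ((4 * q * mT j * nT j / l + Lam * (mT j) ^ 2) * Lam)

/-- MOM (file `Helper60/TCV/Mom.lean`). Second moments: if the sets `{a ∈ Q | R y a}`, `y ∈ T`, have
about `p |Q|` elements and the pairwise intersections at most about `p ^ 2 |Q|`, then almost all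
`a ∈ Q` lie in at least `p |T| / 2` of them.

Proof. `X a := #{y ∈ T | R y a}`, `M := p |T|`. `∑ a ∈ Q, X a = ∑ y ∈ T, #{a ∈ Q | R y a} ≥
|T| (p |Q| - e1)` and `∑ a ∈ Q, X a ^ 2 = ∑ y y' ∈ T, #{a ∈ Q | R y a ∧ R y' a} ≤ |T| |Q| +
|T| ^ 2 (p ^ 2 |Q| + e2)` (the terms `y = y'` are at most `|Q|`; for the others use the
hypothesis, `p ^ 2 |Q| + e2 ≥ 0` if there is a pair `y ≠ y'`; if `|T| = 1` only the diagonal occurs
and `p ^ 2 |Q| + e2 ≥ 0` by `0 ≤ e2`). Hence `∑ a ∈ Q, (X a - M) ^ 2 = ∑ X ^ 2 - 2 M ∑ X + |Q| M ^ 2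
≤ |T| |Q| + |T| ^ 2 (e2 + 2 p e1)`. Every bad `a` (`2 X a < M`) contributes at least `M ^ 2 / 4`. -/
def St_Mom : Prop := ∀ (Y κ : Type) (T : Finset Y) (Q : Finset κ) (R : Y → κ → Prop)
  (p e1 e2 : ℝ), 0 < p → 0 < T.card → 0 ≤ e1 → 0 ≤ e2 →
  (∀ y ∈ T, p * Q.card - e1 ≤ ((Q.filter (fun a => R y a)).card : ℝ)) →
  (∀ y ∈ T, ∀ y' ∈ T, y ≠ y' → ((Q.filter (fun a => R y a ∧ R y' a)).card : ℝ) ≤
    p ^ 2 * Q.card + e2) →
  ((Q.filter (fun a => 2 * ((T.filter (fun y => R y a)).card : ℝ) < p * T.card)).card : ℝ) ≤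
    4 * Q.card / (p ^ 2 * T.card) + 4 * (e2 + 2 * p * e1) / p ^ 2

end Pool.TCV
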