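import Pool.Agent.Helper3.TCV.Defs
import Pool.Agent.Helper60.TCV.StT

/-!
# T10, section 9a (the special rows): statements with proofs

The special rows (`t.Sp P w`: ends of pairs and irregular rows) are coloured by `St_Samp`.  Nodes are
the representatives of the pairs `{w, t.pr w}` (one element if `t.pr w = w`), options are colours.
Namespace `Pool.TCV`; theorem `thm_X : St_X` in the file named in the docstring.

General remarks for all proofs: `g.K w = some i` implies `g.K i = some i` (`GrP.rt`); a cluster with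
`g.K i ≠ some i` is empty. `t.Sp P (t.pr w) ↔ t.Sp P w` if `t.pr w ≠ w` (`pinv`, `padj`), so
`t.Sp P w` gives `t.Sp P (t.pr w)` and `t.K (t.pr w) = t.K w` in all cases. `t.Rg P i`, `t.Spi P i`
partition `t.Ki i`. Rows of `X` and free rows `F0` of clusters are regular (`XP.row`; `AcP.f0` and the
definition of `cand`). If `t.cr e a` then `N_a e ≠ e`, and `N_a e = N_b e` gives `a = b` (`EC.uniq`);
`N_a (N_a e) = e` (`EC.inv`).
-/

set_option autoImplicit false

namespace Pool.TCV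

open Pool.TC Pool.TCM Pool.TCS Pool.TN Finset
open scoped Classical

section k1

variable {V κ : Type} [Fintype V] [Fintype κ]

/-- vertices of `S`, rows of `X` and free rows -/
def Cd (t : Td V κ) (X : V → Prop) (y : V) : Prop := t.K y = none ∨ X y ∨ t.F0 y

/-- their colours -/
noncomputable def cd (t : Td V κ) (X : V → Prop) (cX cS : V → κ) (y : V) : κ :=
  if t.K y = none then cS y else if X y then cX y else t.m y

/-- the used columns: columns of `U` and of `X` -/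
def usd (t : Td V κ) (X : V → Prop) (cX cS : V → κ) (v : V) : Prop :=
  (∃ x, t.U x ∧ t.E.N (cS x) x = v) ∨ colX t X cX v

/-- representative of the pair `{w, t.pr w}` -/
noncomputable def rp (t : Td V κ) (w : V) : V :=
  if Fintype.equivFin V w ≤ Fintype.equivFin V (t.pr w) then w else t.pr w

/-- the nodes -/
noncomputable def US (P : Par) (t : Td V κ) : Finset V :=
  univ.filter (fun w => t.Sp P w ∧ rp t w = w)

/-- the colours which are possible for `w` and for `t.pr w` -/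
noncomputable def OpS (P : Par) (t : Td V κ) (X : V → Prop) (cX cS : V → κ) (w : V) : Finset κ :=
  univ.filter (fun a => ∃ i, t.K w = some i ∧ a ∉ t.Pb P i ∧ a ∉ t.Q ∧ a ∉ t.mF i ∧
    ∀ e, (e = w ∨ e = t.pr w) → t.cr e a ∧ t.E.N a e ∈ t.Rg P i ∧ ¬ t.W (t.E.N a e) ∧
      ¬ usd t X cX cS (t.E.N a e) ∧
      (∀ y, t.G.Adj e y → t.K y ≠ some i → Cd t X y → cd t X cX cS y ≠ a) ∧
      (∀ j y, t.hv P j e → t.hv P j y → t.K y = none → cS y ≠ a))

/-- conflicts of the cells `(w, a)`, `(w', a')` of different nodes -/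
def cfS (P : Par) (t : Td V κ) (w : V) (a : κ) (w' : V) (a' : κ) : Prop :=
  (t.K w = t.K w' ∧ a = a') ∨ ∃ e e', (e = w ∨ e = t.pr w) ∧ (e' = w' ∨ e' = t.pr w') ∧
    (t.E.N a e = t.E.N a' e' ∨ (a = a' ∧ (t.G.Adj e e' ∨ ∃ j, t.hv P j e ∧ t.hv P j e')))

/-- the tests `(i, b)` -/
noncomputable def TS (P : Par) (t : Td V κ) (j : V × κ) (w : V) (a : κ) : ℝ :=
  if a = j.2 then ((∑ e ∈ ({w, t.pr w} : Finset V),
    if t.K e ≠ some j.1 ∧ ¬ t.hv P j.1 e then t.dk j.1 e else 0 : ℕ) : ℝ) else 0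

/-- Section 9a: the colours `cZ` of the special rows. -/
structure SpP (P : Par) (t : Td V κ) (X : V → Prop) (cX cS cZ : V → κ) : Prop where
  z0 : ∀ w, t.Sp P w → cZ (t.pr w) = cZ w
  z1 : ∀ w w', t.Sp P w → t.Sp P w' → t.K w = t.K w' → cZ w = cZ w' → w' = w ∨ w' = t.pr w
  z2 : ∀ i w, t.Sp P w → t.K w = some i → cZ w ∉ t.Pb P i ∧ cZ w ∉ t.Q ∧ cZ w ∉ t.mF i
  z3 : ∀ i w, t.Sp P w → t.K w = some i → t.cr w (cZ w) ∧ t.E.N (cZ w) w ∈ t.Rg P i ∧
    ¬ t.W (t.E.N (cZ w) w) ∧ ¬ usd t X cX cS (t.E.N (cZ w) w)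
  z4 : ∀ w w', t.Sp P w → t.Sp P w' → t.E.N (cZ w) w = t.E.N (cZ w') w' → w = w'
  z5 : ∀ w y, t.Sp P w → t.G.Adj w y → t.K y ≠ t.K w → Cd t X y → cd t X cX cS y ≠ cZ w
  z6 : ∀ w w', t.Sp P w → t.Sp P w' → t.G.Adj w w' → t.K w ≠ t.K w' → cZ w ≠ cZ w'
  z7 : ∀ j w w', t.hv P j w → t.hv P j w' → t.Sp P w → t.Sp P w' → cZ w = cZ w' →
    w' = w ∨ w' = t.pr w
  z8 : ∀ j w y, t.hv P j w → t.hv P j y → t.Sp P w → t.K y = none → cS y ≠ cZ w
  z9 : ∀ i b, ((∑ x ∈ univ.filter (fun x => t.Sp P x ∧ t.K x ≠ some i ∧ ¬ t.hv P i x ∧ cZ x = b),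
    t.dk i x : ℕ) : ℝ) ≤ P.eps * P.D

end k1

/-- USE (file `Helper60/TCV/Use.lean`). Few columns of a cluster are used.

Proof. The set is contained in the union of (1) the image of
`{x | t.U x ∧ t.K (N_{cS x} x) = some i}` under `x ↦ N_{cS x} x`, at most `eps D` elements (`SP.q1`), and
(2) the image of `{w | t.K w = some i ∧ X w}` under `w ↦ N_{cX w} w`, at most `pmax D ≤ eps D` elements
(`XP.x7`; `pmax = 103 delta / theta = 103 X ^ (-4886) ≤ X ^ (-15) = eps`): if `colX t X cX v` with the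
row `w` then `w ∈ t.W1 P j (cX w) ⊆ t.W0 P j (cX w)`, `t.K w = some j` (`XP.row`, `x1`), so `v = w`
(fixed cell) or `t.K v = some j`; in both cases `t.K v = t.K w`. -/
def St_Use : Prop := ∀ (P : Par) (V κ : Type) [Fintype V] [Fintype κ] (t : Td V κ)
  (X : V → Prop) (cX cS : V → κ), Num10 P → Bse P t → XP P t X cX → SP P t X cX cS →
  ∀ i, ((univ.filter (fun v => t.K v = some i ∧ usd t X cX cS v)).card : ℝ) ≤
    2 * P.eps * P.D

/-- SPO (file `Helper60/TCV/SpO.lean`, `thm_SpO (hUse : St_Use) : St_SpO`). Number of options.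

Proof. Let `t.K w = some i`, `E = {w, t.pr w}`. If `t.pr w ≠ w` take the set `A0` of `TaK.k8` (`x = w`);
otherwise `t.Irr P w` and `A0` is the set of `TaK.k8'`. `|A0| ≥ 0.24 D`. Remove the colours `a` for
which for some `e ∈ E`: (1) `N_a e` is used: `a ↦ N_a e` is injective on the colours with `t.cr e a`, the
values lie in `t.Rg P i`, so at most `2 eps D` for every `e` (`St_Use`); (2) `a = cd y` for a neighbour
`y` of `e` with `t.K y ≠ some i`: at most `t.oo e ≤ D / 99` (`d4`); (3) `a = cS y` with `t.hv P j e`,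
`t.hv P j y` for some `j`: at most `#{j | hv j e} * max #{y | hv j y} ≤ 1 / (99 eta) * 103 delta D / eta`
(`hv3`, `hv1`; `delta / eta ^ 2 = X ^ (-1700)`). What is left has at least
`0.24 D - 4 eps D - 2 D / 99 - 3 delta D / eta ^ 2 ≥ 0.21 D` elements and is contained in `OpS`. -/
def St_SpO : Prop := ∀ (P : Par) (V κ : Type) [Fintype V] [Fintype κ] (t : Td V κ)
  (X : V → Prop) (cX cS : V → κ), Num10 P → Bse P t → XP P t X cX → SP P t X cX cS →
  ∀ w, t.Sp P w → 21 * P.D ≤ 100 * (OpS P t X cX cS w).card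

/-- SPC (file `Helper60/TCV/SpC.lean`). Number of conflicts of a cell.

Proof. Let `t.K w = some i`. A counted pair `(w', a')` has `w' = rp t w'`, so `w' = rp t e'` for both
ends `e'` of `w'`. Cases: (A) `t.K w' = t.K w`, `a' = a`: at most `|Spi i|`. (B) `N_a e = N_{a'} e' = v`:
`v ∈ Rg i` by `a ∈ OpS w`, and `v ∈ Rg i'` with `t.K w' = some i'`, so `i' = i`; for given `e` (two
possibilities) and `e' ∈ Spi i` the colour `a'` is determined by `N_{a'} e' = v ≠ e'`: at most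
`2 |Spi i|`. (C) `a = a'`, `e ~ e'`, `t.K e' ≠ t.K e` (otherwise case (A)): at most
`oo w + oo (pr w) ≤ 2 D / 99` (`d4`). (D) `a = a'`, `hv j e`, `hv j e'`: for every `e` at most
`#{j | hv j e} * 103 delta D / eta ≤ 1 / (99 eta) * 103 delta D / eta` (`hv3`, `hv1`). With
`|Spi i| ≤ 104 delta D / eta`: total at most `312 delta D / eta + 2 D / 99 + 3 delta D / eta ^ 2`. -/
def St_SpC : Prop := ∀ (P : Par) (V κ : Type) [Fintype V] [Fintype κ] (t : Td V κ)
  (X : V → Prop) (cX cS : V → κ), Num10 P → Bse P t → ∀ w ∈ US P t, ∀ a ∈ OpS P t X cX cS w,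
  ((univ.filter (fun p : V × κ => p.1 ∈ US P t ∧ p.1 ≠ w ∧ p.2 ∈ OpS P t X cX cS p.1 ∧
    cfS P t w a p.1 p.2)).card : ℝ) ≤
    312 * P.delta * P.D / P.eta + 2 * P.D / 99 + 3 * P.delta * P.D / P.eta ^ 2

/-- SPT (file `Helper60/TCV/SpT.lean`). The tests.

Proof. (1) `0 ≤ TS` clear; `dk i e < eta D` for every `e` in the inner sum (`¬ hv i e`, `K e ≠ some i`),
at most two terms. (2) For every node `w` only the option `a = j.2` counts; different nodes have
disjoint sets of ends; so the sum is at most `∑ e, [K e ≠ none, K e ≠ some i] dk i e ≤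
#{(v, e) : v ∈ Ki i, e ∈ nb v, K e ≠ K v} = ∑ v ∈ Ki i, oo v ≤ 103 delta D ^ 2` (`d5`). (3) A node with a
nonzero value has an end `e` with `dk i e ≠ 0`, i.e. `e` is a neighbour of a vertex of `Ki i`: at most
`2 |Ki i| D ≤ 4 (D + 1) D` nodes (`k2`). (4) For a node `w`: `j.1 = i` only if a neighbour of `w` or of
`pr w` lies in `Ki i`: at most `2 D` values, and `D + 1` values of `j.2`. -/
def St_SpT : Prop := ∀ (P : Par) (V κ : Type) [Fintype V] [Fintype κ] (t : Td V κ)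
  (L : V → Finset κ), Num10 P → Bse P t →
  (∀ j w a, 0 ≤ TS P t j w a ∧ TS P t j w a ≤ 2 * (P.eta * P.D) + 1) ∧
  (∀ j, (∑ w ∈ US P t, ∑ a ∈ L w, TS P t j w a) ≤ 103 * P.delta * P.D ^ 2) ∧
  (∀ j, ((US P t).filter (fun w => ∃ a ∈ L w, TS P t j w a ≠ 0)).card ≤ (P.D + 2) ^ 4) ∧
  (∀ w ∈ US P t, (univ.filter (fun j : V × κ => ∃ a ∈ L w, TS P t j w a ≠ 0)).card ≤
    (P.D + 2) ^ 4)

/-- SPN (file `Helper60/TCV/SpN.lean`). The numerical conditions; `l = 21 * D / 100` (in `ℕ`),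
`q = 25 * X ^ 3`, `N = (D + 2) ^ 4`.

Proof. As in `St_XNu` (`StX.lean`). `l ≥ 0.209 D`. `8 * 2 / 99 < 0.1617`, `delta / eta = X ^ (-3300)`,
`delta / eta ^ 2 = X ^ (-1700)`. Test: `4 q (103 delta D ^ 2) / l ≤ 10 ^ 5 X ^ 3 delta D`, the root is at
most `√(X ^ 6 (10 ^ 5 delta D (2 eta D + 1) + (2 eta D + 1) ^ 2)) ≤ √2 X ^ 3 (3 eta D)`. -/
def St_SpN : Prop := ∀ (P : Par), Num10 P →
  0 < 21 * P.D / 100 ∧ 21 * P.D / 100 ≤ (P.D + 2) ^ 4 ∧ 4 * (25 * P.X ^ 3) ≤ (P.D + 2) ^ 4 ∧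
  1 ≤ P.Lam ∧ 25 * P.Lam ≤ ((25 * P.X ^ 3 : ℕ) : ℝ) ∧
  4 * Real.exp (-P.Lam) * (2 * (((P.D + 2) ^ 4 : ℕ) : ℝ) ^ 4 + 1) ≤ 1 ∧
  8 * (312 * P.delta * P.D / P.eta + 2 * P.D / 99 + 3 * P.delta * P.D / P.eta ^ 2) ≤
    ((21 * P.D / 100 : ℕ) : ℝ) ∧
  4 * ((25 * P.X ^ 3 : ℕ) : ℝ) * (103 * P.delta * P.D ^ 2) / ((21 * P.D / 100 : ℕ) : ℝ) +
    3 * Real.sqrt ((4 * ((25 * P.X ^ 3 : ℕ) : ℝ) * (2 * (P.eta * P.D) + 1) *
      (103 * P.delta * P.D ^ 2) / ((21 * P.D / 100 : ℕ) : ℝ) +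
        P.Lam * (2 * (P.eta * P.D) + 1) ^ 2) * P.Lam) ≤ P.eps * P.D ∧ 0 ≤ P.eta * P.D

/-- SP10 (file `Helper60/TCV/Sp10.lean`, `thm_Sp10 (hSamp : St_Samp) (hSpO : St_SpO) (hSpC : St_SpC)
(hSpT : St_SpT) (hSpN : St_SpN) : St_Sp10`). The colouring of the special rows.

Proof. For `w ∈ US P t` choose `L w ⊆ OpS w` with exactly `l = 21 * D / 100` elements
(`exists_subset_card_eq`). `hSamp` with `I = V`, `A = κ` (nonempty: `D + 1` elements), `J = V × κ`,
`U = US P t`, `cf = cfS P t` (symmetric: adjacency is symmetric), `T = TS P t`,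
`mT j = 2 (eta D) + 1`, `nT j = 103 delta D ^ 2`, `q = 25 * X ^ 3`, `N = (D + 2) ^ 4`. Conflicts: `SpC` and
`SpN` (restrict the filter from `OpS` to `L`). Result `c : V → κ`; put `cZ w = c (rp t w)`.
`rp t (t.pr w) = rp t w` (`pinv`), `rp t w ∈ {w, t.pr w}`, `rp t (rp t w) = rp t w`, so for special `w`:
`rp t w ∈ US P t`, `cZ w ∈ OpS (rp t w)`, and `w` is an end of `rp t w`; two special rows with the same
`rp` are equal or partners.
`z0` clear. `z1`: if `rp w ≠ rp w'` then `cfS` excludes equal colours in one cluster. `z2`, `z3`, `z5`,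
`z8`: membership in `OpS` for the end `e = w` (`t.K (rp t w) = t.K w = some i`). `z4`: if `rp w = rp w'` then
`w' = w` or `w' = t.pr w`, equal colours `a`, and `N_a w = N_a w'` gives `w = w'` (`EC.inv`); otherwise
`cfS`. `z6`: different clusters, so different nodes; `cfS`. `z7`: if `rp w ≠ rp w'` use `cfS`. `z9`: the
sum is `∑ w ∈ US, TS (i, b) w (c w)` (group the special rows `x` by the node `rp t x`). -/
def St_Sp10 : Prop := ∀ (P : Par) (V κ : Type) [Fintype V] [Fintype κ] (t : Td V κ)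
  (X : V → Prop) (cX cS : V → κ), Num10 P → Bse P t → XP P t X cX → SP P t X cX cS →
  ∃ cZ : V → κ, SpP P t X cX cS cZ

end Pool.TCV
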