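import Pool.Agent.Helper60.TCV.StK1

/-!
# T10, sections 9b, 9c (base colouring of the K-stage, the rows of the good colours): statements
with proofs

Namespace `Pool.TCV`; theorem `thm_X : St_X` in the file named in the docstring.  `Kd` contains the
data after section 9a, `KdP` all its properties.  General remarks: see `StK1.lean`.
-/

set_option autoImplicit false

namespace Pool.TCV

open Pool.TC Pool.TCM Pool.TCS Pool.TN Finset
open scoped Classical

/-- The data after section 9a. -/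
structure Kd (V κ : Type) extends Td V κ where
  X : V → Prop
  cX : V → κ
  cS : V → κ
  cZ : V → κ

section kd

variable {V κ : Type} [Fintype V] [Fintype κ]

/-- All properties of the data after section 9a. -/
structure KdP (P : Par) (k : Kd V κ) : Prop where
  bs : Bse P k.toTd
  xp : XP P k.toTd k.X k.cX
  sp : SP P k.toTd k.X k.cX k.cS
  zp : SpP P k.toTd k.X k.cX k.cS k.cZ

variable (P : Par) (k : Kd V κ)

/-- the used columns -/
def Kd.us (v : V) : Prop := usd k.toTd k.X k.cX k.cS v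

/-- the free rows which are kept -/
def Kd.FF (w : V) : Prop := k.F0 w ∧ k.K w ≠ none ∧ ¬ k.X w ∧
  ¬ ∃ x, k.U x ∧ k.G.Adj w x ∧ k.cS x = k.m w

/-- the coloured vertices: `S`, the rows of `X`, the special rows, the kept free rows -/
def Kd.Cb (y : V) : Prop := k.K y = none ∨ k.X y ∨ k.Sp P y ∨ k.FF y

/-- their colours -/
noncomputable def Kd.cb (y : V) : κ :=
  if k.K y = none then k.cS y else if k.X y then k.cX y else if k.Sp P y then k.cZ y else k.m y

/-- the colours of the kept free rows -/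
noncomputable def Kd.mFF (i : V) : Finset κ :=
  (univ.filter (fun w => k.K w = some i ∧ k.FF w)).image k.m

/-- the colours of the special rows -/
noncomputable def Kd.cSp (i : V) : Finset κ := (k.Spi P i).image k.cZ

/-- the colour `a` is blocked at `w` -/
def Kd.bl (a : κ) (w : V) : Prop :=
  ∃ x, k.G.Adj w x ∧ k.K x ≠ k.K w ∧ k.Cb P x ∧ k.cb P x = a

/-- the blocked colours -/
noncomputable def Kd.Bk (i : V) : Finset κ := univ.filter (fun a => a ∉ k.Pb P i ∧ a ∉ k.Q ∧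
  a ∉ k.mFF i ∧ a ∉ k.cSp P i ∧
  P.theta * P.D < (((k.Rg P i).filter (fun w => k.bl P a w)).card : ℝ))

/-- the colours for the last rows (`Q+_i`) -/
noncomputable def Kd.Qp (i : V) : Finset κ := (k.Q \ k.Pb P i) ∪ k.Bk P i

/-- the good colours -/
noncomputable def Kd.Gc (i : V) : Finset κ := univ.filter (fun a => a ∉ k.Pb P i ∧ a ∉ k.Q ∧
  a ∉ k.mFF i ∧ a ∉ k.cSp P i ∧ a ∉ k.Bk P i)

/-- the rows for the good colours -/
noncomputable def Kd.Rw (i : V) : Finset V := (k.Rg P i).filter (fun w => ¬ k.F0 w ∧ ¬ k.X w)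

/-- the columns of the special rows -/
def Kd.sc (v : V) : Prop := ∃ w, k.Sp P w ∧ k.E.N (k.cZ w) w = v

/-- the cells which can be used for good colours -/
def Kd.al (w : V) (a : κ) : Prop := ∃ i, w ∈ k.Rw P i ∧ a ∈ k.Gc P i ∧ ¬ k.bl P a w ∧
  (k.fx w a ∨ (k.cr w a ∧ k.E.N a w ∈ k.Rg P i ∧ ¬ k.W (k.E.N a w) ∧ ¬ k.us (k.E.N a w) ∧
    ¬ k.sc P (k.E.N a w)))

/-- lower bound for the number of possible rows of a good colour -/
noncomputable def Kd.a1 (i : V) : ℝ :=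
  1 / 2 * (1 - 1 / (P.MW : ℝ)) * (((k.Rg P i).card : ℝ) - (k.F0i i).card) - 3 * P.theta * P.D

end kd

/-! ### 9b -/

/-- CBP (file `Helper60/TCV/CbP.lean`). The base colouring is proper, and inside a cluster only
partners have the same colour.

Proof. Remarks: rows of `X` and kept free rows are regular, hence not special; for `k.FF w`, `k.F0 w`,
`k.cand P w`, `k.K w = some i`, so `m w ∉ Pb i`, `m w ∈ mF i`, and `cb w = m w`.
(1) Properness; up to symmetry the cases are (`u ~ v`, both in `Cb`):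
S-S: `SP.g1` (`adj'` contains adjacency). S-X (`K u = none`, `X v`): if `U u` then `SP.g2`; if `F0 u`:
`cS u = m u` (`SP.fr`), and `v ∈ W1 i (cX v)` (`x1`) is not in `FB i (cX v)`, so `m u ≠ cX v`. S-special:
`z5` with `y = u` (`cd u = cS u`). S-FF (`K u = none`, `FF v`): if `U u`: definition of `FF`; if `F0 u`:
`cS u = m u`, `AcP.f1` says `¬ cf u v`, so `m u ≠ m v`. X-X: `x3`. X-special (`X u`, `Sp v`): different
clusters: `z5` with `y = u` (`cd u = cX u`); same cluster: `cX u ∈ Pb i`, `cZ v ∉ Pb i`. X-FF (`X u`,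
`FF v`): different clusters: `u ∉ FB i (cX u)` and `x = v` gives `m v ≠ cX u`; same cluster:
`cX u ∈ Pb i`, `m v ∉ Pb i`. special-special: different clusters `z6`; same cluster: equal colours give
`v = u` or `v = pr u` (`z1`), not adjacent (`padj`). special-FF (`Sp u`, `FF v`): different clusters:
`z5` with `y = v` (`cd v = m v` since `¬ X v`, `K v ≠ none`); same cluster: `cZ u ∉ mF i`, `m v ∈ mF i`.
FF-FF: `f1`.
(2) Same cluster, `u ≠ v`, equal colours: X-X excluded by `x3`; X-special, X-FF, special-FF by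
`Pb`, `mF` as above; FF-FF by `f1` (`cf` contains the pairs in one cluster with equal `m`);
special-special: `z1`. -/
def St_CbP : Prop := ∀ (P : Par) (V κ : Type) [Fintype V] [Fintype κ] (k : Kd V κ),
  KdP P k →
  (∀ u v, k.Cb P u → k.Cb P v → k.G.Adj u v → k.cb P u ≠ k.cb P v) ∧
  (∀ u v, k.Cb P u → k.Cb P v → k.K u ≠ none → k.K u = k.K v → u ≠ v → k.cb P u = k.cb P v →
    k.Sp P u ∧ v = k.pr u)

/-- CNT (file `Helper60/TCV/Cnt.lean`). The number of the colours.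

Proof. `κ` (`D + 1` elements) is the disjoint union of `Pb i`, `Q \ Pb i`, `mFF i`, `cSp i`, `Bk i`,
`Gc i`: `mFF i` is disjoint from `Pb i` (`cand`), from `Q` (`m w ∈ J1`, `q1`; for a candidate of a cluster
`m w ∈ J1`); `cSp i` is disjoint from `Pb i`, `Q`, `mF i ⊇ mFF i` (`z2`); `Bk i`, `Gc i` by definition.
`|mFF i| = #{w | K w = some i ∧ FF w}` (`m` is injective on the free rows of a cluster by `f1`).
`|cSp i| + mu i = |Spi i|`: by `z0`, `z1` two special rows of `K_i` have the same colour iff they are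
equal or partners; all `w ∈ Ki i` with `pr w ≠ w` are special, their number is `2 mu i` (`pcard`), and
each of their colours is taken exactly twice, the colours of the others once (e.g. count
`∑ a ∈ cSp i, #{w ∈ Spi i | cZ w = a}` or use that `rp` is a bijection of the colours). `|Ki i| =
|Spi i| + |Rg i|`, `|Ki i| + lam i = D + 1 + mu i` (`lm`). So `|Rg i| + lam i + |Spi i| = D + 1 + mu i =
|Pb i| + |Qp i| + |FF_i| + |Gc i| + |Spi i|`. -/
def St_Cnt : Prop := ∀ (P : Par) (V κ : Type) [Fintype V] [Fintype κ] (k : Kd V κ),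
  KdP P k → ∀ i, k.K i = some i → (k.Rg P i).card + k.lam i = (k.Pb P i).card +
    (k.Qp P i).card + (univ.filter (fun w => k.K w = some i ∧ k.FF w)).card + (k.Gc P i).card

/-- FEW (file `Helper60/TCV/Few.lean`, `thm_Few (hUse : St_Use) : St_Few`). Small sets.

Proof. (1) A free row of `K_i` which is not kept is in `X` (at most `pmax D ≤ eps D`, `x7`) or in the set
of `q2`. (2) `∑ a, #{w ∈ Rg i | bl a w} ≤ ∑ w ∈ Rg i, oo w ≤ 103 delta D ^ 2` (for `w` in the cluster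
every blocking neighbour `x` has `K x ≠ K w` and one colour; `d5`), so at most
`103 delta D ^ 2 / (theta D) = pmax D` colours `a` have more than `theta D` blocked rows. (3) `St_Use`.
(4) `w ↦ N_{cZ w} w` is a map from special rows; its values lie in `Rg i` with `K w = some i` (`z3`), so
at most `|Spi i| ≤ 104 delta D / eta` columns. (5) `mFF i ⊆ mF i`, `|mF i \ mFF i| ≤` (1). -/
def St_Few : Prop := ∀ (P : Par) (V κ : Type) [Fintype V] [Fintype κ] (k : Kd V κ), Num10 P →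
  KdP P k → ∀ i,
  ((univ.filter (fun w => k.K w = some i ∧ k.F0 w ∧ ¬ k.FF w)).card : ℝ) ≤ 2 * P.eps * P.D ∧
  ((univ.filter (fun a => P.theta * P.D <
    (((k.Rg P i).filter (fun w => k.bl P a w)).card : ℝ))).card : ℝ) ≤ P.pmax * P.D ∧
  ((univ.filter (fun v => k.K v = some i ∧ k.us v)).card : ℝ) ≤ 2 * P.eps * P.D ∧
  ((univ.filter (fun v => k.K v = some i ∧ k.sc P v)).card : ℝ) ≤
    104 * P.delta * P.D / P.eta ∧
  (((k.mF i) \ (k.mFF i)).card : ℝ) ≤ 2 * P.eps * P.D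

/-! ### 9c -/

/-- ALB (file `Helper60/TCV/AlB.lean`, `thm_AlB (hFew : St_Few) : St_AlB`). The numbers of possible
cells.  Write `M = 1 / 2 (1 - 1 / MW)`, `n = |Rg i|`, `f = |F0i i|`, `a1 = k.a1 P i = M (n - f) - 3 theta D`.

Proof. Size of `a1`: `0.999 D ≤ n ≤ (1 + 10^-3) D` (`n1`, `k2`), `f ≤ 2 D / pa`, so `0.45 D ≤ a1 ≤ D / 2`
(`M n ≤ 1/2 (1 - 1/MW) (D + 1 + 102 delta D) ≤ D / 2`: `1 / MW = X ^ (-6)` is larger than
`103 delta + 2 / D`).
(1) `a ∈ Gc i`, so `a ∉ Pb i`: `TaK.k1` gives at least `M (n - f - theta D - |Spi i| - 2 X) - nz` rows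
`w ∈ Rg i`, `¬ F0 w`, with `fx w a` or (`cr w a`, `N_a w ∈ Rg i`, `¬ W (N_a w)`). Remove the rows of `X` (at
most `pmax D`), the rows with `bl a w` (at most `theta D` since `a ∉ Bk i`), the rows with `N_a w` used or
a column of a special row (`w ↦ N_a w` is injective; `St_Few` (3), (4)). Total loss at most
`1/2 (theta D + 104 delta D / eta + 2 X) + nz + pmax D + theta D + 2 eps D + 104 delta D / eta ≤
3 theta D`. The remaining rows are the rows `w ∈ Rw i` with `al w a`; so their number is `≥ a1`.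
(2) `w ∈ Rw i`: a colour `a` with `al w a` is in `Gc i` (the `i` in `al` is determined by `w`), hence
`a ∉ Q`, `a ∉ mFF i`. Fixed cells: at most 2 colours are missing at `w` if `z w ≠ w` and at most 1
otherwise; in any case: the colours `a` with `N_a w ≠ w` give at least `D - 1` different neighbours of `w`
(`cov`: all neighbours except possibly `z w`), so at most `D + 1 - (D - 1) = 2` colours are missing.
Crossing cells: `k2` bounds those with `a ∉ mF i`; there are at most `2 eps D` colours in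
`mF i \\ mFF i`. So the number is at most `M (D + 1 - |Q| - f) + nz + 2 eps D + 2`. Now
`D + 1 = |Ki i| + lam i - mu i ≤ n + |Spi i| + 520 delta D` (`lm`, `lm1`) and `|Q| ≥ rho D - 1`:
`≤ M (n - f) - M rho D + M (1 + 104 delta D / eta + 520 delta D) + nz + 2 eps D + 2`, and this is
`≤ a1 + 3 theta D - 0.49 rho D + small ≤ a1 - 0.4 rho D ≤ (1 - 0.8 rho) a1` (`theta = rho / X`,
`a1 ≤ D / 2`).
(3) `v ∈ Ki i`. If `v ∉ Rg i` there is no such `a` (`al (N_a v) a` with `N_a v ≠ v`: the cell `(w, a)`,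
`w = N_a v`, is not fixed, so `N_a w = v ∈ Rg j` with `w ∈ Rw j`). For `v ∈ Rg i`: `a ∈ Gc i`, `w = N_a v`
in `Rg i`, `¬ F0 w`, `tau w ≠ tau v` (`cr w a`), `a ∉ Q`; `k3` bounds those with `a ∉ mF i`, plus `2 eps D`. So
the number is at most `1/2 (D + 1 - |Q| - 2 f + fmin D / 8 + 2 eta D) + nz + 2 eps D`. Compare with
`a1 = 1/2 (1 - 1/MW) (n - f) - 3 theta D`, `n ≥ D + 1 - 102 delta D - 104 delta D / eta` (`k1`, `sp1`):
`a1 - number ≥ 1/2 (f - fmin D / 8 - 1.01 D / MW + rho D) - 3 theta D - small ≥ 0.4 rho D`, since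
`f ≥ fmin D` (`f3`) and `1 / MW = X ^ (-6) ≤ fmin / 4 = X ^ (-5) / 2000`. -/
def St_AlB : Prop := ∀ (P : Par) (V κ : Type) [Fintype V] [Fintype κ] (k : Kd V κ), Num10 P →
  KdP P k → ∀ i, k.K i = some i →
  (9 / 20 * P.D ≤ k.a1 P i ∧ k.a1 P i ≤ P.D / 2) ∧
  (∀ a ∈ k.Gc P i, k.a1 P i ≤ ((univ.filter (fun w => k.K w = some i ∧ k.al P w a)).card : ℝ)) ∧
  (∀ w, k.K w = some i → ((univ.filter (fun a => k.al P w a)).card : ℝ) ≤
    (1 - 4 / 5 * P.rho) * k.a1 P i) ∧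
  (∀ v, k.K v = some i → ((univ.filter (fun a => k.E.N a v ≠ v ∧ k.al P (k.E.N a v) a)).card : ℝ) ≤
    (1 - 4 / 5 * P.rho) * k.a1 P i)

/-- the denominator of the keeping probabilities: a cell of the cluster `i` is kept with probability
`k_i / (Nq3 D)`, `k_i = ⌊0.4 D ^ 2 / a1_i⌋` -/
noncomputable def Nq3 (P : Par) : ℕ := ⌈64 * (P.B : ℝ) / P.rho⌉₊

/-- the common length of the sublists -/
noncomputable def lY (P : Par) : ℕ := ⌊(1 - P.rho / 8) * (2 / 5 * P.D / (Nq3 P : ℝ))⌋₊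

/-- THG (file `Helper60/TCV/ThG.lean`, `thm_ThG (hBernL : Pool.TCT.St_BernL) : St_ThG`). Thinning with guards.
The items `w ∈ W` are switched on if `ω (tj w) < k` (probability `k / |A|`), the guard items `j` if
`ω (tj j) < kg j`; the items with a switched on guard are removed.

Proof. Let `M = |A|`, `W' = W.card`. `TG` = the set of the coordinates `tj j` of guards `j` (`gd w j` for
some `w ∈ W`); it is disjoint from the coordinates `tj w`, `w ∈ W`. Step 1: for a coordinate `t` and a letter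
`x` let `f t x = ∑ j with tj j = t, j a guard: if x < kg j then #{w ∈ W | gd w j} else 0` (one `j` since `tj` is
injective). `0 ≤ f ≤ Bg`; `∑ t, ∑ x, f t x = ∑ j, kg j #{w | gd w j} = ∑ w ∈ W, ∑ j with gd w j, kg j ≤ β W' M`, and
`∑ f ^ 2 ≤ Bg β W' M`. `St_BernL` with `c = Bg`, `W = Bg β W' + Lam Bg ^ 2`: with probability
`≥ 1 - exp (-Lam)` the number of `w ∈ W` with a switched on guard is at most
`∑ t, f t (ω t) < β W' + 3 √((Bg β W' + Lam Bg ^ 2) Lam) ≤ 2 β W'`, because `18 Bg Lam ≤ β W'`: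
`9 (β ^ 2 W' ^ 2 / 18 + β ^ 2 W' ^ 2 / 324) ≤ β ^ 2 W' ^ 2`. Step 2: fix the coordinates in `TG` such that the set `W2` of
the unguarded `w` has at least `(1 - 2 β) W'` elements. The other coordinates are still uniform; for
`w ∈ W2` the event On is `ω (tj w) < k`. `St_BernL` (for `-f`, `f t x = 1` if `t = tj w`, `w ∈ W2`, `x < k`;
`c = 1`, `W = W' k / M`, which is `≥ Lam`): with conditional probability `≥ 1 - exp (-Lam)` the number of `w ∈ W2` which
are on is at least `|W2| k / M - 3 √(W' k Lam / M) ≥ (1 - 2 β) W' k / M - β W' k / M`, because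
`9 Lam ≤ β ^ 2 W' k / M`. To avoid conditional probabilities: count pairs (restriction to `TG`,
restriction to the complement), `Fintype.card (T → A) = card (TG → A) * card (TGᶜ → A)`; the file
`Pool/Agent/Helper3/TCT/Thin.lean` (proof of `St_Thin`) does exactly this for `k = 1`, and can be
adapted. -/
def St_ThG : Prop := ∀ (T J : Type) [Fintype T] [Fintype J] (M : ℕ) (tj : J → T) (W : Finset J)
  (gd : J → J → Prop) (k : ℕ) (kg : J → ℕ) (Bg : ℕ) (β Lam : ℝ),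
  (∀ j j', tj j = tj j' → j = j') →
  (∀ w ∈ W, ∀ j, gd w j → j ∉ W) →
  (∀ w ∈ W, (∑ j ∈ univ.filter (fun j => gd w j), (kg j : ℝ)) ≤ β * M) →
  (∀ j, (W.filter (fun w => gd w j)).card ≤ Bg) →
  0 < M → k ≤ M → (∀ j, kg j ≤ M) → 0 < Bg → 0 < Lam → 0 < β → β ≤ 1 / 3 →
  18 * Bg * Lam ≤ β * W.card → 9 * Lam ≤ β ^ 2 * (W.card * (k : ℝ) / M) →
  ((univ.filter (fun ω : T → Fin M =>
    ((W.filter (fun w => (ω (tj w)).val < k ∧ ∀ j, gd w j → kg j ≤ (ω (tj j)).val)).card : ℝ) <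
      (1 - 3 * β) * (W.card * (k : ℝ) / M))).card : ℝ) ≤
    2 * Real.exp (-Lam) * Fintype.card (T → Fin M)

/-- SU1 (file `Helper60/TCV/Su1.lean`, `thm_Su1 (hThG : St_ThG) : St_Su1`). The lower tail of the
sublists.  `M = Nq3 * D`, `ki i = ⌊0.4 D ^ 2 / a i⌋` where `0.45 D ≤ a i ≤ 0.5 D`, so `0.79 D ≤ ki i ≤ 0.89 D`.

Proof. `St_ThG` with `T = J = V × κ`, `tj = id`, `W = {(w, a) | K w = some i ∧ al w a}` (`a` fixed),
`gd (w, a) (x, b) := b = a ∧ G.Adj w x ∧ K x ≠ some i ∧ al x a`, `k = ki i`, `kg (x, b) = ki j` if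
`K x = some j` (`0` if `K x = none`), `Bg = B`, `β = rho / 50`. `W.card ≥ a i ≥ 0.45 D`. Guards of `(w, a)`: at most
`oo w ≤ eta D ≤ B` (`w` is regular since `al w a`), each with `kg ≤ 0.89 D`: sum `≤ 0.89 B D ≤ (rho / 50) Nq3 D`,
since `Nq3 ≥ 64 B / rho`. A guard `x` (regular, `K x ≠ some i`) has at most `dk i x ≤ eta D ≤ B` neighbours in `K_i`
(`lig`). `18 B Lam ≤ (rho / 50) 0.45 D`: `B ≤ 2 eta D`, `eta = X ^ (-1600)`. `W.card * k / M ≥ 0.35 D / Nq3`,
`Nq3 ≤ 65 B / rho ≤ 130 eta D / rho`, so `W.card * k / M ≥ rho X ^ 1600 / 400`, and `9 X ^ 3 ≤ (rho / 50) ^ 2 *` this.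
`(1 - 3 β) * (W.card * ki / M) ≥ (1 - 0.06 rho) * (a i * ki i / D) / Nq3`, and `a i * ki i / D ≥ 0.4 D - a i / D ≥ 0.4 D - 1/2 ≥
(1 - rho / 1000) 0.4 D`; so it is `≥ (1 - 0.07 rho) 0.4 D / Nq3 ≥ lY`. -/
def St_Su1 : Prop := ∀ (P : Par) (V κ : Type) [Fintype V] [Fintype κ] (t : Td V κ)
  (al : V → κ → Prop) (ac : V → ℝ) (ki : V → ℕ), Num10 P → Bse P t →
  (∀ w a, al w a → ∃ i, w ∈ t.Rg P i) →
  (∀ i, t.K i = some i → 9 / 20 * P.D ≤ ac i ∧ ac i ≤ P.D / 2) →
  (∀ i, t.K i = some i → ki i = ⌊2 / 5 * (P.D : ℝ) ^ 2 / ac i⌋₊) →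
  ∀ i a, t.K i = some i → ac i ≤ ((univ.filter (fun w => t.K w = some i ∧ al w a)).card : ℝ) →
  ((univ.filter (fun ω : V × κ → Fin (Nq3 P * P.D) =>
    (univ.filter (fun w => t.K w = some i ∧ al w a ∧ (ω (w, a)).val < ki i ∧
      ∀ x j, t.G.Adj w x → t.K x = some j → j ≠ i → al x a → ki j ≤ (ω (x, a)).val)).card <
        lY P)).card : ℝ) ≤ 2 * Real.exp (-P.Lam) * Fintype.card (V × κ → Fin (Nq3 P * P.D))

/-- SU2 (file `Helper60/TCV/Su2.lean`, `thm_Su2 (hBernL : Pool.TCT.St_BernL) : St_Su2`). The upper tails of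
the sublists.

Proof. All three are sums of independent variables (`St_BernL`, `T = V × κ`, `A = Fin M`, `M = Nq3 D`).
Rows: `f (w, a) x = 1` if `al w a` and `x < ki i` (all other coordinates `0`): mean `≤ (1 - 0.8 rho) a i ki i / M ≤
(1 - 0.8 rho) 0.4 D / Nq3 =: m` (`a i ki i ≤ 0.4 D ^ 2`), `c = 1`, `W = 0.4 D / Nq3 ≥ rho X ^ 1600 / 400 ≥ Lam`: deviation
`3 √(W Lam) ≤ (rho / 100) W`. And `(1 - 0.8 rho + 0.01 rho) W ≤ (1 - rho / 2) lY`, since `lY ≥ (1 - rho / 8) W - 1 ≥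
(1 - rho / 8 - rho / 1000) W`. Columns: the same with the coordinates `(N_a v, a)` (different `a`, different
coordinates). Test: `f (x, b) y = dk i x` if `al x b`, `K x = some j`, `j ≠ i`, `y < ki j`: `0 ≤ f ≤ eta D`
(`lig`; `x ∈ Rg j`). `∑ x, [K x ≠ none, K x ≠ some i] dk i x ≤ ∑ v ∈ Ki i, oo v ≤ 103 delta D ^ 2` (`d5`). Mean
`≤ 103 delta D ^ 2 * 0.89 D / (Nq3 D) ≤ 2 (delta / eta) rho D ≤ eps D / 4` (`Nq3 ≥ 64 eta D / rho`);
`∑ ∑ f ^ 2 ≤ eta D * 103 delta D ^ 2 * 0.89 D ≤ 2 delta D ^ 2 * M` (`M = Nq3 D`). `c = eta D + 1`,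
`W = 2 delta D ^ 2 + Lam (eta D + 1) ^ 2`: deviation `3 √(W Lam) ≤ 3 (√(2 delta X ^ 3) D + 2 X ^ 3 eta D) ≤
eps D / 2`. (If `K i ≠ some i` then `dk i x = 0`.) -/
def St_Su2 : Prop := ∀ (P : Par) (V κ : Type) [Fintype V] [Fintype κ] (t : Td V κ)
  (al : V → κ → Prop) (ac : V → ℝ) (ki : V → ℕ), Num10 P → Bse P t →
  (∀ w a, al w a → ∃ i, w ∈ t.Rg P i) →
  (∀ i, t.K i = some i → 9 / 20 * P.D ≤ ac i ∧ ac i ≤ P.D / 2) →
  (∀ i, t.K i = some i → ki i = ⌊2 / 5 * (P.D : ℝ) ^ 2 / ac i⌋₊) →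
  (∀ i w, t.K w = some i → ((univ.filter (fun a => al w a)).card : ℝ) ≤
      (1 - 4 / 5 * P.rho) * ac i →
    ((univ.filter (fun ω : V × κ → Fin (Nq3 P * P.D) => (1 - P.rho / 2) * lY P <
      ((univ.filter (fun a => al w a ∧ (ω (w, a)).val < ki i)).card : ℝ))).card : ℝ) ≤
      Real.exp (-P.Lam) * Fintype.card (V × κ → Fin (Nq3 P * P.D))) ∧
  (∀ i v, t.K v = some i → (∀ a, al (t.E.N a v) a → t.K (t.E.N a v) = some i) →
    ((univ.filter (fun a => t.E.N a v ≠ v ∧ al (t.E.N a v) a)).card : ℝ) ≤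
      (1 - 4 / 5 * P.rho) * ac i →
    ((univ.filter (fun ω : V × κ → Fin (Nq3 P * P.D) => (1 - P.rho / 2) * lY P <
      ((univ.filter (fun a => t.E.N a v ≠ v ∧ al (t.E.N a v) a ∧
        (ω (t.E.N a v, a)).val < ki i)).card : ℝ))).card : ℝ) ≤
      Real.exp (-P.Lam) * Fintype.card (V × κ → Fin (Nq3 P * P.D))) ∧
  (∀ i b, ((univ.filter (fun ω : V × κ → Fin (Nq3 P * P.D) => P.eps * P.D <
    ((∑ x ∈ univ.filter (fun x => al x b ∧ ∃ j, t.K x = some j ∧ j ≠ i ∧ (ω (x, b)).val < ki j),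
      t.dk i x : ℕ) : ℝ))).card : ℝ) ≤
      Real.exp (-P.Lam) * Fintype.card (V × κ → Fin (Nq3 P * P.D)))

/-- SUB10 (file `Helper60/TCV/Sub10.lean`, `thm_Sub10 (hLLL : Pool.TCS.St_LLL0) (hSu1 : St_Su1) (hSu2 : St_Su2) :
St_Sub10`). The sublists.

Proof. `ki i = ⌊0.4 D ^ 2 / ac i⌋`; `M = Nq3 D > 0`. `St_LLL0` with `T = V × κ`, `A = Fin M`, events: `(i, a)` with
`K i = some i`, `a ∈ Gs i`: the event of `St_Su1`; coordinates `(x, a)`, `x ∈ Ki i` or `x` a neighbour of a vertex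
of `Ki i`. `w` in a cluster: the row event of `St_Su2`, coordinates `(w, a)`. `v` in a cluster: the column event,
coordinates `(N_a v, a)`. `(i, b)` with `K i = some i`: the test, coordinates `(x, b)` with `dk i x ≠ 0`. (Index type e.g.
`((V × κ) ⊕ V) ⊕ (V ⊕ (V × κ))`; indices which do not satisfy the side conditions get the empty event and the
empty set of coordinates.) Every set has at most `(|Ki i| + |Ki i| D) ≤ (D + 2) ^ 3` coordinates; a coordinate `(x, a)` lies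
in the sets of at most `(D + 2) ^ 3` events of every kind (`i` must be the cluster of `x` or of a neighbour of `x`;
`w = x`; `v = N_a x`; colour `a`), so `N = (D + 2) ^ 8` is more than enough: `4 (2 exp (-Lam)) (N + 1) ≤ 1`.
Probability of every event at most `2 exp (-Lam)`.
For the good `ω` put `A w a := al w a ∧ (∃ i, K w = some i ∧ ω (w, a) < ki i) ∧ ∀ x j, G.Adj w x → K x = some j →
some j ≠ K w → al x a → ki j ≤ ω (x, a)`. The conclusions are clear (the sets of `A` are contained in the sets of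
the upper tails and equal to the sets of `St_Su1`). If `K i ≠ some i` the cluster is empty; the last conclusion
for such `i` is trivial since `dk i x = 0`; the bounds for `w` with `K w = none`: no `a` (`al w a` implies
that `w` is in a cluster); for `v` with `K v = none`: `A (N_a v) a` with `N_a v ≠ v` implies `K v = K (N_a v) ≠ none` by the
hypothesis `hcol`. -/
def St_Sub10 : Prop := ∀ (P : Par) (V κ : Type) [Fintype V] [Fintype κ] (t : Td V κ)
  (al : V → κ → Prop) (Gs : V → Finset κ) (ac : V → ℝ), Num10 P → Bse P t →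
  (∀ w a, al w a → ∃ i, w ∈ t.Rg P i) →
  (∀ w a, al w a → t.K (t.E.N a w) = t.K w) →
  (∀ i, t.K i = some i → 9 / 20 * P.D ≤ ac i ∧ ac i ≤ P.D / 2) →
  (∀ i, t.K i = some i → ∀ a ∈ Gs i,
    ac i ≤ ((univ.filter (fun w => t.K w = some i ∧ al w a)).card : ℝ)) →
  (∀ i w, t.K w = some i → ((univ.filter (fun a => al w a)).card : ℝ) ≤
    (1 - 4 / 5 * P.rho) * ac i) →
  (∀ i v, t.K v = some i → ((univ.filter (fun a => t.E.N a v ≠ v ∧ al (t.E.N a v) a)).card : ℝ) ≤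
    (1 - 4 / 5 * P.rho) * ac i) →
  ∃ A : V → κ → Prop, (∀ w a, A w a → al w a) ∧
    (∀ w x a, A w a → A x a → t.G.Adj w x → t.K w = t.K x) ∧
    (∀ i, t.K i = some i → ∀ a ∈ Gs i,
      lY P ≤ (univ.filter (fun w => t.K w = some i ∧ A w a)).card) ∧
    (∀ w, ((univ.filter (fun a => A w a)).card : ℝ) ≤ (1 - P.rho / 2) * lY P) ∧
    (∀ v, ((univ.filter (fun a => t.E.N a v ≠ v ∧ A (t.E.N a v) a)).card : ℝ) ≤
      (1 - P.rho / 2) * lY P) ∧
    (∀ i b, ((∑ x ∈ univ.filter (fun x => A x b ∧ t.K x ≠ some i), t.dk i x : ℕ) : ℝ) ≤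
      P.eps * P.D)

/-- GDN (file `Helper60/TCV/GdN.lean`). Numerical conditions for the nibble with `g = rho / 2`.

Proof. `K = kn = X ^ 3`, `m = X ^ 12`, `L0 = X ^ 80`, `n = ⌈17 / b * log (2 / g)⌉` with `b = bet m K`:
`3 / (4 m) ≤ b ≤ 1 / m`. `Err m K Lam L0 = 40 X ^ 9 / X ^ 36 + 2 ^ (14 - K) + 64 X ^ 6 √(X ^ 3 / X ^ 80) ≤ 41 X ^ (-27)`, and
`g b / 16 ≥ X ^ (-13) X ^ (-12) (3 / 128) ≥ 8 * 41 X ^ (-27)`. Growth: `(1 + b / 16) ^ n ≥ exp (n b / 17) ≥ 2 / g`
(`log (1 + y) ≥ 16/17 y` for `0 ≤ y ≤ 1/16`), so `g (1 + b / 16) ^ n ≥ 2 ≥ 7/8`. Lists: `(1 - 3 b) ^ n ≥ exp (-4 b n) ≥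
exp (-4 b (17 / b * log (2 / g) + 1)) ≥ (g / 2) ^ 68 / 2 ≥ X ^ (-1000)` (`g / 2 = X ^ (-13) / 4 ≥ X ^ (-14)`, `14 * 68 = 952`), and
`lY ≥ 0.39 D / Nq3 - 1 ≥ rho X ^ 1600 / 400 ≥ X ^ 1580` (`Nq3 ≤ 64 B / rho + 1`, `B ≤ eta D + 1`), `1580 - 1000 ≥ 80`.
`4 exp (-Lam) ((3 (2 D + 4) + 2) ^ 12 + 1) ≤ 1`: `D < 2 ^ (X + 1)`, `Lam = X ^ 3`. -/
def St_GdN : Prop := ∀ P : Par, Num10 P → ∃ m n L0 : ℕ,
  0 < P.rho / 2 ∧ P.rho / 2 ≤ 7 / 8 ∧ 8 * P.kn ≤ m ∧ 24 ≤ P.kn ∧ 0 < P.Lam ∧ P.Lam ≤ P.kn ∧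
  4 * Real.exp (-P.Lam) * ((3 * ((2 * P.D + 4 : ℕ) : ℝ) + 2) ^ 12 + 1) ≤ 1 ∧ 0 < L0 ∧
  P.Lam ≤ L0 ∧ 8 * Err m P.kn P.Lam L0 ≤ P.rho / 2 * bet m P.kn / 16 ∧
  7 / 8 ≤ P.rho / 2 * (1 + bet m P.kn / 16) ^ n ∧
  (L0 : ℝ) ≤ lY P * (1 - 3 * bet m P.kn) ^ n

/-- GOOD10 (file `Helper60/TCV/Good10.lean`, `thm_Good10 (hIter : Pool.TCS.St_Iter) (hExt : Pool.TCT.St_Ext)
(hGdN : St_GdN) : St_Good10`). The rows of the good colours. (Compare `Pool/Agent/Helper3/TCT/Good.lean`.)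

Proof. Let `idx : V → Fin (2 D + 4)` be injective on every cluster (`|Ki i| ≤ 1.001 (D + 1) ≤ 2 D + 4`, `k2`). For a node
`(i, a)`, `K i = some i`, `a ∈ Gs i`, choose a set `L (i, a)` of exactly `lY` indices `idx w`, `w ∈ Ki i`, `A w a`.
Structure `CS ((V × κ) ⊕ V) (Fin (2 D + 4))`: nodes `inl (i, a)`; `adj (inl (i, a)) (inl (j, b))` iff `i = j`, `K i = some i`,
`a ≠ b` (no other adjacencies); `r (inl (i, a)) s`: if there is `w ∈ Ki i` with `idx w = s` (unique) and `A w a`: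
`inl (w, a)` if `N_a w = w`, and `inr (N_a w)` otherwise. For fixed `s` this is injective on the nodes `inl (i, a)` for which such
a `w` exists: `inl (w, a) = inl (w', a')` clear (`K w = some i`); `inr v = inr v`: `K v = K w = some i` (`hcol`), so the clusters
agree, `w = w'` by `idx`, `a = a'` by `EC.uniq`. Extend to an injective map for all elements (`hExt`, for every `s`;
the map on the part `Y` of `hExt` is arbitrary outside).
`hIter` with `D' = 2 D + 4`, `l = lY`, `g = rho / 2`, `m`, `K = kn`, `n`, `L0` from `hGdN`. Degrees of `adj`: at most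
`card κ - 1 = D`. Options of one node have different `r` (injective in `w`: `N_a w = N_a w'` gives `w = w'`; `inl (w, a)` clear).
`Cv (inr v)`: pairs `((i, a), s)` with `N_a w = v`, `w = N_a v ≠ v`, `A (N_a v) a`: determined by `a`, at most `(1 - rho / 2) lY`.
`Cv (inl (w, a))`: at most one element, `1 ≤ (1 - rho / 2) lY` (from `L0 ≤ lY`, `24 ≤ ..`). `Pn (inl (i, a)) s`: the `b ≠ a` with
`s ∈ L (i, b)`, so `A w b` for the `w ∈ Ki i` with `idx w = s`: at most `(1 - rho / 2) lY`.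
(`hIter` needs `Nonempty (Fin (2 D + 4))` and gives `Solv`.) The solution `c`: `ro i a` = the `w ∈ Ki i` with `idx w = c (inl (i, a))`,
`A w a`. Different rows in a cluster by `adj`; different columns by `r`. -/
def St_Good10 : Prop := ∀ (P : Par) (V κ : Type) [Fintype V] [Fintype κ] (t : Td V κ)
  (A : V → κ → Prop) (Gs : V → Finset κ), Num10 P → Bse P t →
  (∀ w a, A w a → t.K (t.E.N a w) = t.K w) →
  (∀ i, t.K i = some i → ∀ a ∈ Gs i,
    lY P ≤ (univ.filter (fun w => t.K w = some i ∧ A w a)).card) →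
  (∀ w, ((univ.filter (fun a => A w a)).card : ℝ) ≤ (1 - P.rho / 2) * lY P) →
  (∀ v, ((univ.filter (fun a => t.E.N a v ≠ v ∧ A (t.E.N a v) a)).card : ℝ) ≤
    (1 - P.rho / 2) * lY P) →
  ∃ ro : V → κ → V, (∀ i, t.K i = some i → ∀ a ∈ Gs i, t.K (ro i a) = some i ∧ A (ro i a) a) ∧
    (∀ i, t.K i = some i → ∀ a ∈ Gs i, ∀ b ∈ Gs i, ro i a = ro i b → a = b) ∧
    (∀ i, t.K i = some i → ∀ a ∈ Gs i, ∀ b ∈ Gs i, t.E.N a (ro i a) ≠ ro i a →
      t.E.N b (ro i b) ≠ ro i b → t.E.N a (ro i a) = t.E.N b (ro i b) → a = b)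

/-- The result of section 9c: `ro i a` is the row of the good colour `a` in the cluster `i`. -/
structure RoP {V κ : Type} [Fintype V] [Fintype κ] (P : Par) (k : Kd V κ) (ro : V → κ → V) :
    Prop where
  al : ∀ i, k.K i = some i → ∀ a ∈ k.Gc P i, k.K (ro i a) = some i ∧ k.al P (ro i a) a
  inj : ∀ i, k.K i = some i → ∀ a ∈ k.Gc P i, ∀ b ∈ k.Gc P i, ro i a = ro i b → a = b
  col : ∀ i, k.K i = some i → ∀ a ∈ k.Gc P i, ∀ b ∈ k.Gc P i, k.E.N a (ro i a) ≠ ro i a →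
    k.E.N b (ro i b) ≠ ro i b → k.E.N a (ro i a) = k.E.N b (ro i b) → a = b
  cross : ∀ i j a, k.K i = some i → k.K j = some j → a ∈ k.Gc P i → a ∈ k.Gc P j →
    k.G.Adj (ro i a) (ro j a) → i = j
  p5 : ∀ i b, ((∑ x ∈ univ.filter (fun x => k.K x ≠ some i ∧
    ∃ j, k.K j = some j ∧ b ∈ k.Gc P j ∧ ro j b = x), k.dk i x : ℕ) : ℝ) ≤ P.eps * P.D

/-- RO (file `Helper60/TCV/Ro.lean`, `thm_Ro (hAlB : St_AlB) (hSub10 : St_Sub10) (hGood10 : St_Good10) : St_Ro`).

Proof. `hSub10` with `t = k.toTd`, `al = k.al P`, `Gs = k.Gc P`, `ac = k.a1 P`: `al w a` gives `w ∈ Rw i ⊆ Rg i`, and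
`K (N_a w) = K w` (fixed, or `N_a w ∈ Rg i`); the bounds are `hAlB`. Then `hGood10` with `A`, `Gs = k.Gc P` (`K (N_a w) = K w` from
`al`). `al`, `inj`, `col` are clear; `cross`: `A (ro i a) a`, `A (ro j a) a` and adjacency give `K (ro i a) = K (ro j a)`, i.e.
`i = j`; `p5`: the `x` in the filter satisfy `A x b`, so the sum is at most the last bound of `hSub10`. -/
def St_Ro : Prop := ∀ (P : Par) (V κ : Type) [Fintype V] [Fintype κ] (k : Kd V κ), Num10 P →
  KdP P k → ∃ ro : V → κ → V, RoP P k ro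

end Pool.TCV
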