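import Pool.Agent.Helper60.TCV.StK2

/-!
# T10, section 9d (the last rows): statements with proofs

Namespace `Pool.TCV`; theorem `thm_X : St_X` in the file named in the docstring.  General remarks: see
`StK1.lean`.  After section 9c: `C` = coloured vertices, `Y` = rows of the good colours, `c` = colours,
`Qp i` = the colours reserved for the last rows `{u | K u = some i, ¬ C u}` of the cluster `i`.
-/

set_option autoImplicit false

namespace Pool.TCV

open Pool.TC Pool.TCM Pool.TCS Pool.TN Finset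
open scoped Classical

section k3

variable {V κ : Type} [Fintype V] [Fintype κ]

/-- `v` is the column of a coloured row -/
def col2 (t : Td V κ) (C : V → Prop) (c : V → κ) (v : V) : Prop :=
  ∃ x, C x ∧ ¬ t.fx x (c x) ∧ t.E.N (c x) x = v

/-- the colour `a` is blocked at `w` by a coloured vertex outside of the cluster of `w` -/
def bk2 (t : Td V κ) (C : V → Prop) (c : V → κ) (a : κ) (w : V) : Prop :=
  ∃ x, t.G.Adj w x ∧ t.K x ≠ t.K w ∧ C x ∧ c x = a

/-- the rows `w ∈ Y` which can be used for the pair `(u, a)`: `u` gets the colour of `w`, and `w` gets `a` -/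
noncomputable def opt (t : Td V κ) (C Y : V → Prop) (c : V → κ) (u : V) (a : κ) : Finset V :=
  univ.filter (fun w => Y w ∧ t.K w = t.K u ∧
    (t.cr u (c w) ∧ t.K (t.E.N (c w) u) = t.K u ∧ t.W (t.E.N (c w) u) ∧
      ¬ col2 t C c (t.E.N (c w) u) ∧ ¬ bk2 t C c (c w) u) ∧
    ¬ bk2 t C c a w ∧
    (t.fx w a ∨ (t.cr w a ∧ t.K (t.E.N a w) = t.K w ∧ t.W (t.E.N a w) ∧
      ¬ col2 t C c (t.E.N a w))) ∧ t.E.N (c w) u ≠ t.E.N a w)

/-- the last rows of the cluster `i` -/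
noncomputable def Rr (t : Td V κ) (C : V → Prop) (i : V) : Finset V :=
  univ.filter (fun u => t.K u = some i ∧ ¬ C u)

/-- The state after section 9c, colours. -/
structure HA (P : Par) (t : Td V κ) (C Y : V → Prop) (c : V → κ) (Qp : V → Finset κ) : Prop where
  yrow : ∀ w, Y w → C w ∧ ∃ i, w ∈ t.Rg P i
  rem : ∀ u, ¬ C u → ∃ i, u ∈ t.Rg P i
  prop : ∀ u v, C u → C v → t.G.Adj u v → c u ≠ c v
  cell : ∀ u, C u → t.fx u (c u) ∨ t.cr u (c u)
  inj : ∀ u v, C u → C v → ¬ t.fx u (c u) → ¬ t.fx v (c v) →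
    t.E.N (c u) u = t.E.N (c v) v → u = v
  yun : ∀ w x, Y w → C x → t.K x = t.K w → x ≠ w → c x ≠ c w
  qun : ∀ i, ∀ a ∈ Qp i, ∀ x, C x → t.K x = some i → c x ≠ a

/-- The state after section 9c, numbers. -/
structure HB (P : Par) (t : Td V κ) (C Y : V → Prop) (c : V → κ) (Qp : V → Finset κ) : Prop where
  rcard : ∀ i, t.K i = some i → (Rr t C i).card ≤ (Qp i).card
  qc1 : ∀ i, ((Qp i).card : ℝ) ≤ (P.rho + P.pmax) * P.D
  qc2 : ∀ i, t.K i = some i → 99 / 100 * P.rho * P.D ≤ ((Qp i).card : ℝ)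
  qP : ∀ i, ∀ a ∈ Qp i, a ∉ t.Pb P i
  qQ : ∀ i, (((Qp i).filter (fun a => a ∉ t.Q)).card : ℝ) ≤ P.pmax * P.D
  yP : ∀ i w, Y w → t.K w = some i → c w ∉ t.Pb P i
  y5 : ∀ i, t.K i = some i → ((univ.filter (fun a => a ∉ t.Pb P i ∧ a ∉ t.Q ∧ a ∉ t.mF i ∧
    ∀ w, Y w → t.K w = some i → c w ≠ a)).card : ℝ) ≤ P.eps * P.D
  y6 : ∀ i, ((univ.filter (fun v => t.K v = some i ∧ t.W v ∧ col2 t C c v)).card : ℝ) ≤
    2 * P.eps * P.D
  y7 : ∀ i, t.K i = some i → ((univ.filter (fun w => w ∈ t.Rg P i ∧ ¬ t.F0 w ∧ ¬ Y w)).card : ℝ) ≤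
    (P.rho + 2 * P.pmax) * P.D

/-- The state after section 9c, blocked rows. -/
structure HC (P : Par) (t : Td V κ) (C : V → Prop) (c : V → κ) : Prop where
  y8 : ∀ i a, t.K i = some i → ∃ T : Finset V,
    (T = ∅ ∨ ∃ x y, t.K x ≠ some i ∧ t.K y ≠ some i ∧ T = nb t.G x ∪ nb t.G y) ∧
    P.D ≤ 113 * (t.Ki i \ T).card ∧
    ((univ.filter (fun w => w ∈ t.Rg P i ∧ w ∉ T ∧ w ∉ t.FB i a ∧ bk2 t C c a w)).card : ℝ) ≤
      4 * P.eps * P.D
  y10 : ∀ i, ((univ.filter (fun a => (P.theta + P.eps) * P.D <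
    (((t.Rg P i).filter (fun w => bk2 t C c a w)).card : ℝ))).card : ℝ) ≤ P.pmax * P.D

/-- conflicts of the swaps `(u, w)` and `(u', w')` -/
def cfF (t : Td V κ) (c α : V → κ) (u w u' w' : V) : Prop :=
  w = w' ∨ t.E.N (c w) u = t.E.N (c w') u' ∨ t.E.N (c w) u = t.E.N (α u') w' ∨
  t.E.N (α u) w = t.E.N (c w') u' ∨ t.E.N (α u) w = t.E.N (α u') w' ∨
  (t.G.Adj u u' ∧ c w = c w') ∨ (t.G.Adj w w' ∧ α u = α u') ∨
  (t.G.Adj u w' ∧ c w = α u') ∨ (t.G.Adj w u' ∧ α u = c w')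

/-- The pairing of the last rows and the reserved colours. -/
structure AlP (P : Par) (t : Td V κ) (C Y : V → Prop) (c : V → κ) (Qp : V → Finset κ)
    (α : V → κ) : Prop where
  mem : ∀ u i, ¬ C u → t.K u = some i → α u ∈ Qp i
  opt : ∀ u, ¬ C u → P.D ≤ 1500 * P.MW ^ 2 * (opt t C Y c u (α u)).card
  inj : ∀ u v, ¬ C u → ¬ C v → t.K u = t.K v → α u = α v → u = v

/-- The choice of the swaps. -/
structure SwP (t : Td V κ) (C Y : V → Prop) (c α : V → κ) (g : V → V) : Prop where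
  mem : ∀ u, ¬ C u → g u ∈ opt t C Y c u (α u)
  cf : ∀ u u', ¬ C u → ¬ C u' → u ≠ u' → ¬ cfF t c α u (g u) u' (g u')

end k3

section yr

variable {V κ : Type} [Fintype V] [Fintype κ] (P : Par) (k : Kd V κ) (ro : V → κ → V)

/-- the rows of the good colours -/
def Kd.Yr (w : V) : Prop := ∃ i a, k.K i = some i ∧ a ∈ k.Gc P i ∧ ro i a = w

/-- the coloured vertices after section 9c -/
def Kd.C2 (w : V) : Prop := k.Cb P w ∨ k.Yr P ro w

/-- the colours after section 9c -/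
noncomputable def Kd.c2 (w : V) : κ :=
  if h : ∃ a, ∃ i, k.K i = some i ∧ a ∈ k.Gc P i ∧ ro i a = w then h.choose else k.cb P w

end yr

/-- HAS (file `Helper60/TCV/HAs.lean`, `thm_HAs (hCbP : St_CbP) : St_HAs`). The colours after section 9c.

Proof. Remarks: for `w = ro i a` (`K i = some i`, `a ∈ Gc i`): `K w = some i`, `al w a`, so `w ∈ Rw i ⊆ Rg i`,
`¬ F0 w`, `¬ X w`; the pair `(i, a)` is determined by `w` (`i` by `K w`, `a` by `RoP.inj`), so `c2 w = a`; and `w` is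
not in `Cb` (`K w ≠ none`, `¬ X w`, `¬ Sp w`, `¬ FF w`); for `w ∈ Cb`: `c2 w = cb w`.
`yrow` clear. `rem`: `K u ≠ none`, `¬ Sp u`, so `u ∈ Rg i` for `K u = some i`. `prop`: both in `Cb`: `St_CbP`. `u ∈ Cb`,
`v = ro i a`: if `K u ≠ K v` then `¬ bl a v` excludes `cb u = a`; if `K u = K v = some i`: `cb u` is in `Pb i` (`X u`), in
`cSp i` (`Sp u`) or in `mFF i` (`FF u`), and `a` is in none of these. Both rows of good colours: in different
clusters `RoP.cross`; in one cluster the colours are different since the rows are different.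
`cell`: `U`: `SP.g2`; `S ∩ F0`: `cS = m`, fixed (`miss`); `X`: `x1` and `W1`; special: `z3`; `FF`: `m`, fixed; good rows:
`al`. `inj` (cells not fixed, so `S ∩ F0` and `FF` do not occur): `U`-`U`: `g3`; `U`-`X`: `g2` (`¬ colX`); `X`-`X`: `x2`;
special against `U`, `X`: `z3` (`¬ usd`); special-special: `z4`; good rows against `U`, `X`, special: `al` (`¬ us`,
`¬ sc`); good-good: the columns lie in `Rg i`, `Rg j`, so `i = j`, and `RoP.col`.
`yun`: as in `prop`, same cluster. `qun`: `a ∈ Qp i`, `a ∉ Pb i`; `X x`: `cX x ∈ Pb i`; `Sp x`: `cZ x ∉ Q` (`z2`),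
`cZ x ∈ cSp i`, so `∉ Bk i`; `FF x`: `m x ∈ J1` (`cand`), so `∉ Q` (`q1`), `m x ∈ mFF i`, so `∉ Bk i`; good rows: the colour
is in `Gc i`, so not in `Q`, `Bk i`. -/
def St_HAs : Prop := ∀ (P : Par) (V κ : Type) [Fintype V] [Fintype κ] (k : Kd V κ)
  (ro : V → κ → V), Num10 P → KdP P k → RoP P k ro →
  HA P k.toTd (k.C2 P ro) (k.Yr P ro) (k.c2 P ro) (k.Qp P)

/-- HBS (file `Helper60/TCV/HBs.lean`, `thm_HBs (hCnt : St_Cnt) (hFew : St_Few) : St_HBs`). The numbers after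
section 9c.

Proof. `rcard`: the regular rows of `K_i` are the disjoint union of `X ∩ K_i`, `FF ∩ K_i`, `{ro i a | a ∈ Gc i}`
(`|Gc i|` rows) and `Rr i`; so with `Cnt`: `|Rr i| + |X_i| + lam i = |Pb i| + |Qp i|`, and `|Pb i| ≤ |X_i| + lam i` (`x4`).
`qc1`: `|Qp i| ≤ |Q| + |Bk i| ≤ rho D + pmax D` (`q2`, `Few` (2); `Bk i` is contained in the set of `Few` (2)).
`qc2`: `|Qp i| ≥ |Q| - |Pb i| ≥ rho D - 1 - pmax D ≥ 0.99 rho D`. `qP`, `qQ`, `yP`: definitions. `y5`: such an `a` is not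
in `mFF i ⊆ mF i`, so it is in `cSp i`, `Bk i` or `Gc i`; in `Gc i` it is the colour of the row `ro i a`; so the number
is at most `|Spi i| + |Bk i| ≤ 104 delta D / eta + pmax D ≤ eps D`. `y6`: a non-fixed coloured row with column in
`W` is in `U` or `X` (special rows: `z3`, good rows: `al`; `S ∩ F0`, `FF`: fixed), so `us v`: `Few` (3). `y7`: such a
row is in `X` (`pmax D`) or in `Rr i` (`rcard`, `qc1`); `FF` rows are in `F0`. -/
def St_HBs : Prop := ∀ (P : Par) (V κ : Type) [Fintype V] [Fintype κ] (k : Kd V κ)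
  (ro : V → κ → V), Num10 P → KdP P k → RoP P k ro →
  HB P k.toTd (k.C2 P ro) (k.Yr P ro) (k.c2 P ro) (k.Qp P)

/-- HCS (file `Helper60/TCV/HCs.lean`, `thm_HCs (hFew : St_Few) : St_HCs`). The blocked rows.

Proof. `y10`: `bk2 a w` for `w ∈ Rg i` means `bl a w`, or `w ~ x` for a good row `x = ro j a`, `j ≠ i`; the number of
`w ∈ Ki i` of the second kind is at most `∑ x, dk i x ≤ eps D` (`p5`). So `bk2` for more than `(theta + eps) D` rows
implies `bl` for more than `theta D` rows: `Few` (2).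
`y8`: let `H = {y | hv i y, (K y = none and ¬ F0 y) or Sp y, c2 y = a}` (heavy vertices are not in `F0`: `AcP.f0`,
`cand`: candidates in `S` are in `A`, candidates in clusters are regular and not heavy by `hvI`: a heavy cluster
vertex is irregular, hence special). If `H` is empty let `T = ∅` (`D ≤ 113 |Ki i|` by `k1`). Otherwise choose `y ∈ H`
and put `T = nb y ∪ nb y` if `K y = none`, `T = nb y ∪ nb (pr y)` if `Sp y`. `K y ≠ some i` by `hv`, `K (pr y) = K y`.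
`D ≤ 113 |Ki i \\ T|`: for `K y = none` or `pr y = y` by `d6`; otherwise `|Ki i \\ T| ≥ |Ki i| - dk i y - dk i (pr y) ≥
|Ki i| - 2 D / 99` (`dk i y ≤ oo y`, `d4`). Every other `x ∈ H` is `pr y` (with `Sp y`): `x, y ∈ S`: `SP.g1` (virtual
edge); `x ∈ S`, `Sp y` or conversely: `z8`; both special: `z7`. Now let `w ∈ Rg i`, `w ∉ T`, `w ∉ FB i a`, blocked by `x`
(`w ~ x`, `K x ≠ some i`, `C x`, `c x = a`). `x ∈ S ∩ F0` or `FF x`: then `m x = a` and `w ∈ FB i a`, excluded. If `x ∈ H` then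
`w ∈ T`, excluded. So `x` is: in `U`, not heavy, `cS x = a`: at most `∑ dk i x ≤ eps D` rows `w` (`q3`); in `X`: at most
`eps D` (`x5`); special, not heavy: at most `eps D` (`z9`); a good row: at most `eps D` (`p5`). -/
def St_HCs : Prop := ∀ (P : Par) (V κ : Type) [Fintype V] [Fintype κ] (k : Kd V κ)
  (ro : V → κ → V), Num10 P → KdP P k → RoP P k ro → HC P k.toTd (k.C2 P ro) (k.c2 P ro)

/-- BD1 (file `Helper60/TCV/Bd1.lean`, `thm_Bd1 (hMom : St_Mom) : St_Bd1`). For a last row `u` most colours are good.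

Proof. Let `K u = some i`, `n = |Rg i|`, `T1` = the set of the `w` with `Y w`, `K w = some i`, `cr u (c w)`,
`N_{c w} u ∈ Rg i`, `W (N_{c w} u)`, `¬ col2 (N_{c w} u)`, `¬ bk2 (c w) u`. (A) `|T1| ≥ 0.44 D / MW`: `TaK.k5` gives
`0.45 D / MW` colours `a ∉ Q ∪ mF i ∪ Pb i` with `cr u a`, `N_a u ∈ Rg i`, `W (N_a u)`; remove those which are not
colours of rows of `Y` in `K_i` (`y5`: `eps D`), those with `col2 (N_a u)` (`y6`: `2 eps D`, `a ↦ N_a u` is injective),
those with `bk2 a u` (at most `oo u ≤ eta D`); the others are colours of different `w ∈ T1`.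
(B) `hMom` with `T = T1`, `Q = t.Q`, `R w a := cr w a ∧ N_a w ∈ Rg i ∧ W (N_a w)`, `p = 1 / (2 MW)`,
`e1 = eta D / MW + nz`, `e2 = nz` (`k6`, `k6'`; `T1 ⊆ Rg i`): the number of `a ∈ Q` with `2 X_a < p |T1|`,
`X_a = #{w ∈ T1 | R w a}`, is at most `16 MW^2 |Q| / |T1| + 16 MW^2 nz + 16 MW (eta D / MW + nz) ≤ rho D / 50`.
(C) `E a := #{w ∈ T1 | N_{c w} u = N_a w}`: `∑ a, E a ≤ 2 |T1| ≤ 3 D`, since for given `w`, `v = N_{c w} u`, the colour `a`
with `N_a w = v` is unique if `v ≠ w` and one of at most two missing colours of `w` if `v = w` (at most 2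
colours are missing at `w`: all neighbours except possibly `z w` are `N_a w`, `cov`, `reg`, `col`). So
`E a > D / (10^4 MW^2)` for at most `3 * 10^4 MW^2` colours.
(D) Let `a ∈ Qp i`, `a ∈ Q`, `2 X_a ≥ p |T1|`, not more than `(theta + eps) D` rows `w ∈ Rg i` with `bk2 a w`,
`E a ≤ D / (10^4 MW^2)`. The `w ∈ T1` with `R w a`, `¬ bk2 a w`, `¬ col2 (N_a w)` (`y6`: exclude `2 eps D`),
`N_{c w} u ≠ N_a w` are in `opt u a`: `|opt| ≥ 0.11 D / MW^2 - (theta + 3 eps) D - D / (10^4 MW^2) ≥ D / (1500 MW^2)`.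
So the number of bad `a ∈ Qp i` is at most `pmax D` (`qQ`) `+ rho D / 50 + pmax D` (`y10`) `+ 3 * 10^4 MW^2 ≤ rho D / 20`. -/
def St_Bd1 : Prop := ∀ (P : Par) (V κ : Type) [Fintype V] [Fintype κ] (t : Td V κ)
  (C Y : V → Prop) (c : V → κ) (Qp : V → Finset κ), Num10 P → Bse P t → HA P t C Y c Qp →
  HB P t C Y c Qp → HC P t C c → ∀ i u, t.K u = some i → ¬ C u →
  (((Qp i).filter (fun a => 1500 * P.MW ^ 2 * (opt t C Y c u a).card < P.D)).card : ℝ) ≤
    P.rho * P.D / 20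

/-- BD2 (file `Helper60/TCV/Bd2.lean`, `thm_Bd2 (hMom : St_Mom) : St_Bd2`). For a colour `a ∈ Qp i` most last rows
are good.

Proof. `n = |Rg i|`. `Psi` = the set of the `w` with `Y w`, `K w = some i`, `¬ bk2 a w` and (`fx w a` or `cr w a`,
`N_a w ∈ Rg i`, `W (N_a w)`, `¬ col2 (N_a w)`). (A) `|Psi| ≥ D / (310 MW)`: take `T` of `y8`; `TaK.k4` (`a ∉ Pb i` by `qP`)
gives `D / (300 MW)` rows `w ∈ Rg i`, `¬ F0 w`, `w ∉ FB i a`, `w ∉ T` with `fx w a` or (`cr w a`, `N_a w ∈ Rg i`,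
`W (N_a w)`); remove those with `¬ Y w` (`y7`: `(rho + 2 pmax) D`), `bk2 a w` (`y8`: `4 eps D`), `col2 (N_a w)` (`y6`:
`2 eps D`). (B) `c` is injective on `Psi` (`yun`). At most `2000 / rho` colours are missing at `≥ (rho / 1000) n`
rows of `Rg i` (every row misses at most 2 colours, see `St_Bd1` (C)). `T2` = `c(Psi)` without these;
`|T2| ≥ D / (311 MW)`. (C) `hMom` with `Y`-type `κ`, `T = T2`, `Q = t.Rg P i`, `R b u := cr u b ∧ N_b u ∈ Rg i ∧
W (N_b u)`, `p = 1 / (2 MW)`, `e1 = (rho n / 1000 + theta D + |Spi i| + 2 X) / (2 MW) + nz`, `e2 = nz`: `k7` and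
`#{u ∈ Rg i | gc u b, N_b u ∈ Rg i} ≥ n - rho n / 1000 - theta D - |Spi i| - 2 X` (missing at `u`; `N_b u ∉ K_i`: at most
`theta D` since `b ∉ Pb i` by `yP`; `N_b u ∈ Spi i`; `z` moves `N_b u`: `r4'`), and `k7'`. The number of `u ∈ Rg i` with
`2 X_u < p |T2|`, `X_u = #{b ∈ T2 | R b u}`, is at most `16 MW^2 n / |T2| + 16 MW^2 nz + 16 MW e1 ≤ 16 * 311 * 2 MW^3 +
32 MW^2 nz + 8 (rho n / 1000 + theta D + |Spi i| + 2 X) ≤ rho D / 25`. (D) `E u := #{w ∈ Psi | N_{c w} u = N_a w}`: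
`∑ u, E u ≤ |Psi| ≤ 2 D` (`u = N_{c w} (N_a w)`), so `E u > D / (10^4 MW^2)` for at most `2 * 10^4 MW^2` rows. (E) For the
other `u` with `¬ C u`, `K u = some i`: the `w ∈ Psi` with `c w ∈ T2`, `R (c w) u`, `¬ col2 (N_{c w} u)` (`y6`:
exclude `2 eps D`), `¬ bk2 (c w) u` (exclude `oo u ≤ eta D`), `N_{c w} u ≠ N_a w` are in `opt u a`: `|opt| ≥
D / (1244 MW^2) - 2 eps D - eta D - D / (10^4 MW^2) ≥ D / (1500 MW^2)`. -/
def St_Bd2 : Prop := ∀ (P : Par) (V κ : Type) [Fintype V] [Fintype κ] (t : Td V κ)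
  (C Y : V → Prop) (c : V → κ) (Qp : V → Finset κ), Num10 P → Bse P t → HA P t C Y c Qp →
  HB P t C Y c Qp → HC P t C c → ∀ i, t.K i = some i → ∀ a ∈ Qp i,
  (((Rr t C i).filter (fun u => 1500 * P.MW ^ 2 * (opt t C Y c u a).card < P.D)).card : ℝ) ≤
    P.rho * P.D / 20

/-- PR10 (file `Helper60/TCV/Pr10.lean`, `thm_Pr10 (hPai : Pool.TCT.St_Pai) (hBd1 : St_Bd1) (hBd2 : St_Bd2) :
St_Pr10`). The pairing.

Proof. For every `i` with `K i = some i` apply `hPai` to `R = Rr t C i`, `Q = Qp i`,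
`bad u a := 1500 MW^2 |opt u a| < D`, `k = ⌊rho D / 20⌋` (`Nat.floor`; the cardinalities are integers), `rcard`,
`2 k ≤ rho D / 10 < 0.99 rho D ≤ |Qp i|`. This gives `f i : V → κ`; put `α u = f i u` for `K u = some i` (`K i = some i`
by `GrP.rt`; for `K u = none` arbitrary: then `C u` by `HA.rem`). -/
def St_Pr10 : Prop := ∀ (P : Par) (V κ : Type) [Fintype V] [Fintype κ] (t : Td V κ)
  (C Y : V → Prop) (c : V → κ) (Qp : V → Finset κ), Num10 P → Bse P t → HA P t C Y c Qp →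
  HB P t C Y c Qp → HC P t C c → ∃ α : V → κ, AlP P t C Y c Qp α

/-- CN10 (file `Helper60/TCV/Cn10.lean`). The number of conflicts of a swap.

Proof. `K u = some i` (`rem`), `K w = some i`. Let `(u', w')` be counted, `K u' = K w' = some j`. The columns of a swap
lie in its cluster (for a fixed cell `(w, α u)` the column is `w`), so the first five cases of `cfF` imply `j = i`;
`u' ∈ Rr i`. `w' = w`: at most `|Rr i|`. `N_{c w'} u' = v` with `v` given (two cases, `v = N_{c w} u`, `v = N_{α u} w`):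
for given `u'` the colour `c w'` is determined (`cr u' (c w')`, `uniq`), and then `w'` (`yun`): at most `|Rr i|` each.
`N_{α u'} w' = v`: `w' = N_{α u'} v`: at most `|Rr i|` each (two cases). `u ~ u'`, `c w = c w'`: if `j = i` then `w = w'`
(`yun`, counted in the first case: choose the first case which holds, or bound the union); if `j ≠ i`: `u'` is one of
the `oo u` neighbours outside, and `w'` is determined by `K w' = K u'`, `c w'` (`yun`): `oo u`. `w ~ w'`, `α u = α u'`: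
`j = i` gives `u' = u` (`AlP.inj`), excluded; otherwise `oo w` (`u'` is determined by `K u' = K w'` and `α u'`).
`u ~ w'`, `c w = α u'`: `j = i` is excluded by `qun` (`α u' ∈ Qp i`, `C w`); otherwise `oo u`. `w ~ u'`, `α u = c w'`:
`j = i` excluded by `qun` (`α u ∈ Qp i`, `C w'`); otherwise `oo w`. -/
def St_Cn10 : Prop := ∀ (P : Par) (V κ : Type) [Fintype V] [Fintype κ] (t : Td V κ)
  (C Y : V → Prop) (c : V → κ) (Qp : V → Finset κ) (α : V → κ), Bse P t → HA P t C Y c Qp →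
  AlP P t C Y c Qp α → ∀ i u w, t.K u = some i → ¬ C u → w ∈ opt t C Y c u (α u) →
  (univ.filter (fun p : V × V => ¬ C p.1 ∧ p.1 ≠ u ∧ p.2 ∈ opt t C Y c p.1 (α p.1) ∧
    cfF t c α u w p.1 p.2)).card ≤ 5 * (Rr t C i).card + 2 * t.oo u + 2 * t.oo w

/-- TR10 (file `Helper60/TCV/Tr10.lean`, `thm_Tr10 (hCn10 : St_Cn10) : St_Tr10`). The choice of the swaps.

Proof. `Pool.Agent.Helper45.Vu.exists_transversal` (file `Pool/Agent/Helper45/Vu/IT.lean`) for the graph on `V × V` with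
`(u, w) ~ (u', w')` iff `u ≠ u'` and `cfF u w u' w'` or `cfF u' w' u w` (`cfF` is symmetric: check), parts
`P u = {u} ×ˢ opt u (α u)`, `S = {u | ¬ C u}`, `D' = ⌈5 (rho + pmax) D + 4 eta D⌉`: degrees `≤ 5 |Rr i| + 2 oo u + 2 oo w ≤ D'`
(`rcard`, `qc1`; `u`, `w` are regular: `rem`, `yrow`), and `4 D' ≤ D / (1500 MW^2) ≤ |opt u (α u)|`
(`rho = X ^ (-13)`, `MW^2 = X ^ 12`, `X ≥ 10^20`). If no `u` has `¬ C u` take `g = id`. -/
def St_Tr10 : Prop := ∀ (P : Par) (V κ : Type) [Fintype V] [Fintype κ] (t : Td V κ)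
  (C Y : V → Prop) (c : V → κ) (Qp : V → Finset κ) (α : V → κ), Num10 P → Bse P t →
  HA P t C Y c Qp → HB P t C Y c Qp → AlP P t C Y c Qp α → ∃ g : V → V, SwP t C Y c α g

/-- FI10 (file `Helper60/TCV/Fi10.lean`). The final colouring.

Proof. `c' x = c (g x)` if `¬ C x` (type R); `c' x = α u` if `C x` and `x = g u` with `¬ C u` (type G; `u` is unique
since `cfF` excludes `g u = g u'`); `c' x = c x` otherwise (type O). For `w = g u`: `Y w`, `C w`, `K w = K u`.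
`prop`: let `x ~ y`. (1) `K x = K y = some i`: R-R: `c (g x) = c (g y)` gives `g x = g y` (`yun`), so `x = y`. R-G
(`y = g u`): `α u ∈ Qp i` and `C (g x)`, `K (g x) = some i`: `qun`. R-O: `y ≠ g x`, `yun` with `w = g x`. G-G: `AlP.inj`.
G-O: `qun`. O-O: `HA.prop`. (2) `K x ≠ K y` or `K x = K y = none` (in the last case both are O: rows of type R, G are in
clusters: `rem`, `yrow`): R-R, R-G, G-G: `SwP.cf` (the last four cases of `cfF`, in R-G with `u ≠ x` because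
`K u = K y ≠ K x`). R-O: `¬ bk2 (c (g x)) x`. G-O (`x = g u`): `¬ bk2 (α u) (g u)`. O-O: `HA.prop`.
`cell`: R: `cr x (c (g x))`; G: `opt`; O: `HA.cell`. `inj` (both cells not fixed): R-R, G-G and R-G with different
`u`: `SwP.cf`; R-G with the same `u`: last condition of `opt`; R-O, G-O: the column of the R, G cell is not `col2`, the
column of the O cell is `col2` (`C y`, not fixed); O-O: `HA.inj`. -/
def St_Fi10 : Prop := ∀ (P : Par) (V κ : Type) [Fintype V] [Fintype κ] (t : Td V κ)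
  (C Y : V → Prop) (c : V → κ) (Qp : V → Finset κ) (α : V → κ) (g : V → V), Bse P t →
  HA P t C Y c Qp → AlP P t C Y c Qp α → SwP t C Y c α g → ∃ c' : V → κ, Fin10 t c'

/- K10 (file `Helper60/TCV/K10.lean`, `thm_K10 (hSp10 : St_Sp10) (hRo : St_Ro) (hHAs : St_HAs) (hHBs : St_HBs)
(hHCs : St_HCs) (hPr10 : St_Pr10) (hTr10 : St_Tr10) (hFi10 : St_Fi10) : St_K10`; `St_K10` is in
`Helper3/TCV/Defs.lean`).

Proof. `cZ` from `hSp10`, `k = { t with X, cX, cS, cZ }`, `KdP P k`; `ro` from `hRo`; `hHAs`, `hHBs`, `hHCs`; `α` from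
`hPr10`, `g` from `hTr10`, and `hFi10`. -/

end Pool.TCV
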