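import Pool.Agent.Helper3.TCV.Defs
import Pool.Agent.Helper60.TCV.StT

/-!
# T10, section 6 (the X-stage): statements with proofs

The problem colours `P_i` are grouped into blocks `Gam i k`; every block gets one cell `(w, a)`, `a`
in the block, by `St_Samp`.  The result is `XP P t X cX`.
Namespace `Pool.TCV`; theorem `thm_X : St_X` in the file named in the docstring.

General remarks for all proofs: `g.K w = some i` implies `g.K i = some i` (`GrP.rt`), so a cluster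
with `g.K i ≠ some i` is empty; `w ∈ g.Rg P i` means `g.K w = some i` and `¬ g.Sp P w`, in particular
`(g.oo w : ℝ) < P.eta * P.D`; `t.W1 P i a ⊆ t.W0 P i a ⊆ t.Rg P i`; for `w ∈ t.W1 P i a` the column
`v = t.E.N a w` has `t.K v = some i` (if the cell is fixed then `v = w`); `t.E.N a (t.E.N a w) = w`.
-/

set_option autoImplicit false

namespace Pool.TCV

open Pool.TC Pool.TCM Pool.TCS Pool.TN Finset
open scoped Classical

section xs

variable {V κ : Type} [Fintype V] [Fintype κ]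

/-- Blocks of problem colours. -/
structure Blo (P : Par) (t : Td V κ) (Bl : V → Finset (Finset κ)) : Prop where
  sub : ∀ i, ∀ Γ ∈ Bl i, Γ ⊆ t.Pb P i
  dis : ∀ i, ∀ Γ ∈ Bl i, ∀ Γ' ∈ Bl i, ∀ a ∈ Γ, a ∈ Γ' → Γ = Γ'
  big : ∀ i, ∀ Γ ∈ Bl i, 3 * P.D ≤ 25 * ∑ a ∈ Γ, (t.W1 P i a).card
  cnt : ∀ i, (t.Pb P i).card ≤ (Bl i).card + t.lam i

/-- the nodes: pairs (cluster, block) -/
noncomputable def UX (Bl : V → Finset (Finset κ)) : Finset (V × Finset κ) :=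
  univ.filter (fun u => u.2 ∈ Bl u.1)

/-- the options of a node: cells -/
noncomputable def OpX (P : Par) (t : Td V κ) (u : V × Finset κ) : Finset (V × κ) :=
  univ.filter (fun p => p.2 ∈ u.2 ∧ p.1 ∈ t.W1 P u.1 p.2)

/-- all cells which can be used -/
noncomputable def AlX (P : Par) (t : Td V κ) : Finset (V × κ) :=
  univ.filter (fun p => ∃ i, p.2 ∈ t.Pb P i ∧ p.1 ∈ t.W1 P i p.2)

/-- conflicts of cells of different nodes: same row, same column, or adjacent rows with the same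
colour -/
def cfX (t : Td V κ) (p p' : V × κ) : Prop :=
  p.1 = p'.1 ∨ t.E.N p.2 p.1 = t.E.N p'.2 p'.1 ∨ (t.G.Adj p.1 p'.1 ∧ p.2 = p'.2)

/-- the index type of the tests: `inl (i, b)` for (L5), `inr (inl x)`, `inr (inr x)` for (L6) -/
abbrev JX (V κ : Type) : Type := (V × κ) ⊕ (V ⊕ V)

/-- the tests -/
noncomputable def TX (t : Td V κ) (j : JX V κ) (p : V × κ) : ℝ :=
  match j with
  | Sum.inl (i, b) => if p.2 = b ∧ t.K p.1 ≠ some i then (t.dk i p.1 : ℝ) else 0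
  | Sum.inr (Sum.inl x) => if t.G.Adj x p.1 then 1 else 0
  | Sum.inr (Sum.inr x) => if t.G.Adj x (t.E.N p.2 p.1) then 1 else 0

end xs

/-- BLO (file `Helper60/TCV/Blo.lean`, `thm_Blo : St_Blo`, no hypotheses). The blocks.

Proof. `Bl i = (Finset.range (t.nbl i)).image (t.Gam i)` with the fields `gm1`, ..., `gm6` of
`h.ed : EdP P t.toEd` (`h : Bse P t`). `sub`: `gm1`. `dis`: `gm2` (`Disjoint` and a common element give
`k = k'`). `big`: for `k < t.nbl i`: `t.K i = some i` (`gm6`), `999 D ≤ 1000 n`, `n = (t.Rg P i).card`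
(`GrP.n1`), `n ≤ 4 Wt` (`gm4`), `49 Wt ≤ 100 ∑ a ∈ Gam i k, |W1 i a|` (`TaK.k9`), so
`400 ∑ |W1| ≥ 49 n`, `400000 ∑ |W1| ≥ 48951 D`, and `48951 * 25 ≥ 3 * 400000` (note `48951 * 25 =
1223775`). `cnt`: `gm3` and `(Bl i).card = t.nbl i`: `t.Gam i` is injective on `range (t.nbl i)`
because the blocks are pairwise disjoint and nonempty (`4 Wt ≥ n > 0` since `D > 0`, and
`Wt = ∑ a ∈ Gam i k, ..`, so `Gam i k ≠ ∅`). -/
def St_Blo : Prop := ∀ (P : Par) (V κ : Type) [Fintype V] [Fintype κ] (t : Td V κ), Num10 P →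
  Bse P t → ∃ Bl : V → Finset (Finset κ), Blo P t Bl

/-- XCF (file `Helper60/TCV/XCf.lean`). The number of conflicts of a cell.

Proof. Let `u = (i, Γ)`, `p = (w, a)`, so `a ∈ Γ ⊆ Pb i`, `w ∈ W1_{i,a}`. Let `r = (u', p')`,
`u' = (j, Γ')`, `p' = (w', a')` be counted. `u'` is determined by `p'` (`j` by `t.K w' = some j`, `Γ'`
by `a' ∈ Γ'` and `Blo.dis`). (1) `w' = w`: then `j = i` and `a' ∈ Pb i`: at most `|Pb i|`. (2)
`N_a w = N_{a'} w' = v`: `t.K v = some i` and `t.K v = some j`, so `j = i`, `a' ∈ Pb i`,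
`w' = N_{a'} v`: at most `|Pb i|`. (3) `w ~ w'`, `a' = a`: if `t.K w' = t.K w` then `j = i`, `a` lies in
`Γ` and `Γ'`, so `u' = u`, excluded; hence `w'` is one of the `t.oo w` neighbours of `w` with
`t.K w' ≠ t.K w`, and `p'` is determined by `w'`. Bound the filter by the union of three sets, each
the image / injective preimage of a set of that size. -/
def St_XCf : Prop := ∀ (P : Par) (V κ : Type) [Fintype V] [Fintype κ] (t : Td V κ)
  (Bl : V → Finset (Finset κ)), Bse P t → Blo P t Bl → ∀ u ∈ UX Bl, ∀ p ∈ OpX P t u,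
  (univ.filter (fun r : (V × Finset κ) × (V × κ) => r.1 ∈ UX Bl ∧ r.1 ≠ u ∧ r.2 ∈ OpX P t r.1 ∧
    cfX t p r.2)).card ≤ 2 * (t.Pb P u.1).card + t.oo p.1

/-- XTO (file `Helper60/TCV/XTo.lean`). The totals of the tests.

Proof. First `∑ u ∈ UX, ∑ p ∈ L u, f p ≤ ∑ p ∈ AlX, f p` for `f ≥ 0`: the sets `OpX u`, `u ∈ UX`, are
pairwise disjoint subsets of `AlX` (a cell `(w, a)` determines `i` by `t.K w = some i` and the block by
`Blo.dis`). (`TX ≥ 0`.)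
`inl (i, b)`: only cells `(w, b)` count, at most one for every `w` with `t.K w ≠ none`,
`t.K w ≠ some i`: the sum is at most `∑ w, [K w ≠ none, K w ≠ some i] dk i w ≤ #{(v, w) : v ∈ Ki i,
w ∈ nb v, K w ≠ K v} = ∑ v ∈ Ki i, oo v ≤ 103 delta D ^ 2` (`d5`; symmetric adjacency).
`inr (inl x)`: for every `w ∈ nb x` with `K w = some i` at most `|Pb i| ≤ pmax D` cells: total
`≤ dKU x * pmax D`.
`inr (inr x)`: the cell `(w, a)` is determined by `v = N_a w ∈ nb x` (`K v = K w = some i`) and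
`a ∈ Pb i`. -/
def St_XTo : Prop := ∀ (P : Par) (V κ : Type) [Fintype V] [Fintype κ] (t : Td V κ)
  (Bl : V → Finset (Finset κ)) (L : V × Finset κ → Finset (V × κ)), Bse P t → Blo P t Bl →
  (∀ u ∈ UX Bl, L u ⊆ OpX P t u) →
  (∀ i b, (∑ u ∈ UX Bl, ∑ p ∈ L u, TX t (Sum.inl (i, b)) p) ≤ 103 * P.delta * P.D ^ 2) ∧
  (∀ x, (∑ u ∈ UX Bl, ∑ p ∈ L u, TX t (Sum.inr (Sum.inl x)) p) ≤ t.dKU x * (P.pmax * P.D)) ∧
  (∀ x, (∑ u ∈ UX Bl, ∑ p ∈ L u, TX t (Sum.inr (Sum.inr x)) p) ≤ t.dKU x * (P.pmax * P.D))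

/-- XSU (file `Helper60/TCV/XSu.lean`). The supports of the tests, with `N = (D + 2) ^ 4`.

Proof. Nodes are counted by cells (choose for every node in the filter a cell with a nonzero value;
different nodes have disjoint option sets). `inl (i, b)`: cells `(w, b)` with `dk i w ≠ 0`, i.e. `w`
has a neighbour `v` in `Ki i`: at most `|Ki i| * D ≤ 2 (D + 1) D` rows (`k2`, `delta ≤ 10^-3`).
`inr (inl x)`: cells `(w, a)` with `w ∈ nb x`: at most `D (D + 1)`. `inr (inr x)`: `(w, a)` is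
determined by `(N_a w, a)`, at most `D (D + 1)`.
For a node `u = (i, Γ)`: all rows and columns of its options lie in `Ki i`, which has at most
`2 (D + 1)` elements. `inl (i', b)` is counted only if some `w ∈ Ki i` has a neighbour `v` with
`K v = some i'`: at most `2 (D + 1) D` values of `i'` and `D + 1` values of `b` (`EdP.col`).
`inr (inl x)`, `inr (inr x)`: `x` is a neighbour of a vertex of `Ki i`: at most `2 (D + 1) D` each.
Total `≤ 2 (D + 1)^2 D + 4 (D + 1) D ≤ (D + 2)^4`. -/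
def St_XSu : Prop := ∀ (P : Par) (V κ : Type) [Fintype V] [Fintype κ] (t : Td V κ)
  (Bl : V → Finset (Finset κ)) (L : V × Finset κ → Finset (V × κ)), Num10 P → Bse P t →
  Blo P t Bl → (∀ u ∈ UX Bl, L u ⊆ OpX P t u) →
  (∀ j, ((UX Bl).filter (fun u => ∃ p ∈ L u, TX t j p ≠ 0)).card ≤ (P.D + 2) ^ 4) ∧
  (∀ u ∈ UX Bl, (univ.filter (fun j : JX V κ => ∃ p ∈ L u, TX t j p ≠ 0)).card ≤ (P.D + 2) ^ 4)

/-- XNU (file `Helper60/TCV/XNu.lean`). The numerical conditions of the X-stage;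
`l = 3 * D / 25` (in `ℕ`), `q = 25 * X ^ 3`, `N = (D + 2) ^ 4`.

Proof. `D ≥ X ^ 4000000`, `X ≥ 10 ^ 20`, `D < 2 ^ (X + 1)`. `l ≥ 0.119 D`. The exponential:
`exp (-Lam) = exp (- X ^ 3)`, `(D + 2) ^ 16 ≤ 2 ^ (16 (X + 2))`, `4 (2 (D + 2) ^ 16 + 1) ≤
2 ^ (16 X + 36) ≤ exp (X ^ 3)`. `pmax = 103 X ^ (-4886)`, `eta = X ^ (-1600)`. (6):
`206 X ^ (-4886) + X ^ (-1600) ≤ 0.119 / 8`. (7): `4 q (103 delta D ^ 2) / l ≤ 10 ^ 5 X ^ 3 delta D`
(`100 * 103 / 0.119 < 10 ^ 5`); inside the root: `(10 ^ 5 X ^ 3 delta D (eta D + 1) +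
X ^ 3 (eta D + 1) ^ 2) X ^ 3 ≤ 2 X ^ 6 (2 eta D) ^ 2` (`1 ≤ eta D`, `10 ^ 5 delta ≤ eta`), root
`≤ 3 X ^ 3 eta D`; total `≤ 10 ^ 5 X ^ (3 - 4900) D + 9 X ^ (3 - 1600) D ≤ X ^ (-15) D`. (8):
`4 q d pmax D / l ≤ 850 X ^ 3 pmax d ≤ xi d` since `xi = 2000 X ^ 3 pmax`; the root is
`≤ √(850 X ^ 6 pmax D + X ^ 6) ≤ X ^ 4 √D`, and `3 X ^ 4 √D ≤ nz = X ^ 10 √D`. (9):
`103 X ^ (-4886) ≤ X ^ (-15)`. -/
def St_XNu : Prop := ∀ (P : Par), Num10 P →
  0 < 3 * P.D / 25 ∧ 3 * P.D / 25 ≤ (P.D + 2) ^ 4 ∧ 4 * (25 * P.X ^ 3) ≤ (P.D + 2) ^ 4 ∧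
  1 ≤ P.Lam ∧ 25 * P.Lam ≤ ((25 * P.X ^ 3 : ℕ) : ℝ) ∧
  4 * Real.exp (-P.Lam) * (2 * (((P.D + 2) ^ 4 : ℕ) : ℝ) ^ 4 + 1) ≤ 1 ∧
  8 * (2 * (P.pmax * P.D) + P.eta * P.D) ≤ ((3 * P.D / 25 : ℕ) : ℝ) ∧
  4 * ((25 * P.X ^ 3 : ℕ) : ℝ) * (103 * P.delta * P.D ^ 2) / ((3 * P.D / 25 : ℕ) : ℝ) +
    3 * Real.sqrt ((4 * ((25 * P.X ^ 3 : ℕ) : ℝ) * (P.eta * P.D + 1) *
      (103 * P.delta * P.D ^ 2) / ((3 * P.D / 25 : ℕ) : ℝ) +
        P.Lam * (P.eta * P.D + 1) ^ 2) * P.Lam) ≤ P.eps * P.D ∧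
  (∀ d : ℕ, d ≤ P.D → 4 * ((25 * P.X ^ 3 : ℕ) : ℝ) * (d * (P.pmax * P.D)) /
      ((3 * P.D / 25 : ℕ) : ℝ) +
    3 * Real.sqrt ((4 * ((25 * P.X ^ 3 : ℕ) : ℝ) * 1 * (d * (P.pmax * P.D)) /
      ((3 * P.D / 25 : ℕ) : ℝ) + P.Lam * 1 ^ 2) * P.Lam) ≤ P.xi * d + P.nz) ∧
  P.pmax * P.D ≤ P.eps * P.D ∧ 0 ≤ P.eta * P.D ∧ 0 < P.theta * P.D

/- X10 (file `Helper60/TCV/X10.lean`, `thm_X10 (hSamp : St_Samp) (hBlo : St_Blo) (hXCf : St_XCf)
(hXTo : St_XTo) (hXSu : St_XSu) (hXNu : St_XNu) : St_X10`; `St_X10` is in `Helper3/TCV/Defs.lean`).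

Proof. Take `Bl` from `hBlo`. For `u ∈ UX Bl` the option set `OpX P t u` has
`∑ a ∈ u.2, (t.W1 P u.1 a).card ≥ 3 D / 25` elements; choose `L u ⊆ OpX P t u` with exactly
`l = 3 * D / 25` elements (`exists_subset_card_eq`). Apply `hSamp` with `I = V × Finset κ`,
`A = V × κ` (`κ` has `D + 1` elements; if `V` is empty everything is trivial), `J = JX V κ`,
`U = UX Bl`, `cf u p u' p' = cfX t p p'`, `T j u p = TX t j p`, `mT (inl _) = eta D + 1`,
`mT (inr _) = 1`, `nT (inl _) = 103 delta D ^ 2`,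
`nT (inr (inl x)) = nT (inr (inr x)) = dKU x * (pmax D)`, `q = 25 * X ^ 3`, `N = (D + 2) ^ 4`, `Lam`.
Conflicts: `8 (2 |Pb| + oo w) ≤ 8 (2 pmax D + eta D) ≤ l` (`XCf`, `EdP.pb`, `w ∈ Rg`, `XNu`); restrict
the filter of `St_XCf` from `OpX` to `L`. `0 ≤ T`, `T (inl (i, b)) ≤ eta D + 1` by `GrP.lig`: for
`(w, a) ∈ L u`, `w ∈ Rg j` with `j = u.1`, `j ≠ i` if `K w ≠ some i`.
Result `c : V × Finset κ → V × κ`. Put `X w := ∃ u ∈ UX Bl, (c u).1 = w` (the `u` is unique since the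
rows of different nodes are different by `cfX`), `cX w := (c u).2` for this `u`
(`if h : ∃ u, u ∈ UX Bl ∧ (c u).1 = w then (c h.choose).2 else t.m w`). For `X w` with node `u`:
`w ∈ t.W1 P u.1 (cX w)`, `cX w ∈ u.2 ⊆ Pb u.1`, `t.K w = some u.1`.
`row`, `x1`: clear. `x2`: nodes different otherwise, contradiction to `cfX`. `x3`: the nodes
`u ≠ u'`; if `K w = K w'` then `u.1 = u'.1`, and a common colour would give `u.2 = u'.2` by `Blo.dis`;
if `w ~ w'` use `cfX`. `x4`: `Γ ↦ (c (i, Γ)).1` is an injection of `Bl i` into the set, and `Blo.cnt`.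
`x5`: the sum over the filter is `∑ u ∈ UX, TX t (inl (i, a)) (c u)` (bijection `u ↦ (c u).1` onto the
rows of `X`), use the test and `XNu`. `x6`: the same with `inr (inl x)` (`d = dKU x ≤ D` since
`dKU x ≤ (nb x).card = D`). `x6'`: `v ∈ nb x` with `colX t X cX v`: `v = N_{cX w} w` for some `w` with
`X w`: the number is at most `∑ u ∈ UX, TX t (inr (inr x)) (c u)`. `x7`: `w ↦` its block is an injection
of `{w | K w = some i, X w}` into `Bl i`, and `(Bl i).card ≤ (Pb i).card` (the blocks are disjoint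
subsets of `Pb i` and nonempty by `big`, `0 < D`), `|Pb i| ≤ pmax D` (`EdP.pb`). -/

end Pool.TCV
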