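import Pool.Agent.Helper60.TCV.StK2

/-!
# T10, SU1: the lower tail of the sublists
-/

set_option autoImplicit false

namespace Pool.TCV

open Pool.TC Pool.TCM Pool.TCS Pool.TN Finset
open scoped Classical

/-- the numbers -/
private theorem Su1_num {P : Par} (hN : Num10 P) :
    0 < P.rho ∧ P.rho ≤ 1 ∧ 0 < P.eta ∧ 1 ≤ P.eta * P.D ∧ 20 ≤ P.rho * P.D ∧
      4000 * (P.eta * P.Lam) ≤ P.rho ∧ 10 ^ 7 * (P.eta * P.Lam) ≤ P.rho ^ 3 ∧ 0 < P.Lam ∧
      (100 : ℝ) ≤ P.D := by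
  have hx : (10 : ℝ) ^ 20 ≤ P.X := by exact_mod_cast hN.X0
  have hx1 : (1 : ℝ) ≤ P.X := le_trans (by norm_num) hx
  have hx0 : (0 : ℝ) < P.X := by linarith
  have h17 : (P.X : ℝ) ^ 17 ≤ (P.X : ℝ) ^ 1600 := pow_le_pow_right₀ hx1 (by norm_num)
  have h43 : (P.X : ℝ) ^ 43 ≤ (P.X : ℝ) ^ 1600 := pow_le_pow_right₀ hx1 (by norm_num)
  have hE0 : (0 : ℝ) < (P.X : ℝ) ^ 1600 := pow_pos hx0 _
  have hDE : (P.X : ℝ) ^ 1600 ≤ P.D :=
    (pow_le_pow_right₀ hx1 (by norm_num)).trans hN.XD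
  have heta : P.eta = 1 / (P.X : ℝ) ^ 1600 := hN.eta
  have hD1 : (P.X : ℝ) ^ 17 ≤ P.D := h17.trans hDE
  have hXD : (P.X : ℝ) ≤ P.D := by
    have : (P.X : ℝ) ^ 1 ≤ (P.X : ℝ) ^ 17 := pow_le_pow_right₀ hx1 (by norm_num)
    rw [pow_one] at this
    exact this.trans hD1
  rw [hN.rho, hN.Lam, heta]
  generalize (P.X : ℝ) ^ 1600 = E at h17 h43 hE0 hDE
  refine ⟨by positivity, ?_, by positivity, ?_, ?_, ?_, ?_, by positivity, ?_⟩
  · rw [div_le_one (by positivity)]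
    exact one_le_pow₀ hx1
  · rw [one_div_mul_eq_div, le_div_iff₀ hE0]
    linarith
  · rw [one_div_mul_eq_div, le_div_iff₀ (by positivity)]
    have h1 : (20 : ℝ) * (P.X : ℝ) ^ 13 ≤ (P.X : ℝ) ^ 17 := by
      have h2 : (20 : ℝ) ≤ (P.X : ℝ) ^ 4 := by
        calc (20 : ℝ) ≤ (10 : ℝ) ^ 20 := by norm_num
          _ ≤ P.X := hx
          _ = (P.X : ℝ) ^ 1 := (pow_one _).symm
          _ ≤ (P.X : ℝ) ^ 4 := pow_le_pow_right₀ hx1 (by norm_num)
      calc (20 : ℝ) * (P.X : ℝ) ^ 13 ≤ (P.X : ℝ) ^ 4 * (P.X : ℝ) ^ 13 :=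
            mul_le_mul_of_nonneg_right h2 (by positivity)
        _ = (P.X : ℝ) ^ 17 := by ring
    exact h1.trans hD1
  · rw [one_div_mul_eq_div, le_div_iff₀ (by positivity), mul_assoc, div_mul_eq_mul_div,
      mul_div_assoc', div_le_one hE0]
    have h2 : (4000 : ℝ) ≤ P.X := le_trans (by norm_num) hx
    calc (4000 : ℝ) * ((P.X : ℝ) ^ 3 * (P.X : ℝ) ^ 13) ≤
          P.X * ((P.X : ℝ) ^ 3 * (P.X : ℝ) ^ 13) :=
            mul_le_mul_of_nonneg_right h2 (by positivity)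
      _ = (P.X : ℝ) ^ 17 := by ring
      _ ≤ E := h17
  · rw [div_pow, one_pow, one_div_mul_eq_div, le_div_iff₀ (by positivity), mul_assoc,
      div_mul_eq_mul_div, mul_div_assoc', div_le_one hE0]
    have h2 : (10 ^ 7 : ℝ) ≤ P.X := le_trans (by norm_num) hx
    calc (10 ^ 7 : ℝ) * ((P.X : ℝ) ^ 3 * ((P.X : ℝ) ^ 13) ^ 3) ≤
          P.X * ((P.X : ℝ) ^ 3 * ((P.X : ℝ) ^ 13) ^ 3) :=
            mul_le_mul_of_nonneg_right h2 (by positivity)
      _ = (P.X : ℝ) ^ 43 := by ring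
      _ ≤ E := h43
  · have h2 : (100 : ℝ) ≤ P.X := le_trans (by norm_num) hx
    exact h2.trans hXD

/-- the size of `B` -/
private theorem Su1_B {P : Par} (hN : Num10 P) :
    0 < P.B ∧ P.eta * P.D ≤ P.B ∧ (P.B : ℝ) ≤ 2 * (P.eta * P.D) := by
  obtain ⟨-, -, -, h1, -⟩ := Su1_num hN
  rw [hN.B]
  refine ⟨Nat.ceil_pos.2 (by linarith), Nat.le_ceil _, ?_⟩
  have := Nat.ceil_lt_add_one (a := P.eta * P.D) (by linarith)
  linarith

/-- the size of `Nq3` -/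
private theorem Su1_Nq {P : Par} (hN : Num10 P) :
    0 < Nq3 P ∧ 64 * (P.B : ℝ) ≤ Nq3 P * P.rho ∧ (Nq3 P : ℝ) * P.rho ≤ 130 * (P.eta * P.D) := by
  obtain ⟨h1, h2, h3, h4, -⟩ := Su1_num hN
  obtain ⟨b1, b2, b3⟩ := Su1_B hN
  have hB : (0 : ℝ) < P.B := by exact_mod_cast b1
  have h5 : (64 * (P.B : ℝ) / P.rho) ≤ Nq3 P := Nat.le_ceil _
  have h6 : (Nq3 P : ℝ) < 64 * (P.B : ℝ) / P.rho + 1 := Nat.ceil_lt_add_one (by positivity)
  refine ⟨Nat.ceil_pos.2 (by positivity), ?_, ?_⟩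
  · rwa [div_le_iff₀ h1] at h5
  · have h7 : (Nq3 P : ℝ) * P.rho ≤ (64 * (P.B : ℝ) / P.rho + 1) * P.rho :=
      mul_le_mul_of_nonneg_right h6.le h1.le
    have h8 : (64 * (P.B : ℝ) / P.rho + 1) * P.rho = 64 * P.B + P.rho := by
      field_simp
    rw [h8] at h7
    linarith

/-- the size of the numbers `ki` -/
private theorem Su1_ki {D c : ℝ} {k : ℕ} (hD : 100 ≤ D) (h1 : 9 / 20 * D ≤ c) (h2 : c ≤ D / 2)
    (hk : k = ⌊2 / 5 * D ^ 2 / c⌋₊) :
    (k : ℝ) ≤ 9 / 10 * D ∧ 2 / 5 * D ^ 2 - D / 2 ≤ c * k := by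
  have hc : 0 < c := by linarith
  have h3 : (0 : ℝ) ≤ 2 / 5 * D ^ 2 / c := by positivity
  constructor
  · rw [hk]
    refine (Nat.floor_le h3).trans ?_
    rw [div_le_iff₀ hc]
    nlinarith
  · have h4 : 2 / 5 * D ^ 2 / c < (k : ℝ) + 1 := by
      rw [hk]
      exact Nat.lt_floor_add_one _
    rw [div_lt_iff₀ hc] at h4
    nlinarith

/-- the arithmetic at the end -/
private theorem Su1_lY {D r N : ℝ} (hN : 0 < N) (hr : 0 < r) (hr1 : r ≤ 1) (hrD : 20 ≤ r * D)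
    {w k : ℝ} (hwk : 2 / 5 * D ^ 2 - D / 2 ≤ w * k) (hD : 100 ≤ D) :
    (1 - r / 8) * (2 / 5 * D / N) ≤ (1 - 3 * (r / 50)) * (w * k / (N * D)) := by
  have hD0 : 0 < D := by linarith
  have h1 : (2 / 5 * D - 1 / 2) / N ≤ w * k / (N * D) := by
    rw [div_le_div_iff₀ hN (by positivity)]
    have : (2 / 5 * D - 1 / 2) * (N * D) = N * (2 / 5 * D ^ 2 - D / 2) := by ring
    rw [this, mul_comm (w * k) N]
    exact mul_le_mul_of_nonneg_left hwk hN.le
  have h2 : (1 - r / 8) * (2 / 5 * D / N) ≤ (1 - 3 * (r / 50)) * ((2 / 5 * D - 1 / 2) / N) := by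
    rw [← mul_div_assoc, ← mul_div_assoc]
    apply div_le_div_of_nonneg_right _ hN.le
    nlinarith
  refine h2.trans (mul_le_mul_of_nonneg_left h1 ?_)
  linarith

/-- change of the instance and monotonicity -/
private theorem Su1_inst {Ω : Type} (i1 i2 : Fintype Ω) (p q : Ω → Prop) (dp : DecidablePred p)
    (dq : DecidablePred q) (c : ℝ)
    (h : ((@filter Ω p dp (@univ Ω i1)).card : ℝ) ≤ c * @Fintype.card Ω i1)
    (hqp : ∀ ω, q ω → p ω) :
    ((@filter Ω q dq (@univ Ω i2)).card : ℝ) ≤ c * @Fintype.card Ω i2 := by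
  have e : i1 = i2 := Subsingleton.elim _ _
  subst e
  refine le_trans ?_ h
  exact_mod_cast card_le_card (fun ω hω => mem_filter.2 ⟨mem_univ _, hqp ω (mem_filter.1 hω).2⟩)

theorem thm_Su1 (hThG : St_ThG) : St_Su1 := by
  intro P V κ _ _ t al ac ki hN hB hal hac hki i a hi hW
  obtain ⟨r0, r1, e0, eD, rD, c1, c2, L0, D100⟩ := Su1_num hN
  obtain ⟨b0, b1, b2⟩ := Su1_B hN
  obtain ⟨n0, n1, n2⟩ := Su1_Nq hN
  have hD0 : (0 : ℝ) < P.D := by linarith
  have hDn : 0 < P.D := by exact_mod_cast hD0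
  have hNq : (0 : ℝ) < Nq3 P := by exact_mod_cast n0
  have hb0 : (0 : ℝ) < P.B := by exact_mod_cast b0
  have hkiU : ∀ j, t.K j = some j → (ki j : ℝ) ≤ 9 / 10 * P.D := fun j hj =>
    (Su1_ki D100 (hac j hj).1 (hac j hj).2 (hki j hj)).1
  have hkiM : ∀ j, t.K j = some j → ki j ≤ Nq3 P * P.D := by
    intro j hj
    have h1 := hkiU j hj
    have h2 : (ki j : ℝ) ≤ ((P.D : ℕ) : ℝ) := by linarith
    have h3 : ki j ≤ P.D := by exact_mod_cast h2
    exact h3.trans (Nat.le_mul_of_pos_left _ n0)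
  -- regular vertices
  have hreg : ∀ w j, w ∈ t.Rg P j → (t.oo w : ℝ) ≤ P.eta * P.D := by
    intro w j hw
    obtain ⟨-, h1, h2⟩ := mem_filter.1 hw
    by_contra hcon
    rw [not_le] at hcon
    apply h2
    refine ⟨?_, Or.inr hcon.le⟩
    rw [h1]
    exact Option.some_ne_none _
  -- the data
  obtain ⟨W, hWd⟩ : ∃ W : Finset (V × κ), W = univ.filter (fun p : V × κ =>
    p.2 = a ∧ t.K p.1 = some i ∧ al p.1 a) := ⟨_, rfl⟩
  obtain ⟨gd, hgd⟩ : ∃ gd : V × κ → V × κ → Prop, gd = fun p q : V × κ =>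
    q.2 = a ∧ t.G.Adj p.1 q.1 ∧ (∃ j, t.K q.1 = some j ∧ j ≠ i) ∧ al q.1 a := ⟨_, rfl⟩
  obtain ⟨kg, hkg⟩ : ∃ kg : V × κ → ℕ, ∀ q : V × κ,
      (∀ j, t.K q.1 = some j → kg q = ki j) ∧ (t.K q.1 = none → kg q = 0) := by
    refine ⟨fun q => (t.K q.1).elim 0 ki, fun q => ⟨fun j hj => ?_, fun hj => ?_⟩⟩
    · simp only [hj, Option.elim]
    · simp only [hj, Option.elim]
  have hWm : ∀ p : V × κ, p ∈ W ↔ p.2 = a ∧ t.K p.1 = some i ∧ al p.1 a := by
    intro p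
    rw [hWd]
    simp only [mem_filter, mem_univ, true_and]
  have hgdm : ∀ p q : V × κ, gd p q ↔ q.2 = a ∧ t.G.Adj p.1 q.1 ∧
      (∃ j, t.K q.1 = some j ∧ j ≠ i) ∧ al q.1 a := by
    intro p q
    rw [hgd]
  have hkgU : ∀ q : V × κ, (kg q : ℝ) ≤ 9 / 10 * P.D := by
    intro q
    rcases hq : t.K q.1 with _ | j
    · rw [(hkg q).2 hq]
      have : (0 : ℝ) ≤ 9 / 10 * P.D := by positivity
      exact_mod_cast this
    · rw [(hkg q).1 j hq]
      exact hkiU j (hB.gr.rt j q.1 hq)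
  have hkgM : ∀ q : V × κ, kg q ≤ Nq3 P * P.D := by
    intro q
    rcases hq : t.K q.1 with _ | j
    · rw [(hkg q).2 hq]
      exact Nat.zero_le _
    · rw [(hkg q).1 j hq]
      exact hkiM j (hB.gr.rt j q.1 hq)
  have hWcard : ((univ.filter (fun w => t.K w = some i ∧ al w a)).card : ℝ) ≤ W.card := by
    have : (univ.filter (fun w => t.K w = some i ∧ al w a)).card ≤ W.card := by
      refine card_le_card_of_injOn (fun w => (w, a)) ?_ ?_
      · intro w hw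
        exact mem_coe.2 ((hWm _).2 ⟨rfl, (mem_filter.1 (mem_coe.1 hw)).2⟩)
      · intro w _ w' _ h
        exact congrArg Prod.fst h
    exact_mod_cast this
  have hWc : ac i ≤ W.card := hW.trans hWcard
  obtain ⟨ha1, ha2⟩ := hac i hi
  obtain ⟨k1, k2⟩ := Su1_ki D100 ha1 ha2 (hki i hi)
  have k3 : 2 / 5 * (P.D : ℝ) ^ 2 - P.D / 2 ≤ (W.card : ℝ) * ki i :=
    k2.trans (mul_le_mul_of_nonneg_right hWc (Nat.cast_nonneg _))
  -- the conditions
  have q1 : ∀ w ∈ W, ∀ j, gd w j → j ∉ W := by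
    intro w _ q hq hqW
    obtain ⟨-, -, ⟨j, hj, hji⟩, -⟩ := (hgdm _ _).1 hq
    have h1 := ((hWm q).1 hqW).2.1
    rw [h1] at hj
    exact hji (Option.some.inj hj).symm
  have q2 : ∀ w ∈ W, (∑ j ∈ univ.filter (fun j => gd w j), (kg j : ℝ)) ≤
      P.rho / 50 * ((Nq3 P * P.D : ℕ) : ℝ) := by
    intro w hw
    obtain ⟨-, hwi, hwal⟩ := (hWm w).1 hw
    obtain ⟨j0, hj0⟩ := hal _ _ hwal
    have h1 : ((univ.filter (fun j => gd w j)).card : ℝ) ≤ t.oo w.1 := by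
      have : (univ.filter (fun j => gd w j)).card ≤ t.oo w.1 := by
        refine card_le_card_of_injOn (fun q => q.1) ?_ ?_
        · intro q hq
          obtain ⟨-, h2, ⟨j, h3, h4⟩, -⟩ := (hgdm _ _).1 (mem_filter.1 (mem_coe.1 hq)).2
          refine mem_coe.2 (mem_filter.2 ⟨mem_filter.2 ⟨mem_univ _, h2⟩, ?_⟩)
          rw [h3, hwi]
          exact fun h => h4 (Option.some.inj h)
        · intro q hq q' hq' hqq
          have e1 := ((hgdm _ _).1 (mem_filter.1 (mem_coe.1 hq)).2).1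
          have e2 := ((hgdm _ _).1 (mem_filter.1 (mem_coe.1 hq')).2).1
          exact Prod.ext hqq (e1.trans e2.symm)
      exact_mod_cast this
    have h2 : ((univ.filter (fun j => gd w j)).card : ℝ) ≤ P.B :=
      h1.trans ((hreg _ _ hj0).trans b1)
    calc (∑ j ∈ univ.filter (fun j => gd w j), (kg j : ℝ)) ≤
          ∑ j ∈ univ.filter (fun j => gd w j), (9 / 10 * P.D : ℝ) :=
            sum_le_sum fun q _ => hkgU q
      _ = ((univ.filter (fun j => gd w j)).card : ℝ) * (9 / 10 * P.D) := by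
            rw [sum_const, nsmul_eq_mul]
      _ ≤ P.B * (9 / 10 * P.D) := mul_le_mul_of_nonneg_right h2 (by positivity)
      _ ≤ P.rho / 50 * ((Nq3 P * P.D : ℕ) : ℝ) := by
            push_cast
            have h3 : 64 * (P.B : ℝ) * P.D ≤ Nq3 P * P.rho * P.D :=
              mul_le_mul_of_nonneg_right n1 hD0.le
            have h4 : (0 : ℝ) ≤ P.B * P.D := by positivity
            nlinarith
  have q3 : ∀ j, (W.filter (fun w => gd w j)).card ≤ P.B := by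
    intro q
    by_cases hq : ∃ w, w ∈ W ∧ gd w q
    · obtain ⟨w, hw, hwq⟩ := hq
      obtain ⟨-, -, ⟨j, hj, hji⟩, hqal⟩ := (hgdm _ _).1 hwq
      obtain ⟨j', hj'⟩ := hal _ _ hqal
      have hjj : j' = j := by
        have h1 := (mem_filter.1 hj').2.1
        rw [hj] at h1
        exact (Option.some.inj h1).symm
      rw [hjj] at hj'
      have h1 : (t.dk i q.1 : ℝ) ≤ P.eta * P.D := hB.gr.lig i j q.1 hj' (Ne.symm hji)
      have h2 : (W.filter (fun w => gd w q)).card ≤ t.dk i q.1 := by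
        refine card_le_card_of_injOn (fun w => w.1) ?_ ?_
        · intro w hw
          obtain ⟨h3, h4⟩ := mem_filter.1 (mem_coe.1 hw)
          obtain ⟨-, h5, -⟩ := (hgdm _ _).1 h4
          exact mem_coe.2 (mem_filter.2 ⟨mem_filter.2 ⟨mem_univ _, h5.symm⟩, ((hWm w).1 h3).2.1⟩)
        · intro w hw w' hw' hww
          have e1 := ((hWm w).1 (mem_filter.1 (mem_coe.1 hw)).1).1
          have e2 := ((hWm w').1 (mem_filter.1 (mem_coe.1 hw')).1).1
          exact Prod.ext hww (e1.trans e2.symm)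
      have h3 : (t.dk i q.1 : ℝ) ≤ P.B := h1.trans b1
      have h4 : t.dk i q.1 ≤ P.B := by exact_mod_cast h3
      exact h2.trans h4
    · have : W.filter (fun w => gd w q) = ∅ :=
        filter_eq_empty_iff.2 fun w hw hwq => hq ⟨w, hw, hwq⟩
      rw [this, card_empty]
      exact Nat.zero_le _
  have hWk : (2 / 5 * (P.D : ℝ) ^ 2 - P.D / 2) / (Nq3 P * P.D) ≤
      (W.card : ℝ) * ki i / (Nq3 P * P.D) := div_le_div_of_nonneg_right k3 (by positivity)
  have q4 : 18 * (P.B : ℝ) * P.Lam ≤ P.rho / 50 * W.card := by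
    have h1 : (9 / 20 : ℝ) * P.D ≤ W.card := ha1.trans hWc
    have h2 : 18 * (P.B : ℝ) * P.Lam ≤ 18 * (2 * (P.eta * P.D)) * P.Lam := by
      apply mul_le_mul_of_nonneg_right _ L0.le
      linarith
    have h3 : 18 * (2 * (P.eta * P.D)) * P.Lam = 36 * (P.eta * P.Lam) * P.D := by ring
    have h4 : 4000 * (P.eta * P.Lam) * P.D ≤ P.rho * P.D :=
      mul_le_mul_of_nonneg_right c1 hD0.le
    have h5 : P.rho / 50 * (9 / 20 * P.D) ≤ P.rho / 50 * W.card :=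
      mul_le_mul_of_nonneg_left h1 (by positivity)
    have h6 : 0 ≤ P.eta * P.Lam * P.D := by positivity
    nlinarith
  have q5 : 9 * P.Lam ≤ (P.rho / 50) ^ 2 * ((W.card : ℝ) * (ki i : ℝ) /
      ((Nq3 P * P.D : ℕ) : ℝ)) := by
    push_cast
    have h1 : (3 / 10 * (P.D : ℝ)) / Nq3 P ≤ (W.card : ℝ) * ki i / (Nq3 P * P.D) := by
      refine le_trans ?_ hWk
      rw [div_le_div_iff₀ hNq (by positivity)]
      have h2 : 3 / 10 * (P.D : ℝ) ^ 2 ≤ 2 / 5 * (P.D : ℝ) ^ 2 - P.D / 2 := by nlinarith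
      have h3 : 3 / 10 * (P.D : ℝ) * (Nq3 P * P.D) = 3 / 10 * (P.D : ℝ) ^ 2 * Nq3 P := by ring
      rw [h3]
      exact mul_le_mul_of_nonneg_right h2 hNq.le
    refine le_trans ?_ (mul_le_mul_of_nonneg_left h1 (by positivity))
    rw [← mul_div_assoc, le_div_iff₀ hNq]
    -- `9 Lam Nq ≤ rho ^ 2 / 2500 * 3 / 10 * D`
    have h4 : 9 * P.Lam * (Nq3 P * P.rho) ≤ 9 * P.Lam * (130 * (P.eta * P.D)) :=
      mul_le_mul_of_nonneg_left n2 (by positivity)
    have h5 : 10 ^ 7 * (P.eta * P.Lam) * P.D ≤ P.rho ^ 3 * P.D :=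
      mul_le_mul_of_nonneg_right c2 hD0.le
    have h6 : 0 ≤ P.eta * P.Lam * P.D := by positivity
    have h7 : 9 * P.Lam * Nq3 P * P.rho ≤ (P.rho / 50) ^ 2 * (3 / 10 * P.D) * P.rho := by
      have h8 : (P.rho / 50) ^ 2 * (3 / 10 * P.D) * P.rho = 3 / 25000 * (P.rho ^ 3 * P.D) := by
        ring
      rw [h8]
      nlinarith
    exact le_of_mul_le_mul_right h7 r0
  have key := hThG (V × κ) (V × κ) (Nq3 P * P.D) id W gd (ki i) kg P.B (P.rho / 50) P.Lam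
    (fun j j' h => h) q1 q2 q3 (Nat.mul_pos n0 hDn) (hkiM i hi) hkgM b0 L0 (by positivity)
    (by linarith) q4 q5
  refine Su1_inst _ _ _ _ _ _ _ key ?_
  · intro ω h1
    have h2 : (W.filter (fun w => (ω (id w)).val < ki i ∧
        ∀ j, gd w j → kg j ≤ (ω (id j)).val)).card ≤
        (univ.filter (fun w => t.K w = some i ∧ al w a ∧ (ω (w, a)).val < ki i ∧
        ∀ x j, t.G.Adj w x → t.K x = some j → j ≠ i → al x a → ki j ≤ (ω (x, a)).val)).card := by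
      refine card_le_card_of_injOn (fun w => w.1) ?_ ?_
      · intro p hp
        obtain ⟨h3, h4, h5⟩ := mem_filter.1 (mem_coe.1 hp)
        obtain ⟨h6, h7, h8⟩ := (hWm p).1 h3
        have hpa : p = (p.1, a) := Prod.ext rfl h6
        refine mem_coe.2 (mem_filter.2 ⟨mem_univ _, h7, h8, ?_, ?_⟩)
        · have h9 : (ω p).val < ki i := h4
          rw [hpa] at h9
          exact h9
        · intro x j hx hj hji hxa
          have h9 := h5 (x, a) ((hgdm _ _).2 ⟨rfl, hx, ⟨j, hj, hji⟩, hxa⟩)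
          rw [(hkg (x, a)).1 j hj] at h9
          exact h9
      · intro p hp p' hp' hpp
        have e1 := ((hWm p).1 (mem_filter.1 (mem_coe.1 hp)).1).1
        have e2 := ((hWm p').1 (mem_filter.1 (mem_coe.1 hp')).1).1
        exact Prod.ext hpp (e1.trans e2.symm)
    have h3 : ((W.filter (fun w => (ω (id w)).val < ki i ∧
        ∀ j, gd w j → kg j ≤ (ω (id j)).val)).card : ℝ) < lY P := by
      exact_mod_cast lt_of_le_of_lt h2 h1
    have h4 : (lY P : ℝ) ≤ (1 - P.rho / 8) * (2 / 5 * P.D / (Nq3 P : ℝ)) := by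
      apply Nat.floor_le
      have h5 : 0 ≤ 1 - P.rho / 8 := by linarith
      positivity
    refine lt_of_lt_of_le h3 (h4.trans ?_)
    push_cast
    exact Su1_lY hNq r0 r1 rD k3 D100

end Pool.TCV
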