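import Pool.Agent.Helper60.TCV.StK2

/-!
# T10, section 9c: the upper tails of the sublists (helper82)
-/

set_option autoImplicit false
set_option linter.unusedSectionVars false

namespace Pool.TCV

open Pool.TC Pool.TCM Pool.TCS Pool.TN Finset
open scoped Classical

private theorem Su2_mf {α : Type} {p : α → Prop} {i1 : DecidablePred p} {s : Finset α} {x : α} :
    x ∈ @Finset.filter α p i1 s ↔ x ∈ s ∧ p x := Finset.mem_filter

/-- change of the instances -/
private theorem Su2_tr {α : Type} {i1 i2 : Fintype α} {p q : α → Prop} {d1 : DecidablePred p}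
    {d2 : DecidablePred q} {c : ℝ}
    (hp : ((@Finset.filter α p d1 (@univ α i1)).card : ℝ) ≤ c * @Fintype.card α i1)
    (h : ∀ x, q x → p x) :
    ((@Finset.filter α q d2 (@univ α i2)).card : ℝ) ≤ c * @Fintype.card α i2 := by
  have e : i1 = i2 := Subsingleton.elim _ _
  subst e
  refine le_trans ?_ hp
  rw [Nat.cast_le]
  exact card_le_card fun x hx => Su2_mf.2 ⟨mem_univ _, h x (Su2_mf.1 hx).2⟩

private theorem Su2_fin (M k : ℕ) :
    ((univ : Finset (Fin M)).filter (fun y => y.val < k)).card ≤ k := by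
  have h1 : ((univ : Finset (Fin M)).filter (fun y => y.val < k)).card ≤ (range k).card := by
    refine card_le_card_of_injOn (fun y => y.val) ?_ ?_
    · intro y hy
      exact mem_coe.2 (mem_range.2 (Su2_mf.1 (mem_coe.1 hy)).2)
    · intro a _ b _ h
      exact Fin.ext h
  rwa [card_range] at h1

/-- the upper bound for one row or one column -/
private theorem Su2_up (hBernL : Pool.TCT.St_BernL) {T κ : Type} [Fintype T] [Fintype κ]
    (pt : κ → T) (hpt : Function.Injective pt) (C : Finset κ) (M k : ℕ) (hM : 0 < M)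
    (m W Lam L : ℝ) (hm : (C.card : ℝ) * k ≤ m * M) (hmW : m ≤ W) (hL0 : 0 < Lam)
    (hLW : Lam ≤ W) (hL : m + 3 * Real.sqrt (W * Lam) ≤ L) :
    ((univ.filter (fun ω : T → Fin M =>
      L < ((C.filter (fun a => (ω (pt a)).val < k)).card : ℝ))).card : ℝ) ≤
      Real.exp (-Lam) * Fintype.card (T → Fin M) := by
  have : Nonempty (Fin M) := ⟨⟨0, hM⟩⟩
  have hMr : (0 : ℝ) < M := by exact_mod_cast hM
  set R : Finset T := C.image pt with hR
  have hRc : R.card = C.card := card_image_of_injective _ hpt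
  set f : T → Fin M → ℝ := fun t x => if t ∈ R ∧ x.val < k then 1 else 0 with hf
  have hsum : (∑ t, ∑ a, f t a) ≤ m * M := by
    have h1 : ∀ t, (∑ a, f t a) ≤ if t ∈ R then (k : ℝ) else 0 := by
      intro t
      by_cases ht : t ∈ R
      · rw [if_pos ht]
        have h2 : (∑ a, f t a) = ((univ.filter (fun y : Fin M => y.val < k)).card : ℝ) := by
          simp only [hf, ht, true_and]
          rw [card_filter]
          push_cast
          rfl
        rw [h2]
        exact_mod_cast Su2_fin M k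
      · rw [if_neg ht]
        have h2 : (∑ a, f t a) = 0 := sum_eq_zero fun a _ => if_neg (fun h => ht h.1)
        exact h2.le
    refine (sum_le_sum fun t _ => h1 t).trans ?_
    rw [sum_ite_mem, univ_inter, sum_const, nsmul_eq_mul, hRc]
    exact hm
  have hsq : (∑ t, ∑ a, f t a ^ 2) = ∑ t, ∑ a, f t a := by
    refine sum_congr rfl fun t _ => sum_congr rfl fun a _ => ?_
    simp only [hf]
    split_ifs <;> norm_num
  have hb := hBernL T (Fin M) f 1 W Lam one_pos hL0 (by linarith) (by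
    intro t a
    simp only [hf]
    split_ifs <;> norm_num) (by
    rw [hsq, Fintype.card_fin]
    exact hsum.trans (mul_le_mul_of_nonneg_right hmW hMr.le))
  refine Su2_tr hb ?_
  intro ω h1
  have h2 : ((C.filter (fun a => (ω (pt a)).val < k)).card : ℝ) ≤ ∑ t, f t (ω t) := by
    have h3 : (∑ t, f t (ω t)) =
        ((univ.filter (fun t => t ∈ R ∧ (ω t).val < k)).card : ℝ) := by
      simp only [hf]
      rw [card_filter]
      push_cast
      rfl
    rw [h3, Nat.cast_le]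
    refine card_le_card_of_injOn pt ?_ hpt.injOn
    intro a ha
    have ha' := Su2_mf.1 (mem_coe.1 ha)
    rw [mem_coe, Su2_mf]
    exact ⟨mem_univ _, mem_image_of_mem _ ha'.1, ha'.2⟩
  have h3 : (∑ t, ∑ a, f t a) / (Fintype.card (Fin M) : ℝ) ≤ m := by
    rw [Fintype.card_fin, div_le_iff₀ hMr]
    exact hsum
  linarith

section su2

variable {V κ : Type} [Fintype V] [Fintype κ]

private theorem Su2_dk (t : Td V κ) (i e : V) :
    t.dk i e = ∑ v ∈ t.Ki i, if t.G.Adj v e then 1 else 0 := by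
  rw [← card_filter]
  unfold Gd.dk
  congr 1
  ext v
  simp only [nb, Gd.Ki, mem_filter, mem_univ, true_and]
  exact ⟨fun h => ⟨h.2, h.1.symm⟩, fun h => ⟨h.2.symm, h.1⟩⟩

/-- double counting -/
private theorem Su2_dc (t : Td V κ) (i : V) :
    (∑ e, if t.K e ≠ some i then t.dk i e else 0) = ∑ v ∈ t.Ki i, t.oo v := by
  have h1 : ∀ e, (if t.K e ≠ some i then t.dk i e else 0) =
      ∑ v ∈ t.Ki i, if t.K e ≠ some i ∧ t.G.Adj v e then 1 else 0 := by
    intro e
    by_cases h : t.K e ≠ some i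
    · rw [if_pos h, Su2_dk]
      refine sum_congr rfl fun v _ => ?_
      by_cases h2 : t.G.Adj v e
      · rw [if_pos h2, if_pos ⟨h, h2⟩]
      · rw [if_neg h2, if_neg (fun h3 => h2 h3.2)]
    · rw [if_neg h]
      symm
      refine sum_eq_zero fun v _ => ?_
      rw [if_neg (fun h3 => h h3.1)]
  rw [sum_congr rfl fun e _ => h1 e, sum_comm]
  refine sum_congr rfl fun v hv => ?_
  have hk : t.K v = some i := (mem_filter.1 hv).2
  rw [← card_filter]
  unfold Gd.oo
  congr 1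
  ext e
  simp only [nb, mem_filter, mem_univ, true_and, hk]
  exact ⟨fun h => ⟨h.2, h.1⟩, fun h => ⟨h.2, h.1⟩⟩

/-- the test -/
private theorem Su2_test (hBernL : Pool.TCT.St_BernL) (P : Par) (t : Td V κ)
    (al : V → κ → Prop) (ki : V → ℕ) (M : ℕ) (hM : 0 < M) (hG : GrP P t.toGd)
    (hal : ∀ w a, al w a → ∃ i, w ∈ t.Rg P i) (hki : ∀ i, t.K i = some i → ki i ≤ P.D)
    (hc : 0 < P.eta * P.D) (hδ : 0 ≤ P.delta) (hL : 0 < P.Lam)
    (n1 : 103 * P.delta * P.D ^ 2 * P.D ≤ P.eps * P.D / 4 * M)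
    (n2 : P.eta * P.D * (103 * P.delta * P.D ^ 2 * P.D) ≤ 2 * P.delta * P.D ^ 2 * M)
    (n3 : 3 * Real.sqrt ((2 * P.delta * P.D ^ 2 + P.Lam * (P.eta * P.D) ^ 2) * P.Lam) ≤
      P.eps * P.D / 2)
    (n4 : 0 ≤ P.eps * P.D) (i : V) (b : κ) :
    ((univ.filter (fun ω : V × κ → Fin M => P.eps * P.D <
      ((∑ x ∈ univ.filter (fun x => al x b ∧ ∃ j, t.K x = some j ∧ j ≠ i ∧
        (ω (x, b)).val < ki j), t.dk i x : ℕ) : ℝ))).card : ℝ) ≤
      Real.exp (-P.Lam) * Fintype.card (V × κ → Fin M) := by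
  have : Nonempty (Fin M) := ⟨⟨0, hM⟩⟩
  have hMr : (0 : ℝ) < M := by exact_mod_cast hM
  set F : V → Fin M → ℕ := fun x y =>
    if al x b ∧ ∃ j, t.K x = some j ∧ j ≠ i ∧ y.val < ki j then t.dk i x else 0 with hF
  set f : V × κ → Fin M → ℝ := fun p y => if p.2 = b then (F p.1 y : ℝ) else 0 with hf
  have hFc : ∀ x y, (F x y : ℝ) ≤ P.eta * P.D := by
    intro x y
    simp only [hF]
    split_ifs with h
    · obtain ⟨h1, j, h2, h3, -⟩ := h
      obtain ⟨j', hj'⟩ := hal x b h1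
      have h4 : t.K x = some j' := (mem_filter.1 hj').2.1
      have h5 : j' = j := by
        rw [h2] at h4
        exact (Option.some.inj h4).symm
      rw [h5] at hj'
      exact hG.lig i j x hj' h3.symm
    · rw [Nat.cast_zero]
      exact hc.le
  have hf0 : ∀ p y, 0 ≤ f p y := by
    intro p y
    simp only [hf]
    split_ifs
    · exact Nat.cast_nonneg _
    · exact le_rfl
  have hfc : ∀ p y, f p y ≤ P.eta * P.D := by
    intro p y
    simp only [hf]
    split_ifs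
    · exact hFc _ _
    · exact hc.le
  have hFs : ∀ x, (∑ y, F x y) ≤ (if t.K x ≠ some i then t.dk i x else 0) * P.D := by
    intro x
    by_cases h : al x b ∧ ∃ j, t.K x = some j ∧ j ≠ i
    · obtain ⟨h1, j, h2, h3⟩ := h
      have h4 : t.K x ≠ some i := by
        rw [h2]
        intro h5
        exact h3 (Option.some.inj h5)
      rw [if_pos h4]
      have h5 : ∀ y, F x y ≤ if y.val < ki j then t.dk i x else 0 := by
        intro y
        simp only [hF]
        split_ifs with h6 h7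
        · exact le_rfl
        · exfalso
          obtain ⟨-, j', g1, -, g2⟩ := h6
          rw [h2] at g1
          rw [← Option.some.inj g1] at g2
          exact h7 g2
        · exact Nat.zero_le _
        · exact le_rfl
      refine (sum_le_sum fun y _ => h5 y).trans ?_
      rw [← sum_filter, sum_const, smul_eq_mul, mul_comm]
      refine Nat.mul_le_mul_left _ ?_
      exact (Su2_fin M (ki j)).trans (hki j (hG.rt j x h2))
    · have h5 : ∀ y, F x y = 0 := by
        intro y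
        simp only [hF]
        rw [if_neg]
        rintro ⟨g1, j, g2, g3, -⟩
        exact h ⟨g1, j, g2, g3⟩
      rw [sum_congr rfl fun y _ => h5 y, sum_const_zero]
      exact Nat.zero_le _
  have hS1 : (∑ p, ∑ y, f p y) ≤ 103 * P.delta * P.D ^ 2 * P.D := by
    rw [Fintype.sum_prod_type]
    have h1 : ∀ x, (∑ c, ∑ y, f (x, c) y) = ((∑ y, F x y : ℕ) : ℝ) := by
      intro x
      have h2 : ∀ c, (∑ y, f (x, c) y) = if c = b then ((∑ y, F x y : ℕ) : ℝ) else 0 := by
        intro c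
        by_cases hcb : c = b
        · rw [if_pos hcb]
          push_cast
          refine sum_congr rfl fun y _ => ?_
          simp only [hf, if_pos hcb]
        · rw [if_neg hcb]
          refine sum_eq_zero fun y _ => ?_
          simp only [hf, if_neg hcb]
      rw [sum_congr rfl fun c _ => h2 c, sum_ite_eq' univ b, if_pos (mem_univ _)]
    rw [sum_congr rfl fun x _ => h1 x]
    have h3 : (∑ x, ∑ y, F x y) ≤ (∑ v ∈ t.Ki i, t.oo v) * P.D := by
      rw [← Su2_dc, sum_mul]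
      exact sum_le_sum fun x _ => hFs x
    have h4 : (∑ x, ((∑ y, F x y : ℕ) : ℝ)) ≤ (∑ v ∈ t.Ki i, (t.oo v : ℝ)) * P.D := by
      exact_mod_cast h3
    exact h4.trans (mul_le_mul_of_nonneg_right (hG.d5 i) (Nat.cast_nonneg _))
  have hS2 : (∑ p, ∑ y, f p y ^ 2) ≤ P.eta * P.D * (103 * P.delta * P.D ^ 2 * P.D) := by
    refine le_trans ?_ (mul_le_mul_of_nonneg_left hS1 hc.le)
    rw [mul_sum]
    refine sum_le_sum fun p _ => ?_
    rw [mul_sum]
    refine sum_le_sum fun y _ => ?_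
    rw [sq]
    exact mul_le_mul_of_nonneg_right (hfc p y) (hf0 p y)
  have hW0 : 0 ≤ 2 * P.delta * (P.D : ℝ) ^ 2 := by positivity
  have hb := hBernL (V × κ) (Fin M) f (P.eta * P.D)
    (2 * P.delta * P.D ^ 2 + P.Lam * (P.eta * P.D) ^ 2) P.Lam hc hL (by linarith) (by
      intro p y
      rw [abs_of_nonneg (hf0 p y)]
      exact hfc p y) (by
      rw [Fintype.card_fin]
      refine (hS2.trans n2).trans (mul_le_mul_of_nonneg_right ?_ hMr.le)
      have : 0 ≤ P.Lam * (P.eta * P.D) ^ 2 := by positivity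
      linarith)
  refine Su2_tr hb ?_
  intro ω h1
  have h2 : ((∑ x ∈ univ.filter (fun x => al x b ∧ ∃ j, t.K x = some j ∧ j ≠ i ∧
      (ω (x, b)).val < ki j), t.dk i x : ℕ) : ℝ) = ∑ p, f p (ω p) := by
    rw [Fintype.sum_prod_type]
    have h3 : ∀ x, (∑ c, f (x, c) (ω (x, c))) = ((F x (ω (x, b)) : ℕ) : ℝ) := by
      intro x
      have h4 : ∀ c, f (x, c) (ω (x, c)) = if c = b then ((F x (ω (x, b)) : ℕ) : ℝ) else 0 := by
        intro c
        simp only [hf]
        by_cases hcb : c = b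
        · rw [if_pos hcb, if_pos hcb, hcb]
        · rw [if_neg hcb, if_neg hcb]
      rw [sum_congr rfl fun c _ => h4 c, sum_ite_eq' univ b, if_pos (mem_univ _)]
    rw [sum_congr rfl fun x _ => h3 x, ← Nat.cast_sum, Nat.cast_inj, sum_filter]
  rw [h2] at h1
  have h3 : (∑ p, ∑ y, f p y) / (Fintype.card (Fin M) : ℝ) ≤ P.eps * P.D / 4 := by
    rw [Fintype.card_fin, div_le_iff₀ hMr]
    exact hS1.trans n1
  linarith

end su2

/-- the numbers -/
private theorem Su2_num {P : Par} (h : Num10 P) : 0 < (P.D : ℝ) ∧ 0 < P.Lam ∧ 0 < P.eta ∧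
    0 ≤ P.delta ∧ 0 ≤ P.eps ∧ 0 < P.rho ∧ P.rho ≤ 1 ∧ 0 < (Nq3 P : ℝ) ∧
    64 * (P.eta * P.D) ≤ Nq3 P ∧ 103 * P.delta ≤ 16 * (P.eps * P.eta) ∧
    2 * P.delta * P.Lam + P.Lam ^ 2 * P.eta ^ 2 ≤ P.eps ^ 2 / 36 ∧
    90000 * P.Lam ≤ P.rho ^ 2 * (2 / 5 * P.D / Nq3 P) ∧
    1000 ≤ P.rho * (2 / 5 * P.D / Nq3 P) := by
  have hX : (10 : ℝ) ^ 20 ≤ P.X := by exact_mod_cast h.X0
  have hXD := h.XD
  have eΛ := h.Lam
  have eη := h.eta
  have eδ := h.delta
  have eε := h.eps
  have eρ := h.rho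
  have eB := h.B
  set x : ℝ := (P.X : ℝ) with hx
  have hx1 : (1 : ℝ) ≤ x := le_trans (by norm_num) hX
  have hx0 : 0 < x := lt_of_lt_of_le one_pos hx1
  have hx3 : (10 : ℝ) ^ 3 ≤ x := le_trans (by norm_num) hX
  have hD0 : 0 < (P.D : ℝ) := lt_of_lt_of_le (by positivity) hXD
  have hL0 : 0 < P.Lam := by rw [eΛ]; positivity
  have hη : 0 < P.eta := by rw [eη]; positivity
  have hδ : 0 ≤ P.delta := by rw [eδ]; positivity
  have hε : 0 ≤ P.eps := by rw [eε]; positivity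
  have hρ : 0 < P.rho := by rw [eρ]; positivity
  have hρ1 : P.rho ≤ 1 := by
    rw [eρ]
    rw [div_le_one (by positivity)]
    exact one_le_pow₀ hx1
  have hpw : ∀ a b : ℕ, a ≤ b → 1 / x ^ b ≤ 1 / x ^ a := fun a b hab =>
    one_div_le_one_div_of_le (by positivity) (pow_le_pow_right₀ hx1 hab)
  -- eta D is large
  have hηD : 65 ≤ P.eta * P.D := by
    rw [eη, one_div_mul_eq_div, le_div_iff₀ (by positivity)]
    have h1 : x ^ 1601 ≤ P.D := (pow_le_pow_right₀ hx1 (by norm_num)).trans hXD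
    have h2 : (65 : ℝ) * x ^ 1600 ≤ x * x ^ 1600 :=
      mul_le_mul_of_nonneg_right (by linarith) (by positivity)
    have h3 : x ^ 1601 = x * x ^ 1600 := by rw [← pow_succ']
    linarith
  have hBl : P.eta * P.D ≤ P.B := by
    rw [eB]
    exact Nat.le_ceil _
  have hBu : (P.B : ℝ) ≤ P.eta * P.D + 1 := by
    rw [eB]
    exact (Nat.ceil_lt_add_one (by positivity)).le
  have hNl : 64 * (P.B : ℝ) / P.rho ≤ Nq3 P := Nat.le_ceil _
  have hNu : (Nq3 P : ℝ) ≤ 64 * (P.B : ℝ) / P.rho + 1 := by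
    unfold Nq3
    exact (Nat.ceil_lt_add_one (by positivity)).le
  have hN64 : 64 * (P.eta * P.D) ≤ Nq3 P := by
    refine le_trans ?_ hNl
    rw [le_div_iff₀ hρ]
    have h1 : 64 * (P.eta * P.D) * P.rho ≤ 64 * (P.eta * P.D) * 1 :=
      mul_le_mul_of_nonneg_left hρ1 (by positivity)
    linarith
  have hNp : 0 < (Nq3 P : ℝ) := lt_of_lt_of_le (by positivity) hN64
  have hN65 : (Nq3 P : ℝ) * P.rho ≤ 66 * (P.eta * P.D) := by
    have h1 : (Nq3 P : ℝ) * P.rho ≤ (64 * (P.B : ℝ) / P.rho + 1) * P.rho :=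
      mul_le_mul_of_nonneg_right hNu hρ.le
    have h2 : (64 * (P.B : ℝ) / P.rho + 1) * P.rho = 64 * P.B + P.rho := by
      field_simp
    rw [h2] at h1
    linarith
  -- W is large
  have hW : x ^ 1587 / 200 ≤ 2 / 5 * P.D / Nq3 P := by
    rw [div_le_div_iff₀ (by norm_num) hNp]
    have h1 : (Nq3 P : ℝ) * x ^ 1587 ≤ 66 * P.D := by
      rw [eρ, eη] at hN65
      have e1 : x ^ 1600 = x ^ 1587 * x ^ 13 := by rw [← pow_add]
      rw [e1, mul_one_div, one_div_mul_eq_div, ← mul_div_assoc,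
        div_le_div_iff₀ (by positivity) (by positivity)] at hN65
      have h3 : (Nq3 P : ℝ) * x ^ 1587 * x ^ 13 ≤ 66 * P.D * x ^ 13 := by linarith
      exact le_of_mul_le_mul_right h3 (by positivity)
    linarith
  refine ⟨hD0, hL0, hη, hδ, hε, hρ, hρ1, hNp, hN64, ?_, ?_, ?_, ?_⟩
  · rw [eδ, eε, eη, one_div_mul_one_div, ← pow_add]
    have h1 := hpw 1616 4900 (by norm_num)
    have e1 : (1 : ℝ) / x ^ 1616 = 1 / x * (1 / x ^ (15 + 1600)) := by
      rw [one_div_mul_one_div, ← pow_succ']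
    rw [e1] at h1
    have h2 : 1 / x ≤ 1 / 10 ^ 3 := one_div_le_one_div_of_le (by norm_num) hx3
    have h3 : 1 / x * (1 / x ^ (15 + 1600)) ≤ 1 / 10 ^ 3 * (1 / x ^ (15 + 1600)) :=
      mul_le_mul_of_nonneg_right h2 (by positivity)
    have h4 : 0 ≤ 1 / x ^ (15 + 1600) := by positivity
    linarith
  · have e1 : P.delta * P.Lam = 1 / x ^ 4897 := by
      rw [eδ, eΛ, one_div_mul_eq_div, div_eq_div_iff (by positivity) (by positivity), one_mul,
        ← pow_add]
    have e2 : P.Lam ^ 2 * P.eta ^ 2 = 1 / x ^ 3194 := by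
      rw [eη, eΛ, ← mul_pow, mul_one_div, div_pow, ← pow_mul, ← pow_mul,
        div_eq_div_iff (by positivity) (by positivity), one_mul, ← pow_add]
    have e3 : P.eps ^ 2 = 1 / x ^ 30 := by
      rw [eε, div_pow, one_pow, ← pow_mul]
    have e4 : (1 : ℝ) / x ^ 31 = 1 / x * (1 / x ^ 30) := by
      rw [one_div_mul_one_div, ← pow_succ']
    have h1 := hpw 31 4897 (by norm_num)
    have h2 := hpw 31 3194 (by norm_num)
    have h3 : 1 / x ≤ 1 / 10 ^ 3 := one_div_le_one_div_of_le (by norm_num) hx3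
    have h4 : 1 / x * (1 / x ^ 30) ≤ 1 / 10 ^ 3 * (1 / x ^ 30) :=
      mul_le_mul_of_nonneg_right h3 (by positivity)
    have h5 : 0 ≤ 1 / x ^ 30 := by positivity
    rw [mul_assoc, e1, e2, e3]
    linarith
  · rw [eΛ]
    have h1 : P.rho ^ 2 * (x ^ 1587 / 200) ≤ P.rho ^ 2 * (2 / 5 * P.D / Nq3 P) :=
      mul_le_mul_of_nonneg_left hW (by positivity)
    refine le_trans ?_ h1
    have e1 : P.rho ^ 2 * (x ^ 1587 / 200) = x ^ 1561 / 200 := by
      rw [eρ, div_pow, one_pow, ← pow_mul]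
      have e2 : x ^ 1587 = x ^ 1561 * x ^ (13 * 2) := by rw [← pow_add]
      rw [e2]
      field_simp
    rw [e1, le_div_iff₀ (by norm_num)]
    have e3 : x ^ 1561 = x ^ 1558 * x ^ 3 := by rw [← pow_add]
    rw [e3]
    have h2 : (10 : ℝ) ^ 20 ≤ x ^ 1558 := hX.trans (le_self_pow₀ hx1 (by norm_num))
    have h3 : (10 : ℝ) ^ 20 * x ^ 3 ≤ x ^ 1558 * x ^ 3 :=
      mul_le_mul_of_nonneg_right h2 (by positivity)
    have h4 : 0 ≤ x ^ 3 := by positivity
    norm_num at h3 ⊢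
    linarith
  · have h1 : P.rho * (x ^ 1587 / 200) ≤ P.rho * (2 / 5 * P.D / Nq3 P) :=
      mul_le_mul_of_nonneg_left hW hρ.le
    refine le_trans ?_ h1
    have e1 : P.rho * (x ^ 1587 / 200) = x ^ 1574 / 200 := by
      rw [eρ]
      have e2 : x ^ 1587 = x ^ 1574 * x ^ 13 := by rw [← pow_add]
      rw [e2]
      field_simp
    rw [e1, le_div_iff₀ (by norm_num)]
    have h2 : (10 : ℝ) ^ 20 ≤ x ^ 1574 := hX.trans (le_self_pow₀ hx1 (by norm_num))
    exact le_trans (by norm_num) h2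

/-- the numbers for the rows and the columns -/
private theorem Su2_row {P : Par} (h : Num10 P) (c : ℕ) (ac : ℝ) (k : ℕ)
    (ha : 9 / 20 * P.D ≤ ac) (hk : k = ⌊2 / 5 * (P.D : ℝ) ^ 2 / ac⌋₊)
    (hc : (c : ℝ) ≤ (1 - 4 / 5 * P.rho) * ac) :
    (c : ℝ) * k ≤ (1 - 4 / 5 * P.rho) * (2 / 5 * P.D / Nq3 P) * ((Nq3 P * P.D : ℕ) : ℝ) ∧
    (1 - 4 / 5 * P.rho) * (2 / 5 * P.D / Nq3 P) ≤ 2 / 5 * P.D / Nq3 P ∧
    P.Lam ≤ 2 / 5 * P.D / Nq3 P ∧
    (1 - 4 / 5 * P.rho) * (2 / 5 * P.D / Nq3 P) +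
      3 * Real.sqrt (2 / 5 * P.D / Nq3 P * P.Lam) ≤ (1 - P.rho / 2) * lY P := by
  obtain ⟨hD0, hL0, hη, hδ, hε, hρ, hρ1, hNp, -, -, -, q1, q2⟩ := Su2_num h
  set W : ℝ := 2 / 5 * P.D / Nq3 P with hW
  have hW0 : 0 < W := by positivity
  have hac : 0 < ac := lt_of_lt_of_le (by positivity) ha
  have hl : (1 - P.rho / 8) * W - 1 ≤ lY P := by
    unfold lY
    exact (Nat.sub_one_lt_floor _).le
  refine ⟨?_, ?_, ?_, ?_⟩
  · have h1 : (k : ℝ) ≤ 2 / 5 * (P.D : ℝ) ^ 2 / ac := by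
      rw [hk]
      exact Nat.floor_le (by positivity)
    have h2 : (c : ℝ) * k ≤ (1 - 4 / 5 * P.rho) * ac * (2 / 5 * (P.D : ℝ) ^ 2 / ac) :=
      mul_le_mul hc h1 (Nat.cast_nonneg _) ((Nat.cast_nonneg _).trans hc)
    refine h2.trans (le_of_eq ?_)
    rw [hW]
    push_cast
    field_simp
  · have : 0 ≤ P.rho * W := by positivity
    linarith
  · have h1 : P.rho ^ 2 * W ≤ 1 * W := by
      refine mul_le_mul_of_nonneg_right ?_ hW0.le
      exact pow_le_one₀ hρ.le hρ1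
    linarith
  · have h1 : Real.sqrt (W * P.Lam) ≤ P.rho / 300 * W := by
      apply Real.sqrt_le_iff.2
      refine ⟨by positivity, ?_⟩
      have h2 : W * (90000 * P.Lam) ≤ W * (P.rho ^ 2 * W) := mul_le_mul_of_nonneg_left q1 hW0.le
      have h3 : (P.rho / 300 * W) ^ 2 = W * (P.rho ^ 2 * W) / 90000 := by ring
      rw [h3, le_div_iff₀ (by norm_num)]
      linarith
    have h4 : (1 - P.rho / 2) * ((1 - P.rho / 8) * W - 1) ≤ (1 - P.rho / 2) * lY P :=
      mul_le_mul_of_nonneg_left hl (by linarith)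
    refine le_trans ?_ h4
    have h5 : 0 ≤ P.rho ^ 2 * W := by positivity
    have h6 : 0 < P.rho * W := by positivity
    nlinarith

theorem thm_Su2 (hBernL : Pool.TCT.St_BernL) : St_Su2 := by
  intro P V κ _ _ t al ac ki hN hB hal hac hki
  obtain ⟨hD0, hL0, hη, hδ, hε, hρ, hρ1, hNp, hN64, r1, r2, q1, q2⟩ := Su2_num hN
  have hDn : 0 < P.D := by exact_mod_cast hD0
  have hNn : 0 < Nq3 P := by exact_mod_cast hNp
  have hM : 0 < Nq3 P * P.D := Nat.mul_pos hNn hDn
  have hG := hB.gr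
  refine ⟨fun i w hw hc => ?_, fun i v hv _ hc => ?_, fun i b => ?_⟩
  · have hi := hG.rt i w hw
    obtain ⟨m1, m2, m3, m4⟩ := Su2_row hN _ (ac i) (ki i) (hac i hi).1 (hki i hi) hc
    refine Su2_tr (Su2_up hBernL (fun a => (w, a)) (fun a b hab => (Prod.mk.inj hab).2)
      (univ.filter (fun a => al w a)) (Nq3 P * P.D) (ki i) hM _ _ P.Lam _ m1 m2 hL0 m3 m4) ?_
    intro ω hω
    refine lt_of_lt_of_le hω ?_
    rw [Nat.cast_le]
    apply card_le_card
    intro a ha
    have ha' := (Su2_mf.1 ha).2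
    exact Su2_mf.2 ⟨Su2_mf.2 ⟨mem_univ _, ha'.1⟩, ha'.2⟩
  · have hi := hG.rt i v hv
    obtain ⟨m1, m2, m3, m4⟩ := Su2_row hN _ (ac i) (ki i) (hac i hi).1 (hki i hi) hc
    refine Su2_tr (Su2_up hBernL (fun a => (t.E.N a v, a))
      (fun a b hab => (Prod.mk.inj hab).2)
      (univ.filter (fun a => t.E.N a v ≠ v ∧ al (t.E.N a v) a)) (Nq3 P * P.D) (ki i) hM _ _
      P.Lam _ m1 m2 hL0 m3 m4) ?_
    intro ω hω
    refine lt_of_lt_of_le hω ?_
    rw [Nat.cast_le]
    apply card_le_card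
    intro a ha
    have ha' := (Su2_mf.1 ha).2
    exact Su2_mf.2 ⟨Su2_mf.2 ⟨mem_univ _, ha'.1, ha'.2.1⟩, ha'.2.2⟩
  · refine Su2_test hBernL P t al ki (Nq3 P * P.D) hM hG hal ?_ (by positivity) hδ hL0 ?_ ?_ ?_
      (by positivity) i b
    · intro j hj
      have h1 := (hac j hj).1
      rw [hki j hj]
      have h2 : 0 < ac j := lt_of_lt_of_le (by positivity) h1
      have h3 : 2 / 5 * (P.D : ℝ) ^ 2 / ac j ≤ P.D := by
        rw [div_le_iff₀ h2]
        have h4 : (P.D : ℝ) * (9 / 20 * P.D) ≤ P.D * ac j := mul_le_mul_of_nonneg_left h1 hD0.le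
        have h5 : 0 < (P.D : ℝ) * P.D := by positivity
        nlinarith
      exact (Nat.floor_le_floor h3).trans (Nat.floor_natCast _).le
    · push_cast
      have h1 : P.eps * (64 * (P.eta * P.D)) ≤ P.eps * Nq3 P := mul_le_mul_of_nonneg_left hN64 hε
      have h2 : 103 * P.delta * P.D ≤ 16 * (P.eps * P.eta) * P.D :=
        mul_le_mul_of_nonneg_right r1 hD0.le
      have h3 : 103 * P.delta * P.D ≤ P.eps * Nq3 P / 4 := by linarith
      have h4 : 103 * P.delta * P.D * (P.D * P.D) ≤ P.eps * Nq3 P / 4 * (P.D * P.D) :=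
        mul_le_mul_of_nonneg_right h3 (by positivity)
      linarith
    · push_cast
      have h1 : 2 * P.delta * (P.D : ℝ) ^ 2 * P.D * (64 * (P.eta * P.D)) ≤
          2 * P.delta * (P.D : ℝ) ^ 2 * P.D * Nq3 P :=
        mul_le_mul_of_nonneg_left hN64 (by positivity)
      have h2 : 0 ≤ P.delta * (P.D : ℝ) ^ 2 * P.D * (P.eta * P.D) := by positivity
      linarith
    · have h1 : Real.sqrt ((2 * P.delta * (P.D : ℝ) ^ 2 + P.Lam * (P.eta * P.D) ^ 2) * P.Lam) ≤
          P.eps * P.D / 6 := by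
        apply Real.sqrt_le_iff.2
        refine ⟨by positivity, ?_⟩
        have h2 : (2 * P.delta * P.Lam + P.Lam ^ 2 * P.eta ^ 2) * (P.D : ℝ) ^ 2 ≤
            P.eps ^ 2 / 36 * (P.D : ℝ) ^ 2 := mul_le_mul_of_nonneg_right r2 (by positivity)
        have e1 : (2 * P.delta * (P.D : ℝ) ^ 2 + P.Lam * (P.eta * P.D) ^ 2) * P.Lam =
          (2 * P.delta * P.Lam + P.Lam ^ 2 * P.eta ^ 2) * (P.D : ℝ) ^ 2 := by ring
        have e2 : (P.eps * P.D / 6) ^ 2 = P.eps ^ 2 / 36 * (P.D : ℝ) ^ 2 := by ring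
        rw [e1, e2]
        exact h2
      linarith

end Pool.TCV
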