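import Pool.Agent.Helper60.TCV.StK2
import Pool.Agent.Helper3.TCT.Thin

/-!
# T10: thinning with guards (helper37)
-/

set_option autoImplicit false

namespace Pool.TCV

open Pool.TC Pool.TCM Pool.TCS Pool.TN Finset
open scoped Classical

theorem ThG_cnt (M k : ℕ) (hk : k ≤ M) (g : ℝ) :
    (∑ x : Fin M, if x.val < k then g else 0) = k * g := by
  rw [← Finset.sum_filter, Finset.sum_const, nsmul_eq_mul]
  congr 2
  have h1 : (univ.filter (fun x : Fin M => x.val < k)).card = k := by
    rw [Fin.card_filter_val_lt]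
    omega
  exact h1

/-- Bernstein inequality for items which are switched on if the letter of a coordinate is small. -/
theorem ThG_bern (hBernL : Pool.TCT.St_BernL) {T J : Type} [Fintype T] [Fintype J] (M : ℕ)
    (hM : 0 < M) (tj : J → T) (hinj : ∀ j j', tj j = tj j' → j = j') (kg : J → ℕ)
    (hkg : ∀ j, kg j ≤ M) (b : J → ℝ) (c W Lam : ℝ) (hc : 0 < c) (hL : 0 < Lam)
    (hW : Lam * c ^ 2 ≤ W) (hb : ∀ j, |b j| ≤ c) (hs : ∑ j, kg j * b j ^ 2 ≤ W * M) :
    ((univ.filter (fun ω : T → Fin M => (∑ j, kg j * b j) / M + 3 * Real.sqrt (W * Lam) ≤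
      ∑ j, if (ω (tj j)).val < kg j then b j else 0)).card : ℝ) ≤
      Real.exp (-Lam) * Fintype.card (T → Fin M) := by
  have hne : Nonempty (Fin M) := ⟨⟨0, hM⟩⟩
  have key : ∀ (t : T) (x : Fin M), (∃ j, tj j = t ∧ x.val < kg j ∧
      ∀ g : J → ℝ, (∑ j', if tj j' = t ∧ x.val < kg j' then g j' else 0) = g j) ∨
      (∀ g : J → ℝ, (∑ j', if tj j' = t ∧ x.val < kg j' then g j' else 0) = 0) := by
    intro t x
    by_cases h : ∃ j, tj j = t ∧ x.val < kg j
    · obtain ⟨j, h1, h2⟩ := h
      refine Or.inl ⟨j, h1, h2, fun g => ?_⟩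
      rw [Finset.sum_eq_single j]
      · rw [if_pos ⟨h1, h2⟩]
      · intro j' _ hne
        rw [if_neg]
        rintro ⟨h3, _⟩
        exact hne (hinj j' j (h3.trans h1.symm))
      · intro h'; exact absurd (mem_univ _) h'
    · refine Or.inr (fun g => ?_)
      refine Finset.sum_eq_zero (fun j' _ => ?_)
      rw [if_neg]
      intro h'
      exact h ⟨j', h'⟩
  have dbl : ∀ g : J → ℝ,
      (∑ t, ∑ x : Fin M, ∑ j, if tj j = t ∧ x.val < kg j then g j else 0) =
        ∑ j, kg j * g j := by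
    intro g
    have e1 : ∀ t : T, (∑ x : Fin M, ∑ j, if tj j = t ∧ x.val < kg j then g j else 0) =
        ∑ j, if tj j = t then kg j * g j else 0 := by
      intro t
      rw [Finset.sum_comm]
      refine Finset.sum_congr rfl (fun j _ => ?_)
      by_cases h : tj j = t
      · simp only [h, true_and, if_true]
        exact ThG_cnt M (kg j) (hkg j) (g j)
      · simp [h]
    rw [Finset.sum_congr rfl (fun t _ => e1 t), Finset.sum_comm]
    refine Finset.sum_congr rfl (fun j _ => ?_)
    simp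
  have h := hBernL T (Fin M) (fun t x => ∑ j, if tj j = t ∧ x.val < kg j then b j else 0) c W Lam
    hc hL hW
    (by
      intro t x
      rcases key t x with ⟨j, _, _, h3⟩ | h3
      · simp only [h3 b]; exact hb j
      · simp only [h3 b, abs_zero]; exact hc.le)
    (by
      have e : ∀ (t : T) (x : Fin M), (∑ j, if tj j = t ∧ x.val < kg j then b j else 0) ^ 2 =
          ∑ j, if tj j = t ∧ x.val < kg j then b j ^ 2 else 0 := by
        intro t x
        rcases key t x with ⟨j, _, _, h3⟩ | h3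
        · rw [h3 b, h3 (fun j => b j ^ 2)]
        · rw [h3 b, h3 (fun j => b j ^ 2)]; simp
      simp only [e, dbl (fun j => b j ^ 2), Fintype.card_fin]
      exact hs)
  have e2 : ∀ ω : T → Fin M, (∑ t, ∑ j, if tj j = t ∧ (ω t).val < kg j then b j else 0) =
      ∑ j, if (ω (tj j)).val < kg j then b j else 0 := by
    intro ω
    rw [Finset.sum_comm]
    refine Finset.sum_congr rfl (fun j _ => ?_)
    rw [Finset.sum_eq_single (tj j)]
    · by_cases h : (ω (tj j)).val < kg j
      · simp [h]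
      · rw [if_neg h, if_neg]
        rintro ⟨_, h2⟩
        exact h h2
    · intro t _ hne
      rw [if_neg]
      rintro ⟨h1, _⟩
      exact hne h1.symm
    · intro h'; exact absurd (mem_univ _) h'
  simp only [dbl b, e2, Fintype.card_fin] at h
  exact h

open Pool.TCT.ThinP in
theorem thm_ThG (hBernL : Pool.TCT.St_BernL) : St_ThG := by
  intro T J _ _ M tj W gd k kg Bg β Lam hinj hout hβ hB M0 hkM hkg B0 L0 β0 β1 hBL hAL
  have hM0 : (0 : ℝ) < M := by exact_mod_cast M0
  have hne : Nonempty (Fin M) := ⟨⟨0, M0⟩⟩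
  have hN : 0 < Fintype.card (T → Fin M) := Fintype.card_pos
  have hB0' : (0 : ℝ) < Bg := by exact_mod_cast B0
  set w : ℝ := (W.card : ℝ) with hw
  have hw0' : 0 ≤ w := Nat.cast_nonneg _
  have hβw : 0 < β * w := by
    have : (0 : ℝ) < 18 * Bg * Lam := by positivity
    linarith
  have hw0 : 0 < w := by
    rcases hw0'.lt_or_eq with h | h
    · exact h
    · rw [← h, mul_zero] at hβw
      exact absurd hβw (lt_irrefl 0)
  set bb : J → ℝ := fun j => ((W.filter (fun w => gd w j)).card : ℝ) with hbb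
  have hbb0 : ∀ j, 0 ≤ bb j := fun j => Nat.cast_nonneg _
  have hbbB : ∀ j, bb j ≤ Bg := fun j => by
    simp only [hbb]; exact_mod_cast hB j
  have hsum : ∑ j, kg j * bb j ≤ w * (β * M) := by
    have e : ∑ j, kg j * bb j = ∑ w ∈ W, (∑ j ∈ univ.filter (fun j => gd w j), (kg j : ℝ)) := by
      simp only [hbb, Finset.card_filter, Finset.sum_filter]
      push_cast
      rw [Finset.sum_comm]
      refine Finset.sum_congr rfl (fun j _ => ?_)
      rw [Finset.mul_sum]
      refine Finset.sum_congr rfl (fun v _ => ?_)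
      by_cases h : gd v j <;> simp [h]
    rw [e, hw, ← nsmul_eq_mul]
    exact Finset.sum_le_card_nsmul _ _ _ (fun v hv => hβ v hv)
  set W1 : ℝ := Bg * β * w + Lam * Bg ^ 2 with hW1
  have hQ := ThG_bern hBernL M M0 tj hinj kg hkg bb Bg W1 Lam hB0' L0
    (by
      rw [hW1]
      have : 0 ≤ Bg * β * w := by positivity
      linarith)
    (by
      intro j
      rw [abs_of_nonneg (hbb0 j)]
      exact hbbB j)
    (by
      calc ∑ j, kg j * bb j ^ 2 ≤ ∑ j, (Bg : ℝ) * (kg j * bb j) := by
            refine Finset.sum_le_sum (fun j _ => ?_)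
            have h1 : (kg j : ℝ) * bb j ^ 2 = bb j * (kg j * bb j) := by ring
            rw [h1]
            exact mul_le_mul_of_nonneg_right (hbbB j) (mul_nonneg (Nat.cast_nonneg _) (hbb0 j))
        _ = (Bg : ℝ) * ∑ j, kg j * bb j := by rw [Finset.mul_sum]
        _ ≤ (Bg : ℝ) * (w * (β * M)) := mul_le_mul_of_nonneg_left hsum hB0'.le
        _ = Bg * β * w * M := by ring
        _ ≤ W1 * M := by
            refine mul_le_mul_of_nonneg_right ?_ hM0.le
            rw [hW1]
            have : 0 ≤ Lam * (Bg : ℝ) ^ 2 := by positivity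
            linarith)
  have hdev1 : 3 * Real.sqrt (W1 * Lam) ≤ β * w := by
    have h1 : W1 * Lam ≤ (β * w / 3) ^ 2 := by
      have h2 : Bg * Lam ≤ β * w / 18 := by
        rw [hw]
        linarith
      have h3 : 0 ≤ Bg * Lam := by positivity
      have h4 : (Bg * Lam) ^ 2 ≤ (β * w / 18) ^ 2 := pow_le_pow_left₀ h3 h2 2
      have h5 : (Bg * Lam) * (β * w) ≤ (β * w / 18) * (β * w) :=
        mul_le_mul_of_nonneg_right h2 hβw.le
      have h6 : W1 * Lam = (Bg * Lam) * (β * w) + (Bg * Lam) ^ 2 := by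
        rw [hW1]
        ring
      rw [h6]
      nlinarith
    have h2 : Real.sqrt (W1 * Lam) ≤ β * w / 3 := by
      calc Real.sqrt (W1 * Lam) ≤ Real.sqrt ((β * w / 3) ^ 2) := Real.sqrt_le_sqrt h1
        _ = β * w / 3 := Real.sqrt_sq (by positivity)
    linarith
  have hfin := bound_mx (fun t => ∃ v ∈ W, tj v = t) (fun ω : T → Fin M =>
    ((W.filter (fun w => (ω (tj w)).val < k ∧ ∀ j, gd w j → kg j ≤ (ω (tj j)).val)).card : ℝ) <
      (1 - 3 * β) * (W.card * (k : ℝ) / M))
    (fun ω' => (∑ j, kg j * bb j) / M + 3 * Real.sqrt (W1 * Lam) ≤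
      ∑ j, if (ω' (tj j)).val < kg j then bb j else 0) (Real.exp (-Lam)) hQ ?_
      (Real.exp_pos _).le hN
  · exact hfin
  intro ω' hω'
  rw [not_le] at hω'
  set W' := W.filter (fun v => ∀ j, gd v j → kg j ≤ (ω' (tj j)).val) with hW'
  have hkill : w ≤ (W'.card : ℝ) + ∑ j, if (ω' (tj j)).val < kg j then bb j else 0 := by
    have e1 : W.card = W'.card +
        (W.filter (fun v => ¬ ∀ j, gd v j → kg j ≤ (ω' (tj j)).val)).card := by
      rw [hW', Finset.card_filter_add_card_filter_not]
    have e2 : ((W.filter (fun v => ¬ ∀ j, gd v j → kg j ≤ (ω' (tj j)).val)).card : ℝ) ≤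
        ∑ j, if (ω' (tj j)).val < kg j then bb j else 0 := by
      have e3 : W.filter (fun v => ¬ ∀ j, gd v j → kg j ≤ (ω' (tj j)).val) ⊆
          (univ.filter (fun j => (ω' (tj j)).val < kg j)).biUnion
            (fun j => W.filter (fun v => gd v j)) := by
        intro v hv
        simp only [mem_filter, not_forall, not_le, mem_biUnion, mem_univ, true_and] at hv ⊢
        obtain ⟨h1, j, h2, h3⟩ := hv
        exact ⟨j, h3, h1, h2⟩
      have e4 := (Finset.card_le_card e3).trans Finset.card_biUnion_le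
      rw [← Finset.sum_filter]
      simp only [hbb]
      exact_mod_cast e4
    have e1' : w = (W'.card : ℝ) +
        ((W.filter (fun v => ¬ ∀ j, gd v j → kg j ≤ (ω' (tj j)).val)).card : ℝ) := by
      rw [hw]; exact_mod_cast e1
    linarith
  have hW'big : (1 - 2 * β) * w ≤ (W'.card : ℝ) := by
    have h1 : (∑ j, kg j * bb j) / M ≤ β * w := by
      rw [div_le_iff₀ hM0]
      refine hsum.trans_eq ?_
      ring
    linarith
  have hW'w : (W'.card : ℝ) ≤ w := by
    rw [hw]; exact_mod_cast Finset.card_filter_le _ _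
  set x : ℝ := w * (k : ℝ) / M with hx
  have hx0 : 0 < x := by
    have h1 : 0 < β ^ 2 * x := by
      rw [hx, hw]
      have : 0 < 9 * Lam := by positivity
      linarith
    by_contra h
    rw [not_lt] at h
    have : β ^ 2 * x ≤ 0 := mul_nonpos_of_nonneg_of_nonpos (sq_nonneg _) h
    linarith
  have hAL' : 9 * Lam ≤ β ^ 2 * x := hAL
  have hI := ThG_bern hBernL M M0 tj hinj (fun _ => k) (fun _ => hkM)
    (fun j => if j ∈ W' then (-1 : ℝ) else 0) 1 x Lam one_pos L0
    (by
      have h1 : β ^ 2 ≤ 1 := by nlinarith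
      have h2 : β ^ 2 * x ≤ 1 * x := mul_le_mul_of_nonneg_right h1 hx0.le
      linarith)
    (by
      intro j
      by_cases h : j ∈ W' <;> simp [h])
    (by
      have : ∑ j, (k : ℝ) * (if j ∈ W' then (-1 : ℝ) else 0) ^ 2 = k * W'.card := by
        rw [← Finset.mul_sum]
        simp [ite_pow]
      rw [this, hx, div_mul_cancel₀ _ hM0.ne', mul_comm]
      exact mul_le_mul_of_nonneg_right hW'w (Nat.cast_nonneg _))
  have hdev2 : 3 * Real.sqrt (x * Lam) ≤ β * x := by
    have h1 : x * Lam ≤ (β * x / 3) ^ 2 := by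
      have h2 := mul_le_mul_of_nonneg_left hAL' hx0.le
      nlinarith
    have h2 : Real.sqrt (x * Lam) ≤ β * x / 3 := by
      calc Real.sqrt (x * Lam) ≤ Real.sqrt ((β * x / 3) ^ 2) := Real.sqrt_le_sqrt h1
        _ = β * x / 3 := Real.sqrt_sq (by positivity)
    linarith
  refine le_trans (Nat.cast_le.mpr (Finset.card_le_card (fun ω hω => ?_))) hI
  simp only [mem_filter, mem_univ, true_and] at hω ⊢
  have e1 : W.filter (fun v => (mx (fun t => ∃ v ∈ W, tj v = t) ω ω' (tj v)).val < k ∧
      ∀ j, gd v j → kg j ≤ (mx (fun t => ∃ v ∈ W, tj v = t) ω ω' (tj j)).val) =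
      W'.filter (fun v => (ω (tj v)).val < k) := by
    ext v
    simp only [hW', mem_filter]
    have a1 : v ∈ W → mx (fun t => ∃ v ∈ W, tj v = t) ω ω' (tj v) = ω (tj v) := by
      intro hv
      unfold mx
      exact if_pos ⟨v, hv, rfl⟩
    have a2 : v ∈ W → ∀ j, gd v j →
        mx (fun t => ∃ v ∈ W, tj v = t) ω ω' (tj j) = ω' (tj j) := by
      intro hv j hj
      unfold mx
      refine if_neg ?_
      rintro ⟨v', hv', h⟩
      have h1 := hinj v' j h
      rw [h1] at hv'
      exact hout v hv j hj hv'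
    constructor
    · rintro ⟨h1, h2, h3⟩
      refine ⟨⟨h1, fun j hj => ?_⟩, ?_⟩
      · rw [← a2 h1 j hj]; exact h3 j hj
      · rw [← a1 h1]; exact h2
    · rintro ⟨⟨h1, h3⟩, h2⟩
      refine ⟨h1, ?_, fun j hj => ?_⟩
      · rw [a1 h1]; exact h2
      · rw [a2 h1 j hj]; exact h3 j hj
  rw [e1] at hω
  have e2 : (∑ j, if (ω (tj j)).val < k then (if j ∈ W' then (-1 : ℝ) else 0) else 0) =
      -((W'.filter (fun v => (ω (tj v)).val < k)).card : ℝ) := by
    rw [Finset.card_filter]
    push_cast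
    rw [← Finset.sum_neg_distrib, ← Finset.sum_filter_add_sum_filter_not univ (fun j => j ∈ W')]
    have a1 : (univ.filter (fun j => j ∈ W')) = W' := by ext j; simp
    rw [a1]
    have a2 : ∑ j ∈ univ.filter (fun j => ¬ j ∈ W'),
        (if (ω (tj j)).val < k then (if j ∈ W' then (-1 : ℝ) else 0) else 0) = 0 := by
      refine Finset.sum_eq_zero (fun j hj => ?_)
      rw [mem_filter] at hj
      simp [hj.2]
    rw [a2, add_zero]
    refine Finset.sum_congr rfl (fun j hj => ?_)
    by_cases h : (ω (tj j)).val < k <;> simp [h, hj]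
  have e3 : (∑ j, (k : ℝ) * if j ∈ W' then (-1 : ℝ) else 0) = -(k * (W'.card : ℝ)) := by
    rw [← Finset.mul_sum]
    simp
  rw [e2, e3]
  have h6 : (1 - 2 * β) * x ≤ k * (W'.card : ℝ) / M := by
    rw [hx, ← mul_div_assoc]
    refine div_le_div_of_nonneg_right ?_ hM0.le
    have := mul_le_mul_of_nonneg_left hW'big (Nat.cast_nonneg k : (0 : ℝ) ≤ k)
    linarith
  have hω2 : ((W'.filter (fun v => (ω (tj v)).val < k)).card : ℝ) < (1 - 3 * β) * x := hω
  rw [neg_div]
  linarith

end Pool.TCV
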