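import Pool.Agent.Helper60.TCV.StK3
import Pool.Agent.Helper45.Vu.IT

/-!
# T10, TR10: the choice of the swaps (helper16)
-/

set_option autoImplicit false

namespace Pool.TCV

open Pool.TC Pool.TCM Pool.TCS Pool.TN Finset
open scoped Classical

/-- conflicts are symmetric -/
theorem Tr10_symm {V κ : Type} [Fintype V] [Fintype κ] (t : Td V κ) (c α : V → κ)
    {u w u' w' : V} (h : cfF t c α u' w' u w) : cfF t c α u w u' w' := by
  rcases h with h | h | h | h | h | ⟨h1, h2⟩ | ⟨h1, h2⟩ | ⟨h1, h2⟩ | ⟨h1, h2⟩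
  · exact Or.inl h.symm
  · exact Or.inr (Or.inl h.symm)
  · exact Or.inr (Or.inr (Or.inr (Or.inl h.symm)))
  · exact Or.inr (Or.inr (Or.inl h.symm))
  · exact Or.inr (Or.inr (Or.inr (Or.inr (Or.inl h.symm))))
  · exact Or.inr (Or.inr (Or.inr (Or.inr (Or.inr (Or.inl ⟨h1.symm, h2.symm⟩)))))
  · exact Or.inr (Or.inr (Or.inr (Or.inr (Or.inr (Or.inr (Or.inl ⟨h1.symm, h2.symm⟩))))))
  · exact Or.inr (Or.inr (Or.inr (Or.inr (Or.inr (Or.inr (Or.inr (Or.inr
      ⟨h1.symm, h2.symm⟩)))))))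
  · exact Or.inr (Or.inr (Or.inr (Or.inr (Or.inr (Or.inr (Or.inr (Or.inl
      ⟨h1.symm, h2.symm⟩)))))))

/-- the numbers -/
theorem Tr10_num {P : Par} (hN : Num10 P) :
    1 ≤ (P.X : ℝ) ∧ (84000 : ℝ) ≤ P.X ∧ P.rho ≤ 1 / (P.X : ℝ) ^ 13 ∧
    P.pmax ≤ 1 / (P.X : ℝ) ^ 13 ∧ P.eta ≤ 1 / (P.X : ℝ) ^ 13 ∧ (P.X : ℝ) ^ 13 ≤ P.D ∧
    (P.MW : ℝ) ^ 2 = (P.X : ℝ) ^ 12 := by
  have hX0 : (10 : ℝ) ^ 20 ≤ P.X := by exact_mod_cast hN.X0
  have hX1 : (84000 : ℝ) ≤ P.X := le_trans (by norm_num) hX0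
  have hX : (1 : ℝ) ≤ P.X := by linarith
  have hpos : ∀ n : ℕ, (0 : ℝ) < (P.X : ℝ) ^ n := fun n => by positivity
  refine ⟨hX, hX1, le_of_eq hN.rho, ?_, ?_, ?_, ?_⟩
  · rw [hN.pmax, hN.delta, hN.theta]
    have h1 : (P.X : ℝ) ^ 28 ≤ (P.X : ℝ) ^ 4900 := pow_le_pow_right₀ hX (by norm_num)
    have h2 : 103 * (P.X : ℝ) ^ 27 ≤ (P.X : ℝ) ^ 28 := by
      rw [pow_succ (P.X : ℝ) 27, mul_comm]
      exact mul_le_mul_of_nonneg_left (by linarith) (hpos 27).le
    generalize (P.X : ℝ) ^ 4900 = y at *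
    have hy : 0 < y := lt_of_lt_of_le (by positivity) (h2.trans h1)
    rw [div_div_eq_mul_div, le_div_iff₀ (hpos 13), div_one]
    have h3 : 103 * (1 / y) * (P.X : ℝ) ^ 14 * (P.X : ℝ) ^ 13 = 103 * (P.X : ℝ) ^ 27 / y := by
      rw [mul_assoc _ _ ((P.X : ℝ) ^ 13), ← pow_add]
      ring
    rw [h3, div_le_one hy]
    exact h2.trans h1
  · rw [hN.eta]
    exact one_div_le_one_div_of_le (hpos 13) (pow_le_pow_right₀ hX (by norm_num))
  · exact (pow_le_pow_right₀ hX (by norm_num)).trans hN.XD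
  · rw [hN.MW]
    push_cast
    rw [← pow_mul]

/-- TR10. The choice of the swaps. -/
theorem thm_Tr10 (hCn10 : St_Cn10) : St_Tr10 := by
  intro P V κ _ _ t C Y c Qp α hN hB hA hHB hP
  by_cases hV : Nonempty V
  swap
  · exact ⟨id, ⟨fun u => absurd ⟨u⟩ hV, fun u => absurd ⟨u⟩ hV⟩⟩
  obtain ⟨v0⟩ := hV
  obtain ⟨hX, hX1, hrho, hpmax, heta, hXD, hMW⟩ := Tr10_num hN
  set q : ℝ := 1 / (P.X : ℝ) ^ 13 with hq
  have hX0 : (0 : ℝ) < P.X := by linarith
  have hq0 : 0 < q := by positivity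
  have hD0 : (0 : ℝ) ≤ P.D := Nat.cast_nonneg _
  have hqM : q * (P.MW : ℝ) ^ 2 * 84000 ≤ 1 := by
    rw [hMW, hq]
    have h1 : 1 / (P.X : ℝ) ^ 13 * (P.X : ℝ) ^ 12 = 1 / P.X := by
      field_simp
    rw [h1, one_div, inv_mul_le_iff₀ hX0]
    linarith
  have hMW0 : 0 < P.MW := by
    rw [hN.MW]
    have : 0 < P.X := by exact_mod_cast hX0
    exact Nat.pow_pos this
  set m : ℕ := 6000 * P.MW ^ 2 with hm
  have hm0 : 0 < m := by positivity
  have hmR : (m : ℝ) = 6000 * (P.MW : ℝ) ^ 2 := by rw [hm]; push_cast; ring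
  set d : ℕ := P.D / m with hd
  have hd0 : 0 < d := by
    apply Nat.div_pos _ hm0
    have h1 : (m : ℝ) ≤ P.D := by
      rw [hmR, hMW]
      calc 6000 * (P.X : ℝ) ^ 12 ≤ P.X * (P.X : ℝ) ^ 12 :=
            mul_le_mul_of_nonneg_right (by linarith) (by positivity)
        _ = (P.X : ℝ) ^ 13 := by ring
        _ ≤ P.D := hXD
    exact_mod_cast h1
  have hoo : ∀ w i, w ∈ t.Rg P i → (t.oo w : ℝ) ≤ q * P.D := by
    intro w i hw
    unfold Gd.Rg at hw
    simp only [mem_filter, mem_univ, true_and] at hw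
    obtain ⟨h1, h2⟩ := hw
    have h3 : ¬ (P.eta * P.D ≤ t.oo w) := by
      intro h4
      refine h2 ⟨?_, Or.inr h4⟩
      rw [h1]
      exact Option.some_ne_none _
    have h4 : P.eta * P.D ≤ q * P.D := mul_le_mul_of_nonneg_right heta hD0
    linarith
  set Gc : SimpleGraph (V × V) :=
    SimpleGraph.fromRel (fun p p' : V × V => p.1 ≠ p'.1 ∧ cfF t c α p.1 p.2 p'.1 p'.2) with hGc
  set R : V → Finset (V × V) :=
    fun u => univ.filter (fun p : V × V => p.1 = u ∧ p.2 ∈ opt t C Y c u (α u)) with hR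
  set S : Finset V := univ.filter (fun u => ¬ C u) with hS
  have hmS : ∀ u, u ∈ S ↔ ¬ C u := fun u => by rw [hS, mem_filter]; simp
  have hmR' : ∀ u p, p ∈ R u ↔ p.1 = u ∧ p.2 ∈ opt t C Y c u (α u) := fun u p => by
    rw [hR]
    simp only [mem_filter, mem_univ, true_and]
  have key := Pool.Agent.Helper45.Vu.exists_transversal Gc R (v0, v0) d hd0 S
  obtain ⟨f, hf1, hf2⟩ := key (by
    intro u hu
    rw [hmS] at hu
    have h1 := hP.opt u hu
    have h2 : (opt t C Y c u (α u)).card ≤ (R u).card := by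
      apply card_le_card_of_injOn (fun w => (u, w))
      · intro w hw
        rw [mem_coe] at hw
        rw [mem_coe, hmR']
        exact ⟨rfl, hw⟩
      · intro w _ w' _ e
        exact (Prod.mk.inj e).2
    refine le_trans ?_ h2
    have h3 : d * m ≤ P.D := Nat.div_mul_le_self _ _
    have h4 : (1500 * P.MW ^ 2) * (4 * d) ≤
        (1500 * P.MW ^ 2) * (opt t C Y c u (α u)).card := by
      calc (1500 * P.MW ^ 2) * (4 * d) = d * m := by rw [hm]; ring
        _ ≤ P.D := h3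
        _ ≤ _ := h1
    exact Nat.le_of_mul_le_mul_left h4 (by positivity)) (by
    intro u hu x hx
    rw [hmR'] at hx
    obtain ⟨rfl, hx2⟩ := hx
    rw [hmS] at hu
    obtain ⟨i, hi⟩ := hA.rem x.1 hu
    have hiK : t.K x.1 = some i := by
      have hi' := hi
      unfold Gd.Rg at hi'
      simp only [mem_filter, mem_univ, true_and] at hi'
      exact hi'.1
    have hYw : Y x.2 := by
      have h5 := hx2
      unfold opt at h5
      simp only [mem_filter, mem_univ, true_and] at h5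
      exact h5.1
    obtain ⟨j, hj⟩ := (hA.yrow x.2 hYw).2
    have h1 := hCn10 P V κ t C Y c Qp α hB hA hP i x.1 x.2 hiK hu hx2
    have h3 : (5 * (Rr t C i).card + 2 * t.oo x.1 + 2 * t.oo x.2) ≤ d := by
      rw [hd, Nat.le_div_iff_mul_le hm0]
      have h4 : ((Rr t C i).card : ℝ) ≤ (P.rho + P.pmax) * P.D := by
        have h5 : ((Rr t C i).card : ℝ) ≤ (Qp i).card := by
          exact_mod_cast hHB.rcard i (hB.gr.rt i x.1 hiK)
        exact h5.trans (hHB.qc1 i)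
      have h5 : (P.rho + P.pmax) * P.D ≤ (2 * q) * P.D :=
        mul_le_mul_of_nonneg_right (by linarith) hD0
      have h6 := hoo x.1 i hi
      have h7 := hoo x.2 j hj
      have h8 : (((5 * (Rr t C i).card + 2 * t.oo x.1 + 2 * t.oo x.2) * m : ℕ) : ℝ) ≤ P.D := by
        push_cast
        rw [hmR]
        have h9 : 5 * ((Rr t C i).card : ℝ) + 2 * (t.oo x.1 : ℝ) + 2 * (t.oo x.2 : ℝ) ≤
            14 * q * P.D := by linarith
        have h10 : (0 : ℝ) ≤ 6000 * (P.MW : ℝ) ^ 2 := by positivity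
        calc (5 * ((Rr t C i).card : ℝ) + 2 * (t.oo x.1 : ℝ) + 2 * (t.oo x.2 : ℝ)) *
              (6000 * (P.MW : ℝ) ^ 2) ≤ 14 * q * P.D * (6000 * (P.MW : ℝ) ^ 2) :=
              mul_le_mul_of_nonneg_right h9 h10
          _ = (q * (P.MW : ℝ) ^ 2 * 84000) * P.D := by ring
          _ ≤ 1 * P.D := mul_le_mul_of_nonneg_right hqM hD0
          _ = P.D := one_mul _
      exact_mod_cast h8
    refine le_trans ?_ (h1.trans h3)
    rw [← card_biUnion]
    · apply card_le_card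
      intro p hpm
      rw [mem_biUnion] at hpm
      obtain ⟨j', hj', hjm⟩ := hpm
      rw [mem_filter, hmR'] at hjm
      obtain ⟨⟨hj1, hj1'⟩, hj2⟩ := hjm
      rw [hGc, SimpleGraph.fromRel_adj] at hj2
      have hj3 : ¬ C p.1 := by
        rw [hj1]
        exact (hmS _).1 (mem_of_mem_erase hj')
      have hj4 : p.1 ≠ x.1 := by
        rw [hj1]
        exact ne_of_mem_erase hj'
      rw [← hj1] at hj1'
      rw [mem_filter]
      refine ⟨mem_univ _, hj3, hj4, hj1', ?_⟩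
      rcases hj2.2 with hj5 | hj5
      · exact hj5.2
      · exact Tr10_symm t c α hj5.2
    · intro j1 _ j2 _ hjj
      rw [Function.onFun, Finset.disjoint_left]
      intro p hp1 hp2
      rw [mem_filter, hmR'] at hp1 hp2
      exact hjj (hp1.1.1.symm.trans hp2.1.1))
  refine ⟨fun u => (f u).2, ⟨?_, ?_⟩⟩
  · intro u hu
    have h1 := hf1 u ((hmS u).2 hu)
    rw [hmR'] at h1
    exact h1.2
  · intro u u' hu hu' huu hc
    have h1 := (hmR' _ _).1 (hf1 u ((hmS u).2 hu))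
    have h2 := (hmR' _ _).1 (hf1 u' ((hmS u').2 hu'))
    apply hf2 u ((hmS u).2 hu) u' ((hmS u').2 hu') huu
    rw [hGc, SimpleGraph.fromRel_adj]
    refine ⟨fun e => ?_, Or.inl ⟨?_, ?_⟩⟩
    · rw [← h1.1, ← h2.1, e] at huu
      exact huu rfl
    · rw [h1.1, h2.1]
      exact huu
    · rw [h1.1, h2.1]
      exact hc

end Pool.TCV
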