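import Pool.Agent.Helper60.TCV.StK1

/-!
# T10, section 9a: few columns of a cluster are used
-/

set_option autoImplicit false

namespace Pool.TCV

open Pool.TC Pool.TCM Pool.TCS Pool.TN Finset
open scoped Classical

private theorem Use_num {P : Par} (hN : Num10 P) : P.pmax ≤ P.eps := by
  have hX : (100 : ℝ) * 1000000 ≤ P.X := by
    have h1 : ((10 ^ 20 : ℕ) : ℝ) ≤ (P.X : ℝ) := by exact_mod_cast hN.X0
    refine le_trans ?_ h1
    norm_num
  have hX1 : (1 : ℝ) ≤ P.X := by linarith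
  have hX0 : (0 : ℝ) < P.X := by linarith
  rw [hN.pmax, hN.delta, hN.theta, hN.eps]
  have e1 : (103 : ℝ) * (1 / (P.X : ℝ) ^ 4900) / (1 / (P.X : ℝ) ^ 14) =
      103 * (P.X : ℝ) ^ 14 / (P.X : ℝ) ^ 4900 := by
    field_simp
  rw [e1, div_le_div_iff₀ (pow_pos hX0 _) (pow_pos hX0 _)]
  have h2 : (103 : ℝ) * (P.X : ℝ) ^ 14 * (P.X : ℝ) ^ 15 ≤ (P.X : ℝ) ^ 30 := by
    have h3 : (P.X : ℝ) ^ 30 = P.X * ((P.X : ℝ) ^ 14 * (P.X : ℝ) ^ 15) := by ring
    rw [h3, mul_assoc]
    apply mul_le_mul_of_nonneg_right _ (by positivity)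
    linarith
  rw [one_mul]
  exact le_trans h2 (pow_le_pow_right₀ hX1 (by norm_num))

/-- USE. -/
theorem thm_Use : St_Use := by
  intro P V κ _ _ t X cX cS hN hB hXP hSP i
  have hsub : (univ.filter (fun v => t.K v = some i ∧ usd t X cX cS v)) ⊆
      (univ.filter (fun x => t.U x ∧ t.K (t.E.N (cS x) x) = some i)).image
        (fun x => t.E.N (cS x) x) ∪
      (univ.filter (fun w => t.K w = some i ∧ X w)).image (fun w => t.E.N (cX w) w) := by
    intro v hv
    obtain ⟨-, hk, hu⟩ := mem_filter.1 hv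
    rw [mem_union]
    rcases hu with ⟨x, hx, hxv⟩ | ⟨w, hw, hwv⟩
    · left
      refine mem_image.2 ⟨x, mem_filter.2 ⟨mem_univ _, hx, ?_⟩, hxv⟩
      rw [hxv]
      exact hk
    · right
      refine mem_image.2 ⟨w, mem_filter.2 ⟨mem_univ _, ?_, hw⟩, hwv⟩
      obtain ⟨j, hj⟩ := hXP.row w hw
      have hKj : t.K w = some j := by
        simp only [Gd.Rg, mem_filter, mem_univ, true_and] at hj
        exact hj.1
      have h1 := (mem_filter.1 (hXP.x1 j w hw hKj).2).1
      simp only [Ed.W0, mem_filter, mem_univ, true_and] at h1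
      rcases h1.2 with hf | hg
      · have hf' : t.E.N (cX w) w = w := hf
        rw [hf'] at hwv
        rw [hwv]
        exact hk
      · have h2 := hg.2
        rw [hwv, hk] at h2
        rw [hKj, ← h2]
  have hc := le_trans (card_le_card hsub) (card_union_le _ _)
  have h1 := hSP.q1 i
  have h2 := hXP.x7 i
  have h3 := Use_num hN
  have hD : (0 : ℝ) ≤ P.D := Nat.cast_nonneg _
  have h4 : P.pmax * P.D ≤ P.eps * P.D := mul_le_mul_of_nonneg_right h3 hD
  have hc2 : ((univ.filter (fun v => t.K v = some i ∧ usd t X cX cS v)).card : ℝ) ≤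
      ((univ.filter (fun x => t.U x ∧ t.K (t.E.N (cS x) x) = some i)).card : ℝ) +
      ((univ.filter (fun w => t.K w = some i ∧ X w)).card : ℝ) := by
    have h5 := le_trans hc (Nat.add_le_add card_image_le card_image_le)
    exact_mod_cast h5
  linarith

end Pool.TCV
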