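import Pool.Agent.Helper60.TCV.StK2

/-!
# The number of the colours of a cluster
-/

set_option autoImplicit false

namespace Pool.TCV

open Pool.TC Pool.TCM Pool.TCS Pool.TN Finset
open scoped Classical

section

variable {P : Par} {V κ : Type} [Fintype V] [Fintype κ] {k : Kd V κ}

/-- kept free rows -/
private theorem Cnt_F (h : KdP P k) {y i : V} (hy : k.FF y) (hi : k.K y = some i) :
    k.m y ∉ k.Pb P i ∧ k.m y ∈ k.mF i ∧ k.m y ∉ k.Q ∧ k.cand P y := by
  have hc := h.bs.ac.f0 y hy.1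
  rcases hc with h1 | ⟨j, h1, -, h4, -, h2⟩
  · exact absurd h1.1.1 hy.2.1
  · have h3 : k.K y = some j ∧ ¬ k.Sp P y := by
      simpa [Gd.Rg] using h1
    have hij : j = i := by
      have := h3.1.symm.trans hi
      exact Option.some.inj this
    subst hij
    refine ⟨h2, ?_, fun hq => h.bs.ed.q1 _ hq h4, h.bs.ac.f0 y hy.1⟩
    exact mem_image.2 ⟨y, by simpa [Fd.F0i] using ⟨h3.1, hy.1⟩, rfl⟩

/-- special rows -/
private theorem Cnt_S (h : KdP P k) {a : κ} {i : V} (ha : a ∈ k.cSp P i) :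
    a ∉ k.Pb P i ∧ a ∉ k.Q ∧ a ∉ k.mFF i := by
  obtain ⟨w, hw, rfl⟩ := mem_image.1 ha
  have h1 : k.K w = some i ∧ k.Sp P w := by
    simpa [Gd.Spi] using hw
  obtain ⟨h2, h3, h4⟩ := h.zp.z2 i w h1.2 h1.1
  refine ⟨h2, h3, fun h5 => h4 ?_⟩
  obtain ⟨y, hy, hy2⟩ := mem_image.1 h5
  have h6 : k.K y = some i ∧ k.FF y := by simpa using hy
  rw [← hy2]
  exact (Cnt_F h h6.2 h6.1).2.1

/-- the colours of the kept free rows -/
private theorem Cnt_mFF (h : KdP P k) (i : V) :
    (k.mFF i).card = (univ.filter (fun w => k.K w = some i ∧ k.FF w)).card := by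
  apply card_image_of_injOn
  intro u hu w hw e
  have hu1 : k.K u = some i ∧ k.FF u := by simpa using hu
  have hw1 : k.K w = some i ∧ k.FF w := by simpa using hw
  by_contra hne
  refine h.bs.ac.f1 u w hu1.2.1 hw1.2.1 ⟨hne, (Cnt_F h hu1.2 hu1.1).2.2.2,
    (Cnt_F h hw1.2 hw1.1).2.2.2, e, Or.inr ⟨hu1.2.2.1, ?_⟩⟩
  rw [hu1.1, hw1.1]

/-- the colours of the special rows -/
private theorem Cnt_cSp (h : KdP P k) (i : V) :
    (k.cSp P i).card + k.mu i = (k.Spi P i).card := by
  have hsp : ∀ w, w ∈ k.Spi P i ↔ k.K w = some i ∧ k.Sp P w := by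
    intro w
    simp [Gd.Spi]
  obtain ⟨N1, hN1⟩ : ∃ N : Finset V, N = (k.Spi P i).filter (fun w => ¬ k.pr w ≠ w) := ⟨_, rfl⟩
  obtain ⟨N2, hN2⟩ : ∃ N : Finset V, N = (k.Spi P i).filter (fun w => k.pr w ≠ w) := ⟨_, rfl⟩
  have hcard : N2.card + N1.card = (k.Spi P i).card := by
    rw [hN1, hN2]
    exact card_filter_add_card_filter_not _
  have hN2' : N2 = (k.Ki i).filter (fun w => k.pr w ≠ w) := by
    rw [hN2]
    ext w
    simp only [mem_filter, hsp, Gd.Ki, mem_univ, true_and]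
    constructor
    · rintro ⟨⟨h1, -⟩, h2⟩
      exact ⟨h1, h2⟩
    · rintro ⟨h1, h2⟩
      exact ⟨⟨h1, by rw [h1]; exact Option.some_ne_none i, Or.inl h2⟩, h2⟩
  have h2mu : N2.card = 2 * k.mu i := by
    rw [hN2']
    exact h.bs.gr.pcard i
  have hm1 : ∀ w, w ∈ N1 → k.K w = some i ∧ k.Sp P w ∧ k.pr w = w := by
    intro w hw
    rw [hN1, mem_filter, hsp] at hw
    exact ⟨hw.1.1, hw.1.2, not_not.1 hw.2⟩
  have hm2 : ∀ w, w ∈ N2 → k.K w = some i ∧ k.Sp P w ∧ k.pr w ≠ w := by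
    intro w hw
    rw [hN2, mem_filter, hsp] at hw
    exact ⟨hw.1.1, hw.1.2, hw.2⟩
  have hpr : ∀ w, w ∈ N2 → k.pr w ∈ N2 := by
    intro w hw
    obtain ⟨h1, h2, h3⟩ := hm2 w hw
    rw [hN2', mem_filter]
    have h4 := h.bs.gr.padj w h3
    refine ⟨?_, ?_⟩
    · simp only [Gd.Ki, mem_filter, mem_univ, true_and]
      rw [h4.2.1, h1]
    · intro h5
      apply h3
      rw [h.bs.gr.pinv w] at h5
      exact h5.symm
  have himg : k.cSp P i = N1.image k.cZ ∪ N2.image k.cZ := by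
    unfold Kd.cSp
    rw [← image_union]
    congr 1
    rw [hN1, hN2, union_comm]
    exact (filter_union_filter_not_eq _ _).symm
  have hdisj : Disjoint (N1.image k.cZ) (N2.image k.cZ) := by
    rw [disjoint_left]
    intro a ha hb
    obtain ⟨u, hu, rfl⟩ := mem_image.1 ha
    obtain ⟨w, hw, e⟩ := mem_image.1 hb
    obtain ⟨u1, u2, u3⟩ := hm1 u hu
    obtain ⟨w1, w2, w3⟩ := hm2 w hw
    rcases h.zp.z1 u w u2 w2 (u1.trans w1.symm) e.symm with h1 | h1
    · rw [h1] at w3
      exact w3 u3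
    · rw [h1, u3] at w3
      exact w3 u3
  have hc1 : (N1.image k.cZ).card = N1.card := by
    apply card_image_of_injOn
    intro u hu w hw e
    obtain ⟨u1, u2, u3⟩ := hm1 u hu
    obtain ⟨w1, w2, w3⟩ := hm1 w hw
    rcases h.zp.z1 u w u2 w2 (u1.trans w1.symm) e with h1 | h1
    · exact h1.symm
    · rw [u3] at h1
      exact h1.symm
  have hc2 : N2.card = (N2.image k.cZ).card * 2 := by
    rw [card_eq_sum_card_image k.cZ N2]
    rw [sum_const_nat (m := 2)]
    intro a ha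
    obtain ⟨u, hu, rfl⟩ := mem_image.1 ha
    obtain ⟨u1, u2, u3⟩ := hm2 u hu
    have : N2.filter (fun w => k.cZ w = k.cZ u) = {u, k.pr u} := by
      ext w
      rw [mem_filter, mem_insert, mem_singleton]
      constructor
      · rintro ⟨hw, e⟩
        obtain ⟨w1, w2, w3⟩ := hm2 w hw
        exact h.zp.z1 u w u2 w2 (u1.trans w1.symm) e.symm
      · rintro (rfl | rfl)
        · exact ⟨hu, rfl⟩
        · exact ⟨hpr u hu, h.zp.z0 u u2⟩
    rw [this]
    exact card_pair (Ne.symm u3)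
  rw [himg, card_union_of_disjoint hdisj, hc1]
  omega

end

theorem thm_Cnt : St_Cnt := by
  intro P V κ _ _ k h i hi
  have hF := Cnt_mFF h i
  have hS := Cnt_cSp h i
  have hlm := h.bs.gr.lm i hi
  have hK : (k.Spi P i).card + (k.Rg P i).card = (k.Ki i).card := by
    have e1 : k.Spi P i = (k.Ki i).filter (fun w => k.Sp P w) := by
      ext w
      simp [Gd.Spi, Gd.Ki]
    have e2 : k.Rg P i = (k.Ki i).filter (fun w => ¬ k.Sp P w) := by
      ext w
      simp [Gd.Rg, Gd.Ki]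
    rw [e1, e2]
    exact card_filter_add_card_filter_not _
  have hQp : (k.Qp P i).card = (k.Q \ k.Pb P i).card + (k.Bk P i).card := by
    unfold Kd.Qp
    rw [card_union_of_disjoint]
    rw [disjoint_left]
    intro a ha hb
    have h1 := (mem_filter.1 hb).2
    exact h1.2.1 (mem_sdiff.1 ha).1
  have hall : (k.Pb P i).card + (k.Q \ k.Pb P i).card + (k.mFF i).card + (k.cSp P i).card +
      (k.Bk P i).card + (k.Gc P i).card = P.D + 1 := by
    rw [← h.bs.ed.col, ← card_univ]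
    have e : (univ : Finset κ) = k.Pb P i ∪ (k.Q \ k.Pb P i) ∪ k.mFF i ∪ k.cSp P i ∪
        k.Bk P i ∪ k.Gc P i := by
      ext a
      simp only [mem_univ, true_iff, mem_union, mem_sdiff]
      by_cases h1 : a ∈ k.Pb P i
      · exact Or.inl (Or.inl (Or.inl (Or.inl (Or.inl h1))))
      by_cases h2 : a ∈ k.Q
      · exact Or.inl (Or.inl (Or.inl (Or.inl (Or.inr ⟨h2, h1⟩))))
      by_cases h3 : a ∈ k.mFF i
      · exact Or.inl (Or.inl (Or.inl (Or.inr h3)))
      by_cases h4 : a ∈ k.cSp P i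
      · exact Or.inl (Or.inl (Or.inr h4))
      by_cases h5 : a ∈ k.Bk P i
      · exact Or.inl (Or.inr h5)
      · right
        exact mem_filter.2 ⟨mem_univ _, h1, h2, h3, h4, h5⟩
    rw [e]
    have hFP : ∀ a ∈ k.mFF i, a ∉ k.Pb P i ∧ a ∉ k.Q := by
      intro a ha
      obtain ⟨y, hy, rfl⟩ := mem_image.1 ha
      have h6 : k.K y = some i ∧ k.FF y := by simpa using hy
      have h7 := Cnt_F h h6.2 h6.1
      exact ⟨h7.1, h7.2.2.1⟩
    have hB : ∀ a ∈ k.Bk P i, a ∉ k.Pb P i ∧ a ∉ k.Q ∧ a ∉ k.mFF i ∧ a ∉ k.cSp P i := by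
      intro a ha
      have h1 := (mem_filter.1 ha).2
      exact ⟨h1.1, h1.2.1, h1.2.2.1, h1.2.2.2.1⟩
    have hG : ∀ a ∈ k.Gc P i, a ∉ k.Pb P i ∧ a ∉ k.Q ∧ a ∉ k.mFF i ∧ a ∉ k.cSp P i ∧
        a ∉ k.Bk P i := fun a ha => (mem_filter.1 ha).2
    rw [card_union_of_disjoint, card_union_of_disjoint, card_union_of_disjoint,
      card_union_of_disjoint, card_union_of_disjoint]
    · rw [disjoint_left]
      intro a ha hb
      exact (mem_sdiff.1 hb).2 ha
    · rw [disjoint_left]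
      intro a ha hb
      rcases mem_union.1 ha with h1 | h1
      · exact (hFP a hb).1 h1
      · exact (hFP a hb).2 (mem_sdiff.1 h1).1
    · rw [disjoint_left]
      intro a ha hb
      obtain ⟨c1, c2, c3⟩ := Cnt_S h hb
      rcases mem_union.1 ha with h1 | h1
      · rcases mem_union.1 h1 with h1 | h1
        · exact c1 h1
        · exact c2 (mem_sdiff.1 h1).1
      · exact c3 h1
    · rw [disjoint_left]
      intro a ha hb
      obtain ⟨c1, c2, c3, c4⟩ := hB a hb
      rcases mem_union.1 ha with h1 | h1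
      · rcases mem_union.1 h1 with h1 | h1
        · rcases mem_union.1 h1 with h1 | h1
          · exact c1 h1
          · exact c2 (mem_sdiff.1 h1).1
        · exact c3 h1
      · exact c4 h1
    · rw [disjoint_left]
      intro a ha hb
      obtain ⟨c1, c2, c3, c4, c5⟩ := hG a hb
      rcases mem_union.1 ha with h1 | h1
      · rcases mem_union.1 h1 with h1 | h1
        · rcases mem_union.1 h1 with h1 | h1
          · rcases mem_union.1 h1 with h1 | h1
            · exact c1 h1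
            · exact c2 (mem_sdiff.1 h1).1
          · exact c3 h1
        · exact c4 h1
      · exact c5 h1
  omega

end Pool.TCV
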