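import Pool.Agent.Helper60.TCV.StK2
import Pool.Agent.Helper3.TCT.Sub
import Pool.Agent.Helper3.TCM.Ball

/-!
# T10, section 9c: the sublists (local lemma) (helper23)
-/

set_option autoImplicit false

namespace Pool.TCV

open Pool.TC Pool.TCM Pool.TCS Pool.TN Finset
open scoped Classical

/-- numerical facts -/
private theorem Sub10_num {P : Par} (h : Num10 P) :
    0 < Nq3 P * P.D ∧ 0 ≤ P.rho ∧ P.rho ≤ 1 ∧ 0 ≤ P.eps ∧
      4 * (2 * Real.exp (-P.Lam)) * ((((P.D + 2) ^ 8 : ℕ) : ℝ) + 1) ≤ 1 := by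
  have hX0 : (10 : ℝ) ^ 20 ≤ P.X := by exact_mod_cast h.X0
  have hX1 : (1 : ℝ) ≤ P.X := le_trans (by norm_num) hX0
  have hXp : (0 : ℝ) < P.X := by linarith
  have hD1 : (1 : ℝ) ≤ P.D := (one_le_pow₀ hX1).trans h.XD
  have hDp : 0 < P.D := by
    have : (0 : ℝ) < P.D := by linarith
    exact_mod_cast this
  have heta : 0 < P.eta := by
    rw [h.eta]
    positivity
  have hrho : 0 < P.rho := by
    rw [h.rho]
    positivity
  have hB : 0 < P.B := by
    rw [h.B, Nat.ceil_pos]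
    have : (0 : ℝ) < P.D := by linarith
    positivity
  refine ⟨Nat.mul_pos ?_ hDp, hrho.le, ?_, ?_, ?_⟩
  · unfold Nq3
    rw [Nat.ceil_pos]
    have : (0 : ℝ) < P.B := by exact_mod_cast hB
    positivity
  · rw [h.rho, div_le_one (by positivity)]
    exact one_le_pow₀ hX1
  · rw [h.eps]
    positivity
  · have hlt : P.D < 2 ^ (P.X + 1) := by
      rw [h.XL]
      exact Nat.lt_pow_succ_log_self (by norm_num) P.D
    have h2 : P.D + 2 ≤ 2 ^ (P.X + 2) := by
      have h3 : 2 ≤ 2 ^ (P.X + 1) := by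
        calc 2 = 2 ^ 1 := by norm_num
          _ ≤ 2 ^ (P.X + 1) := Nat.pow_le_pow_right (by norm_num) (by omega)
      have h4 : 2 ^ (P.X + 2) = 2 ^ (P.X + 1) + 2 ^ (P.X + 1) := by ring
      omega
    have h3 : (((P.D + 2) ^ 8 : ℕ) : ℝ) ≤ 2 ^ (8 * P.X + 16) := by
      have h4 : (P.D + 2) ^ 8 ≤ (2 ^ (P.X + 2)) ^ 8 := Nat.pow_le_pow_left h2 8
      have h5 : (2 ^ (P.X + 2)) ^ 8 = 2 ^ (8 * P.X + 16) := by
        rw [← pow_mul]
        congr 1
        ring
      rw [h5] at h4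
      exact_mod_cast h4
    have h4 : (1 : ℝ) ≤ 2 ^ (8 * P.X + 16) := one_le_pow₀ (by norm_num)
    have h5 : 4 * (2 : ℝ) * ((((P.D + 2) ^ 8 : ℕ) : ℝ) + 1) ≤ 2 ^ (8 * P.X + 20) := by
      have h6 : (2 : ℝ) ^ (8 * P.X + 20) = 16 * 2 ^ (8 * P.X + 16) := by
        rw [show 8 * P.X + 20 = 4 + (8 * P.X + 16) by ring, pow_add]
        norm_num
      rw [h6]
      linarith
    have h6 : (2 : ℝ) ^ (8 * P.X + 20) ≤ Real.exp P.Lam := by
      have h7 : (2 : ℝ) ≤ Real.exp 1 := by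
        have := Real.add_one_le_exp (1 : ℝ)
        linarith
      calc (2 : ℝ) ^ (8 * P.X + 20) ≤ Real.exp 1 ^ (8 * P.X + 20) :=
            pow_le_pow_left₀ (by norm_num) h7 _
        _ = Real.exp ((8 * P.X + 20 : ℕ) : ℝ) := by
            rw [← Real.exp_nat_mul, mul_one]
        _ ≤ Real.exp P.Lam := by
            apply Real.exp_le_exp.2
            rw [h.Lam]
            push_cast
            have h8 : (28 : ℝ) ≤ P.X := le_trans (by norm_num) hX0
            have h9 : (28 : ℝ) * P.X ≤ P.X ^ 2 := by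
              rw [sq]
              exact mul_le_mul_of_nonneg_right h8 hXp.le
            have h10 : (P.X : ℝ) ^ 2 ≤ P.X ^ 3 := pow_le_pow_right₀ hX1 (by norm_num)
            linarith
    have h7 : Real.exp (-P.Lam) * Real.exp P.Lam = 1 := by
      rw [← Real.exp_add]
      simp
    have h8 : 0 < Real.exp (-P.Lam) := Real.exp_pos _
    calc 4 * (2 * Real.exp (-P.Lam)) * ((((P.D + 2) ^ 8 : ℕ) : ℝ) + 1)
        = Real.exp (-P.Lam) * (4 * (2 : ℝ) * ((((P.D + 2) ^ 8 : ℕ) : ℝ) + 1)) := by ring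
      _ ≤ Real.exp (-P.Lam) * Real.exp P.Lam :=
          mul_le_mul_of_nonneg_left (h5.trans h6) h8.le
      _ = 1 := h7

/-- bridge between different instances -/
private theorem Sub10_br {Ω : Type} {i1 i2 : Fintype Ω} {p q : Ω → Prop} {d1 : DecidablePred p}
    {d2 : DecidablePred q} {b c : ℝ} (hbc : b ≤ c) (h : ∀ ω, p ω → q ω)
    (hq : ((@Finset.filter Ω q d2 (@Finset.univ Ω i2)).card : ℝ) ≤ b * @Fintype.card Ω i2) :
    ((@Finset.filter Ω p d1 (@Finset.univ Ω i1)).card : ℝ) ≤ c * @Fintype.card Ω i1 := by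
  have e : i1 = i2 := Subsingleton.elim _ _
  subst e
  refine le_trans ?_ (hq.trans (mul_le_mul_of_nonneg_right hbc (Nat.cast_nonneg _)))
  rw [Nat.cast_le]
  exact card_le_card fun ω hω => Pool.TCT.sub_mf.2 ⟨mem_univ _, h ω (Pool.TCT.sub_mf.1 hω).2⟩

private theorem Sub10_ep {Ω : Type} {i1 : Fintype Ω} {p : Ω → Prop} {d1 : DecidablePred p}
    {c : ℝ} (hc : 0 ≤ c) (h : ∀ ω, ¬ p ω) :
    ((@Finset.filter Ω p d1 (@Finset.univ Ω i1)).card : ℝ) ≤ c * @Fintype.card Ω i1 := by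
  rw [Pool.TCT.sub_fe fun ω _ => h ω, Nat.cast_zero]
  exact mul_nonneg hc (Nat.cast_nonneg _)

section

variable {V κ : Type} [Fintype V] [Fintype κ]

/-- the indices of the events -/
private abbrev Sub10_J (V κ : Type) : Type := (V × κ) ⊕ (V ⊕ (V ⊕ (V × κ)))

/-- the coordinates of the events -/
private noncomputable def Sub10_S (t : Td V κ) : Sub10_J V κ → Finset (V × κ)
  | Sum.inl p => (ball t.G 3 p.1).image fun x => (x, p.2)
  | Sum.inr (Sum.inl w) => univ.image fun a => (w, a)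
  | Sum.inr (Sum.inr (Sum.inl v)) => univ.image fun a => (t.E.N a v, a)
  | Sum.inr (Sum.inr (Sum.inr p)) => (ball t.G 3 p.1).image fun x => (x, p.2)

/-- the set of the rows of the event of the colour `a` -/
private noncomputable def Sub10_R (t : Td V κ) (al : V → κ → Prop) (ki : V → ℕ) {M : ℕ}
    (ω : V × κ → Fin M) (i : V) (a : κ) : Finset V :=
  univ.filter (fun w => t.K w = some i ∧ al w a ∧ (ω (w, a)).val < ki i ∧
      ∀ x j, t.G.Adj w x → t.K x = some j → j ≠ i → al x a → ki j ≤ (ω (x, a)).val)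

private noncomputable def Sub10_C (al : V → κ → Prop) (ki : V → ℕ) {M : ℕ}
    (ω : V × κ → Fin M) (i w : V) : Finset κ :=
  univ.filter (fun a => al w a ∧ (ω (w, a)).val < ki i)

private noncomputable def Sub10_L (t : Td V κ) (al : V → κ → Prop) (ki : V → ℕ) {M : ℕ}
    (ω : V × κ → Fin M) (i v : V) : Finset κ :=
  univ.filter (fun a => t.E.N a v ≠ v ∧ al (t.E.N a v) a ∧ (ω (t.E.N a v, a)).val < ki i)

private noncomputable def Sub10_T (t : Td V κ) (al : V → κ → Prop) (ki : V → ℕ) {M : ℕ}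
    (ω : V × κ → Fin M) (i : V) (b : κ) : Finset V :=
  univ.filter (fun x => al x b ∧ ∃ j, t.K x = some j ∧ j ≠ i ∧ (ω (x, b)).val < ki j)

/-- the events -/
private def Sub10_Ev (P : Par) (t : Td V κ) (al : V → κ → Prop) (Gs : V → Finset κ) (ki : V → ℕ)
    {M : ℕ} : Sub10_J V κ → (V × κ → Fin M) → Prop
  | Sum.inl p, ω => t.K p.1 = some p.1 ∧ p.2 ∈ Gs p.1 ∧ (Sub10_R t al ki ω p.1 p.2).card < lY P
  | Sum.inr (Sum.inl w), ω => ∃ i, t.K w = some i ∧
      (1 - P.rho / 2) * lY P < ((Sub10_C al ki ω i w).card : ℝ)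
  | Sum.inr (Sum.inr (Sum.inl v)), ω => ∃ i, t.K v = some i ∧
      (1 - P.rho / 2) * lY P < ((Sub10_L t al ki ω i v).card : ℝ)
  | Sum.inr (Sum.inr (Sum.inr p)), ω => P.eps * P.D <
      ((∑ x ∈ Sub10_T t al ki ω p.1 p.2, t.dk p.1 x : ℕ) : ℝ)

/-- the events depend on their coordinates only -/
private theorem Sub10_dep (P : Par) (t : Td V κ) (al : V → κ → Prop) (Gs : V → Finset κ)
    (ki : V → ℕ) {M : ℕ} (hgr : GrP P t.toGd) (j : Sub10_J V κ) (ω ω' : V × κ → Fin M)
    (h : ∀ p ∈ Sub10_S t j, ω p = ω' p) (hE : Sub10_Ev P t al Gs ki j ω) :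
    Sub10_Ev P t al Gs ki j ω' := by
  rcases j with ⟨i, a⟩ | w | v | ⟨i, b⟩
  · obtain ⟨h1, h2, h3⟩ := hE
    refine ⟨h1, h2, ?_⟩
    have e : Sub10_R t al ki ω' i a = Sub10_R t al ki ω i a := by
      unfold Sub10_R
      apply filter_congr
      intro w _
      by_cases hw : t.K w = some i
      · have hb2 : w ∈ ball t.G 2 i := hgr.loc i w hw
        have e1 : ω (w, a) = ω' (w, a) :=
          h _ (mem_image_of_mem (fun x => (x, a)) (ball_mono (by norm_num) hb2))
        have e2 : ∀ x, t.G.Adj w x → ω (x, a) = ω' (x, a) := fun x hx =>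
          h _ (mem_image_of_mem (fun x => (x, a)) (ball_trans hb2 (adj_mem_ball hx)))
        rw [e1]
        constructor
        · rintro ⟨h4, h5, h6, h7⟩
          refine ⟨h4, h5, h6, fun x j hx hj hji hal => ?_⟩
          rw [e2 x hx]
          exact h7 x j hx hj hji hal
        · rintro ⟨h4, h5, h6, h7⟩
          refine ⟨h4, h5, h6, fun x j hx hj hji hal => ?_⟩
          rw [← e2 x hx]
          exact h7 x j hx hj hji hal
      · constructor
        · exact fun h4 => absurd h4.1 hw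
        · exact fun h4 => absurd h4.1 hw
    show (Sub10_R t al ki ω' i a).card < lY P
    rw [e]
    exact h3
  · obtain ⟨i, h1, h2⟩ := hE
    refine ⟨i, h1, ?_⟩
    have e : Sub10_C al ki ω' i w = Sub10_C al ki ω i w := by
      unfold Sub10_C
      apply filter_congr
      intro a _
      rw [h _ (mem_image_of_mem (fun a => (w, a)) (mem_univ a))]
    rw [e]
    exact h2
  · obtain ⟨i, h1, h2⟩ := hE
    refine ⟨i, h1, ?_⟩
    have e : Sub10_L t al ki ω' i v = Sub10_L t al ki ω i v := by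
      unfold Sub10_L
      apply filter_congr
      intro a _
      rw [h _ (mem_image_of_mem (fun a => (t.E.N a v, a)) (mem_univ a))]
    rw [e]
    exact h2
  · have hE' : P.eps * P.D < ((∑ x ∈ Sub10_T t al ki ω i b, t.dk i x : ℕ) : ℝ) := hE
    show P.eps * P.D < ((∑ x ∈ Sub10_T t al ki ω' i b, t.dk i x : ℕ) : ℝ)
    have e : ∑ x ∈ Sub10_T t al ki ω' i b, t.dk i x = ∑ x ∈ Sub10_T t al ki ω i b, t.dk i x := by
      unfold Sub10_T
      rw [sum_filter, sum_filter]
      refine sum_congr rfl fun x _ => ?_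
      by_cases hx : t.dk i x = 0
      · rw [hx]
        split_ifs <;> rfl
      · have h1 : 0 < t.dk i x := Nat.pos_of_ne_zero hx
        unfold Gd.dk at h1
        obtain ⟨v, hv⟩ := card_pos.1 h1
        rw [mem_filter] at hv
        have h2 : t.G.Adj x v := mem_nb.1 hv.1
        have h3 : v ∈ ball t.G 2 i := hgr.loc i v hv.2
        have h4 : x ∈ ball t.G 3 i := ball_trans h3 (adj_mem_ball h2.symm)
        rw [h _ (mem_image_of_mem (fun x => (x, b)) h4)]
    rw [e]
    exact hE'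

private theorem Sub10_Scard (P : Par) (t : Td V κ) (hgr : GrP P t.toGd) (hed : EdP P t.toEd)
    (j : Sub10_J V κ) : (Sub10_S t j).card ≤ (P.D + 1) ^ 3 := by
  have hdeg : ∀ u, (nb t.G u).card ≤ P.D := fun u => (hgr.reg u).le
  have hκ : (univ : Finset κ).card ≤ (P.D + 1) ^ 3 := by
    rw [card_univ, hed.col]
    exact Nat.le_self_pow (by norm_num) _
  rcases j with ⟨i, a⟩ | w | v | ⟨i, b⟩
  · exact card_image_le.trans (card_ball hdeg 3 i)
  · exact card_image_le.trans hκ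
  · exact card_image_le.trans hκ
  · exact card_image_le.trans (card_ball hdeg 3 i)

private theorem Sub10_deg (P : Par) (t : Td V κ) (hgr : GrP P t.toGd) (p : V × κ) :
    (univ.filter (fun j => p ∈ Sub10_S t j)).card ≤ 2 * (P.D + 1) ^ 3 + 2 := by
  have hdeg : ∀ u, (nb t.G u).card ≤ P.D := fun u => (hgr.reg u).le
  obtain ⟨x, a⟩ := p
  have h1 : (univ.filter (fun j => (x, a) ∈ Sub10_S t j)) ⊆
      (((ball t.G 3 x).image (fun i => (Sum.inl (i, a) : Sub10_J V κ))) ∪
        ((ball t.G 3 x).image (fun i => (Sum.inr (Sum.inr (Sum.inr (i, a))) : Sub10_J V κ)))) ∪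
      ({Sum.inr (Sum.inl x)} ∪ {Sum.inr (Sum.inr (Sum.inl (t.E.N a x)))}) := by
    intro j hj
    have hj' := (Pool.TCT.sub_mf.1 hj).2
    rcases j with ⟨i, b⟩ | w | v | ⟨i, b⟩
    · obtain ⟨y, hy, h2⟩ := mem_image.1 (show (x, a) ∈ (ball t.G 3 i).image fun x => (x, b) from hj')
      obtain ⟨rfl, rfl⟩ := Prod.mk.inj h2
      exact mem_union_left _ (mem_union_left _ (mem_image.2 ⟨i, ball_symm hy, rfl⟩))
    · obtain ⟨y, hy, h2⟩ := mem_image.1 (show (x, a) ∈ univ.image fun a => (w, a) from hj')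
      obtain ⟨rfl, rfl⟩ := Prod.mk.inj h2
      exact mem_union_right _ (mem_union_left _ (mem_singleton_self _))
    · obtain ⟨y, hy, h2⟩ := mem_image.1 (show (x, a) ∈ univ.image fun a => (t.E.N a v, a) from hj')
      obtain ⟨h3, rfl⟩ := Prod.mk.inj h2
      refine mem_union_right _ (mem_union_right _ (mem_singleton.2 ?_))
      rw [← h3, t.E.inv]
    · obtain ⟨y, hy, h2⟩ := mem_image.1 (show (x, a) ∈ (ball t.G 3 i).image fun x => (x, b) from hj')
      obtain ⟨rfl, rfl⟩ := Prod.mk.inj h2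
      exact mem_union_left _ (mem_union_right _ (mem_image.2 ⟨i, ball_symm hy, rfl⟩))
  have h2 := card_ball hdeg 3 x
  refine (card_le_card h1).trans ((card_union_le _ _).trans ?_)
  have h3 := (card_union_le ((ball t.G 3 x).image (fun i => (Sum.inl (i, a) : Sub10_J V κ)))
    ((ball t.G 3 x).image (fun i => (Sum.inr (Sum.inr (Sum.inr (i, a))) : Sub10_J V κ)))).trans
    (Nat.add_le_add card_image_le card_image_le)
  have h4 := card_union_le ({Sum.inr (Sum.inl x)} : Finset (Sub10_J V κ))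
    {Sum.inr (Sum.inr (Sum.inl (t.E.N a x)))}
  rw [card_singleton, card_singleton] at h4
  omega

end

/-- The sublists. -/
theorem thm_Sub10 (hLLL : Pool.TCS.St_LLL0) (hSu1 : St_Su1) (hSu2 : St_Su2) : St_Sub10 := by
  intro P V κ _ _ t al Gs ac hNum hBse hal hcol hac hlow hrow hclm
  obtain ⟨hM, hrho0, hrho1, heps, hexp⟩ := Sub10_num hNum
  obtain ⟨ki, hki⟩ : ∃ ki : V → ℕ, ki = fun i => ⌊2 / 5 * (P.D : ℝ) ^ 2 / ac i⌋₊ := ⟨_, rfl⟩
  have hki' : ∀ i, t.K i = some i → ki i = ⌊2 / 5 * (P.D : ℝ) ^ 2 / ac i⌋₊ := by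
    intro i _
    rw [hki]
  have hne : Nonempty (Fin (Nq3 P * P.D)) := ⟨⟨0, hM⟩⟩
  obtain ⟨hu1, hu2, hu3⟩ := hSu2 P V κ t al ac ki hNum hBse hal hac hki'
  have hexp0 : 0 < Real.exp (-P.Lam) := Real.exp_pos _
  have hinv : ∀ a v, t.E.N a (t.E.N a v) = v := fun a v => t.E.inv a v
  obtain ⟨ω, hω⟩ := hLLL (V × κ) (Fin (Nq3 P * P.D)) (Sub10_J V κ)
    (Sub10_Ev P t al Gs ki) (Sub10_S t) (2 * Real.exp (-P.Lam)) ((P.D + 2) ^ 8)
    (fun j ω ω' h hE => Sub10_dep P t al Gs ki hBse.gr j ω ω' h hE)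
    (by
      intro j
      have hp0 : 0 ≤ 2 * Real.exp (-P.Lam) := by positivity
      have hp1 : Real.exp (-P.Lam) ≤ 2 * Real.exp (-P.Lam) := by linarith
      rcases j with ⟨i, a⟩ | w | v | ⟨i, b⟩
      · by_cases h : t.K i = some i ∧ a ∈ Gs i
        · refine Sub10_br le_rfl (fun ω hω => ?_)
            (hSu1 P V κ t al ac ki hNum hBse hal hac hki' i a h.1 (hlow i h.1 a h.2))
          refine lt_of_le_of_lt ?_ hω.2.2
          exact card_le_card fun x hx => Pool.TCT.sub_mf.2 (Pool.TCT.sub_mf.1 hx)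
        · exact Sub10_ep hp0 fun ω hω => h ⟨hω.1, hω.2.1⟩
      · rcases hw : t.K w with _ | i
        · refine Sub10_ep hp0 ?_
          rintro ω ⟨i, h1, -⟩
          rw [hw] at h1
          exact absurd h1 (by simp)
        · refine Sub10_br hp1 (fun ω hω => ?_) (hu1 i w hw (hrow i w hw))
          obtain ⟨i', h1, h2⟩ := hω
          have h3 : i' = i := by
            rw [hw] at h1
            exact (Option.some.inj h1).symm
          subst h3
          refine lt_of_lt_of_le h2 ?_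
          rw [Nat.cast_le]
          exact card_le_card fun x hx => Pool.TCT.sub_mf.2 (Pool.TCT.sub_mf.1 hx)
      · rcases hv : t.K v with _ | i
        · refine Sub10_ep hp0 ?_
          rintro ω ⟨i, h1, -⟩
          rw [hv] at h1
          exact absurd h1 (by simp)
        · refine Sub10_br hp1 (fun ω hω => ?_) (hu2 i v hv (fun a ha => ?_) (hclm i v hv))
          · obtain ⟨i', h1, h2⟩ := hω
            have h3 : i' = i := by
              rw [hv] at h1
              exact (Option.some.inj h1).symm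
            subst h3
            refine lt_of_lt_of_le h2 ?_
            rw [Nat.cast_le]
            exact card_le_card fun x hx => Pool.TCT.sub_mf.2 (Pool.TCT.sub_mf.1 hx)
          · have h1 := hcol _ _ ha
            rw [hinv, hv] at h1
            exact h1.symm
      · refine Sub10_br hp1 (fun ω hω => ?_) (hu3 i b)
        have h1 : P.eps * P.D < ((∑ x ∈ Sub10_T t al ki ω i b, t.dk i x : ℕ) : ℝ) := hω
        refine lt_of_lt_of_le h1 ?_
        rw [Nat.cast_le]
        exact sum_le_sum_of_subset fun x hx => Pool.TCT.sub_mf.2 (Pool.TCT.sub_mf.1 hx))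
    (by
      intro j
      refine le_trans ?_ (le_trans (Pool.TCT.sub_dep (Sub10_S t) ((P.D + 1) ^ 3)
        (2 * (P.D + 1) ^ 3 + 2) (Sub10_Scard P t hBse.gr hBse.ed)
          (fun p => (card_le_card fun x hx => Pool.TCT.sub_mf.2 (Pool.TCT.sub_mf.1 hx)).trans
            (Sub10_deg P t hBse.gr p)) j) ?_)
      · exact card_le_card fun x hx => Pool.TCT.sub_mf.2 (Pool.TCT.sub_mf.1 hx)
      · have e1 : (P.D + 1) ^ 3 ≤ (P.D + 2) ^ 3 := Nat.pow_le_pow_left (by omega) 3
        have e2 : 2 * (P.D + 1) ^ 3 + 2 ≤ (P.D + 2) ^ 4 := by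
          have e3 : (P.D + 1) ^ 3 + 1 ≤ (P.D + 2) ^ 3 := by
            have : (P.D + 1) ^ 3 < (P.D + 2) ^ 3 := Nat.pow_lt_pow_left (by omega) (by norm_num)
            omega
          calc 2 * (P.D + 1) ^ 3 + 2 = 2 * ((P.D + 1) ^ 3 + 1) := by ring
            _ ≤ (P.D + 2) * (P.D + 2) ^ 3 := Nat.mul_le_mul (by omega) e3
            _ = (P.D + 2) ^ 4 := by ring
        calc (P.D + 1) ^ 3 * (2 * (P.D + 1) ^ 3 + 2) ≤ (P.D + 2) ^ 3 * (P.D + 2) ^ 4 :=
              Nat.mul_le_mul e1 e2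
          _ = (P.D + 2) ^ 7 := by ring
          _ ≤ (P.D + 2) ^ 8 := Nat.pow_le_pow_right (by omega) (by norm_num))
    (by positivity) hexp
  have hω1 : ∀ i, t.K i = some i → ∀ a ∈ Gs i, lY P ≤ (Sub10_R t al ki ω i a).card := by
    intro i hi a ha
    by_contra hcon
    exact hω (Sum.inl (i, a)) ⟨hi, ha, not_le.1 hcon⟩
  have hω2 : ∀ w i, t.K w = some i →
      ((Sub10_C al ki ω i w).card : ℝ) ≤ (1 - P.rho / 2) * lY P := by
    intro w i hi
    by_contra hcon
    exact hω (Sum.inr (Sum.inl w)) ⟨i, hi, not_le.1 hcon⟩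
  have hω3 : ∀ v i, t.K v = some i →
      ((Sub10_L t al ki ω i v).card : ℝ) ≤ (1 - P.rho / 2) * lY P := by
    intro v i hi
    by_contra hcon
    exact hω (Sum.inr (Sum.inr (Sum.inl v))) ⟨i, hi, not_le.1 hcon⟩
  have hω4 : ∀ i b, ((∑ x ∈ Sub10_T t al ki ω i b, t.dk i x : ℕ) : ℝ) ≤ P.eps * P.D := by
    intro i b
    by_contra hcon
    exact hω (Sum.inr (Sum.inr (Sum.inr (i, b)))) (not_le.1 hcon)
  have hlY : 0 ≤ (1 - P.rho / 2) * (lY P : ℝ) := mul_nonneg (by linarith) (Nat.cast_nonneg _)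
  refine ⟨fun w a => al w a ∧ (∃ i, t.K w = some i ∧ (ω (w, a)).val < ki i) ∧
    ∀ x j, t.G.Adj w x → t.K x = some j → some j ≠ t.K w → al x a → ki j ≤ (ω (x, a)).val,
    fun w a h => h.1, ?_, ?_, ?_, ?_, ?_⟩
  · rintro w x a ⟨-, -, h1⟩ ⟨h2, ⟨j, h3, h4⟩, -⟩ hwx
    by_contra hne
    have h5 := h1 x j hwx h3 (fun h => hne (by rw [h3, h])) h2
    omega
  · intro i hi a ha
    refine (hω1 i hi a ha).trans (card_le_card ?_)
    intro w hw
    obtain ⟨-, h1, h2, h3, h4⟩ := Pool.TCT.sub_mf.1 hw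
    refine Pool.TCT.sub_mf.2 ⟨mem_univ _, h1, h2, ⟨i, h1, h3⟩, fun x j hx hj hne hx2 => ?_⟩
    refine h4 x j hx hj (fun h => hne ?_) hx2
    rw [h1, h]
  · intro w
    rcases hw : t.K w with _ | i
    · rw [Pool.TCT.sub_fe]
      · rw [Nat.cast_zero]
        exact hlY
      · rintro a - ⟨-, ⟨i, h1, -⟩, -⟩
        rw [hw] at h1
        exact absurd h1 (by simp)
    · refine le_trans ?_ (hω2 w i hw)
      rw [Nat.cast_le]
      apply card_le_card
      intro a ha
      obtain ⟨-, h1, ⟨i', h2, h3⟩, -⟩ := Pool.TCT.sub_mf.1 ha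
      have h4 : i' = i := by
        rw [hw] at h2
        exact (Option.some.inj h2).symm
      subst h4
      exact Pool.TCT.sub_mf.2 ⟨mem_univ _, h1, h3⟩
  · intro v
    have hK : ∀ a i, al (t.E.N a v) a → t.K (t.E.N a v) = some i → t.K v = some i := by
      intro a i h1 h2
      have h3 := hcol _ _ h1
      rw [hinv, h2] at h3
      exact h3
    rcases hv : t.K v with _ | i
    · rw [Pool.TCT.sub_fe]
      · rw [Nat.cast_zero]
        exact hlY
      · rintro a - ⟨-, h1, ⟨i, h2, -⟩, -⟩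
        have h3 := hK a i h1 h2
        rw [hv] at h3
        exact absurd h3 (by simp)
    · refine le_trans ?_ (hω3 v i hv)
      rw [Nat.cast_le]
      apply card_le_card
      intro a ha
      obtain ⟨-, h0, h1, ⟨i', h2, h3⟩, -⟩ := Pool.TCT.sub_mf.1 ha
      have h4 : i' = i := by
        have h5 := hK a i' h1 h2
        rw [hv] at h5
        exact (Option.some.inj h5).symm
      subst h4
      exact Pool.TCT.sub_mf.2 ⟨mem_univ _, h0, h1, h3⟩
  · intro i b
    refine le_trans ?_ (hω4 i b)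
    rw [Nat.cast_le]
    refine sum_le_sum_of_subset fun x hx => ?_
    obtain ⟨-, ⟨h1, ⟨j, h2, h3⟩, -⟩, h4⟩ := Pool.TCT.sub_mf.1 hx
    refine Pool.TCT.sub_mf.2 ⟨mem_univ _, h1, j, h2, fun h => h4 ?_, h3⟩
    rw [h2, h]

end Pool.TCV
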