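import Pool.Agent.Helper3.TCS.LLL0
import Pool.Agent.Helper60.TCV.AllX
import Pool.Agent.Helper3.TCS.Nib
import Pool.Agent.Helper3.TCT.BernL
import Pool.Agent.Helper3.TCT.Pai
import Pool.Agent.Helper3.TCT.Ext
import Pool.Agent.Helper60.TCV.Mom
import Pool.Agent.Helper60.TCV.Use
import Pool.Agent.Helper60.TCV.SpO
import Pool.Agent.Helper60.TCV.SpC
import Pool.Agent.Helper60.TCV.SpT
import Pool.Agent.Helper60.TCV.SpN
import Pool.Agent.Helper60.TCV.Sp10
import Pool.Agent.Helper60.TCV.CbP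
import Pool.Agent.Helper60.TCV.Cnt
import Pool.Agent.Helper60.TCV.Few
import Pool.Agent.Helper60.TCV.AlB
import Pool.Agent.Helper60.TCV.ThG
import Pool.Agent.Helper60.TCV.Su1
import Pool.Agent.Helper60.TCV.Su2
import Pool.Agent.Helper60.TCV.Sub10
import Pool.Agent.Helper60.TCV.GdN
import Pool.Agent.Helper60.TCV.Good10
import Pool.Agent.Helper60.TCV.Ro
import Pool.Agent.Helper60.TCV.HAs
import Pool.Agent.Helper60.TCV.HBs
import Pool.Agent.Helper60.TCV.HCs
import Pool.Agent.Helper60.TCV.Bd1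
import Pool.Agent.Helper60.TCV.Bd2
import Pool.Agent.Helper60.TCV.Pr10
import Pool.Agent.Helper60.TCV.Cn10
import Pool.Agent.Helper60.TCV.Tr10
import Pool.Agent.Helper60.TCV.Fi10
import Pool.Agent.Helper60.TCV.K10

/-!
# T10, section 9: all parts together
-/

set_option autoImplicit false

namespace Pool.TCV

theorem all_Sp10 : St_Sp10 := thm_Sp10 all_Samp (thm_SpO thm_Use) thm_SpC thm_SpT thm_SpN

theorem all_Few : St_Few := thm_Few thm_Use

theorem all_Ro : St_Ro :=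
  thm_Ro (thm_AlB all_Few)
    (thm_Sub10 Pool.TCS.thm_LLL0 (thm_Su1 (thm_ThG Pool.TCT.thm_BernL))
      (thm_Su2 Pool.TCT.thm_BernL))
    (thm_Good10 Pool.TCS.thm_IterAll Pool.TCT.thm_Ext thm_GdN)

theorem all_K10 : St_K10 :=
  thm_K10 all_Sp10 all_Ro (thm_HAs thm_CbP) (thm_HBs thm_Cnt all_Few) (thm_HCs all_Few)
    (thm_Pr10 Pool.TCT.thm_Pai (thm_Bd1 thm_Mom) (thm_Bd2 thm_Mom)) (thm_Tr10 thm_Cn10) thm_Fi10

end Pool.TCV
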